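import Pool.Agent.Helper71.OW.GalDefs

/-!
OW-22. The elements of the tensor Lie algebra of a group of similitudes are infinitesimal similitudes. Proof: copy of
`IsGal.LG_sim` of `Pool/Agent/Helper56/EL/Lie.lean`, case `m ≠ 0` (the tensor `Q⁻¹ ⊗ Q` is fixed by `Γ`), with `IsGalO` in
place of `IsGal`: the multiplier is `z` in place of `z ^ 2`, and `Q` is any invertible matrix (here `Qi` is the inverse; in the
original `Q` is symmetric; `Qᵀ = ± Q` by `H.Q_symm` if it is needed, better not to use it).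
-/

set_option linter.unusedSectionVars false

open Matrix

namespace MH

variable {n : Type*} [Fintype n] [DecidableEq n]
variable {w : ℤ} {Q : Matrix n n ℚ} {S : Finset ℤ} {P R : ℤ → Matrix n n ℂ} {Γ : Subgroup (GL n ℂ)}

/-! ### tensors with two slots and products -/

/-- product of tensors -/
private def pt_h4 {a b : ℕ} (u : (Fin a → n) → ℂ) (v : (Fin b → n) → ℂ) : (Fin a ⊕ Fin b → n) → ℂ :=
  fun i => u (fun k => i (Sum.inl k)) * v (fun k => i (Sum.inr k))

private lemma act_pt_h4 {a b : ℕ} (u : (Fin a → n) → ℂ) (v : (Fin b → n) → ℂ)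
    (A : Fin a ⊕ Fin b → Matrix n n ℂ) (i : Fin a ⊕ Fin b → n) :
    actF A (pt_h4 u v) i =
      actF (fun k => A (Sum.inl k)) u (fun k => i (Sum.inl k)) *
        actF (fun k => A (Sum.inr k)) v (fun k => i (Sum.inr k)) := by
  unfold actF
  rw [Finset.sum_mul_sum, ← Fintype.sum_prod_type']
  refine Fintype.sum_equiv (Equiv.sumArrowEquivProdArrow (Fin a) (Fin b) n) _ _ fun j => ?_
  rw [Fintype.prod_sum_type]
  simp only [pt_h4, Equiv.sumArrowEquivProdArrow, Equiv.coe_fn_mk, Function.comp_def]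
  ring

private lemma dact_pt_h4 {a b : ℕ} (u : (Fin a → n) → ℂ) (v : (Fin b → n) → ℂ)
    (A : Fin a ⊕ Fin b → Matrix n n ℂ) (i : Fin a ⊕ Fin b → n) :
    dact A (pt_h4 u v) i =
      dact (fun k => A (Sum.inl k)) u (fun k => i (Sum.inl k)) * v (fun k => i (Sum.inr k)) +
        u (fun k => i (Sum.inl k)) * dact (fun k => A (Sum.inr k)) v (fun k => i (Sum.inr k)) := by
  unfold dact
  simp only [Finset.sum_apply, Fintype.sum_sum_type, act_pt_h4, Finset.sum_mul, Finset.mul_sum]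
  congr 1
  · refine Finset.sum_congr rfl fun k _ => ?_
    congr 1
    · congr 1
      funext l
      by_cases h : l = k
      · subst h
        simp
      · rw [Function.update_of_ne h, Function.update_of_ne (by simpa using h)]
    · have e1 : (fun l => Function.update (fun _ => (1 : Matrix n n ℂ)) (Sum.inl k : Fin a ⊕ Fin b)
          (A (Sum.inl k)) (Sum.inr l)) = fun _ => 1 := by
        funext l
        rw [Function.update_of_ne (by simp)]
      rw [e1, actF_one]
  · refine Finset.sum_congr rfl fun k _ => ?_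
    congr 1
    · have e1 : (fun l => Function.update (fun _ => (1 : Matrix n n ℂ)) (Sum.inr k : Fin a ⊕ Fin b)
          (A (Sum.inr k)) (Sum.inl l)) = fun _ => 1 := by
        funext l
        rw [Function.update_of_ne (by simp)]
      rw [e1, actF_one]
    · congr 1
      funext l
      by_cases h : l = k
      · subst h
        simp
      · rw [Function.update_of_ne h, Function.update_of_ne (by simpa using h)]

/-- the tensor of a matrix -/
private def q2_h4 (M : Matrix n n ℂ) : (Fin 2 → n) → ℂ := fun j => M (j 0) (j 1)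

private lemma act_q2_h4 (A : Fin 2 → Matrix n n ℂ) (M : Matrix n n ℂ) (i : Fin 2 → n) :
    actF A (q2_h4 M) i = (A 0 * M * (A 1)ᵀ) (i 0) (i 1) := by
  unfold actF q2_h4
  rw [← Equiv.sum_comp (finTwoArrowEquiv n).symm, Fintype.sum_prod_type]
  simp only [Matrix.mul_apply, Finset.sum_mul, Matrix.transpose_apply, finTwoArrowEquiv_symm_apply,
    Matrix.cons_val_zero, Matrix.cons_val_one, Fin.prod_univ_two]
  rw [Finset.sum_comm]
  refine Finset.sum_congr rfl fun x _ => Finset.sum_congr rfl fun y _ => ?_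
  ring

private lemma dact_q2_h4 (A : Fin 2 → Matrix n n ℂ) (M : Matrix n n ℂ) (i : Fin 2 → n) :
    dact A (q2_h4 M) i = (A 0 * M + M * (A 1)ᵀ) (i 0) (i 1) := by
  unfold dact
  rw [Fin.sum_univ_two, Pi.add_apply, act_q2_h4, act_q2_h4, Matrix.add_apply]
  simp

private lemma tate_of_h4 {a b : ℕ} {t : (Fin a ⊕ Fin b → n) → ℂ}
    (h : ∀ g ∈ Γ, actF (slot a b (g : Matrix n n ℂ) ((g⁻¹ : GL n ℂ) : Matrix n n ℂ)) t = t) :
    IsTateTensor Γ a b t := by
  refine ⟨Γ, le_rfl, ?_, h⟩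
  rw [Subgroup.relIndex_self]
  exact one_ne_zero

theorem IsGalO.LG_sim (H : IsHW w Q S P) (G : IsGalO Q S P Γ R) {X : Matrix n n ℂ} (hX : X ∈ LG Γ) :
    ∃ c : ℂ, Xᵀ * toC Q + toC Q * X = c • toC Q := by
  obtain ⟨_, _, Qi, _, _, hQ1, hQ2, _⟩ := H.exists_basis
  have hgg : ∀ g : GL n ℂ, (g : Matrix n n ℂ) * ((g⁻¹ : GL n ℂ) : Matrix n n ℂ) = 1 := by
    intro g
    rw [← Units.val_mul, mul_inv_cancel, Units.val_one]
  have hginv : ∀ g ∈ Γ, ∃ z : ℂ,
      toC Q = z • ((((g⁻¹ : GL n ℂ) : Matrix n n ℂ))ᵀ * toC Q * ((g⁻¹ : GL n ℂ) : Matrix n n ℂ)) ∧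
      (g : Matrix n n ℂ) * Qi * (g : Matrix n n ℂ)ᵀ = z • Qi := by
    intro g hg
    obtain ⟨z, h1⟩ := G.sim g hg
    set g' := ((g⁻¹ : GL n ℂ) : Matrix n n ℂ) with hg'
    have h2 : (g : Matrix n n ℂ) * g' = 1 := hgg g
    have h3 : g'ᵀ * (g : Matrix n n ℂ)ᵀ = 1 := by rw [← Matrix.transpose_mul, h2, Matrix.transpose_one]
    refine ⟨z, ?_, ?_⟩
    · calc toC Q = (g'ᵀ * (g : Matrix n n ℂ)ᵀ) * toC Q * ((g : Matrix n n ℂ) * g') := by
            rw [h2, h3, one_mul, mul_one]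
        _ = g'ᵀ * ((g : Matrix n n ℂ)ᵀ * toC Q * (g : Matrix n n ℂ)) * g' := by simp only [mul_assoc]
        _ = z • (g'ᵀ * toC Q * g') := by rw [h1, mul_smul_comm, smul_mul_assoc]
    · have h4 : (g : Matrix n n ℂ) = z • (Qi * g'ᵀ * toC Q) := by
        calc (g : Matrix n n ℂ) = (Qi * toC Q) * (g : Matrix n n ℂ) := by rw [hQ2, one_mul]
          _ = Qi * (g'ᵀ * (g : Matrix n n ℂ)ᵀ) * (toC Q * (g : Matrix n n ℂ)) := by
              rw [h3, mul_one, mul_assoc]
          _ = Qi * g'ᵀ * ((g : Matrix n n ℂ)ᵀ * toC Q * (g : Matrix n n ℂ)) := by simp only [mul_assoc]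
          _ = z • (Qi * g'ᵀ * toC Q) := by rw [h1, mul_smul_comm]
      calc (g : Matrix n n ℂ) * Qi * (g : Matrix n n ℂ)ᵀ =
          z • (Qi * g'ᵀ * toC Q * Qi * (g : Matrix n n ℂ)ᵀ) := by
            conv_lhs => rw [mul_assoc]; arg 1; rw [h4]
            rw [smul_mul_assoc]
            simp only [mul_assoc]
        _ = z • (Qi * (g'ᵀ * (g : Matrix n n ℂ)ᵀ)) := by
            congr 1
            rw [mul_assoc (Qi * g'ᵀ), hQ1, mul_one, mul_assoc]
        _ = z • Qi := by rw [h3, mul_one]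
  rcases isEmpty_or_nonempty n with hn | hn
  · exact ⟨0, by ext i; exact hn.elim i⟩
  obtain ⟨x0, y0, hxy⟩ : ∃ x y, Qi x y ≠ 0 := by
    by_contra! hcon
    have h0 : Qi = 0 := by
      ext x y
      exact hcon x y
    rw [h0, mul_zero] at hQ1
    obtain ⟨x⟩ := hn
    have := congrFun (congrFun hQ1 x) x
    simp at this
  set t : (Fin 2 ⊕ Fin 2 → n) → ℂ := pt_h4 (q2_h4 Qi) (q2_h4 (toC Q)) with ht
  have hfix : IsTateTensor Γ 2 2 t := by
    apply tate_of_h4
    intro g hg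
    obtain ⟨z, h1, h1'⟩ := hginv g hg
    funext i
    rw [ht, act_pt_h4, act_q2_h4, act_q2_h4]
    simp only [slot, Sum.elim_inr, Sum.elim_inl, Matrix.transpose_transpose]
    rw [h1']
    have h2 := congrFun (congrFun h1 (i (Sum.inr 0))) (i (Sum.inr 1))
    simp only [Matrix.smul_apply, smul_eq_mul] at h2 ⊢
    unfold pt_h4 q2_h4
    rw [h2]
    ring
  have h2 := hX 2 2 t hfix
  rw [dL_apply] at h2
  refine ⟨(X * Qi + Qi * Xᵀ) x0 y0 / Qi x0 y0, ?_⟩
  ext x y
  have h3 := congrFun h2 (Sum.elim ![x0, y0] ![x, y])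
  rw [ht, dact_pt_h4, dact_q2_h4, dact_q2_h4] at h3
  simp only [lslot, Sum.elim_inr, Sum.elim_inl, Matrix.cons_val_zero, Matrix.cons_val_one, Matrix.transpose_neg,
    Matrix.transpose_transpose, Pi.zero_apply, q2_h4] at h3
  rw [neg_mul, mul_neg, ← neg_add, Matrix.neg_apply] at h3
  rw [Matrix.smul_apply, smul_eq_mul, div_mul_eq_mul_div, eq_div_iff hxy]
  linear_combination -h3

end MH
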