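import Pool.Agent.Helper71.OW.MTs
import Pool.Agent.Helper71.OW.LGs
import Pool.Agent.Helper71.CY.SpGen
import Pool.Agent.Helper61.EL.Fix

/-!
OW-24. If all skew matrices are in the tensor Lie algebra of `Γ`, the tensors of `Γ` are those of the Mumford-Tate
group. Model: `tate_of_full` in `Pool/Agent/Helper2/MON/Tate.lean`, with `sp_fix` (`Pool/Agent/Helper71/CY/SpGen.lean`) in place of
`so_fix`; simpler because the weight is odd and there is no determinant condition. Proof. The sum over `p` of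
`(2 p - w) rank (P p)` is 0 (`H.conj`: `rank (P (w - p)) = rank (P p)`; model `trace_h0` in `Pool/Agent/Helper2/EL/Fin.lean`). So
`X = ∑ p • R p` has `2 trace X = w * card n`. `X ∈ LG Γ` (as `IsGal.h_mem` in `Pool/Agent/Helper56/EL/Lie.lean`). `G.LG_sim H` gives
`c` with `Xᵀ Q + Q X = c Q`; multiply with `Q⁻¹` and take the trace: `c = w`. So `X - (w / 2) • 1` is skew, in `LG Γ` by `hfull`, and
`1 ∈ LG Γ` because `w ≠ 0`. Direction 1: `g ∈ MT S P` has `gᵀ Q g = c Q`, `c ≠ 0` (`H.MT_sim`), `c = z ^ 2`, `g = z • g₀`: `sp_fix` for `g₀`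
and `scal_fix` for `z • 1`. Direction 2: all of `Γ` is in `MT S P` by `G.sim` and `hMT`; take `Γ' = Γ`.
-/

open Matrix

namespace MH

variable {n : Type*} [Fintype n] [DecidableEq n]
variable {w : ℤ} {Q : Matrix n n ℚ} {S : Finset ℤ} {P R : ℤ → Matrix n n ℂ} {Γ : Subgroup (GL n ℂ)}

private theorem h_mem34 (G : IsGalO Q S P Γ R) : ∑ p ∈ S, (p : ℂ) • R p ∈ LG Γ := by
  intro a b t ht
  have h1 : Idm S R := ⟨G.mul, G.sum⟩
  exact (h1.inv_iff a b t).1 (G.ht a b t ht)

private theorem trace_X34 (H : IsHW w Q S P) (G : IsGalO Q S P Γ R) :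
    2 * (∑ p ∈ S, (p : ℂ) • R p).trace = (w : ℂ) * Fintype.card n := by
  have hPP : ∀ p, P p * P p = P p := fun p => by rw [H.mul, if_pos rfl]
  have hRR : ∀ p, R p * R p = R p := fun p => by rw [G.mul, if_pos rfl]
  have e1 : ∀ p, (R p).trace = (P p).trace := by
    intro p
    rw [trace_eq_rank (hRR p), trace_eq_rank (hPP p), G.rank]
  have e2 : (∑ p ∈ S, (p : ℂ) • R p).trace = (∑ p ∈ S, (p : ℂ) • P p).trace := by
    rw [Matrix.trace_sum, Matrix.trace_sum]
    refine Finset.sum_congr rfl fun p _ => ?_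
    rw [Matrix.trace_smul, Matrix.trace_smul, e1]
  rw [e2]
  have e3 := congrArg Matrix.trace (H.reflect (fun p => (p : ℂ)))
  have e4 : (∑ p ∈ S, (p : ℂ) • P (w - p)).trace = (∑ p ∈ S, (p : ℂ) • P p).trace := by
    rw [Matrix.trace_sum, Matrix.trace_sum]
    refine Finset.sum_congr rfl fun p _ => ?_
    rw [Matrix.trace_smul, Matrix.trace_smul]
    congr 1
    rw [← H.conj p, trace_eq_rank (hPP p)]
    have : ((P p).map (starRingEnd ℂ)).trace = starRingEnd ℂ ((P p).trace) := by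
      simp [Matrix.trace, map_sum]
    rw [this, trace_eq_rank (hPP p), map_natCast]
  rw [e4] at e3
  have e5 : (∑ p ∈ S, ((w - p : ℤ) : ℂ) • P p).trace =
      (w : ℂ) * Fintype.card n - (∑ p ∈ S, (p : ℂ) • P p).trace := by
    have e6 : ∑ p ∈ S, ((w - p : ℤ) : ℂ) • P p = (w : ℂ) • (1 : Matrix n n ℂ) - ∑ p ∈ S, (p : ℂ) • P p := by
      rw [← H.sum, Finset.smul_sum, ← Finset.sum_sub_distrib]
      refine Finset.sum_congr rfl fun p _ => ?_
      rw [← sub_smul]
      push_cast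
      rfl
    rw [e6, Matrix.trace_sub, Matrix.trace_smul, Matrix.trace_one, smul_eq_mul]
  rw [e5] at e3
  linear_combination e3

theorem IsGalO.tate_of_full (H : IsHW w Q S P) (hw : Odd w) (G : IsGalO Q S P Γ R) [Nonempty n]
    (hMT : ∀ (g : GL n ℂ) (z : ℂ), (g : Matrix n n ℂ)ᵀ * toC Q * (g : Matrix n n ℂ) = z • toC Q → g ∈ MT S P)
    (hfull : ∀ X : Matrix n n ℂ, Xᵀ * toC Q + toC Q * X = 0 → X ∈ LG Γ)
    (a b : ℕ) (t : (Fin a ⊕ Fin b → n) → ℂ) :
    IsTateTensor Γ a b t ↔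
      ∀ g ∈ MT S P, actF (slot a b (g : Matrix n n ℂ) ((g⁻¹ : GL n ℂ) : Matrix n n ℂ)) t = t := by
  classical
  have hn0 : ((Fintype.card n : ℕ) : ℂ) ≠ 0 := by
    exact_mod_cast Fintype.card_ne_zero
  have hw0 : (w : ℂ) ≠ 0 := by
    have : w ≠ 0 := by
      rintro rfl
      exact absurd hw (by decide)
    exact_mod_cast this
  obtain ⟨B, Bi, Qi, _, _, hQ1, hQ2, _⟩ := H.exists_basis
  have hQd : (toC Q).det ≠ 0 := by
    intro h
    have := congrArg Matrix.det hQ1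
    rw [Matrix.det_mul, h, zero_mul, Matrix.det_one] at this
    exact zero_ne_one this
  have hskew : (toC Q)ᵀ = -toC Q := by
    rw [H.Q_symm, hw.neg_one_zpow, neg_one_smul]
  -- scalars
  have h1G : (1 : Matrix n n ℂ) ∈ LG Γ := by
    obtain ⟨c, hc⟩ := G.LG_sim H (h_mem34 G)
    have htr := trace_X34 H G
    set X := ∑ p ∈ S, (p : ℂ) • R p with hX
    have h1 : (Xᵀ + toC Q * X * Qi).trace = c * Fintype.card n := by
      have h2 : Xᵀ + toC Q * X * Qi = c • (1 : Matrix n n ℂ) := by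
        have h3 := congrArg (fun Y => Y * Qi) hc
        simp only [add_mul, smul_mul_assoc, hQ1] at h3
        rw [mul_assoc Xᵀ, hQ1, mul_one] at h3
        exact h3
      rw [h2, Matrix.trace_smul, Matrix.trace_one, smul_eq_mul]
    rw [Matrix.trace_add, Matrix.trace_transpose, Matrix.trace_mul_comm, ← mul_assoc, hQ2, one_mul, ← two_mul,
      htr] at h1
    have h2 : c = w := (mul_right_cancel₀ hn0 h1).symm
    have h3 : X - ((w : ℂ) / 2) • (1 : Matrix n n ℂ) ∈ LG Γ := by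
      apply hfull
      rw [Matrix.transpose_sub, Matrix.transpose_smul, Matrix.transpose_one, sub_mul, mul_sub, smul_mul_assoc,
        one_mul, mul_smul_comm, mul_one]
      have e1 : Xᵀ * toC Q - ((w : ℂ) / 2) • toC Q + (toC Q * X - ((w : ℂ) / 2) • toC Q) =
          (Xᵀ * toC Q + toC Q * X) - ((w : ℂ) / 2 + (w : ℂ) / 2) • toC Q := by
        rw [add_smul]
        abel
      rw [e1, hc, h2, add_halves, sub_self]
    have h4 := (LG Γ).sub_mem (h_mem34 G) h3
    rw [← hX, sub_sub_cancel] at h4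
    have h5 := (LG Γ).smul_mem ((w : ℂ) / 2)⁻¹ h4
    rwa [smul_smul, inv_mul_cancel₀ (div_ne_zero hw0 two_ne_zero), one_smul] at h5
  constructor
  · intro ht g hg
    have hk : ∀ X : Matrix n n ℂ, Xᵀ * toC Q + toC Q * X = 0 → dL a b t X = 0 := fun X hX => hfull X hX a b t ht
    obtain ⟨c, hc0, hc⟩ := H.MT_sim hg
    obtain ⟨z, hzc⟩ := IsAlgClosed.exists_pow_nat_eq c (n := 2) two_pos
    have hz : z ≠ 0 := by
      rintro rfl
      rw [zero_pow two_ne_zero] at hzc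
      exact hc0 hzc.symm
    have hsc : ∀ w : ℂ, w ≠ 0 → ∀ f : GL n ℂ, ∃ f' : GL n ℂ, (f' : Matrix n n ℂ) = w • (f : Matrix n n ℂ) := by
      intro w hw f
      refine ⟨⟨w • (f : Matrix n n ℂ), w⁻¹ • ((f⁻¹ : GL n ℂ) : Matrix n n ℂ), ?_, ?_⟩, rfl⟩
      · rw [smul_mul_smul_comm, mul_inv_cancel₀ hw, one_smul, ← Units.val_mul, mul_inv_cancel, Units.val_one]
      · rw [smul_mul_smul_comm, inv_mul_cancel₀ hw, one_smul, ← Units.val_mul, inv_mul_cancel, Units.val_one]
    obtain ⟨g₀, hg₀⟩ := hsc z⁻¹ (inv_ne_zero hz) g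
    obtain ⟨z₁, hz₁⟩ := hsc z hz 1
    have h1 : (g₀ : Matrix n n ℂ)ᵀ * toC Q * (g₀ : Matrix n n ℂ) = toC Q := by
      rw [hg₀, Matrix.transpose_smul, smul_mul_assoc, smul_mul_assoc, mul_smul_comm, smul_smul, hc, smul_smul, ← hzc]
      have : z⁻¹ * z⁻¹ * z ^ 2 = 1 := by field_simp
      rw [this, one_smul]
    have h3 := CY.sp_fix hskew hQd hk h1
    have h4 := scal_fix (a := a) (b := b) (t := t) (h1G a b t ht) (g := z₁) (z := z)
      (by rw [hz₁, Units.val_one])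
    have h5 : g = z₁ * g₀ := by
      apply Units.ext
      rw [Units.val_mul, hz₁, hg₀, Units.val_one, smul_mul_smul_comm, mul_inv_cancel₀ hz, one_smul, one_mul]
    have e1 : slot a b ((z₁ * g₀ : GL n ℂ) : Matrix n n ℂ) (((z₁ * g₀)⁻¹ : GL n ℂ) : Matrix n n ℂ) =
        fun k => slot a b (z₁ : Matrix n n ℂ) ((z₁⁻¹ : GL n ℂ) : Matrix n n ℂ) k *
          slot a b (g₀ : Matrix n n ℂ) ((g₀⁻¹ : GL n ℂ) : Matrix n n ℂ) k := by
      funext k
      rcases k with k | k
      · rfl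
      · simp only [slot, Sum.elim_inr, _root_.mul_inv_rev, Units.val_mul, Matrix.transpose_mul]
    rw [h5, e1, ← actF_mul, h3, h4]
  · intro ht
    refine ⟨Γ, le_rfl, ?_, fun g hg => ?_⟩
    · rw [Subgroup.relIndex_self]
      exact one_ne_zero
    · obtain ⟨z, hz⟩ := G.sim g hg
      exact ht g (hMT g z hz)

end MH
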