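import Pool.Agent.Helper71.OW.GalDefs

/-!
OW-20. The Mumford-Tate group of a polarised Hodge structure of nonzero weight consists of similitudes. Proof: copy of
the private lemma `exists_mult5` of `Pool/Agent/Helper5/EL/MTle.lean`, case `m ≠ 0` (the tensor `Q⁻¹ ⊗ Q` is a Hodge tensor),
with `IsHW w` in place of `IsHS m`: `cochar S P z` multiplies `Q` by `z ^ w` (`H.sum_transpose_mul_Q`, `H.sum_mul_sum`);
`Q` is invertible (`H.exists_basis`). The weight is not used.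
-/

set_option linter.unusedSectionVars false

open Matrix

namespace MH

variable {n : Type*} [Fintype n] [DecidableEq n]

section tensors63

variable {A₀ : Type*} [CommRing A₀]

/-- product of tensors -/
private def pt63 {a b : ℕ} (u : (Fin a → n) → A₀) (v : (Fin b → n) → A₀) : (Fin a ⊕ Fin b → n) → A₀ :=
  fun i => u (fun k => i (Sum.inl k)) * v (fun k => i (Sum.inr k))

private lemma act_pt63 {a b : ℕ} (u : (Fin a → n) → A₀) (v : (Fin b → n) → A₀) (g g' : Matrix n n A₀)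
    (i : Fin a ⊕ Fin b → n) :
    actF (slot a b g g') (pt63 u v) i =
      actF (fun _ => g) u (fun k => i (Sum.inl k)) * actF (fun _ => g'ᵀ) v (fun k => i (Sum.inr k)) := by
  unfold actF
  rw [Finset.sum_mul_sum, ← Fintype.sum_prod_type']
  refine Fintype.sum_equiv (Equiv.sumArrowEquivProdArrow (Fin a) (Fin b) n) _ _ fun j => ?_
  rw [Fintype.prod_sum_type]
  simp only [slot, Sum.elim_inl, Sum.elim_inr, pt63, Equiv.sumArrowEquivProdArrow, Equiv.coe_fn_mk,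
    Function.comp_def]
  ring

private lemma eig_pt63 {a b : ℕ} {u : (Fin a → n) → A₀} {v : (Fin b → n) → A₀} {g g' : Matrix n n A₀} {c d : A₀}
    (hu : actF (fun _ => g) u = c • u) (hv : actF (fun _ => g'ᵀ) v = d • v) :
    actF (slot a b g g') (pt63 u v) = (c * d) • pt63 u v := by
  funext i
  rw [act_pt63, hu, hv]
  simp only [Pi.smul_apply, smul_eq_mul, pt63]
  ring

/-- the tensor `M ⊗ ... ⊗ M` -/
private def qt63 (h : ℕ) (M : Matrix n n A₀) : (Fin (h * 2) → n) → A₀ :=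
  fun j => ∏ l : Fin h, M (j (finProdFinEquiv (l, 0))) (j (finProdFinEquiv (l, 1)))

private lemma act_qt63 (h : ℕ) (B M : Matrix n n A₀) :
    actF (fun _ => B) (qt63 h M) = qt63 h (B * M * Bᵀ) := by
  funext i
  unfold actF qt63
  have h1 : ∀ l : Fin h, (B * M * Bᵀ) (i (finProdFinEquiv (l, 0))) (i (finProdFinEquiv (l, 1))) =
      ∑ w : Fin 2 → n, B (i (finProdFinEquiv (l, 0))) (w 0) * B (i (finProdFinEquiv (l, 1))) (w 1) *
        M (w 0) (w 1) := by
    intro l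
    rw [← Equiv.sum_comp (finTwoArrowEquiv n).symm, Fintype.sum_prod_type]
    simp only [Matrix.mul_apply, Finset.sum_mul, Matrix.transpose_apply, finTwoArrowEquiv_symm_apply,
      Matrix.cons_val_zero, Matrix.cons_val_one]
    rw [Finset.sum_comm]
    refine Finset.sum_congr rfl fun x _ => Finset.sum_congr rfl fun y _ => ?_
    ring
  simp_rw [h1]
  rw [Finset.prod_univ_sum, Fintype.piFinset_univ]
  refine Fintype.sum_equiv ((Equiv.arrowCongr (finProdFinEquiv (m := h) (n := 2)).symm (Equiv.refl n)).trans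
    (Equiv.curry (Fin h) (Fin 2) n)) _ _ fun j => ?_
  rw [← Equiv.prod_comp (finProdFinEquiv (m := h) (n := 2)), Fintype.prod_prod_type, ← Finset.prod_mul_distrib]
  refine Finset.prod_congr rfl fun l _ => ?_
  rw [Fin.prod_univ_two]
  rfl

private lemma qt_smul63 (h : ℕ) (c : A₀) (M : Matrix n n A₀) : qt63 h (c • M) = c ^ h • qt63 h M := by
  funext j
  simp only [qt63, Matrix.smul_apply, smul_eq_mul, Finset.prod_mul_distrib, Finset.prod_const,
    Finset.card_univ, Fintype.card_fin, Pi.smul_apply]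

private lemma qt_one63 (M : Matrix n n A₀) (x y : n) :
    qt63 1 M (fun k => if (finProdFinEquiv.symm k).2 = 0 then x else y) = M x y := by
  unfold qt63
  rw [Fin.prod_univ_one]
  simp

private lemma qt_ne63 [IsDomain A₀] {M : Matrix n n A₀} {x y : n} (hxy : M x y ≠ 0) (h : ℕ) :
    qt63 h M (fun k => if (finProdFinEquiv.symm k).2 = 0 then x else y) ≠ 0 := by
  unfold qt63
  rw [Finset.prod_ne_zero_iff]
  intro l _
  simpa using hxy

end tensors63

private lemma tC_pt63 {a b : ℕ} (u : (Fin a → n) → ℚ) (v : (Fin b → n) → ℚ) :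
    tC (pt63 u v) = pt63 (tC u) (tC v) := by
  funext i
  simp only [tC, pt63, map_mul]

private lemma tC_qt63 (h : ℕ) (M : Matrix n n ℚ) : tC (qt63 h M) = qt63 h (toC M) := by
  funext i
  simp only [tC, qt63, map_prod]
  rfl

variable {w : ℤ} {Q : Matrix n n ℚ} {S : Finset ℤ} {P : ℤ → Matrix n n ℂ}

private lemma cochar_sim63 (H : IsHW w Q S P) {z : ℂ} (hz : z ≠ 0) :
    (cochar S P z)ᵀ * toC Q * cochar S P z = z ^ w • toC Q := by
  unfold cochar
  rw [H.sum_transpose_mul_Q (fun p => z ^ p), mul_assoc, H.sum_mul_sum (fun p => z ^ (w - p)) (fun p => z ^ p)]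
  have h1 : ∀ p : ℤ, z ^ (w - p) * z ^ p = z ^ w := by
    intro p
    rw [← zpow_add₀ hz]
    congr 1
    ring
  simp_rw [h1]
  rw [← Finset.smul_sum, H.sum, mul_smul_comm, mul_one]

private lemma detQ63 (H : IsHW w Q S P) : (toC Q).det ≠ 0 := by
  obtain ⟨B, Bi, Qi, _, _, h3, _, _⟩ := H.exists_basis
  intro h0
  have := congrArg Matrix.det h3
  rw [Matrix.det_mul, h0, zero_mul, Matrix.det_one] at this
  exact zero_ne_one this

private lemma cochar_sim_inv63 (H : IsHW w Q S P) {z : ℂ} (hz : z ≠ 0) :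
    (cochar S P z⁻¹)ᵀ * toC Q * cochar S P z⁻¹ = z ^ (-w) • toC Q := by
  rw [cochar_sim63 H (inv_ne_zero hz), _root_.inv_zpow, _root_.zpow_neg]

/-- group elements: the multiplier of the inverse -/
private lemma inv_sim63 {Q' : Matrix n n ℂ} {g : GL n ℂ} {c : ℂ} (hc : c ≠ 0)
    (h : (g : Matrix n n ℂ)ᵀ * Q' * (g : Matrix n n ℂ) = c • Q') :
    (((g⁻¹ : GL n ℂ) : Matrix n n ℂ))ᵀ * Q' * ((g⁻¹ : GL n ℂ) : Matrix n n ℂ) = c⁻¹ • Q' := by
  have h1 : (g : Matrix n n ℂ) * ((g⁻¹ : GL n ℂ) : Matrix n n ℂ) = 1 := by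
    rw [← Units.val_mul, mul_inv_cancel, Units.val_one]
  have h2 : (((g⁻¹ : GL n ℂ) : Matrix n n ℂ))ᵀ * (g : Matrix n n ℂ)ᵀ = 1 := by
    rw [← Matrix.transpose_mul, h1, Matrix.transpose_one]
  have h3 : (((g⁻¹ : GL n ℂ) : Matrix n n ℂ))ᵀ * ((g : Matrix n n ℂ)ᵀ * Q' * (g : Matrix n n ℂ)) *
      ((g⁻¹ : GL n ℂ) : Matrix n n ℂ) = Q' := by
    calc _ = ((((g⁻¹ : GL n ℂ) : Matrix n n ℂ))ᵀ * (g : Matrix n n ℂ)ᵀ) * Q' *
        ((g : Matrix n n ℂ) * ((g⁻¹ : GL n ℂ) : Matrix n n ℂ)) := by simp only [mul_assoc]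
      _ = Q' := by rw [h1, h2, one_mul, mul_one]
  rw [h, mul_smul_comm, smul_mul_assoc] at h3
  calc (((g⁻¹ : GL n ℂ) : Matrix n n ℂ))ᵀ * Q' * ((g⁻¹ : GL n ℂ) : Matrix n n ℂ) =
      c⁻¹ • (c • ((((g⁻¹ : GL n ℂ) : Matrix n n ℂ))ᵀ * Q' * ((g⁻¹ : GL n ℂ) : Matrix n n ℂ))) := by
        rw [smul_smul, inv_mul_cancel₀ hc, one_smul]
    _ = c⁻¹ • Q' := by rw [h3]

theorem IsHW.MT_sim (H : IsHW w Q S P) [Nonempty n] {g : GL n ℂ} (hg : g ∈ MT S P) :
    ∃ c : ℂ, c ≠ 0 ∧ (g : Matrix n n ℂ)ᵀ * toC Q * (g : Matrix n n ℂ) = c • toC Q := by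
  classical
  obtain ⟨x0, y0, hxy⟩ : ∃ x y, Q x y ≠ 0 := by
    by_contra hcon
    push Not at hcon
    have h0 : toC Q = 0 := by
      ext x y
      simp only [toC, Matrix.map_apply, hcon x y, map_zero, Matrix.zero_apply]
    apply detQ63 H
    rw [h0, Matrix.det_zero]
  have hxyC : toC Q x0 y0 ≠ 0 := by
    simp only [toC, Matrix.map_apply, ne_eq, map_eq_zero]
    exact hxy
  have hgg : ((g⁻¹ : GL n ℂ) : Matrix n n ℂ) * (g : Matrix n n ℂ) = 1 := by
    rw [← Units.val_mul, inv_mul_cancel, Units.val_one]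
  have hgg' : (g : Matrix n n ℂ) * ((g⁻¹ : GL n ℂ) : Matrix n n ℂ) = 1 := by
    rw [← Units.val_mul, mul_inv_cancel, Units.val_one]
  have hz2 : ∀ z : ℂ, z ≠ 0 → (cochar S P z⁻¹)ᵀ * toC Q * ((cochar S P z⁻¹)ᵀ)ᵀ = z ^ (-w) • toC Q := by
    intro z hz
    rw [Matrix.transpose_transpose, cochar_sim_inv63 H hz]
  have hdQ : Q.det ≠ 0 := by
    intro h0
    apply detQ63 H
    have h1 : (toC Q).det = algebraMap ℚ ℂ Q.det := by
      rw [RingHom.map_det]
      rfl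
    rw [h1, h0, map_zero]
  have hu : IsUnit Q.det := isUnit_iff_ne_zero.2 hdQ
  have hQQ : toC Q * toC Q⁻¹ = 1 := by
    rw [← toC_mul, Matrix.mul_nonsing_inv Q hu]
    unfold toC
    exact Matrix.map_one _ (map_zero _) (map_one _)
  have hQQ' : toC Q⁻¹ * toC Q = 1 := by
    rw [← toC_mul, Matrix.nonsing_inv_mul Q hu]
    unfold toC
    exact Matrix.map_one _ (map_zero _) (map_one _)
  -- the inverse form
  have key : ∀ (A Ai : Matrix n n ℂ) (c : ℂ), c ≠ 0 → A * Ai = 1 → Ai * A = 1 →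
      Aᵀ * toC Q * A = c • toC Q → A * toC Q⁻¹ * Aᵀ = c • toC Q⁻¹ := by
    intro A Ai c hc h1 h2 h3
    have h4 : Aᵀ * (toC Q * A * (c⁻¹ • toC Q⁻¹)) = 1 := by
      calc Aᵀ * (toC Q * A * (c⁻¹ • toC Q⁻¹)) = (Aᵀ * toC Q * A) * (c⁻¹ • toC Q⁻¹) := by
            simp only [mul_assoc]
        _ = 1 := by
            rw [h3, smul_mul_smul_comm, mul_inv_cancel₀ hc, one_smul, hQQ]
    have h63 : (toC Q * A * (c⁻¹ • toC Q⁻¹)) * Aᵀ = 1 := mul_eq_one_comm.1 h4
    have h6 : c⁻¹ • (toC Q * (A * toC Q⁻¹ * Aᵀ)) = 1 := by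
      rw [← h63, mul_smul_comm, smul_mul_assoc]
      simp only [mul_assoc]
    calc A * toC Q⁻¹ * Aᵀ = c • (toC Q⁻¹ * (c⁻¹ • (toC Q * (A * toC Q⁻¹ * Aᵀ)))) := by
          rw [mul_smul_comm, smul_smul, mul_inv_cancel₀ hc, one_smul, ← mul_assoc, hQQ', one_mul]
      _ = c • toC Q⁻¹ := by rw [h6, mul_one]
  have hcc : ∀ z : ℂ, z ≠ 0 → cochar S P z * cochar S P z⁻¹ = 1 := by
    intro z hz
    unfold cochar
    rw [H.sum_mul_sum (fun p => z ^ p) (fun p => z⁻¹ ^ p), ← H.sum]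
    refine Finset.sum_congr rfl fun p _ => ?_
    rw [← mul_zpow, mul_inv_cancel₀ hz, _root_.one_zpow, one_smul]
  have hT : IsHodgeTensor S P (1 * 2) (1 * 2) (pt63 (qt63 1 Q⁻¹) (qt63 1 Q)) := by
    intro z hz
    rw [tC_pt63, tC_qt63, tC_qt63]
    rw [eig_pt63 (c := z ^ w) (d := z ^ (-w))]
    · rw [← zpow_add₀ hz, add_neg_cancel, zpow_zero, one_smul]
    · rw [act_qt63, key (cochar S P z) (cochar S P z⁻¹) (z ^ w) (zpow_ne_zero _ hz) (hcc z hz)
        (mul_eq_one_comm.1 (hcc z hz)) (cochar_sim63 H hz), qt_smul63, pow_one]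
    · rw [act_qt63, hz2 z hz, qt_smul63, pow_one]
  have h1 := hg (1 * 2) (1 * 2) _ hT
  rw [tC_pt63, tC_qt63, tC_qt63] at h1
  set gi : Matrix n n ℂ := ((g⁻¹ : GL n ℂ) : Matrix n n ℂ) with hgi
  have h2 : ∀ x y u v : n, ((g : Matrix n n ℂ) * toC Q⁻¹ * (g : Matrix n n ℂ)ᵀ) x y *
      (giᵀ * toC Q * gi) u v = toC Q⁻¹ x y * toC Q u v := by
    intro x y u v
    have h3 := congrFun h1 (Sum.elim (fun k => if (finProdFinEquiv.symm k).2 = 0 then x else y)
      (fun k => if (finProdFinEquiv.symm k).2 = 0 then u else v))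
    rw [act_pt63, act_qt63, act_qt63, Matrix.transpose_transpose] at h3
    simp only [Sum.elim_inl, Sum.elim_inr, pt63] at h3
    rw [qt_one63, qt_one63, qt_one63, qt_one63] at h3
    exact h3
  -- a nonzero entry of the inverse
  obtain ⟨x1, y1, hxy1⟩ : ∃ x y, toC Q⁻¹ x y ≠ 0 := by
    by_contra hcon
    push Not at hcon
    have h0 : toC Q⁻¹ = 0 := by
      ext x y
      exact hcon x y
    rw [h0, mul_zero] at hQQ
    exact zero_ne_one hQQ
  set α : ℂ := ((g : Matrix n n ℂ) * toC Q⁻¹ * (g : Matrix n n ℂ)ᵀ) x1 y1 with hα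
  have h3 := h2 x1 y1 x0 y0
  have hα0 : α ≠ 0 := by
    intro h0
    rw [← hα, h0, zero_mul] at h3
    exact (mul_ne_zero hxy1 hxyC) h3.symm
  set c : ℂ := α / toC Q⁻¹ x1 y1 with hcdef
  have hc0 : c ≠ 0 := div_ne_zero hα0 hxy1
  have h4 : giᵀ * toC Q * gi = c⁻¹ • toC Q := by
    ext u v
    have h63 := h2 x1 y1 u v
    rw [← hα] at h63
    rw [Matrix.smul_apply, smul_eq_mul, hcdef, inv_div]
    field_simp
    linear_combination h63
  refine ⟨c, hc0, ?_⟩
  have h63 := inv_sim63 (g := g⁻¹) (Q' := toC Q) (inv_ne_zero hc0) h4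
  rw [inv_inv, inv_inv] at h63
  exact h63

end MH
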