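import Pool.Agent.Helper71.OW.TDefs

/-!
OW-46. Forms on `ℂ² ⊗ ℂ^q`. (a) `form_of`: if all `x ⊗ 1`, `tr x = 0`, are skew for the alternating form `J`, then `J = J0 ⊗ G` in the
basis with `G` symmetric and invertible. Proof: let `M` be `Tᵀ J T` reindexed by `e.symm`; `(x ⊗ 1)ᵀ M + M (x ⊗ 1) = 0` for `x = E₁₂, E₂₁,
diag (1, -1)` says for the four blocks `M_ij` (matrices of size `q`): `M_00 = M_11 = 0`, `M_10 = -M_01`; `G = M_01`; `Jᵀ = -J` gives
`Gᵀ = G`; `J` invertible gives `G` invertible. (b) `skew_iff`: `x ⊗ 1 + 1 ⊗ z` (with `tr x = 0`) is skew for `J` iff `z` is skew for `G`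
(`xᵀ J0 + J0 x = tr x • J0`; `J0 ⊗ Z = 0` gives `Z = 0`). (c) `sim_iff`: `(a ⊗ b)ᵀ (J0 ⊗ G) (a ⊗ b) = (det a) J0 ⊗ (bᵀ G b)`.
-/

open Matrix MH

namespace OW

variable {n : Type*} [Fintype n] [DecidableEq n] {q : ℕ}
variable {J Ji T Ti : Matrix n n ℂ} {e : n ≃ Fin 2 × Fin q} {G : Matrix (Fin q) (Fin q) ℂ}

private theorem pull_add_46 {K : Matrix (Fin 2 × Fin q) (Fin 2 × Fin q) ℂ} (h2 : Ti * T = 1)
    (hK : Tᵀ * J * T = K.submatrix e e) (X : Matrix (Fin 2 × Fin q) (Fin 2 × Fin q) ℂ) :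
    Tᵀ * ((tz T Ti e X)ᵀ * J + J * tz T Ti e X) * T = (Xᵀ * K + K * X).submatrix e e := by
  have h2t : Tᵀ * Tiᵀ = 1 := by rw [← transpose_mul, h2, transpose_one]
  have hsub : (Xᵀ * K + K * X).submatrix e e =
      Xᵀ.submatrix e e * K.submatrix e e + K.submatrix e e * X.submatrix e e := by
    rw [submatrix_add, Pi.add_apply, Pi.add_apply, submatrix_mul_equiv, submatrix_mul_equiv]
  rw [hsub, ← hK]
  unfold tz
  rw [transpose_mul, transpose_mul, transpose_submatrix]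
  calc Tᵀ * (Tiᵀ * (Xᵀ.submatrix e e * Tᵀ) * J + J * (T * X.submatrix e e * Ti)) * T =
      (Tᵀ * Tiᵀ) * Xᵀ.submatrix e e * (Tᵀ * J * T) + (Tᵀ * J * T) * X.submatrix e e * (Ti * T) := by
        simp only [Matrix.mul_add, Matrix.add_mul, Matrix.mul_assoc]
    _ = _ := by rw [h2t, h2, Matrix.one_mul, Matrix.mul_one]

private theorem pull_mul_46 {K : Matrix (Fin 2 × Fin q) (Fin 2 × Fin q) ℂ} (h2 : Ti * T = 1)
    (hK : Tᵀ * J * T = K.submatrix e e) (X : Matrix (Fin 2 × Fin q) (Fin 2 × Fin q) ℂ) :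
    Tᵀ * ((tz T Ti e X)ᵀ * J * tz T Ti e X) * T = (Xᵀ * K * X).submatrix e e := by
  have h2t : Tᵀ * Tiᵀ = 1 := by rw [← transpose_mul, h2, transpose_one]
  have hsub : (Xᵀ * K * X).submatrix e e =
      Xᵀ.submatrix e e * K.submatrix e e * X.submatrix e e := by
    rw [submatrix_mul_equiv, submatrix_mul_equiv]
  rw [hsub, ← hK]
  unfold tz
  rw [transpose_mul, transpose_mul, transpose_submatrix]
  calc Tᵀ * (Tiᵀ * (Xᵀ.submatrix e e * Tᵀ) * J * (T * X.submatrix e e * Ti)) * T =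
      (Tᵀ * Tiᵀ) * Xᵀ.submatrix e e * (Tᵀ * J * T) * X.submatrix e e * (Ti * T) := by
        simp only [Matrix.mul_assoc]
    _ = _ := by rw [h2t, h2, Matrix.one_mul, Matrix.mul_one]

private theorem inj_46 (h1 : T * Ti = 1) {A B : Matrix n n ℂ} (h : Tᵀ * A * T = Tᵀ * B * T) : A = B := by
  have h1t : Tiᵀ * Tᵀ = 1 := by rw [← transpose_mul, h1, transpose_one]
  have h3 : ∀ C : Matrix n n ℂ, Tiᵀ * (Tᵀ * C * T) * Ti = C := fun C => by
    calc Tiᵀ * (Tᵀ * C * T) * Ti = (Tiᵀ * Tᵀ) * C * (T * Ti) := by simp only [Matrix.mul_assoc]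
      _ = C := by rw [h1t, h1, Matrix.one_mul, Matrix.mul_one]
  rw [← h3 A, h, h3 B]

omit [Fintype n] [DecidableEq n] in
private theorem sub_inj_46 {A B : Matrix (Fin 2 × Fin q) (Fin 2 × Fin q) ℂ}
    (h : A.submatrix e e = B.submatrix e e) : A = B := by
  have h2 := congrArg (fun X => X.submatrix e.symm e.symm) h
  simpa only [submatrix_submatrix, Equiv.self_comp_symm, submatrix_id_id] using h2

private theorem krJ_inj_46 {A B : Matrix (Fin q) (Fin q) ℂ} (h : kr J0 A = kr J0 B) : A = B := by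
  ext a b
  have h2 := congrFun (congrFun h (0, a)) (1, b)
  simpa [J0] using h2

private theorem tr_J0_46 (x : Matrix (Fin 2) (Fin 2) ℂ) : xᵀ * J0 + J0 * x = x.trace • J0 := by
  have e00 : J0 0 0 = 0 := rfl
  have e01 : J0 0 1 = 1 := rfl
  have e10 : J0 1 0 = -1 := rfl
  have e11 : J0 1 1 = 0 := rfl
  ext i j
  rw [Matrix.add_apply, Matrix.mul_apply, Matrix.mul_apply, Matrix.smul_apply, Fin.sum_univ_two, Fin.sum_univ_two,
    Matrix.trace_fin_two, smul_eq_mul]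
  simp only [transpose_apply]
  fin_cases i <;> fin_cases j <;> simp only [Fin.zero_eta, Fin.mk_one, e00, e01, e10, e11] <;> ring

private theorem det_J0_46 (a : Matrix (Fin 2) (Fin 2) ℂ) : aᵀ * J0 * a = a.det • J0 := by
  have e00 : J0 0 0 = 0 := rfl
  have e01 : J0 0 1 = 1 := rfl
  have e10 : J0 1 0 = -1 := rfl
  have e11 : J0 1 1 = 0 := rfl
  ext i j
  rw [Matrix.mul_apply, Matrix.smul_apply, Fin.sum_univ_two, Matrix.mul_apply, Matrix.mul_apply, Fin.sum_univ_two,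
    Fin.sum_univ_two, Matrix.det_fin_two, smul_eq_mul]
  simp only [transpose_apply]
  fin_cases i <;> fin_cases j <;> simp only [Fin.zero_eta, Fin.mk_one, e00, e01, e10, e11] <;> ring

theorem form_of (h1 : T * Ti = 1) (h2 : Ti * T = 1) (hJ : Jᵀ = -J) (hJJ : J * Ji = 1)
    (hsl : ∀ x : Matrix (Fin 2) (Fin 2) ℂ, x.trace = 0 →
      (tz T Ti e (kr x 1))ᵀ * J + J * tz T Ti e (kr x 1) = 0) :
    ∃ G Gi : Matrix (Fin q) (Fin q) ℂ, Gᵀ = G ∧ G * Gi = 1 ∧ Tᵀ * J * T = (kr J0 G).submatrix e e := by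
  obtain ⟨M, hM⟩ : ∃ M : Matrix (Fin 2 × Fin q) (Fin 2 × Fin q) ℂ, Tᵀ * J * T = M.submatrix e e :=
    ⟨(Tᵀ * J * T).submatrix e.symm e.symm, by
      rw [submatrix_submatrix, Equiv.symm_comp_self, submatrix_id_id]⟩
  have key : ∀ x : Matrix (Fin 2) (Fin 2) ℂ, x.trace = 0 → (kr x 1)ᵀ * M + M * kr x 1 = 0 := by
    intro x hx
    apply sub_inj_46 (e := e)
    rw [← pull_add_46 h2 hM, hsl x hx]
    simp
  have ent : ∀ x : Matrix (Fin 2) (Fin 2) ℂ, x.trace = 0 → ∀ i j a b,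
      (∑ k, x k i * M (k, a) (j, b)) + ∑ k, M (i, a) (k, b) * x k j = 0 := by
    intro x hx i j a b
    have h3 := congrFun (congrFun (key x hx) (i, a)) (j, b)
    simp only [Matrix.add_apply, Matrix.mul_apply, Matrix.zero_apply, transpose_apply, kroneckerMap_apply,
      Fintype.sum_prod_type, Matrix.one_apply, mul_ite, mul_one, mul_zero, ite_mul, zero_mul] at h3
    simpa using h3
  have e01 : ∀ i j a b, (if i = 1 then M (0, a) (j, b) else 0) + (if j = 1 then M (i, a) (0, b) else 0) = 0 := by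
    intro i j a b
    have h3 := ent !![0, 1; 0, 0] (by simp [Matrix.trace]) i j a b
    fin_cases i <;> fin_cases j <;> simpa [Fin.sum_univ_two] using h3
  have e10 : ∀ i j a b, (if i = 0 then M (1, a) (j, b) else 0) + (if j = 0 then M (i, a) (1, b) else 0) = 0 := by
    intro i j a b
    have h3 := ent !![0, 0; 1, 0] (by simp [Matrix.trace]) i j a b
    fin_cases i <;> fin_cases j <;> simpa [Fin.sum_univ_two] using h3
  have m00 : ∀ a b, M (0, a) (0, b) = 0 := fun a b => by simpa using e01 1 0 a b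
  have m11 : ∀ a b, M (1, a) (1, b) = 0 := fun a b => by simpa using e10 0 1 a b
  have m10 : ∀ a b, M (1, a) (0, b) = -M (0, a) (1, b) := fun a b => by
    have h3 := e01 1 1 a b
    simp only [if_true] at h3
    exact eq_neg_of_add_eq_zero_right h3
  have hMG : M = kr J0 (of fun a b => M (0, a) (1, b)) := by
    ext ⟨i, a⟩ ⟨j, b⟩
    fin_cases i <;> fin_cases j <;> simp [J0, m00, m11, m10]
  have hMt : ∀ u v, M u v = -M v u := by
    have h3 : (Tᵀ * J * T)ᵀ = -(Tᵀ * J * T) := by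
      rw [transpose_mul, transpose_mul, transpose_transpose, hJ]
      simp only [Matrix.mul_assoc, Matrix.neg_mul, Matrix.mul_neg]
    rw [hM] at h3
    intro u v
    have h4 := congrFun (congrFun h3 (e.symm v)) (e.symm u)
    simpa using h4
  have hinv : M * (Ti * Ji * Tiᵀ).submatrix e.symm e.symm = 1 := by
    apply sub_inj_46 (e := e)
    rw [← submatrix_mul_equiv M _ e e e, submatrix_submatrix, Equiv.symm_comp_self, submatrix_id_id, ← hM,
      submatrix_one_equiv]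
    calc Tᵀ * J * T * (Ti * Ji * Tiᵀ) = Tᵀ * J * (T * Ti) * Ji * Tiᵀ := by simp only [Matrix.mul_assoc]
      _ = Tᵀ * (J * Ji) * Tiᵀ := by rw [h1, Matrix.mul_one]; simp only [Matrix.mul_assoc]
      _ = 1 := by rw [hJJ, Matrix.mul_one, ← transpose_mul, h2, transpose_one]
  refine ⟨of fun a b => M (0, a) (1, b),
    of fun a b => (Ti * Ji * Tiᵀ).submatrix e.symm e.symm (1, a) (0, b), ?_, ?_, ?_⟩
  · ext a b
    have h3 := hMt (0, b) (1, a)
    rw [m10, neg_neg] at h3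
    simpa using h3
  · ext a b
    have h3 := congrFun (congrFun hinv (0, a)) (0, b)
    rw [Matrix.mul_apply, Fintype.sum_prod_type, Fin.sum_univ_two] at h3
    simp only [m00, zero_mul, Finset.sum_const_zero, zero_add] at h3
    rw [Matrix.mul_apply]
    simp only [of_apply]
    rw [h3, Matrix.one_apply, Matrix.one_apply]
    simp
  · rw [hM]
    exact congrArg (fun X => X.submatrix e e) hMG

theorem skew_iff (h1 : T * Ti = 1) (h2 : Ti * T = 1) (hG : Tᵀ * J * T = (kr J0 G).submatrix e e)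
    {x : Matrix (Fin 2) (Fin 2) ℂ} (hx : x.trace = 0) {z : Matrix (Fin q) (Fin q) ℂ} :
    (tz T Ti e (kr x 1 + kr 1 z))ᵀ * J + J * tz T Ti e (kr x 1 + kr 1 z) = 0 ↔ zᵀ * G + G * z = 0 := by
  have hc : (kr x 1 + kr 1 z)ᵀ * kr J0 G + kr J0 G * (kr x 1 + kr 1 z) = kr J0 (zᵀ * G + G * z) := by
    have t1 : (kr x (1 : Matrix (Fin q) (Fin q) ℂ))ᵀ = kr xᵀ 1 := by
      rw [← kroneckerMap_transpose, transpose_one]
    have t2 : (kr (1 : Matrix (Fin 2) (Fin 2) ℂ) z)ᵀ = kr 1 zᵀ := by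
      rw [← kroneckerMap_transpose, transpose_one]
    rw [transpose_add, t1, t2, Matrix.add_mul, Matrix.mul_add, kr_mul, kr_mul, kr_mul, kr_mul, Matrix.one_mul,
      Matrix.one_mul, Matrix.mul_one, Matrix.mul_one]
    have t3 : kr (xᵀ * J0) G + kr (J0 * x) G = 0 := by
      have t4 : kr (xᵀ * J0 + J0 * x) G = kr (xᵀ * J0) G + kr (J0 * x) G := add_kronecker _ _ _
      rw [← t4, tr_J0_46, hx, zero_smul]
      exact zero_kronecker _
    have t5 : kr J0 (zᵀ * G + G * z) = kr J0 (zᵀ * G) + kr J0 (G * z) := kronecker_add _ _ _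
    rw [t5]
    calc kr (xᵀ * J0) G + kr J0 (zᵀ * G) + (kr (J0 * x) G + kr J0 (G * z)) =
        (kr (xᵀ * J0) G + kr (J0 * x) G) + (kr J0 (zᵀ * G) + kr J0 (G * z)) := by abel
      _ = _ := by rw [t3, zero_add]
  constructor
  · intro h
    apply krJ_inj_46
    rw [← hc]
    apply sub_inj_46 (e := e)
    rw [← pull_add_46 h2 hG, h]
    ext i j
    simp
  · intro h
    apply inj_46 h1
    rw [pull_add_46 h2 hG, hc, h]
    ext i j
    simp

theorem sim_iff (h1 : T * Ti = 1) (h2 : Ti * T = 1) (hG : Tᵀ * J * T = (kr J0 G).submatrix e e)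
    {a : Matrix (Fin 2) (Fin 2) ℂ} {b : Matrix (Fin q) (Fin q) ℂ} {c : ℂ} :
    (tz T Ti e (kr a b))ᵀ * J * tz T Ti e (kr a b) = c • J ↔ a.det • (bᵀ * G * b) = c • G := by
  have hc : (kr a b)ᵀ * kr J0 G * kr a b = kr J0 (a.det • (bᵀ * G * b)) := by
    have t1 : (kr a b)ᵀ = kr aᵀ bᵀ := (kroneckerMap_transpose _ _ _).symm
    rw [t1, kr_mul, kr_mul, det_J0_46]
    ext ⟨i, k⟩ ⟨j, l⟩
    simp [mul_assoc, mul_left_comm]
  have hs : Tᵀ * (c • J) * T = (kr J0 (c • G)).submatrix e e := by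
    rw [Matrix.mul_smul, Matrix.smul_mul, hG]
    ext i j
    simp [mul_left_comm]
  constructor
  · intro h
    apply krJ_inj_46
    rw [← hc]
    apply sub_inj_46 (e := e)
    rw [← pull_mul_46 h2 hG, h, hs]
  · intro h
    apply inj_46 h1
    rw [pull_mul_46 h2 hG, hc, h, hs]

end OW
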