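import Pool.Agent.Helper71.OW.Defs

/-!
OW*, definitions: Lie algebras that act on `ℂ² ⊗ W`.
-/

open Matrix MH

namespace OW

variable {n : Type*} [Fintype n] [DecidableEq n] {d q : ℕ}

/-- the Kronecker product -/
abbrev kr (x : Matrix (Fin d) (Fin d) ℂ) (z : Matrix (Fin q) (Fin q) ℂ) :
    Matrix (Fin d × Fin q) (Fin d × Fin q) ℂ := kroneckerMap (· * ·) x z

/-- the operator whose matrix is `M` in the basis given by `T` and `e` -/
def tz (T Ti : Matrix n n ℂ) (e : n ≃ Fin d × Fin q) (M : Matrix (Fin d × Fin q) (Fin d × Fin q) ℂ) :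
    Matrix n n ℂ := T * M.submatrix e e * Ti

/-- the alternating form on `ℂ²` -/
def J0 : Matrix (Fin 2) (Fin 2) ℂ := !![0, 1; -1, 0]

/-- In the unitary basis `U` the space is `ℂ² ⊗ ℂ^q`, `h` is `diag (1/2, -1/2) ⊗ 1 + 1 ⊗ diag y`, and the
elements of `L` are of the form `x ⊗ 1 + 1 ⊗ z` with `x` of trace zero. -/
structure Tw (L : Submodule ℂ (Matrix n n ℂ)) (h : Matrix n n ℂ) (e : n ≃ Fin 2 × Fin q) (U : Matrix n n ℂ)
    (y : Fin q → ℤ) : Prop where
  left : Uᴴ * U = 1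
  right : U * Uᴴ = 1
  h_eq : h = tz U Uᴴ e (kr !![1 / 2, 0; 0, -(1 / 2)] 1 + kr 1 (diagonal fun k => ((y k : ℤ) : ℂ)))
  mem : ∀ X ∈ L, ∃ (x : Matrix (Fin 2) (Fin 2) ℂ) (z : Matrix (Fin q) (Fin q) ℂ), x.trace = 0 ∧
    X = tz U Uᴴ e (kr x 1 + kr 1 z)

/-- In the basis given by `T` and `e` the space is `ℂ² ⊗ ℂ^q`, the alternating form `Q'` is the tensor product of the
alternating form on `ℂ²` and of the symmetric form `G`, and `L` is `sl₂ ⊗ 1 + 1 ⊗ so(G)`. -/
structure TT (Q' : Matrix n n ℂ) (L : Submodule ℂ (Matrix n n ℂ)) (e : n ≃ Fin 2 × Fin q) (T Ti : Matrix n n ℂ)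
    (G Gi : Matrix (Fin q) (Fin q) ℂ) : Prop where
  T1 : T * Ti = 1
  T2 : Ti * T = 1
  Gs : Gᵀ = G
  G1 : G * Gi = 1
  form : Tᵀ * Q' * T = (kr J0 G).submatrix e e
  mem : ∀ X, X ∈ L ↔ ∃ (x : Matrix (Fin 2) (Fin 2) ℂ) (z : Matrix (Fin q) (Fin q) ℂ), x.trace = 0 ∧
    zᵀ * G + G * z = 0 ∧ X = tz T Ti e (kr x 1 + kr 1 z)
  big : 5 ≤ q

section tz

variable {T Ti : Matrix n n ℂ} {e : n ≃ Fin d × Fin q}

theorem tz_mul (h : Ti * T = 1) (M N : Matrix (Fin d × Fin q) (Fin d × Fin q) ℂ) :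
    tz T Ti e M * tz T Ti e N = tz T Ti e (M * N) := by
  unfold tz
  rw [← submatrix_mul_equiv M N e e e]
  calc T * M.submatrix e e * Ti * (T * N.submatrix e e * Ti) =
      T * M.submatrix e e * (Ti * T) * N.submatrix e e * Ti := by simp only [Matrix.mul_assoc]
    _ = T * (M.submatrix e e * N.submatrix e e) * Ti := by rw [h, Matrix.mul_one]; simp only [Matrix.mul_assoc]

theorem tz_add (M N : Matrix (Fin d × Fin q) (Fin d × Fin q) ℂ) : tz T Ti e (M + N) = tz T Ti e M + tz T Ti e N := by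
  unfold tz
  rw [submatrix_add, Pi.add_apply, Pi.add_apply, Matrix.mul_add, Matrix.add_mul]

theorem tz_sub (M N : Matrix (Fin d × Fin q) (Fin d × Fin q) ℂ) : tz T Ti e (M - N) = tz T Ti e M - tz T Ti e N := by
  unfold tz
  rw [submatrix_sub, Pi.sub_apply, Pi.sub_apply, Matrix.mul_sub, Matrix.sub_mul]

theorem tz_smul (c : ℂ) (M : Matrix (Fin d × Fin q) (Fin d × Fin q) ℂ) : tz T Ti e (c • M) = c • tz T Ti e M := by
  unfold tz
  rw [submatrix_smul, Pi.smul_apply, Pi.smul_apply, Matrix.mul_smul, Matrix.smul_mul]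

theorem tz_zero : tz T Ti e 0 = 0 := by
  unfold tz
  simp

theorem tz_one (h : T * Ti = 1) : tz T Ti e 1 = 1 := by
  unfold tz
  rw [submatrix_one_equiv, Matrix.mul_one, h]

theorem tz_coord (h : T * Ti = 1) (X : Matrix n n ℂ) : tz T Ti e ((Ti * X * T).submatrix e.symm e.symm) = X := by
  unfold tz
  rw [submatrix_submatrix, Equiv.symm_comp_self, submatrix_id_id]
  calc T * (Ti * X * T) * Ti = (T * Ti) * X * (T * Ti) := by simp only [Matrix.mul_assoc]
    _ = X := by rw [h, Matrix.one_mul, Matrix.mul_one]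

theorem coord_tz (h : Ti * T = 1) (M : Matrix (Fin d × Fin q) (Fin d × Fin q) ℂ) :
    Ti * tz T Ti e M * T = M.submatrix e e := by
  unfold tz
  calc Ti * (T * M.submatrix e e * Ti) * T = (Ti * T) * M.submatrix e e * (Ti * T) := by
        simp only [Matrix.mul_assoc]
    _ = M.submatrix e e := by rw [h, Matrix.one_mul, Matrix.mul_one]

theorem tz_inj (h : Ti * T = 1) {M N : Matrix (Fin d × Fin q) (Fin d × Fin q) ℂ} (hM : tz T Ti e M = tz T Ti e N) :
    M = N := by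
  have h2 := congrArg (fun X => (Ti * X * T).submatrix e.symm e.symm) hM
  simp only [coord_tz h, submatrix_submatrix, Equiv.self_comp_symm, submatrix_id_id] at h2
  exact h2

theorem tz_star {U : Matrix n n ℂ} (M : Matrix (Fin d × Fin q) (Fin d × Fin q) ℂ) :
    (tz U Uᴴ e M)ᴴ = tz U Uᴴ e Mᴴ := by
  unfold tz
  rw [conjTranspose_mul, conjTranspose_mul, conjTranspose_conjTranspose, conjTranspose_submatrix]
  simp only [Matrix.mul_assoc]

theorem kr_mul (x x' : Matrix (Fin d) (Fin d) ℂ) (z z' : Matrix (Fin q) (Fin q) ℂ) :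
    kr x z * kr x' z' = kr (x * x') (z * z') := (mul_kronecker_mul x x' z z').symm

theorem kr_one : kr (1 : Matrix (Fin d) (Fin d) ℂ) (1 : Matrix (Fin q) (Fin q) ℂ) = 1 := one_kronecker_one

end tz

end OW
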