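import Pool.Agent.Helper71.OW.TC
import Pool.Agent.Helper71.OW.TDefs

/-!
OW-62. The ranks of the eigenprojections of `h = diag (1/2, -1/2) ⊗ 1 + 1 ⊗ diag y`.
-/

open Matrix MH

namespace OW

variable {n : Type*} [Fintype n] [DecidableEq n] {q : ℕ}
variable {h : Matrix n n ℂ} {E : ℝ → Matrix n n ℂ} {Λ : Finset ℝ} {L : Submodule ℂ (Matrix n n ℂ)}

private lemma count_rk {m : Type*} [Fintype m] [DecidableEq m] (S : Spec h E Λ) {X : Matrix n m ℂ} {Y : Matrix m n ℂ}
    (h1 : Y * X = 1) (h2 : X * Y = 1) {γ : m → ℝ} (h3 : h * X = X * diagonal (fun j => (γ j : ℂ))) (μ : ℝ) :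
    (E μ).rank = (Finset.univ.filter fun j => γ j = μ).card := by
  have c1 : ∀ ν : ℝ, ∀ i j, γ j ≠ ν → (E ν * X) i j = 0 := by
    intro ν i j hj
    have e1 : E ν * (h * X) = (ν : ℂ) • (E ν * X) := by rw [← Matrix.mul_assoc, S.mul_h, Matrix.smul_mul]
    rw [h3, ← Matrix.mul_assoc] at e1
    have e2 := congrFun (congrFun e1 i) j
    rw [mul_diagonal, Matrix.smul_apply, smul_eq_mul] at e2
    have e3 : (E ν * X) i j * ((γ j : ℂ) - ν) = 0 := by linear_combination e2
    rcases mul_eq_zero.1 e3 with h | h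
    · exact h
    · exact absurd (by exact_mod_cast sub_eq_zero.1 h) hj
  obtain ⟨P, hP⟩ : ∃ P : Matrix m m ℂ, P = diagonal (fun j => if γ j = μ then (1 : ℂ) else 0) := ⟨_, rfl⟩
  have c2 : E μ * X * P = E μ * X := by
    ext i j
    rw [hP, mul_diagonal]
    split_ifs with hj
    · rw [mul_one]
    · rw [mul_zero, c1 μ i j hj]
  have c3 : ∀ ν, ν ≠ μ → E ν * X * P = 0 := by
    intro ν hν
    ext i j
    rw [hP, mul_diagonal, Matrix.zero_apply]
    split_ifs with hj
    · rw [c1 ν i j (by rw [hj]; exact hν.symm), zero_mul]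
    · rw [mul_zero]
  have c4 : X * P = E μ * X * P := by
    have e1 : X * P = ∑ ν ∈ Λ, E ν * X * P := by
      rw [← Matrix.sum_mul, ← Matrix.sum_mul, S.sum, Matrix.one_mul]
    rw [e1]
    by_cases hμ : μ ∈ Λ
    · exact Finset.sum_eq_single μ (fun ν _ hν => c3 ν hν) (fun h' => absurd hμ h')
    · rw [S.supp μ hμ, Matrix.zero_mul, Matrix.zero_mul]
      exact Finset.sum_eq_zero fun ν hν => c3 ν (fun h' => hμ (h' ▸ hν))
  have c5 : E μ = X * P * Y := by
    rw [c4, c2, Matrix.mul_assoc, h2, Matrix.mul_one]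
  have hr : ((E μ).rank : ℂ) = (E μ).trace := rank_eq_trace (by rw [S.mul, if_pos rfl])
  have ht : (E μ).trace = ((Finset.univ.filter fun j => γ j = μ).card : ℂ) := by
    rw [c5, trace_mul_comm, ← Matrix.mul_assoc, h1, Matrix.one_mul, hP, trace_diagonal, Finset.sum_boole]
  rw [ht] at hr
  exact_mod_cast hr

/-- The ranks. -/
theorem Tw.ranks (S : Spec h E Λ) {e : n ≃ Fin 2 × Fin q} {U : Matrix n n ℂ} {y : Fin q → ℤ} (W : Tw L h e U y) :
    ∃ c : ℤ → ℕ, ∀ p : ℤ, (E ((p : ℝ) + 1 / 2)).rank = c p + c (p + 1) := by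
  obtain ⟨γ, hγ⟩ : ∃ γ : n → ℝ, γ = fun i => (if (e i).1 = 0 then (1 / 2 : ℝ) else -(1 / 2)) + (y (e i).2 : ℝ) :=
    ⟨_, rfl⟩
  have h3 : h * U = U * diagonal (fun j => (γ j : ℂ)) := by
    rw [W.h_eq]
    unfold tz
    rw [Matrix.mul_assoc, W.left, Matrix.mul_one]
    congr 1
    ext i j
    have hkr : ∀ (x : Matrix (Fin 2) (Fin 2) ℂ) (z : Matrix (Fin q) (Fin q) ℂ) (u v : Fin 2 × Fin q),
        kr x z u v = x u.1 v.1 * z u.2 v.2 := fun x z u v => rfl
    rw [Matrix.submatrix_apply, Matrix.add_apply, hkr, hkr]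
    by_cases hij : i = j
    · subst hij
      rw [diagonal_apply_eq, Matrix.one_apply_eq, Matrix.one_apply_eq, diagonal_apply_eq, hγ]
      simp only
      generalize e i = u
      obtain ⟨a, k⟩ := u
      fin_cases a <;> simp
    · rw [diagonal_apply_ne _ hij]
      have hne : e i ≠ e j := fun h => hij (e.injective h)
      generalize e i = u at hne ⊢
      generalize e j = v at hne ⊢
      obtain ⟨a, k⟩ := u
      obtain ⟨b, l⟩ := v
      by_cases hk : k = l
      · subst hk
        have hab : a ≠ b := fun h => hne (by rw [h])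
        rw [Matrix.one_apply_ne hab, zero_mul, add_zero]
        fin_cases a <;> fin_cases b <;> simp at hab ⊢
      · rw [Matrix.one_apply_ne hk, diagonal_apply_ne _ hk, mul_zero, mul_zero, add_zero]
  refine ⟨fun p => (Finset.univ.filter fun k => y k = p).card, fun p => ?_⟩
  rw [count_rk S W.left W.right h3]
  have e1 : (Finset.univ.filter fun j : n => γ j = (p : ℝ) + 1 / 2).card =
      (Finset.univ.filter fun u : Fin 2 × Fin q =>
        (if u.1 = 0 then (1 / 2 : ℝ) else -(1 / 2)) + (y u.2 : ℝ) = (p : ℝ) + 1 / 2).card := by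
    refine Finset.card_bij (fun i _ => e i) ?_ ?_ ?_
    · intro i hi
      rw [Finset.mem_filter] at hi ⊢
      refine ⟨Finset.mem_univ _, ?_⟩
      rw [← hi.2, hγ]
    · intro i _ j _ hij
      exact e.injective hij
    · intro u hu
      refine ⟨e.symm u, ?_, e.apply_symm_apply u⟩
      rw [Finset.mem_filter] at hu ⊢
      refine ⟨Finset.mem_univ _, ?_⟩
      rw [hγ]
      simp only [e.apply_symm_apply]
      exact hu.2
  rw [e1]
  have e2 : (Finset.univ.filter fun u : Fin 2 × Fin q =>
        (if u.1 = 0 then (1 / 2 : ℝ) else -(1 / 2)) + (y u.2 : ℝ) = (p : ℝ) + 1 / 2) =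
      (Finset.univ.filter fun k => y k = p).image (fun k => ((0 : Fin 2), k)) ∪
        (Finset.univ.filter fun k => y k = p + 1).image (fun k => ((1 : Fin 2), k)) := by
    ext ⟨a, k⟩
    simp only [Finset.mem_filter, Finset.mem_univ, true_and, Finset.mem_union, Finset.mem_image, Prod.mk.injEq]
    fin_cases a
    · simp only [Fin.zero_eta, Fin.isValue, if_true]
      constructor
      · intro hh
        left
        refine ⟨k, ?_, by simp⟩
        have : (y k : ℝ) = p := by linarith
        exact_mod_cast this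
      · rintro (⟨k', hk', hk2⟩ | ⟨k', _, h0, _⟩)
        · have h9 : k' = k := by simpa using hk2
          rw [← h9, hk']
          ring
        · exact absurd h0 (by decide)
    · simp only [Fin.mk_one, Fin.isValue, one_ne_zero, if_false]
      constructor
      · intro hh
        right
        refine ⟨k, ?_, by simp⟩
        have : (y k : ℝ) = ((p + 1 : ℤ) : ℝ) := by
          push_cast
          linarith
        exact_mod_cast this
      · rintro (⟨k', _, h0, _⟩ | ⟨k', hk', hk2⟩)
        · exact absurd h0 (by decide)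
        · have h9 : k' = k := by simpa using hk2
          rw [← h9, hk']
          push_cast
          ring
  rw [e2, Finset.card_union_of_disjoint, Finset.card_image_of_injective, Finset.card_image_of_injective]
  · intro a b hab
    exact (Prod.mk.inj hab).2
  · intro a b hab
    exact (Prod.mk.inj hab).2
  · rw [Finset.disjoint_left]
    rintro ⟨a, k⟩ h4 h5
    simp only [Finset.mem_image, Prod.mk.injEq] at h4 h5
    obtain ⟨_, _, h6, _⟩ := h4
    obtain ⟨_, _, h7, _⟩ := h5
    rw [← h6] at h7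
    exact absurd h7 (by decide)

end OW
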