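import Pool.Agent.Helper71.OW.TDefs
import Pool.Agent.Helper98.MH.Onb

/-!
OW-45. If an irreducible self-adjoint Lie algebra `L` of matrices on `ℂ² ⊗ ℂ^q` consists of elements `x ⊗ 1 + 1 ⊗ z`, `tr x = 0`,
and contains `h`, then it contains `sl₂ ⊗ 1`. Proof. `x` is determined by `X` (`x ⊗ 1 + 1 ⊗ z = x' ⊗ 1 + 1 ⊗ z'`, traces zero, gives
`x = x'`; if `q = 0` then `n` is empty, the claim is trivial). (1) The set `L1` of the `x` that occur is a subspace closed under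
brackets and adjoints, contains `a = diag (1/2, -1/2)`. Some `x ∈ L1` is not diagonal (otherwise `diag (1, 0) ⊗ 1` commutes with
`L`), `[a, x]` and `[a, [a, x]]` give `E₁₂` or `E₂₁` in `L1`, and adjoints and brackets give everything: `L1 = sl₂`. (2) Let `K` be the set of
the `X ∈ L` with `x = 0`, and `K'` its orthogonal complement in `L` for `tr (Xᴴ Y)` (an orthonormal basis of `K`:
`exists_onb98` in `Pool/Agent/Helper98/MH/Onb.lean`, or see the use in `Pool/Agent/Helper71/OW/Jir.lean`). `K` is an ideal closed under the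
adjoint, so `K'` is one too, and `[K, K'] ⊆ K ∩ K' = 0`. `X ↦ x` is injective on `K'` with image `sl₂`, and respects brackets. Let
`E = e ⊗ 1 + 1 ⊗ e'`, `F = f ⊗ 1 + 1 ⊗ f'`, `H = h ⊗ 1 + 1 ⊗ h'` in `K'` with `e = E₁₂`, `f = E₂₁`, `h = diag (1, -1)`: `[E, F] = H`, `[H, E] = 2 E`,
`[H, F] = -2 F`, so the same relations for `e', f', h'`. (3) `c = e ⊗ f' + f ⊗ e' + (1/2) h ⊗ h'` commutes with `E, F, H` (computation) and with `K`
(an element `1 ⊗ k` of `K` commutes with `E, F, H`, so `k` commutes with `e', f', h'`), and all of `L` is `K + K'`. So `c` is a scalar, and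
`e' = f' = h' = 0` (look at the blocks). So `E, F, H` are the elements `e ⊗ 1, f ⊗ 1, h ⊗ 1` of `L`.
-/

open Matrix MH

namespace OW

section core45

variable {q : ℕ}

private theorem kr_add_left45 (x x' : Matrix (Fin 2) (Fin 2) ℂ) (z : Matrix (Fin q) (Fin q) ℂ) :
    kr (x + x') z = kr x z + kr x' z := by
  ext ⟨i, k⟩ ⟨j, l⟩
  simp [kroneckerMap_apply, add_mul]

private theorem kr_add_right45 (x : Matrix (Fin 2) (Fin 2) ℂ) (z z' : Matrix (Fin q) (Fin q) ℂ) :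
    kr x (z + z') = kr x z + kr x z' := by
  ext ⟨i, k⟩ ⟨j, l⟩
  simp [kroneckerMap_apply, mul_add]

private theorem kr_sub_left45 (x x' : Matrix (Fin 2) (Fin 2) ℂ) (z : Matrix (Fin q) (Fin q) ℂ) :
    kr (x - x') z = kr x z - kr x' z := by
  ext ⟨i, k⟩ ⟨j, l⟩
  simp [kroneckerMap_apply, sub_mul]

private theorem kr_sub_right45 (x : Matrix (Fin 2) (Fin 2) ℂ) (z z' : Matrix (Fin q) (Fin q) ℂ) :
    kr x (z - z') = kr x z - kr x z' := by
  ext ⟨i, k⟩ ⟨j, l⟩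
  simp [kroneckerMap_apply, mul_sub]

private theorem kr_smul_left45 (c : ℂ) (x : Matrix (Fin 2) (Fin 2) ℂ) (z : Matrix (Fin q) (Fin q) ℂ) :
    kr (c • x) z = c • kr x z := by
  ext ⟨i, k⟩ ⟨j, l⟩
  simp [kroneckerMap_apply, mul_assoc]

private theorem kr_smul_right45 (c : ℂ) (x : Matrix (Fin 2) (Fin 2) ℂ) (z : Matrix (Fin q) (Fin q) ℂ) :
    kr x (c • z) = c • kr x z := by
  ext ⟨i, k⟩ ⟨j, l⟩
  simp [kroneckerMap_apply, mul_left_comm]

private theorem kr_neg_left45 (x : Matrix (Fin 2) (Fin 2) ℂ) (z : Matrix (Fin q) (Fin q) ℂ) :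
    kr (-x) z = -kr x z := by
  ext ⟨i, k⟩ ⟨j, l⟩
  simp [kroneckerMap_apply]

private theorem kr_neg_right45 (x : Matrix (Fin 2) (Fin 2) ℂ) (z : Matrix (Fin q) (Fin q) ℂ) :
    kr x (-z) = -kr x z := by
  ext ⟨i, k⟩ ⟨j, l⟩
  simp [kroneckerMap_apply]

private theorem kr_zero_left45 (z : Matrix (Fin q) (Fin q) ℂ) : kr (0 : Matrix (Fin 2) (Fin 2) ℂ) z = 0 := by
  ext ⟨i, k⟩ ⟨j, l⟩
  simp [kroneckerMap_apply]

private theorem kr_zero_right45 (x : Matrix (Fin 2) (Fin 2) ℂ) : kr x (0 : Matrix (Fin q) (Fin q) ℂ) = 0 := by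
  ext ⟨i, k⟩ ⟨j, l⟩
  simp [kroneckerMap_apply]

private theorem kr_star45 (x : Matrix (Fin 2) (Fin 2) ℂ) (z : Matrix (Fin q) (Fin q) ℂ) :
    (kr x z)ᴴ = kr xᴴ zᴴ := by
  ext ⟨i, k⟩ ⟨j, l⟩
  simp [kroneckerMap_apply, conjTranspose_apply]

/-- the bracket of two elements `x ⊗ 1 + 1 ⊗ z` -/
private theorem kr_br45 (x x' : Matrix (Fin 2) (Fin 2) ℂ) (z z' : Matrix (Fin q) (Fin q) ℂ) :
    (kr x 1 + kr 1 z) * (kr x' 1 + kr 1 z') - (kr x' 1 + kr 1 z') * (kr x 1 + kr 1 z) =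
      kr (x * x' - x' * x) 1 + kr 1 (z * z' - z' * z) := by
  simp only [mul_add, add_mul, kr_mul, Matrix.mul_one, Matrix.one_mul, kr_sub_left45, kr_sub_right45]
  abel

private theorem br_prod45 {R : Type*} [Ring R] (x y u v : R) (h1 : y * u = u * y) (h2 : v * x = x * v) :
    x * y * (u + v) - (u + v) * (x * y) = (x * u - u * x) * y + x * (y * v - v * y) := by
  have e1 : x * y * u = x * u * y := by rw [mul_assoc, h1, mul_assoc]
  have e2 : v * (x * y) = x * (v * y) := by rw [← mul_assoc, h2, mul_assoc]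
  rw [mul_add, add_mul, e1, e2, sub_mul, mul_sub, ← mul_assoc u x y, mul_assoc x y v]
  abel

/-- the mixed Casimir element commutes with the diagonal `e` -/
private theorem cas45 {R : Type*} [Ring R] [Algebra ℂ R] {e₁ f₁ h₁ e₂ f₂ h₂ : R}
    (a1 : e₁ * f₁ - f₁ * e₁ = h₁) (a2 : h₁ * e₁ - e₁ * h₁ = (2 : ℂ) • e₁)
    (b1 : e₂ * f₂ - f₂ * e₂ = h₂) (b2 : h₂ * e₂ - e₂ * h₂ = (2 : ℂ) • e₂)
    (c1 : e₂ * e₁ = e₁ * e₂) (c2 : f₂ * e₁ = e₁ * f₂) (c3 : h₂ * e₁ = e₁ * h₂) (c4 : e₂ * f₁ = f₁ * e₂)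
    (c5 : e₂ * h₁ = h₁ * e₂) :
    (e₁ * f₂ + f₁ * e₂ + (1 / 2 : ℂ) • (h₁ * h₂)) * (e₁ + e₂) =
      (e₁ + e₂) * (e₁ * f₂ + f₁ * e₂ + (1 / 2 : ℂ) • (h₁ * h₂)) := by
  have A := br_prod45 e₁ f₂ e₁ e₂ c2 c1
  have B := br_prod45 f₁ e₂ e₁ e₂ c1 c4
  have C := br_prod45 h₁ h₂ e₁ e₂ c3 c5
  have A' : e₁ * f₂ * (e₁ + e₂) - (e₁ + e₂) * (e₁ * f₂) = -(e₁ * h₂) := by
    rw [A, sub_self, zero_mul, zero_add, ← b1, ← mul_neg, neg_sub]
  have B' : f₁ * e₂ * (e₁ + e₂) - (e₁ + e₂) * (f₁ * e₂) = -(h₁ * e₂) := by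
    rw [B, sub_self, mul_zero, add_zero, ← a1, ← neg_mul, neg_sub]
  have C' : h₁ * h₂ * (e₁ + e₂) - (e₁ + e₂) * (h₁ * h₂) = (2 : ℂ) • (e₁ * h₂) + (2 : ℂ) • (h₁ * e₂) := by
    rw [C, a2, b2, smul_mul_assoc, mul_smul_comm]
  rw [← sub_eq_zero]
  have D : (e₁ * f₂ + f₁ * e₂ + (1 / 2 : ℂ) • (h₁ * h₂)) * (e₁ + e₂) -
      (e₁ + e₂) * (e₁ * f₂ + f₁ * e₂ + (1 / 2 : ℂ) • (h₁ * h₂)) =
      (e₁ * f₂ * (e₁ + e₂) - (e₁ + e₂) * (e₁ * f₂)) + (f₁ * e₂ * (e₁ + e₂) - (e₁ + e₂) * (f₁ * e₂)) +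
      (1 / 2 : ℂ) • (h₁ * h₂ * (e₁ + e₂) - (e₁ + e₂) * (h₁ * h₂)) := by
    generalize e₁ + e₂ = t
    rw [add_mul, add_mul, mul_add, mul_add, smul_mul_assoc, mul_smul_comm, smul_sub]
    abel
  rw [D, A', B', C', smul_add, smul_smul, smul_smul]
  norm_num
  abel

private theorem tr_zero45 {z : Matrix (Fin q) (Fin q) ℂ} (h : (zᴴ * z).trace = 0) : z = 0 := by
  apply eq_zero_of_trace
  rw [h, Complex.zero_re]

/-- orthogonal projection -/
private theorem proj45 (K : Submodule ℂ (Matrix (Fin q) (Fin q) ℂ)) (z : Matrix (Fin q) (Fin q) ℂ) :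
    ∃ k ∈ K, ∀ w ∈ K, (wᴴ * (z - k)).trace = 0 := by
  obtain ⟨u, hu, huu, hgen⟩ := exists_onb98 K
  refine ⟨∑ i, ((u i)ᴴ * z).trace • u i, Submodule.sum_mem _ fun i _ => Submodule.smul_mem _ _ (hu i), ?_⟩
  intro w hw
  have hstar : ∀ a b : Matrix (Fin q) (Fin q) ℂ, star (aᴴ * b).trace = (bᴴ * a).trace := by
    intro a b
    rw [← trace_conjTranspose, conjTranspose_mul, conjTranspose_conjTranspose]
  rw [mul_sub, trace_sub, sub_eq_zero]
  conv_lhs => rw [hgen w hw]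
  rw [conjTranspose_sum, Finset.sum_mul, trace_sum, Finset.mul_sum, trace_sum]
  refine Finset.sum_congr rfl fun i _ => ?_
  rw [conjTranspose_smul, hstar, smul_mul_assoc, mul_smul_comm, trace_smul, trace_smul, smul_eq_mul,
    smul_eq_mul, mul_comm]

private theorem br_a45 (x : Matrix (Fin 2) (Fin 2) ℂ) :
    !![(1 : ℂ) / 2, 0; 0, -(1 / 2)] * x - x * !![1 / 2, 0; 0, -(1 / 2)] = !![0, x 0 1; -(x 1 0), 0] := by
  rw [Matrix.eta_fin_two x]
  simp only [Matrix.mul_fin_two]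
  ext i j
  fin_cases i <;> fin_cases j <;> simp <;> ring

private theorem sl2core45 (L : Submodule ℂ (Matrix (Fin 2 × Fin q) (Fin 2 × Fin q) ℂ))
    (br : ∀ x ∈ L, ∀ y ∈ L, x * y - y * x ∈ L) (st : ∀ x ∈ L, xᴴ ∈ L)
    (irr : ∀ T : Matrix (Fin 2 × Fin q) (Fin 2 × Fin q) ℂ, (∀ x ∈ L, T * x = x * T) →
      ∃ c : ℂ, T = c • (1 : Matrix (Fin 2 × Fin q) (Fin 2 × Fin q) ℂ))
    (mem : ∀ X ∈ L, ∃ (x : Matrix (Fin 2) (Fin 2) ℂ) (z : Matrix (Fin q) (Fin q) ℂ), x.trace = 0 ∧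
      X = kr x 1 + kr 1 z)
    {z₀ : Matrix (Fin q) (Fin q) ℂ} (hz₀ : kr !![1 / 2, 0; 0, -(1 / 2)] 1 + kr 1 z₀ ∈ L)
    {x : Matrix (Fin 2) (Fin 2) ℂ} (hx : x.trace = 0) : kr x (1 : Matrix (Fin q) (Fin q) ℂ) ∈ L := by
  rcases Nat.eq_zero_or_pos q with hq | hq
  · subst hq
    have h1 : kr x (1 : Matrix (Fin 0) (Fin 0) ℂ) = 0 := by
      ext ⟨i, k⟩
      exact k.elim0
    rw [h1]
    exact L.zero_mem
  let k₀ : Fin q := ⟨0, hq⟩
  -- brackets and adjoints in coordinates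
  have brc : ∀ {x x' : Matrix (Fin 2) (Fin 2) ℂ} {z z' : Matrix (Fin q) (Fin q) ℂ}, kr x 1 + kr 1 z ∈ L →
      kr x' 1 + kr 1 z' ∈ L → kr (x * x' - x' * x) 1 + kr 1 (z * z' - z' * z) ∈ L := by
    intro x x' z z' h1 h2
    rw [← kr_br45]
    exact br _ h1 _ h2
  have stc : ∀ {x : Matrix (Fin 2) (Fin 2) ℂ} {z : Matrix (Fin q) (Fin q) ℂ}, kr x 1 + kr 1 z ∈ L →
      kr xᴴ 1 + kr 1 zᴴ ∈ L := by
    intro x z h1
    have h2 := st _ h1
    rwa [conjTranspose_add, kr_star45, kr_star45, conjTranspose_one, conjTranspose_one] at h2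
  have addc : ∀ {x x' : Matrix (Fin 2) (Fin 2) ℂ} {z z' : Matrix (Fin q) (Fin q) ℂ}, kr x 1 + kr 1 z ∈ L →
      kr x' 1 + kr 1 z' ∈ L → kr (x + x') 1 + kr 1 (z + z') ∈ L := by
    intro x x' z z' h1 h2
    have h3 := L.add_mem h1 h2
    have h4 : kr (x + x') 1 + kr 1 (z + z') = kr x 1 + kr 1 z + (kr x' 1 + kr 1 z') := by
      rw [kr_add_left45, kr_add_right45]
      abel
    rw [h4]
    exact h3
  have smc : ∀ (c : ℂ) {x : Matrix (Fin 2) (Fin 2) ℂ} {z : Matrix (Fin q) (Fin q) ℂ}, kr x 1 + kr 1 z ∈ L →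
      kr (c • x) 1 + kr 1 (c • z) ∈ L := by
    intro c x z h1
    rw [kr_smul_left45, kr_smul_right45, ← smul_add]
    exact L.smul_mem _ h1
  have subc : ∀ {x x' : Matrix (Fin 2) (Fin 2) ℂ} {z z' : Matrix (Fin q) (Fin q) ℂ}, kr x 1 + kr 1 z ∈ L →
      kr x' 1 + kr 1 z' ∈ L → kr (x - x') 1 + kr 1 (z - z') ∈ L := by
    intro x x' z z' h1 h2
    have h3 := addc h1 (smc (-1) h2)
    simpa only [neg_smul, one_smul, ← sub_eq_add_neg] using h3
  -- step 1: an element with a nonzero corner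
  have step1 : ∃ (x : Matrix (Fin 2) (Fin 2) ℂ) (z : Matrix (Fin q) (Fin q) ℂ), kr x 1 + kr 1 z ∈ L ∧ x 0 1 ≠ 0 := by
    by_contra hcon
    push Not at hcon
    have h10 : ∀ (x : Matrix (Fin 2) (Fin 2) ℂ) (z : Matrix (Fin q) (Fin q) ℂ), kr x 1 + kr 1 z ∈ L → x 1 0 = 0 := by
      intro x z h1
      have h2 := hcon _ _ (stc h1)
      rw [conjTranspose_apply, star_eq_zero] at h2
      exact h2
    obtain ⟨c, hc⟩ := irr (kr !![1, 0; 0, 0] 1) (by
      intro X hX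
      obtain ⟨x, z, -, rfl⟩ := mem X hX
      have e1 : !![(1 : ℂ), 0; 0, 0] * x = x * !![1, 0; 0, 0] := by
        have h1 := hcon _ _ hX
        have h2 := h10 _ _ hX
        ext i j
        fin_cases i <;> fin_cases j <;> simp [Matrix.mul_apply, Fin.sum_univ_two, h1, h2]
      rw [mul_add, add_mul, kr_mul, kr_mul, kr_mul, kr_mul, e1]
      simp only [Matrix.mul_one, Matrix.one_mul])
    have h1 := congrFun (congrFun hc (0, k₀)) (0, k₀)
    have h2 := congrFun (congrFun hc (1, k₀)) (1, k₀)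
    simp [kroneckerMap_apply] at h1 h2
    rw [← h1] at h2
    exact one_ne_zero h2.symm
  -- step 2: the element e
  obtain ⟨z₁, hz₁⟩ : ∃ z : Matrix (Fin q) (Fin q) ℂ, kr !![0, 1; 0, 0] 1 + kr 1 z ∈ L := by
    obtain ⟨x, z, h1, h2⟩ := step1
    have h3 := brc hz₀ h1
    have h4 := brc hz₀ h3
    have h5 := smc (1 / (2 * x 0 1)) (addc h3 h4)
    rw [br_a45, br_a45] at h5
    have e1 : (1 / (2 * x 0 1)) • (!![0, x 0 1; -(x 1 0), 0] +
        !![0, !![0, x 0 1; -(x 1 0), 0] 0 1; -(!![0, x 0 1; -(x 1 0), 0] 1 0), 0]) = !![0, 1; 0, 0] := by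
      ext i j
      fin_cases i <;> fin_cases j
      · simp
      · simp
        field_simp
        ring
      · simp
      · simp
    rw [e1] at h5
    exact ⟨_, h5⟩
  -- the ideal K
  let K : Submodule ℂ (Matrix (Fin q) (Fin q) ℂ) :=
    { carrier := {w | kr (1 : Matrix (Fin 2) (Fin 2) ℂ) w ∈ L}
      add_mem' := by
        intro a b ha hb
        change kr 1 (a + b) ∈ L
        rw [kr_add_right45]
        exact L.add_mem ha hb
      zero_mem' := by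
        change kr 1 (0 : Matrix (Fin q) (Fin q) ℂ) ∈ L
        rw [kr_zero_right45]
        exact L.zero_mem
      smul_mem' := by
        intro c a ha
        change kr 1 (c • a) ∈ L
        rw [kr_smul_right45]
        exact L.smul_mem _ ha }
  have toK : ∀ {w : Matrix (Fin q) (Fin q) ℂ}, kr (0 : Matrix (Fin 2) (Fin 2) ℂ) 1 + kr 1 w ∈ L → w ∈ K := by
    intro w hw
    rw [kr_zero_left45, zero_add] at hw
    exact hw
  have ofK : ∀ {w : Matrix (Fin q) (Fin q) ℂ}, w ∈ K → kr (0 : Matrix (Fin 2) (Fin 2) ℂ) 1 + kr 1 w ∈ L := by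
    intro w hw
    rw [kr_zero_left45, zero_add]
    exact hw
  have Kst : ∀ w ∈ K, wᴴ ∈ K := by
    intro w hw
    have h1 := stc (ofK hw)
    rw [conjTranspose_zero] at h1
    exact toK h1
  have Kid : ∀ {x : Matrix (Fin 2) (Fin 2) ℂ} {z : Matrix (Fin q) (Fin q) ℂ}, kr x 1 + kr 1 z ∈ L → ∀ w ∈ K,
      z * w - w * z ∈ K := by
    intro x z h1 w hw
    have h2 := brc h1 (ofK hw)
    rw [Matrix.mul_zero, Matrix.zero_mul, sub_zero] at h2
    exact toK h2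
  -- elements orthogonal to K commute with K
  have comm : ∀ {x : Matrix (Fin 2) (Fin 2) ℂ} {z : Matrix (Fin q) (Fin q) ℂ}, kr x 1 + kr 1 z ∈ L →
      (∀ w ∈ K, (wᴴ * z).trace = 0) → ∀ w ∈ K, z * w = w * z := by
    intro x z h1 hp w hw
    rw [← sub_eq_zero]
    obtain ⟨v, hv⟩ : ∃ v, v = z * w - w * z := ⟨_, rfl⟩
    have hvK : v ∈ K := hv ▸ Kid h1 w hw
    rw [← hv]
    apply tr_zero45
    have h2 : v * wᴴ - wᴴ * v ∈ K := Kid (ofK hvK) _ (Kst w hw)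
    have h3 := hp _ h2
    rw [conjTranspose_sub, conjTranspose_mul, conjTranspose_mul, conjTranspose_conjTranspose, sub_mul, trace_sub] at h3
    nth_rw 2 [hv]
    rw [mul_sub, trace_sub, ← Matrix.mul_assoc, trace_mul_comm (vᴴ * z) w, ← Matrix.mul_assoc, ← Matrix.mul_assoc]
    exact h3
  -- the triple
  obtain ⟨k₁, hk₁, hperp⟩ := proj45 K z₁
  obtain ⟨e', he'⟩ : ∃ e', e' = z₁ - k₁ := ⟨_, rfl⟩
  rw [← he'] at hperp
  have hE : kr !![0, 1; 0, 0] 1 + kr 1 e' ∈ L := by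
    have h1 := subc hz₁ (ofK hk₁)
    rw [sub_zero, ← he'] at h1
    exact h1
  obtain ⟨f', hf'⟩ : ∃ f', f' = e'ᴴ := ⟨_, rfl⟩
  have hF : kr !![0, 0; 1, 0] 1 + kr 1 f' ∈ L := by
    have h1 := stc hE
    rw [← hf'] at h1
    have h2 : (!![(0 : ℂ), 1; 0, 0])ᴴ = !![0, 0; 1, 0] := by
      ext i j
      fin_cases i <;> fin_cases j <;> simp [conjTranspose_apply]
    rw [h2] at h1
    exact h1
  have hperpF : ∀ w ∈ K, (wᴴ * f').trace = 0 := by
    intro w hw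
    have h1 := hperp _ (Kst w hw)
    rw [conjTranspose_conjTranspose] at h1
    rw [hf', ← conjTranspose_mul, trace_conjTranspose, trace_mul_comm, h1, star_zero]
  have cE := comm hE hperp
  have cF := comm hF hperpF
  obtain ⟨h', hh'⟩ : ∃ h', h' = e' * f' - f' * e' := ⟨_, rfl⟩
  have hH : kr !![1, 0; 0, -1] 1 + kr 1 h' ∈ L := by
    have h1 := brc hE hF
    rw [← hh'] at h1
    have h2 : !![(0 : ℂ), 1; 0, 0] * !![0, 0; 1, 0] - !![0, 0; 1, 0] * !![0, 1; 0, 0] = !![1, 0; 0, -1] := by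
      simp only [Matrix.mul_fin_two]
      ext i j
      fin_cases i <;> fin_cases j <;> simp
    rw [h2] at h1
    exact h1
  have cH : ∀ w ∈ K, h' * w = w * h' := by
    intro w hw
    have h1 := cE w hw
    have h2 := cF w hw
    rw [hh', sub_mul, mul_sub]
    congr 1
    · rw [Matrix.mul_assoc, h2, ← Matrix.mul_assoc, h1, Matrix.mul_assoc]
    · rw [Matrix.mul_assoc, h1, ← Matrix.mul_assoc, h2, Matrix.mul_assoc]
  have relE : h' * e' - e' * h' = (2 : ℂ) • e' := by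
    rw [← sub_eq_zero]
    obtain ⟨w, hw⟩ : ∃ w, w = h' * e' - e' * h' - (2 : ℂ) • e' := ⟨_, rfl⟩
    rw [← hw]
    have hwK : w ∈ K := by
      have h1 := subc (brc hH hE) (smc 2 hE)
      rw [← hw] at h1
      have h2 : !![(1 : ℂ), 0; 0, -1] * !![0, 1; 0, 0] - !![0, 1; 0, 0] * !![1, 0; 0, -1] -
          (2 : ℂ) • !![0, 1; 0, 0] = 0 := by
        simp only [Matrix.mul_fin_two]
        ext i j
        fin_cases i <;> fin_cases j <;> simp
        norm_num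
      rw [h2] at h1
      exact toK h1
    apply tr_zero45
    nth_rw 2 [hw]
    have h3 := cE _ (Kst w hwK)
    rw [mul_sub, mul_sub, trace_sub, trace_sub, mul_smul_comm, trace_smul, hperp w hwK, smul_zero, sub_zero,
      ← Matrix.mul_assoc, trace_mul_comm (wᴴ * h') e', ← Matrix.mul_assoc, h3, ← Matrix.mul_assoc, sub_self]
  have relF : h' * f' - f' * h' = -((2 : ℂ) • f') := by
    rw [← sub_eq_zero, sub_neg_eq_add]
    obtain ⟨w, hw⟩ : ∃ w, w = h' * f' - f' * h' + (2 : ℂ) • f' := ⟨_, rfl⟩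
    rw [← hw]
    have hwK : w ∈ K := by
      have h1 := addc (brc hH hF) (smc 2 hF)
      rw [← hw] at h1
      have h2 : !![(1 : ℂ), 0; 0, -1] * !![0, 0; 1, 0] - !![0, 0; 1, 0] * !![1, 0; 0, -1] +
          (2 : ℂ) • !![0, 0; 1, 0] = 0 := by
        simp only [Matrix.mul_fin_two]
        ext i j
        fin_cases i <;> fin_cases j <;> simp
        norm_num
      rw [h2] at h1
      exact toK h1
    apply tr_zero45
    nth_rw 2 [hw]
    have h3 := cF _ (Kst w hwK)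
    rw [mul_add, mul_sub, trace_add, trace_sub, mul_smul_comm, trace_smul, hperpF w hwK, smul_zero, add_zero,
      ← Matrix.mul_assoc, trace_mul_comm (wᴴ * h') f', ← Matrix.mul_assoc, h3, ← Matrix.mul_assoc, sub_self]
  -- relations in the big algebra
  have swap : ∀ (a : Matrix (Fin 2) (Fin 2) ℂ) (b : Matrix (Fin q) (Fin q) ℂ),
      kr (1 : Matrix (Fin 2) (Fin 2) ℂ) b * kr a 1 = kr a 1 * kr 1 b := by
    intro a b
    rw [kr_mul, kr_mul, Matrix.mul_one, Matrix.one_mul, Matrix.one_mul, Matrix.mul_one]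
  have lft : ∀ a b : Matrix (Fin 2) (Fin 2) ℂ, kr a (1 : Matrix (Fin q) (Fin q) ℂ) * kr b 1 - kr b 1 * kr a 1 =
      kr (a * b - b * a) 1 := by
    intro a b
    rw [kr_mul, kr_mul, Matrix.mul_one, kr_sub_left45]
  have rgt : ∀ a b : Matrix (Fin q) (Fin q) ℂ, kr (1 : Matrix (Fin 2) (Fin 2) ℂ) a * kr 1 b - kr 1 b * kr 1 a =
      kr 1 (a * b - b * a) := by
    intro a b
    rw [kr_mul, kr_mul, Matrix.mul_one, kr_sub_right45]
  have m1 : !![(0 : ℂ), 1; 0, 0] * !![0, 0; 1, 0] - !![0, 0; 1, 0] * !![0, 1; 0, 0] = !![1, 0; 0, -1] := by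
    simp only [Matrix.mul_fin_two]
    ext i j
    fin_cases i <;> fin_cases j <;> simp
  have m2 : !![(1 : ℂ), 0; 0, -1] * !![0, 1; 0, 0] - !![0, 1; 0, 0] * !![1, 0; 0, -1] =
      (2 : ℂ) • !![0, 1; 0, 0] := by
    simp only [Matrix.mul_fin_two]
    ext i j
    fin_cases i <;> fin_cases j <;> simp
    norm_num
  have m3 : !![(1 : ℂ), 0; 0, -1] * !![0, 0; 1, 0] - !![0, 0; 1, 0] * !![1, 0; 0, -1] =
      -((2 : ℂ) • !![0, 0; 1, 0]) := by
    simp only [Matrix.mul_fin_two]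
    ext i j
    fin_cases i <;> fin_cases j <;> simp
    norm_num
  obtain ⟨c, hc⟩ : ∃ c, c = kr !![(0 : ℂ), 1; 0, 0] 1 * kr 1 f' + kr !![(0 : ℂ), 0; 1, 0] 1 * kr 1 e' +
      (1 / 2 : ℂ) • (kr !![(1 : ℂ), 0; 0, -1] 1 * kr 1 h') := ⟨_, rfl⟩
  have CE : c * (kr !![0, 1; 0, 0] 1 + kr 1 e') = (kr !![0, 1; 0, 0] 1 + kr 1 e') * c := by
    rw [hc]
    refine cas45 ?_ ?_ ?_ ?_ (swap _ _) (swap _ _) (swap _ _) (swap _ _) (swap _ _)
    · rw [lft, m1]
    · rw [lft, m2, kr_smul_left45]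
    · rw [rgt, hh']
    · rw [rgt, relE, kr_smul_right45]
  have CF : c * (kr !![0, 0; 1, 0] 1 + kr 1 f') = (kr !![0, 0; 1, 0] 1 + kr 1 f') * c := by
    have hc2 : c = kr !![(0 : ℂ), 0; 1, 0] 1 * kr 1 e' + kr !![(0 : ℂ), 1; 0, 0] 1 * kr 1 f' +
        (1 / 2 : ℂ) • (-(kr !![(1 : ℂ), 0; 0, -1] 1) * -(kr 1 h')) := by
      rw [hc, neg_mul_neg, add_comm (kr !![(0 : ℂ), 1; 0, 0] 1 * kr 1 f')]
    rw [hc2]
    refine cas45 ?_ ?_ ?_ ?_ (swap _ _) (swap _ _) ?_ (swap _ _) ?_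
    · rw [← neg_sub, lft, m1]
    · rw [neg_mul, mul_neg, ← neg_sub', lft, m3, kr_neg_left45, neg_neg, kr_smul_left45]
    · rw [← neg_sub, rgt, hh']
    · rw [neg_mul, mul_neg, ← neg_sub', rgt, relF, kr_neg_right45, neg_neg, kr_smul_right45]
    · rw [neg_mul, mul_neg, swap]
    · rw [neg_mul, mul_neg, swap]
  have CH : c * (kr !![1, 0; 0, -1] 1 + kr 1 h') = (kr !![1, 0; 0, -1] 1 + kr 1 h') * c := by
    have h1 := kr_br45 !![0, 1; 0, 0] !![0, 0; 1, 0] e' f'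
    rw [m1, ← hh'] at h1
    rw [← h1]
    have h2 : Commute c (kr !![0, 1; 0, 0] 1 + kr 1 e') := CE
    have h3 : Commute c (kr !![0, 0; 1, 0] 1 + kr 1 f') := CF
    exact (h2.mul_right h3).sub_right (h3.mul_right h2)
  have Cw : ∀ w ∈ K, c * kr 1 w = kr 1 w * c := by
    intro w hw
    rw [hc]
    simp only [kr_mul, mul_add, add_mul, mul_smul_comm, smul_mul_assoc, Matrix.mul_one, Matrix.one_mul, cE w hw,
      cF w hw, cH w hw]
  have decomp : ∀ {x : Matrix (Fin 2) (Fin 2) ℂ}, x.trace = 0 → x = x 0 1 • !![0, 1; 0, 0] +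
      x 1 0 • !![0, 0; 1, 0] + x 0 0 • !![1, 0; 0, -1] := by
    intro x hx
    rw [Matrix.trace_fin_two] at hx
    have h1 : x 1 1 = -(x 0 0) := by linear_combination hx
    ext i j
    fin_cases i <;> fin_cases j <;> simp [h1]
  obtain ⟨μ, hμ⟩ := irr c (by
    intro X hX
    obtain ⟨x, z, hx, rfl⟩ := mem X hX
    have h1 := decomp hx
    obtain ⟨w, hw⟩ : ∃ w, w = z - (x 0 1 • e' + x 1 0 • f' + x 0 0 • h') := ⟨_, rfl⟩
    have hwK : w ∈ K := by
      have h2 := subc hX (addc (addc (smc (x 0 1) hE) (smc (x 1 0) hF)) (smc (x 0 0) hH))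
      rw [← h1, sub_self, ← hw] at h2
      exact toK h2
    have h3 : kr x 1 + kr 1 z = x 0 1 • (kr !![0, 1; 0, 0] 1 + kr 1 e') + x 1 0 • (kr !![0, 0; 1, 0] 1 + kr 1 f') +
        x 0 0 • (kr !![1, 0; 0, -1] 1 + kr 1 h') + kr 1 w := by
      conv_lhs => rw [h1]
      rw [hw]
      simp only [kr_add_left45, kr_smul_left45, kr_sub_right45, kr_add_right45, kr_smul_right45, smul_add]
      abel
    rw [h3]
    simp only [mul_add, add_mul, mul_smul_comm, smul_mul_assoc] at CE CF CH ⊢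
    rw [Cw w hwK]
    have e1 := congrArg (fun M => x 0 1 • M) CE
    have e2 := congrArg (fun M => x 1 0 • M) CF
    have e3 := congrArg (fun M => x 0 0 • M) CH
    simp only [smul_add] at e1 e2 e3 ⊢
    rw [e1, e2, e3])
  have hf0 : f' = 0 := by
    ext k l
    have h1 := congrFun (congrFun (hc.symm.trans hμ) (0, k)) (1, l)
    simp only [kr_mul, Matrix.mul_one, Matrix.one_mul, Matrix.add_apply, Matrix.smul_apply, kroneckerMap_apply] at h1
    simpa using h1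
  have he0 : e' = 0 := by
    rw [hf0] at hf'
    exact conjTranspose_eq_zero.1 hf'.symm
  have hh0 : h' = 0 := by
    rw [hh', hf0, he0, Matrix.mul_zero, sub_self]
  rw [he0, kr_zero_right45, add_zero] at hE
  rw [hf0, kr_zero_right45, add_zero] at hF
  rw [hh0, kr_zero_right45, add_zero] at hH
  have h1 := decomp hx
  rw [h1, kr_add_left45, kr_add_left45, kr_smul_left45, kr_smul_left45, kr_smul_left45]
  exact L.add_mem (L.add_mem (L.smul_mem _ hE) (L.smul_mem _ hF)) (L.smul_mem _ hH)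

end core45

variable {n : Type*} [Fintype n] [DecidableEq n] {q : ℕ}
variable {L : Submodule ℂ (Matrix n n ℂ)} {h U : Matrix n n ℂ} {e : n ≃ Fin 2 × Fin q} {y : Fin q → ℤ}

theorem Tw.sl2 (W : Tw L h e U y) (br : ∀ x ∈ L, ∀ y ∈ L, x * y - y * x ∈ L) (st : ∀ x ∈ L, xᴴ ∈ L)
    (irr : ∀ T : Matrix n n ℂ, (∀ x ∈ L, T * x = x * T) → ∃ c : ℂ, T = c • (1 : Matrix n n ℂ)) (hh : h ∈ L)
    {x : Matrix (Fin 2) (Fin 2) ℂ} (hx : x.trace = 0) : tz U Uᴴ e (kr x 1) ∈ L := by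
  let L' : Submodule ℂ (Matrix (Fin 2 × Fin q) (Fin 2 × Fin q) ℂ) :=
    { carrier := {M | tz U Uᴴ e M ∈ L}
      add_mem' := by
        intro a b ha hb
        change tz U Uᴴ e (a + b) ∈ L
        rw [tz_add]
        exact L.add_mem ha hb
      zero_mem' := by
        change tz U Uᴴ e 0 ∈ L
        rw [tz_zero]
        exact L.zero_mem
      smul_mem' := by
        intro c a ha
        change tz U Uᴴ e (c • a) ∈ L
        rw [tz_smul]
        exact L.smul_mem _ ha }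
  have memL : ∀ M, M ∈ L' ↔ tz U Uᴴ e M ∈ L := fun M => Iff.rfl
  rw [← memL]
  refine sl2core45 L' ?_ ?_ ?_ ?_ (z₀ := diagonal fun k => ((y k : ℤ) : ℂ)) ?_ hx
  · intro a ha b hb
    rw [memL] at ha hb ⊢
    rw [tz_sub, ← tz_mul W.left, ← tz_mul W.left]
    exact br _ ha _ hb
  · intro a ha
    rw [memL] at ha ⊢
    rw [← tz_star]
    exact st _ ha
  · intro T hT
    obtain ⟨c, hc⟩ := irr (tz U Uᴴ e T) (by
      intro X hX
      obtain ⟨x, z, -, rfl⟩ := W.mem X hX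
      rw [tz_mul W.left, tz_mul W.left, hT _ ((memL _).2 hX)])
    refine ⟨c, tz_inj (T := U) (Ti := Uᴴ) (e := e) W.left ?_⟩
    rw [hc, tz_smul, tz_one W.right]
  · intro X hX
    rw [memL] at hX
    obtain ⟨x, z, hx, h1⟩ := W.mem _ hX
    exact ⟨x, z, hx, tz_inj W.left h1⟩
  · rw [memL, ← W.h_eq]
    exact hh

end OW
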