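import Pool.Agent.Helper71.OW.Sml
import Pool.Agent.Helper21.GH.Gst
import Pool.Agent.Helper98.MH.Spc

/-!
OW-40. A primitive self-adjoint Lie algebra of matrices that are skew for a form and that contains a nonzero Hermitian
matrix of small rank consists of all skew matrices.
-/

set_option linter.unusedSectionVars false

open Matrix MH

namespace OW

variable {n : Type*} [Fintype n] [DecidableEq n]
variable {J Ji : Matrix n n ℂ} {L : Submodule ℂ (Matrix n n ℂ)}

theorem full_of_small (br : ∀ x ∈ L, ∀ y ∈ L, x * y - y * x ∈ L) (st : ∀ x ∈ L, xᴴ ∈ L) (P : Prim L)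
    (hJJ : J * Ji = 1) (hJ : ∀ z ∈ L, zᵀ * J + J * z = 0) (h3 : 3 ≤ Fintype.card n) {k : Matrix n n ℂ}
    (hkL : k ∈ L) (hks : kᴴ = k) (hk0 : k ≠ 0) (hr : (k.rank + 1) ^ 2 ≤ Fintype.card n)
    {y : Matrix n n ℂ} (hyJ : yᵀ * J + J * y = 0) : y ∈ L := by
  classical
  have hJJ' : Ji * J = 1 := mul_eq_one_comm.1 hJJ
  have hn0 : ((Fintype.card n : ℕ) : ℂ) ≠ 0 := by
    rw [Nat.cast_ne_zero]
    omega
  haveI : Nonempty n := Fintype.card_pos_iff.1 (by omega)
  -- the trace of skew matrices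
  have tr0 : ∀ z : Matrix n n ℂ, zᵀ * J + J * z = 0 → z.trace = 0 := by
    intro z hz
    have e1 : zᵀ * J = -(J * z) := eq_neg_of_add_eq_zero_left hz
    have e2 : z.trace = -z.trace := by
      calc z.trace = (zᵀ * (J * Ji)).trace := by rw [hJJ, mul_one, Matrix.trace_transpose]
        _ = -(J * z * Ji).trace := by rw [← mul_assoc, e1, neg_mul, Matrix.trace_neg]
        _ = -z.trace := by rw [mul_assoc, Matrix.trace_mul_comm, mul_assoc, hJJ', mul_one]
    exact self_eq_neg.1 e2
  obtain ⟨E', Λ', S', -⟩ := exists_spec98 hks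
  -- the algebra with the scalars
  set L' : Submodule ℂ (Matrix n n ℂ) := L ⊔ Submodule.span ℂ {1} with hL'
  have memL' : ∀ z, z ∈ L' ↔ ∃ l ∈ L, ∃ c : ℂ, z = l + c • (1 : Matrix n n ℂ) := by
    intro z
    rw [hL', Submodule.mem_sup]
    constructor
    · rintro ⟨l, hl, w, hw, rfl⟩
      obtain ⟨c, rfl⟩ := Submodule.mem_span_singleton.1 hw
      exact ⟨l, hl, c, rfl⟩
    · rintro ⟨l, hl, c, rfl⟩
      exact ⟨l, hl, _, Submodule.smul_mem _ _ (Submodule.mem_span_singleton_self _), rfl⟩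
  have leL' : L ≤ L' := le_sup_left
  have tr0L : ∀ z ∈ L', z.trace = 0 → z ∈ L := by
    intro z hz h0
    obtain ⟨l, hl, c, rfl⟩ := (memL' z).1 hz
    rw [trace_add, tr0 l (hJ l hl), zero_add, trace_smul, trace_one, smul_eq_mul] at h0
    rcases mul_eq_zero.1 h0 with h4 | h4
    · rw [h4, zero_smul, add_zero]
      exact hl
    · exact absurd h4 hn0
  have br' : ∀ a ∈ L', ∀ b ∈ L', a * b - b * a ∈ L' := by
    intro a ha b hb
    obtain ⟨l, hl, c, rfl⟩ := (memL' a).1 ha
    obtain ⟨m, hm, d, rfl⟩ := (memL' b).1 hb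
    have : (l + c • (1 : Matrix n n ℂ)) * (m + d • (1 : Matrix n n ℂ)) -
        (m + d • (1 : Matrix n n ℂ)) * (l + c • (1 : Matrix n n ℂ)) = l * m - m * l := by
      simp only [add_mul, mul_add, smul_mul_assoc, mul_smul_comm, one_mul, mul_one, smul_add]
      rw [smul_comm c d]
      abel
    rw [this]
    exact leL' (br _ hl _ hm)
  have st' : ∀ a ∈ L', aᴴ ∈ L' := by
    intro a ha
    obtain ⟨l, hl, c, rfl⟩ := (memL' a).1 ha
    rw [conjTranspose_add, conjTranspose_smul, conjTranspose_one]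
    exact (memL' _).2 ⟨_, st _ hl, _, rfl⟩
  have G : GH.Gr L' k E' Λ' := ⟨S', br', st', leL' hkL⟩
  have P' : Prim L' := by
    intro A h4 h5
    exact P A h4 fun z hz => h5 z (leL' hz)
  have h1L' : (1 : Matrix n n ℂ) ∈ L' := (memL' 1).2 ⟨0, L.zero_mem, 1, by simp⟩
  have hE0 : E' 0 ≠ 1 := by
    intro h0
    apply hk0
    have h4 := S'.mul_h 0
    rw [h0, one_mul] at h4
    rw [h4]
    simp
  have hr1 : (1 - E' 0).rank ≤ k.rank := by
    have h4 : 1 - E' 0 = k * ∑ μ ∈ Λ'.erase 0, ((μ : ℂ)⁻¹) • E' μ := by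
      rw [Finset.mul_sum]
      have h5 : ∀ μ ∈ Λ'.erase 0, k * ((μ : ℂ)⁻¹ • E' μ) = E' μ := by
        intro μ hμ
        have h6 : (μ : ℂ) ≠ 0 := by exact_mod_cast (Finset.ne_of_mem_erase hμ)
        rw [mul_smul_comm, S'.h_mul, smul_smul, inv_mul_cancel₀ h6, one_smul]
      rw [Finset.sum_congr rfl h5, ← S'.sum, sub_eq_iff_eq_add]
      by_cases h6 : (0 : ℝ) ∈ Λ'
      · rw [Finset.sum_erase_add _ _ h6]
      · rw [Finset.erase_eq_of_notMem h6, S'.supp 0 h6, add_zero]
    rw [h4]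
    exact Matrix.rank_mul_le_left _ _
  have hDg : GH.Dg k := by
    refine ⟨Λ'.image (fun μ : ℝ => (μ : ℂ)), fun z => if z.im = 0 then E' z.re else 0, ?_, ?_, ?_⟩
    · intro μ ν'
      simp only
      by_cases h4 : μ.im = 0 <;> by_cases h5 : ν'.im = 0
      · rw [if_pos h4, if_pos h5, S'.mul]
        by_cases h6 : μ.re = ν'.re
        · rw [if_pos h6, if_pos (Complex.ext h6 (h4.trans h5.symm))]
        · rw [if_neg h6, if_neg (fun h7 => h6 (by rw [h7]))]
      · rw [if_neg h5, mul_zero, if_neg]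
        rintro rfl
        exact h5 h4
      · rw [if_neg h4, zero_mul]
        split_ifs <;> rfl
      · rw [if_neg h4, zero_mul]
        split_ifs <;> rfl
    · rw [Finset.sum_image (fun a _ b _ hab => by exact_mod_cast hab)]
      simp only [Complex.ofReal_im, if_true, Complex.ofReal_re]
      exact S'.sum
    · rw [Finset.sum_image (fun a _ b _ hab => by exact_mod_cast hab)]
      simp only [Complex.ofReal_im, if_true, Complex.ofReal_re]
      exact S'.eq
  have hSm : GH.Sm k := by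
    refine ⟨0, Or.inr ?_⟩
    rw [zero_smul, sub_zero]
    exact hr
  have hns : ∀ c : ℂ, k ≠ c • (1 : Matrix n n ℂ) := by
    intro c hc
    have h4 := tr0 k (hJ k hkL)
    rw [hc, trace_smul, trace_one, smul_eq_mul] at h4
    rcases mul_eq_zero.1 h4 with h5 | h5
    · apply hk0
      rw [hc, h5, zero_smul]
    · exact hn0 h5
  have good := GH.gst G h1L' hE0 (Or.inr ((Nat.pow_le_pow_left (by omega) 2).trans hr)) h3
    (fun T hT => small br' st' P' (leL' hkL) hDg hSm hns hT)
  rcases good.ty with hT | ⟨Q, -, hQu, hQ1, hQ2⟩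
  · -- everything of trace zero
    exact tr0L y (hT y (tr0 y hyJ)) (tr0 y hyJ)
  · obtain ⟨Qi, hQQ⟩ := hQu.exists_right_inv
    have hQQ' : Qi * Q = 1 := mul_eq_one_comm.1 hQQ
    -- elements of trace zero of `L'` are skew for `Q`
    have hskQ : ∀ z ∈ L', z.trace = 0 → zᵀ * Q + Q * z = 0 := by
      intro z hz h0
      obtain ⟨c, hc⟩ := hQ2 z hz
      have h4 : zᵀ + Q * z * Qi = c • (1 : Matrix n n ℂ) := by
        have h5 := congrArg (fun M => M * Qi) hc
        simp only [add_mul, smul_mul_assoc, hQQ] at h5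
        rw [mul_assoc zᵀ, hQQ, mul_one] at h5
        exact h5
      have h5 := congrArg trace h4
      rw [trace_add, trace_transpose, trace_mul_comm, ← mul_assoc, hQQ', one_mul, h0, zero_add, trace_smul,
        trace_one, smul_eq_mul] at h5
      rcases mul_eq_zero.1 h5.symm with h6 | h6
      · rw [hc, h6, zero_smul]
      · exact absurd h6 hn0
    -- `J` is a multiple of `Q`
    have hcomm : ∀ z ∈ L', z.trace = 0 → (Qi * J) * z = z * (Qi * J) := by
      intro z hz h0
      have h4 := hskQ z hz h0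
      have h5 := hJ z (tr0L z hz h0)
      have h6 : Qi * zᵀ = -(z * Qi) := by
        have h7 := congrArg (fun M => Qi * M * Qi) h4
        simp only [mul_add, add_mul, mul_zero, zero_mul] at h7
        rw [← mul_assoc Qi zᵀ, mul_assoc (Qi * zᵀ), hQQ, mul_one, ← mul_assoc Qi Q, hQQ', one_mul] at h7
        exact eq_neg_of_add_eq_zero_left h7
      have h7 : J * z = -(zᵀ * J) := by
        rw [eq_neg_iff_add_eq_zero, add_comm]
        exact h5
      rw [mul_assoc, h7, mul_neg, ← mul_assoc, h6, neg_mul, neg_neg, mul_assoc]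
    have hLd0 : ∀ ρ : ℝ, ρ ≠ 0 → ∀ z ∈ Ld L' k ρ, z.trace = 0 := by
      intro ρ hρ z hz
      have h4 := congrArg trace hz.2
      rw [trace_sub, trace_mul_comm, sub_self, trace_smul, smul_eq_mul] at h4
      rcases mul_eq_zero.1 h4.symm with h5 | h5
      · exact absurd (by exact_mod_cast h5) hρ
      · exact h5
    obtain ⟨c, hc⟩ := good.nr (Qi * J) (hcomm k (leL' hkL) (tr0 k (hJ k hkL)))
      (fun ρ hρ z hz => hcomm z hz.1 (hLd0 ρ hρ z hz))
    have hJQ : J = c • Q := by
      have h4 : Q * (Qi * J) = J := by rw [← mul_assoc, hQQ, one_mul]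
      rw [← h4, hc, mul_smul_comm, mul_one]
    have hc0 : c ≠ 0 := by
      rintro rfl
      have h4 := hJJ
      rw [hJQ, zero_smul, zero_mul] at h4
      exact zero_ne_one h4
    -- `y` is skew for `Q`
    have hyQ : yᵀ * Q + Q * y = 0 := by
      have hyJ' := hyJ
      rw [hJQ, mul_smul_comm, smul_mul_assoc, ← smul_add] at hyJ'
      rcases smul_eq_zero.1 hyJ' with h6 | h6
      · exact absurd h6 hc0
      · exact h6
    exact tr0L y (hQ1 y hyQ) (tr0 y hyJ)

end OW
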