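import Pool.Agent.Helper71.CY.Sy
import Pool.Agent.Helper98.MH.Stab

/-!
Project OW (MP_b8862a_ag, weight 25): irreducible self-adjoint Lie algebras of skew matrices that contain a
self-adjoint `h` with half-integral eigenvalues, such that all degrees are `0, 1, -1`. Definitions.
-/

open Matrix MH

namespace OW

variable {n : Type*} [Fintype n] [DecidableEq n]

/-- The only self-adjoint algebras of matrices that are normalised by `L` are the scalars and everything. -/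
def Prim (L : Submodule ℂ (Matrix n n ℂ)) : Prop :=
  ∀ A : Subalgebra ℂ (Matrix n n ℂ), (∀ a ∈ A, aᴴ ∈ A) → (∀ x ∈ L, ∀ a ∈ A, x * a - a * x ∈ A) → A = ⊥ ∨ A = ⊤

/-- The numbers `r p` are not the coefficients of a product of two Laurent polynomials with coefficients in `ℕ`
whose sums of coefficients are at least two. -/
def Indec (r : ℤ → ℕ) : Prop :=
  ∀ A B : ℤ →₀ ℕ, (∀ p : ℤ, r p = A.sum fun i a => a * B (p - i)) →
    (A.sum fun _ a => a) ≤ 1 ∨ (B.sum fun _ b => b) ≤ 1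

/-- Level one: the eigenvalues of `h` are in `ℤ + 1/2`, one of them is bigger than `1/2`, and all degrees in `L` are
`0, 1, -1`. -/
structure Lv (τ : Matrix n n ℂ →ₗ[ℂ] Matrix n n ℂ) (L : Submodule ℂ (Matrix n n ℂ)) (h : Matrix n n ℂ)
    (E : ℝ → Matrix n n ℂ) (Λ : Finset ℝ) : Prop where
  dat : Dat τ L h E Λ
  prim : Prim L
  half : ∀ μ : ℝ, E μ ≠ 0 → ∃ k : ℤ, μ = k + 1 / 2
  non : ∃ μ : ℝ, 1 / 2 < μ ∧ E μ ≠ 0
  lev : ∀ ν : ℝ, ν ≠ 0 → ν ≠ 1 → ν ≠ -1 → Ld L h ν = ⊥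

/-- The part of degree zero is the orthogonal sum of the commuting self-adjoint spaces `I` and `K`. -/
structure Pr (L : Submodule ℂ (Matrix n n ℂ)) (h : Matrix n n ℂ) (I K : Submodule ℂ (Matrix n n ℂ)) : Prop where
  le1 : I ≤ Ld L h 0
  le2 : K ≤ Ld L h 0
  st1 : ∀ c ∈ I, cᴴ ∈ I
  st2 : ∀ c ∈ K, cᴴ ∈ K
  com : ∀ c ∈ I, ∀ d ∈ K, c * d = d * c
  orth : ∀ c ∈ I, ∀ d ∈ K, (cᴴ * d).trace = 0
  sup : Ld L h 0 ≤ I ⊔ K

/-- `f` is an orthonormal basis of the part of degree `-1`, and this part is a tensor product on which `I` acts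
through the first factor and `K` acts through the second one. -/
structure Tn (L : Submodule ℂ (Matrix n n ℂ)) (h : Matrix n n ℂ) (I K : Submodule ℂ (Matrix n n ℂ)) {d q : ℕ}
    (f : Fin d → Fin q → Matrix n n ℂ) : Prop where
  pr : Pr L h I K
  mem : ∀ i k, f i k ∈ Ld L h (-1)
  orth : ∀ i k j l, ((f i k)ᴴ * f j l).trace = if i = j ∧ k = l then 1 else 0
  gen : ∀ m ∈ Ld L h (-1), m = ∑ i, ∑ k, ((f i k)ᴴ * m).trace • f i k
  act1 : ∀ c ∈ I, ∃ C : Matrix (Fin d) (Fin d) ℂ, ∀ i k, c * f i k - f i k * c = ∑ j, C j i • f j k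
  act2 : ∀ c ∈ K, ∃ C : Matrix (Fin q) (Fin q) ℂ, ∀ i k, c * f i k - f i k * c = ∑ l, C l k • f i l

/-- `c` acts on the part of degree `-1` as a scalar. -/
def Scl (L : Submodule ℂ (Matrix n n ℂ)) (h c : Matrix n n ℂ) : Prop :=
  ∃ χ : ℂ, ∀ x ∈ Ld L h (-1), c * x - x * c = χ • x

/-- The elements `D m j` of `I` act as `γ` times the matrix unit `(m, j)` of the first factor, minus `β` on the
diagonal. -/
def TyA (I : Submodule ℂ (Matrix n n ℂ)) {d q : ℕ} (f : Fin d → Fin q → Matrix n n ℂ) (γ β : ℂ)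
    (D : Fin d → Fin d → Matrix n n ℂ) : Prop :=
  (∀ m j, D m j ∈ I) ∧ ∀ m j i r, D m j * f i r - f i r * D m j =
    (if i = j then γ • f m r else 0) - (if m = j then β • f i r else 0)

end OW
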