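import Pool.Agent.Helper71.OW.TC
import Pool.Agent.Helper71.OW.Defs

/-!
OW-11. The numerical criterion for `Prim`. Proof. Let `A` be self-adjoint and normalised by `L`. Its centre is trivial
(`centre`); `coord A` gives `d, q, e, U`. For `x ∈ L` the derivation `[x, ·]` of `A` (`≅ M_d`) is inner: with `e_ij ∈ A` the
elements corresponding to the matrix units, `m = Σ_i [x, e_i1] e_1i ∈ A` satisfies `[x, a] = [m, a]` for `a ∈ A`, so `x - m`
commutes with `A` (`coord_comm`). For `x = h` (Hermitian; take Hermitian parts): `Uᴴ h U = a ⊗ 1 + 1 ⊗ b`, `a` and `b`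
Hermitian with eigenvalues `α_i` (`i < d`), `β_k` (`k < q`): the eigenvalues of `h` with multiplicities are the `α_i + β_k`
(e.g. diagonalise `a` and `b` by unitary matrices). They are in `ℤ + θ`. Let `A' j = #{i : α_i - α_0 = j}`,
`B' j = #{k : β_k + α_0 = j + θ}`, then `rank (E (p + θ)) = Σ_j A' j * B' (p - j)`, the sums are `d` and `q`. By `hr` `d ≤ 1` and
`A = ⊥`, or `q ≤ 1` and `A = ⊤`. (`n` empty: trivial.)
-/

open Matrix MH

namespace OW

variable {n : Type*} [Fintype n] [DecidableEq n]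
variable {h : Matrix n n ℂ} {E : ℝ → Matrix n n ℂ} {Λ : Finset ℝ} {L : Submodule ℂ (Matrix n n ℂ)}

private lemma diag81 {ι : Type*} [Fintype ι] [DecidableEq ι] {a : Matrix ι ι ℂ} (ha : aᴴ = a) :
    ∃ (V : Matrix ι ι ℂ) (α : ι → ℝ), Vᴴ * V = 1 ∧ V * Vᴴ = 1 ∧ a * V = V * diagonal (fun i => (α i : ℂ)) := by
  have hA : a.IsHermitian := ha
  refine ⟨(hA.eigenvectorUnitary : Matrix ι ι ℂ), hA.eigenvalues, ?_, ?_, ?_⟩
  · rw [← star_eq_conjTranspose]
    exact Unitary.coe_star_mul_self hA.eigenvectorUnitary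
  · rw [← star_eq_conjTranspose]
    exact Unitary.coe_mul_star_self hA.eigenvectorUnitary
  · have h1 := hA.conjStarAlgAut_star_eigenvectorUnitary
    rw [Unitary.conjStarAlgAut_star_apply] at h1
    have h2 : diagonal (fun i => ((hA.eigenvalues i : ℝ) : ℂ)) =
        star (hA.eigenvectorUnitary : Matrix ι ι ℂ) * a * (hA.eigenvectorUnitary : Matrix ι ι ℂ) := h1.symm
    have h3 : (hA.eigenvectorUnitary : Matrix ι ι ℂ) * star (hA.eigenvectorUnitary : Matrix ι ι ℂ) = 1 :=
      Unitary.coe_mul_star_self hA.eigenvectorUnitary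
    rw [h2, ← Matrix.mul_assoc, ← Matrix.mul_assoc, h3, Matrix.one_mul]

private lemma count81 {m : Type*} [Fintype m] [DecidableEq m] (S : Spec h E Λ) {X : Matrix n m ℂ} {Y : Matrix m n ℂ}
    (h1 : Y * X = 1) (h2 : X * Y = 1) {γ : m → ℝ} (h3 : h * X = X * diagonal (fun j => (γ j : ℂ))) (μ : ℝ) :
    (E μ).rank = (Finset.univ.filter fun j => γ j = μ).card := by
  have c1 : ∀ ν : ℝ, ∀ i j, γ j ≠ ν → (E ν * X) i j = 0 := by
    intro ν i j hj
    have e1 : E ν * (h * X) = (ν : ℂ) • (E ν * X) := by rw [← Matrix.mul_assoc, S.mul_h, Matrix.smul_mul]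
    rw [h3, ← Matrix.mul_assoc] at e1
    have e2 := congrFun (congrFun e1 i) j
    rw [mul_diagonal, Matrix.smul_apply, smul_eq_mul] at e2
    have e3 : (E ν * X) i j * ((γ j : ℂ) - ν) = 0 := by linear_combination e2
    rcases mul_eq_zero.1 e3 with h | h
    · exact h
    · exact absurd (by exact_mod_cast sub_eq_zero.1 h) hj
  obtain ⟨P, hP⟩ : ∃ P : Matrix m m ℂ, P = diagonal (fun j => if γ j = μ then (1 : ℂ) else 0) := ⟨_, rfl⟩
  have c2 : E μ * X * P = E μ * X := by
    ext i j
    rw [hP, mul_diagonal]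
    split_ifs with hj
    · rw [mul_one]
    · rw [mul_zero, c1 μ i j hj]
  have c3 : ∀ ν, ν ≠ μ → E ν * X * P = 0 := by
    intro ν hν
    ext i j
    rw [hP, mul_diagonal, Matrix.zero_apply]
    split_ifs with hj
    · rw [c1 ν i j (by rw [hj]; exact hν.symm), zero_mul]
    · rw [mul_zero]
  have c4 : X * P = E μ * X * P := by
    have e1 : X * P = ∑ ν ∈ Λ, E ν * X * P := by
      rw [← Matrix.sum_mul, ← Matrix.sum_mul, S.sum, Matrix.one_mul]
    rw [e1]
    by_cases hμ : μ ∈ Λ
    · exact Finset.sum_eq_single μ (fun ν _ hν => c3 ν hν) (fun h' => absurd hμ h')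
    · rw [S.supp μ hμ, Matrix.zero_mul, Matrix.zero_mul]
      exact Finset.sum_eq_zero fun ν hν => c3 ν (fun h' => hμ (h' ▸ hν))
  have c5 : E μ = X * P * Y := by
    rw [c4, c2, Matrix.mul_assoc, h2, Matrix.mul_one]
  have hr : ((E μ).rank : ℂ) = (E μ).trace := rank_eq_trace (by rw [S.mul, if_pos rfl])
  have ht : (E μ).trace = ((Finset.univ.filter fun j => γ j = μ).card : ℂ) := by
    rw [c5, trace_mul_comm, ← Matrix.mul_assoc, h1, Matrix.one_mul, hP, trace_diagonal, Finset.sum_boole]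
  rw [ht] at hr
  exact_mod_cast hr

private lemma entL81 {d q : ℕ} (H : Matrix (Fin d × Fin q) (Fin d × Fin q) ℂ) (C : Matrix (Fin d) (Fin d) ℂ)
    (i j : Fin d) (k l : Fin q) :
    (H * kroneckerMap (· * ·) C (1 : Matrix (Fin q) (Fin q) ℂ)) (i, k) (j, l) = ∑ p, H (i, k) (p, l) * C p j := by
  rw [Matrix.mul_apply, Fintype.sum_prod_type]
  refine Finset.sum_congr rfl fun p _ => ?_
  rw [Finset.sum_eq_single l]
  · rw [kroneckerMap_apply, Matrix.one_apply_eq, mul_one]
  · intro r _ hr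
    rw [kroneckerMap_apply, Matrix.one_apply_ne hr, mul_zero, mul_zero]
  · intro hl
    exact absurd (Finset.mem_univ l) hl

private lemma entR81 {d q : ℕ} (H : Matrix (Fin d × Fin q) (Fin d × Fin q) ℂ) (C : Matrix (Fin d) (Fin d) ℂ)
    (i j : Fin d) (k l : Fin q) :
    (kroneckerMap (· * ·) C (1 : Matrix (Fin q) (Fin q) ℂ) * H) (i, k) (j, l) = ∑ p, C i p * H (p, k) (j, l) := by
  rw [Matrix.mul_apply, Fintype.sum_prod_type]
  refine Finset.sum_congr rfl fun p _ => ?_
  rw [Finset.sum_eq_single k]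
  · rw [kroneckerMap_apply, Matrix.one_apply_eq, mul_one]
  · intro r _ hr
    rw [kroneckerMap_apply, Matrix.one_apply_ne hr.symm, mul_zero, zero_mul]
  · intro hl
    exact absurd (Finset.mem_univ k) hl

/-- an operator which normalises `M_d ⊗ 1` is `a ⊗ 1 + 1 ⊗ b` -/
private lemma split81 {d q : ℕ} (i0 : Fin d) (k0 : Fin q) (H : Matrix (Fin d × Fin q) (Fin d × Fin q) ℂ)
    (hH : ∀ C : Matrix (Fin d) (Fin d) ℂ, ∃ D : Matrix (Fin d) (Fin d) ℂ,
      H * kroneckerMap (· * ·) C (1 : Matrix (Fin q) (Fin q) ℂ) - kroneckerMap (· * ·) C (1 : Matrix (Fin q) (Fin q) ℂ) * H =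
        kroneckerMap (· * ·) D (1 : Matrix (Fin q) (Fin q) ℂ)) :
    H = kroneckerMap (· * ·) (Matrix.of fun i p => H (i, k0) (p, k0) - if i = p then H (i0, k0) (i0, k0) else 0)
        (1 : Matrix (Fin q) (Fin q) ℂ) +
      kroneckerMap (· * ·) (1 : Matrix (Fin d) (Fin d) ℂ) (Matrix.of fun k l => H (i0, k) (i0, l)) := by
  have key : ∀ p r i j : Fin d, ∃ s : ℂ, ∀ k l : Fin q,
      (if j = r then H (i, k) (p, l) else 0) - (if i = p then H (r, k) (j, l) else 0) = if k = l then s else 0 := by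
    intro p r i j
    obtain ⟨D, hD⟩ := hH (Matrix.of fun a b => if a = p ∧ b = r then 1 else 0)
    refine ⟨D i j, fun k l => ?_⟩
    have e1 := congrFun (congrFun hD (i, k)) (j, l)
    rw [Matrix.sub_apply, entL81, entR81, kroneckerMap_apply] at e1
    have e2 : ∑ x, H (i, k) (x, l) * (Matrix.of fun a b => if a = p ∧ b = r then (1 : ℂ) else 0) x j =
        if j = r then H (i, k) (p, l) else 0 := by
      rw [Finset.sum_eq_single p]
      · simp only [of_apply, true_and]
        split_ifs <;> simp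
      · intro x _ hx
        simp only [of_apply, hx, false_and, if_false, mul_zero]
      · intro hp
        exact absurd (Finset.mem_univ p) hp
    have e3 : ∑ x, (Matrix.of fun a b => if a = p ∧ b = r then (1 : ℂ) else 0) i x * H (x, k) (j, l) =
        if i = p then H (r, k) (j, l) else 0 := by
      rw [Finset.sum_eq_single r]
      · simp only [of_apply, and_true]
        split_ifs <;> simp
      · intro x _ hx
        simp only [of_apply, hx, and_false, if_false, zero_mul]
      · intro hp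
        exact absurd (Finset.mem_univ r) hp
    rw [e2, e3] at e1
    rw [e1, Matrix.one_apply]
    split_ifs <;> simp
  ext ⟨i, k⟩ ⟨p, l⟩
  rw [Matrix.add_apply, kroneckerMap_apply, kroneckerMap_apply, of_apply, of_apply, Matrix.one_apply, Matrix.one_apply]
  by_cases hip : i = p
  · subst hip
    obtain ⟨s, hs⟩ := key i i0 i i0
    have f1 := hs k l
    have f2 := hs k0 k0
    simp only [if_true] at f1 f2
    simp only [if_true]
    split_ifs at f1 ⊢ with hkl
    · rw [mul_one, one_mul, f2, ← f1]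
      ring
    · rw [mul_zero, one_mul, zero_add]
      linear_combination f1
  · obtain ⟨s, hs⟩ := key p p i p
    have f1 := hs k l
    have f2 := hs k0 k0
    simp only [if_true, hip, if_false, sub_zero] at f1 f2
    simp only [hip, if_false, sub_zero, zero_mul, add_zero]
    rw [f1, f2]
    split_ifs <;> simp

private lemma fs81 {ι : Type*} [Fintype ι] (x : ι → ℤ) (F : ℤ → ℕ → ℕ) (h0 : ∀ i, F i 0 = 0)
    (ha : ∀ i a b, F i (a + b) = F i a + F i b) :
    (∑ i, Finsupp.single (x i) 1 : ℤ →₀ ℕ).sum F = ∑ i, F (x i) 1 := by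
  classical
  rw [← Finsupp.sum_finsetSum_index h0 ha]
  refine Finset.sum_congr rfl fun i _ => ?_
  rw [Finsupp.sum_single_index (h0 _)]

theorem prim_of_indec (S : Spec h E Λ)
    (irr : ∀ T : Matrix n n ℂ, (∀ x ∈ L, T * x = x * T) → ∃ c : ℂ, T = c • (1 : Matrix n n ℂ)) (hh : h ∈ L) (θ : ℝ)
    (hθ : ∀ μ : ℝ, E μ ≠ 0 → ∃ k : ℤ, μ = k + θ) (hr : Indec (fun p : ℤ => (E (p + θ)).rank)) : Prim L := by
  classical
  intro A hst hn
  rcases isEmpty_or_nonempty n with hne | hne
  · left
    refine le_antisymm (fun a _ => ?_) bot_le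
    have : a = 0 := Subsingleton.elim _ _
    rw [this]
    exact Subalgebra.zero_mem _
  obtain ⟨d, q, e, U, hd, hq, h1, h2, hA⟩ := coord A hst (fun a ha hc => centre irr A hst hn ha hc)
  obtain ⟨i0⟩ : Nonempty (Fin d) := ⟨⟨0, by omega⟩⟩
  obtain ⟨k0⟩ : Nonempty (Fin q) := ⟨⟨0, by omega⟩⟩
  -- the matrix of `h`
  obtain ⟨G, hG⟩ : ∃ G : Matrix n n ℂ, G = Uᴴ * h * U := ⟨_, rfl⟩
  obtain ⟨H, hH⟩ : ∃ H : Matrix (Fin d × Fin q) (Fin d × Fin q) ℂ, H = G.submatrix e.symm e.symm := ⟨_, rfl⟩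
  have hHs : Hᴴ = H := by
    rw [hH, conjTranspose_submatrix, hG, conjTranspose_mul, conjTranspose_mul, conjTranspose_conjTranspose, S.hh,
      Matrix.mul_assoc]
  have hsp := split81 i0 k0 H (by
    intro C
    obtain ⟨K, hK⟩ : ∃ K : Matrix n n ℂ, K = (kroneckerMap (· * ·) C (1 : Matrix (Fin q) (Fin q) ℂ)).submatrix e e := ⟨_, rfl⟩
    have hmem : U * K * Uᴴ ∈ A := by
      rw [hA]
      refine ⟨C, ?_⟩
      rw [← hK]
      calc Uᴴ * (U * K * Uᴴ) * U = (Uᴴ * U) * K * (Uᴴ * U) := by simp only [Matrix.mul_assoc]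
        _ = K := by rw [h1, Matrix.one_mul, Matrix.mul_one]
    obtain ⟨D, hD⟩ := (hA _).1 (hn h hh _ hmem)
    refine ⟨D, ?_⟩
    have e1 : Uᴴ * (h * (U * K * Uᴴ) - U * K * Uᴴ * h) * U = G * K - K * G := by
      rw [Matrix.mul_sub, Matrix.sub_mul, hG]
      have e2 : Uᴴ * (h * (U * K * Uᴴ)) * U = Uᴴ * h * U * K * (Uᴴ * U) := by simp only [Matrix.mul_assoc]
      have e3 : Uᴴ * (U * K * Uᴴ * h) * U = (Uᴴ * U) * K * (Uᴴ * h * U) := by simp only [Matrix.mul_assoc]
      rw [e2, e3, h1, Matrix.mul_one, Matrix.one_mul]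
    rw [e1] at hD
    have e4 := congrArg (fun M : Matrix n n ℂ => M.submatrix e.symm e.symm) hD
    simp only [submatrix_sub, submatrix_submatrix, Equiv.self_comp_symm, submatrix_id_id, Pi.sub_apply] at e4
    rw [← submatrix_mul_equiv G K e.symm e.symm e.symm, ← submatrix_mul_equiv K G e.symm e.symm e.symm, hK,
      submatrix_submatrix, Equiv.self_comp_symm, submatrix_id_id, ← hH] at e4
    exact e4)
  obtain ⟨a, ha⟩ : ∃ a : Matrix (Fin d) (Fin d) ℂ,
    a = Matrix.of fun i p => H (i, k0) (p, k0) - if i = p then H (i0, k0) (i0, k0) else 0 := ⟨_, rfl⟩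
  obtain ⟨b, hb⟩ : ∃ b : Matrix (Fin q) (Fin q) ℂ, b = Matrix.of fun k l => H (i0, k) (i0, l) := ⟨_, rfl⟩
  rw [← ha, ← hb] at hsp
  have hent : ∀ x y, star (H x y) = H y x := by
    intro x y
    have := congrFun (congrFun hHs y) x
    rwa [conjTranspose_apply] at this
  have has : aᴴ = a := by
    ext i p
    rw [conjTranspose_apply, ha, of_apply, of_apply, star_sub, hent]
    congr 1
    by_cases hip : i = p
    · subst hip
      rw [if_pos rfl, hent]
    · rw [if_neg hip, if_neg (Ne.symm hip), star_zero]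
  have hbs : bᴴ = b := by
    ext k l
    rw [conjTranspose_apply, hb, of_apply, of_apply, hent]
  obtain ⟨V, α, v1, v2, v3⟩ := diag81 has
  obtain ⟨W, β, w1, w2, w3⟩ := diag81 hbs
  obtain ⟨X, hX⟩ : ∃ X : Matrix n (Fin d × Fin q) ℂ, X = U.submatrix id e.symm * kroneckerMap (· * ·) V W := ⟨_, rfl⟩
  obtain ⟨Y, hY⟩ : ∃ Y : Matrix (Fin d × Fin q) n ℂ, Y = kroneckerMap (· * ·) Vᴴ Wᴴ * Uᴴ.submatrix e.symm id := ⟨_, rfl⟩
  have u1 : Uᴴ.submatrix e.symm id * U.submatrix id e.symm = (1 : Matrix (Fin d × Fin q) (Fin d × Fin q) ℂ) := by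
    have := submatrix_mul_equiv Uᴴ U e.symm (Equiv.refl n) e.symm
    rw [h1, submatrix_one_equiv] at this
    exact this
  have u2 : U.submatrix id e.symm * Uᴴ.submatrix e.symm id = (1 : Matrix n n ℂ) := by
    rw [submatrix_mul_equiv U Uᴴ id e.symm id, h2, submatrix_id_id]
  have x1 : Y * X = 1 := by
    rw [hX, hY]
    calc kroneckerMap (· * ·) Vᴴ Wᴴ * Uᴴ.submatrix e.symm id * (U.submatrix id e.symm * kroneckerMap (· * ·) V W) =
        kroneckerMap (· * ·) Vᴴ Wᴴ * (Uᴴ.submatrix e.symm id * U.submatrix id e.symm) * kroneckerMap (· * ·) V W := by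
          simp only [Matrix.mul_assoc]
      _ = kroneckerMap (· * ·) Vᴴ Wᴴ * kroneckerMap (· * ·) V W := by rw [u1, Matrix.mul_one]
      _ = 1 := by
          have := mul_kronecker_mul Vᴴ V Wᴴ W
          rw [v1, w1, one_kronecker_one] at this
          exact this.symm
  have x2 : X * Y = 1 := by
    rw [hX, hY]
    calc U.submatrix id e.symm * kroneckerMap (· * ·) V W * (kroneckerMap (· * ·) Vᴴ Wᴴ * Uᴴ.submatrix e.symm id) =
        U.submatrix id e.symm * (kroneckerMap (· * ·) V W * kroneckerMap (· * ·) Vᴴ Wᴴ) * Uᴴ.submatrix e.symm id := by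
          simp only [Matrix.mul_assoc]
      _ = U.submatrix id e.symm * Uᴴ.submatrix e.symm id := by
          have := mul_kronecker_mul V Vᴴ W Wᴴ
          rw [v2, w2, one_kronecker_one] at this
          rw [← this, Matrix.mul_one]
      _ = 1 := u2
  have x3 : h * X = X * diagonal (fun ik : Fin d × Fin q => ((α ik.1 + β ik.2 : ℝ) : ℂ)) := by
    have y1 : h * U.submatrix id e.symm = U.submatrix id e.symm * H := by
      have z1 : h * U = U * G := by
        rw [hG, ← Matrix.mul_assoc, ← Matrix.mul_assoc, h2, Matrix.one_mul]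
      have z2 := submatrix_mul_equiv h U id (Equiv.refl n) e.symm
      have z3 := submatrix_mul_equiv U G id e.symm e.symm
      rw [z1, ← z3, ← hH] at z2
      exact z2
    have y2 : H * kroneckerMap (· * ·) V W = kroneckerMap (· * ·) V W *
        diagonal (fun ik : Fin d × Fin q => ((α ik.1 + β ik.2 : ℝ) : ℂ)) := by
      have z1 := mul_kronecker_mul a V (1 : Matrix (Fin q) (Fin q) ℂ) W
      have z2 := mul_kronecker_mul (1 : Matrix (Fin d) (Fin d) ℂ) V b W
      have z3 := mul_kronecker_mul V (diagonal (fun i => (α i : ℂ))) W (1 : Matrix (Fin q) (Fin q) ℂ)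
      have z4 := mul_kronecker_mul V (1 : Matrix (Fin d) (Fin d) ℂ) W (diagonal (fun i => (β i : ℂ)))
      rw [v3, Matrix.one_mul] at z1
      rw [w3, Matrix.one_mul] at z2
      rw [Matrix.mul_one] at z3 z4
      have z5 : diagonal (fun ik : Fin d × Fin q => ((α ik.1 + β ik.2 : ℝ) : ℂ)) =
          kroneckerMap (· * ·) (diagonal (fun i => (α i : ℂ))) (1 : Matrix (Fin q) (Fin q) ℂ) +
            kroneckerMap (· * ·) (1 : Matrix (Fin d) (Fin d) ℂ) (diagonal (fun i => (β i : ℂ))) := by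
        ext ⟨i, k⟩ ⟨j, l⟩
        rw [Matrix.add_apply, kroneckerMap_apply, kroneckerMap_apply, diagonal_apply, diagonal_apply, diagonal_apply, Matrix.one_apply,
          Matrix.one_apply]
        by_cases hij : i = j
        · by_cases hkl : k = l
          · simp [hij, hkl]
          · simp [hij, hkl]
        · by_cases hkl : k = l
          · simp [hij, hkl]
          · simp [hij, hkl]
      rw [hsp, Matrix.add_mul, z5, Matrix.mul_add]
      exact congrArg₂ (· + ·) (z1.symm.trans z3) (z2.symm.trans z4)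
    rw [hX, ← Matrix.mul_assoc, y1, Matrix.mul_assoc, y2, ← Matrix.mul_assoc]
  have hcount := count81 S x1 x2 x3
  -- integrality
  have hint : ∀ i k, ∃ j : ℤ, α i + β k = j + θ := by
    intro i k
    apply hθ
    intro h0
    have := hcount (α i + β k)
    rw [h0, rank_zero] at this
    have h3 := Finset.card_eq_zero.1 this.symm
    have h4 : (i, k) ∈ (Finset.univ.filter fun j : Fin d × Fin q => α j.1 + β j.2 = α i + β k) := by simp
    rw [h3] at h4
    simp at h4
  choose z hz using hint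
  obtain ⟨x, hx⟩ : ∃ x : Fin d → ℤ, ∀ i, x i = z i k0 - z i0 k0 := ⟨_, fun i => rfl⟩
  obtain ⟨y, hy⟩ : ∃ y : Fin q → ℤ, ∀ k, y k = z i0 k := ⟨_, fun i => rfl⟩
  have hxy : ∀ i k, α i + β k = ((x i + y k : ℤ) : ℝ) + θ := by
    intro i k
    have a1 := hz i k0
    have a2 := hz i0 k0
    have a3 := hz i0 k
    rw [hx, hy]
    push_cast
    linarith
  have hrank : ∀ p : ℤ, (E (p + θ)).rank = (Finset.univ.filter fun j : Fin d × Fin q => x j.1 + y j.2 = p).card := by
    intro p
    rw [hcount]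
    congr 1
    ext j
    simp only [Finset.mem_filter, Finset.mem_univ, true_and]
    rw [hxy]
    constructor
    · intro hj
      have : ((x j.1 + y j.2 : ℤ) : ℝ) = (p : ℝ) := by linarith
      exact_mod_cast this
    · intro hj
      rw [hj]
  have hfin := hr (∑ i, Finsupp.single (x i) 1) (∑ k, Finsupp.single (y k) 1) (by
    intro p
    show (E (p + θ)).rank = _
    rw [hrank, fs81 x (fun i a => a * (∑ k, Finsupp.single (y k) 1 : ℤ →₀ ℕ) (p - i)) (fun i => zero_mul _)
      (fun i a b => add_mul _ _ _), Finset.card_filter, Fintype.sum_prod_type]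
    refine Finset.sum_congr rfl fun i _ => ?_
    rw [one_mul, Finsupp.finsetSum_apply]
    refine Finset.sum_congr rfl fun k _ => ?_
    rw [Finsupp.single_apply]
    have : (x i + y k = p) ↔ (y k = p - x i) := by constructor <;> intro h <;> omega
    simp only [this])
  rw [fs81 x (fun _ a => a) (fun _ => rfl) (fun _ _ _ => rfl), fs81 y (fun _ a => a) (fun _ => rfl) (fun _ _ _ => rfl)] at hfin
  simp only [Finset.sum_const, Finset.card_univ, Fintype.card_fin, smul_eq_mul, mul_one] at hfin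
  rcases hfin with hd1 | hq1
  · left
    have hd1' : d = 1 := by omega
    subst hd1'
    refine le_antisymm (fun T hT => ?_) bot_le
    obtain ⟨C, hC⟩ := (hA T).1 hT
    have e1 : Uᴴ * T * U = (C 0 0) • (1 : Matrix n n ℂ) := by
      rw [hC]
      ext s t
      rw [submatrix_apply, Matrix.smul_apply, smul_eq_mul]
      have : kroneckerMap (· * ·) C (1 : Matrix (Fin q) (Fin q) ℂ) (e s) (e t) =
          C (e s).1 (e t).1 * (1 : Matrix (Fin q) (Fin q) ℂ) (e s).2 (e t).2 := rfl
      rw [this, Subsingleton.elim (e s).1 0, Subsingleton.elim (e t).1 0, Matrix.one_apply, Matrix.one_apply]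
      have h5 : (e s).2 = (e t).2 ↔ s = t := by
        constructor
        · intro h6
          exact e.injective (Prod.ext (Subsingleton.elim _ _) h6)
        · intro h6
          rw [h6]
      simp only [h5]
    have e2 : T = (C 0 0) • (1 : Matrix n n ℂ) := by
      calc T = (U * Uᴴ) * T * (U * Uᴴ) := by rw [h2, Matrix.one_mul, Matrix.mul_one]
        _ = U * (Uᴴ * T * U) * Uᴴ := by simp only [Matrix.mul_assoc]
        _ = (C 0 0) • (1 : Matrix n n ℂ) := by rw [e1, Matrix.mul_smul, Matrix.mul_one, Matrix.smul_mul, h2]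
    rw [e2]
    exact Algebra.mem_bot.2 ⟨C 0 0, by rw [Algebra.algebraMap_eq_smul_one]⟩
  · right
    have hq1' : q = 1 := by omega
    subst hq1'
    refine eq_top_iff.2 fun T _ => ?_
    rw [hA]
    refine ⟨Matrix.of fun i j => (Uᴴ * T * U) (e.symm (i, 0)) (e.symm (j, 0)), ?_⟩
    ext s t
    rw [submatrix_apply]
    have : kroneckerMap (· * ·) (Matrix.of fun i j => (Uᴴ * T * U) (e.symm (i, 0)) (e.symm (j, 0)))
        (1 : Matrix (Fin 1) (Fin 1) ℂ) (e s) (e t) =
          (Uᴴ * T * U) (e.symm ((e s).1, 0)) (e.symm ((e t).1, 0)) * (1 : Matrix (Fin 1) (Fin 1) ℂ) (e s).2 (e t).2 := rfl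
    rw [this, Subsingleton.elim (e s).2 (e t).2, Matrix.one_apply_eq, mul_one]
    have h6 : ∀ s : n, e.symm ((e s).1, 0) = s := by
      intro s
      have : ((e s).1, (0 : Fin 1)) = e s := Prod.ext rfl (Subsingleton.elim _ _)
      rw [this, Equiv.symm_apply_apply]
    rw [h6, h6]

end OW
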