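import Pool.Agent.Helper71.OW.NumB
import Pool.Agent.Helper71.OW.Ind
import Pool.Agent.Helper71.OW.Ful

/-!
OW-47. An irreducible self-adjoint Lie algebra of matrices that are skew for a form `G` and that contains the diagonal matrix
of the integers `y`, most of them zero, without common divisor of the multiplicities, consists of all skew matrices. Proof. The
spectral decomposition (`Spec`) of `diagonal y` is `E μ = diagonal (if y k = μ then 1 else 0)`, `Λ` = the image of `y`; the rank of `E p` is
the number of `k` with `y k = p`. `prim_of_indec` (with `θ = 0`) and `num_one` (`s` = number of `k` with `y k ≠ 0`, `r 0 + s = q`) give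
`Prim L`; `full_of_small` with `k = diagonal y` (Hermitian, its rank is the number of `k` with `y k ≠ 0`).
-/

open Matrix MH

namespace OW

private lemma spec47 {q : ℕ} (y : Fin q → ℤ) :
    Spec (diagonal (fun k => ((y k : ℤ) : ℂ)))
      (fun μ : ℝ => diagonal (fun k => if ((y k : ℤ) : ℝ) = μ then (1 : ℂ) else 0))
      (Finset.univ.image (fun k => ((y k : ℤ) : ℝ))) := by
  classical
  refine ⟨?_, ?_, ?_, ?_, ?_⟩
  · intro μ
    rw [diagonal_conjTranspose]
    congr 1
    funext k
    rw [Pi.star_apply]
    split_ifs <;> simp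
  · intro μ ν
    rw [diagonal_mul_diagonal]
    split_ifs with h
    · congr 1
      funext k
      rw [← h]
      split_ifs <;> simp
    · rw [← diagonal_zero]
      congr 1
      funext k
      by_cases h1 : ((y k : ℤ) : ℝ) = μ
      · rw [if_neg (fun h2 => h (h1.symm.trans h2)), mul_zero]
      · rw [if_neg h1, zero_mul]
  · intro μ hμ
    show diagonal _ = (0 : Matrix (Fin q) (Fin q) ℂ)
    rw [← diagonal_zero]
    congr 1
    funext k
    rw [if_neg]
    intro h1
    exact hμ (Finset.mem_image.2 ⟨k, Finset.mem_univ _, h1⟩)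
  · ext i j
    rw [Matrix.sum_apply]
    by_cases hij : i = j
    · subst hij
      simp only [diagonal_apply_eq, one_apply_eq]
      rw [Finset.sum_ite_eq, if_pos (Finset.mem_image.2 ⟨i, Finset.mem_univ _, rfl⟩)]
    · rw [one_apply_ne hij]
      exact Finset.sum_eq_zero fun μ _ => diagonal_apply_ne _ hij
  · ext i j
    rw [Matrix.sum_apply]
    by_cases hij : i = j
    · subst hij
      simp only [diagonal_apply_eq, Matrix.smul_apply, smul_eq_mul, mul_ite, mul_one, mul_zero]
      rw [Finset.sum_ite_eq, if_pos (Finset.mem_image.2 ⟨i, Finset.mem_univ _, rfl⟩)]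
      simp
    · rw [diagonal_apply_ne _ hij]
      symm
      refine Finset.sum_eq_zero fun μ _ => ?_
      rw [Matrix.smul_apply, diagonal_apply_ne _ hij, smul_zero]

private lemma rank47 {q : ℕ} (y : Fin q → ℤ) (p : ℤ) :
    (diagonal (fun k => if ((y k : ℤ) : ℝ) = (p : ℝ) + 0 then (1 : ℂ) else 0) : Matrix (Fin q) (Fin q) ℂ).rank =
      (Finset.univ.filter fun k => y k = p).card := by
  classical
  rw [rank_diagonal, Fintype.card_subtype]
  congr 1
  ext k
  simp

private lemma rk47 {q : ℕ} (y : Fin q → ℤ) :
    (diagonal (fun k => ((y k : ℤ) : ℂ)) : Matrix (Fin q) (Fin q) ℂ).rank =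
      (Finset.univ.filter fun k => y k ≠ 0).card := by
  classical
  rw [rank_diagonal, Fintype.card_subtype]
  congr 1
  ext k
  simp

theorem so_part {q : ℕ} {L : Submodule ℂ (Matrix (Fin q) (Fin q) ℂ)} (br : ∀ x ∈ L, ∀ y ∈ L, x * y - y * x ∈ L)
    (st : ∀ x ∈ L, xᴴ ∈ L)
    (irr : ∀ T : Matrix (Fin q) (Fin q) ℂ, (∀ x ∈ L, T * x = x * T) → ∃ c : ℂ, T = c • (1 : Matrix (Fin q) (Fin q) ℂ))
    {G Gi : Matrix (Fin q) (Fin q) ℂ} (hG : G * Gi = 1) (hsk : ∀ z ∈ L, zᵀ * G + G * z = 0) {y : Fin q → ℤ}
    (hy : diagonal (fun k => ((y k : ℤ) : ℂ)) ∈ L)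
    (ht : ((Finset.univ.filter fun k => y k ≠ 0).card + 1) ^ 2 ≤ q) (h0 : ∃ k, y k ≠ 0)
    (hd : ∀ d : ℕ, (∀ p : ℤ, d ∣ (Finset.univ.filter fun k => y k = p).card) → d = 1) (h3 : 3 ≤ q)
    {z : Matrix (Fin q) (Fin q) ℂ} (hz : zᵀ * G + G * z = 0) : z ∈ L := by
  classical
  have hind : Indec (fun p : ℤ => (Finset.univ.filter fun k => y k = p).card) := by
    have hT : ∀ p : ℤ, p ∉ Finset.univ.image y → (Finset.univ.filter fun k => y k = p).card = 0 := by
      intro p hp
      rw [Finset.card_eq_zero, Finset.filter_eq_empty_iff]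
      intro k _ hk
      exact hp (Finset.mem_image.2 ⟨k, Finset.mem_univ _, hk⟩)
    have hs : (Finset.univ.filter fun k => y k ≠ 0).card =
        ∑ p ∈ (Finset.univ.image y).erase 0, (Finset.univ.filter fun k => y k = p).card := by
      rw [Finset.card_eq_sum_card_fiberwise (f := y) (t := (Finset.univ.image y).erase 0)]
      · refine Finset.sum_congr rfl fun p hp => ?_
        congr 1
        ext k
        simp only [Finset.mem_filter, Finset.mem_univ, true_and]
        constructor
        · exact fun h => h.2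
        · intro h
          exact ⟨by rw [h]; exact Finset.ne_of_mem_erase hp, h⟩
      · intro k hk
        have hk' : y k ≠ 0 := by simpa using hk
        simp [hk']
    have hN : ((Finset.univ.filter fun k => y k ≠ 0).card) ^ 2 <
        (Finset.univ.filter fun k => y k = 0).card + (Finset.univ.filter fun k => y k ≠ 0).card := by
      have e1 : (Finset.univ.filter fun k => y k = 0).card + (Finset.univ.filter fun k => y k ≠ 0).card = q := by
        rw [Finset.card_filter_add_card_filter_not, Finset.card_univ, Fintype.card_fin]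
      rw [e1]
      refine lt_of_lt_of_le ?_ ht
      exact Nat.pow_lt_pow_left (Nat.lt_succ_self _) two_ne_zero
    exact num_one hT hs hN hd
  have hP : Prim L := by
    refine prim_of_indec (spec47 y) irr hy 0 ?_ ?_
    · intro μ hμ
      by_contra hk
      apply hμ
      refine (spec47 y).supp μ ?_
      intro h1
      obtain ⟨k, -, hk1⟩ := Finset.mem_image.1 h1
      exact hk ⟨y k, by rw [add_zero, hk1]⟩
    · have e1 : (fun p : ℤ => (diagonal (fun k => if ((y k : ℤ) : ℝ) = (p : ℝ) + 0 then (1 : ℂ) else 0) :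
          Matrix (Fin q) (Fin q) ℂ).rank) = fun p : ℤ => (Finset.univ.filter fun k => y k = p).card := by
        funext p
        exact rank47 y p
      show Indec (fun p : ℤ => (diagonal (fun k => if ((y k : ℤ) : ℝ) = (p : ℝ) + 0 then (1 : ℂ) else 0) :
          Matrix (Fin q) (Fin q) ℂ).rank)
      rw [e1]
      exact hind
  refine full_of_small br st hP hG hsk (by rw [Fintype.card_fin]; exact h3) hy ?_ ?_ ?_ hz
  · rw [diagonal_conjTranspose]
    congr 1
    funext k
    rw [Pi.star_apply]
    simp
  · intro h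
    obtain ⟨k, hk⟩ := h0
    have h1 := congrFun (congrFun h k) k
    rw [diagonal_apply_eq, Matrix.zero_apply] at h1
    exact hk (by exact_mod_cast h1)
  · rw [rk47, Fintype.card_fin]
    exact ht

end OW
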