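import Pool.Agent.Helper98.MH.Onb

/-!
OW-5a. Proof of `coord_comm`: an `X` that commutes with all `C ⊗ 1` is `1 ⊗ C'` (compare blocks, matrix units).
`centre`: `a` in the centre, replace by Hermitian (`a + aᴴ`, `i (a - aᴴ)`); for `x ∈ L`: `w = [x, a] ∈ A` commutes with `a`, and
`a` is Hermitian, so `w = 0` (`tr (wᴴ w) = tr (wᴴ (x a - a x)) = tr ((a wᴴ - wᴴ a) x) = 0`). So `a` commutes with `L`.
-/

open Matrix MH

namespace OW

variable {n : Type*} [Fintype n] [DecidableEq n]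

open ComplexOrder in
private theorem eq_zero30 {w : Matrix n n ℂ} (h : (wᴴ * w).trace = 0) : w = 0 :=
  trace_conjTranspose_mul_self_eq_zero_iff.1 h

theorem centre {L : Submodule ℂ (Matrix n n ℂ)}
    (irr : ∀ T : Matrix n n ℂ, (∀ x ∈ L, T * x = x * T) → ∃ c : ℂ, T = c • (1 : Matrix n n ℂ))
    (A : Subalgebra ℂ (Matrix n n ℂ)) (hst : ∀ a ∈ A, aᴴ ∈ A) (hn : ∀ x ∈ L, ∀ a ∈ A, x * a - a * x ∈ A)
    {a : Matrix n n ℂ} (ha : a ∈ A) (hc : ∀ b ∈ A, a * b = b * a) : ∃ c : ℂ, a = c • (1 : Matrix n n ℂ) := by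
  apply irr
  intro x hx
  have hw : x * a - a * x ∈ A := hn x hx a ha
  have hw' : (x * a - a * x)ᴴ ∈ A := hst _ hw
  have h1 : a * (x * a - a * x)ᴴ = (x * a - a * x)ᴴ * a := hc _ hw'
  have h2 : ((x * a - a * x)ᴴ * (x * a - a * x)).trace = 0 := by
    obtain ⟨v, hv⟩ : ∃ v, v = (x * a - a * x)ᴴ := ⟨_, rfl⟩
    rw [← hv] at h1 ⊢
    have e : v * (x * a - a * x) = v * x * a - v * a * x := by
      rw [mul_sub, mul_assoc, mul_assoc]
    rw [e, trace_sub, trace_mul_comm (v * x) a, ← mul_assoc, h1, sub_self]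
  have h3 : x * a - a * x = 0 := eq_zero30 h2
  exact (sub_eq_zero.1 h3).symm

theorem coord_comm {A : Subalgebra ℂ (Matrix n n ℂ)} {d q : ℕ} (hd : 1 ≤ d) {e : n ≃ Fin d × Fin q}
    {U : Matrix n n ℂ} (h1 : Uᴴ * U = 1) (h2 : U * Uᴴ = 1)
    (hA : ∀ X : Matrix n n ℂ, X ∈ A ↔ ∃ C : Matrix (Fin d) (Fin d) ℂ,
        Uᴴ * X * U = (kroneckerMap (· * ·) C (1 : Matrix (Fin q) (Fin q) ℂ)).submatrix e e)
    {X : Matrix n n ℂ} (hX : ∀ a ∈ A, X * a = a * X) :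
    ∃ C : Matrix (Fin q) (Fin q) ℂ,
      Uᴴ * X * U = (kroneckerMap (· * ·) (1 : Matrix (Fin d) (Fin d) ℂ) C).submatrix e e := by
  obtain ⟨Z, hZ⟩ : ∃ Z : Matrix (Fin d × Fin q) (Fin d × Fin q) ℂ,
      Uᴴ * X * U = Z.submatrix e e := by
    refine ⟨(Uᴴ * X * U).submatrix e.symm e.symm, ?_⟩
    rw [submatrix_submatrix]
    simp
  have hcomm : ∀ C : Matrix (Fin d) (Fin d) ℂ,
      Z * kroneckerMap (· * ·) C (1 : Matrix (Fin q) (Fin q) ℂ) =
        kroneckerMap (· * ·) C (1 : Matrix (Fin q) (Fin q) ℂ) * Z := by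
    intro C
    obtain ⟨P, hP⟩ : ∃ P, P = (kroneckerMap (· * ·) C (1 : Matrix (Fin q) (Fin q) ℂ)) := ⟨_, rfl⟩
    rw [← hP]
    have hUPU : Uᴴ * (U * P.submatrix e e * Uᴴ) * U = P.submatrix e e := by
      calc Uᴴ * (U * P.submatrix e e * Uᴴ) * U = (Uᴴ * U) * P.submatrix e e * (Uᴴ * U) := by
            simp only [mul_assoc]
        _ = _ := by rw [h1, one_mul, mul_one]
    have hmem : U * P.submatrix e e * Uᴴ ∈ A := (hA _).2 ⟨C, by rw [hUPU, hP]⟩
    have h3 := hX _ hmem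
    have h4 : (Uᴴ * X * U) * P.submatrix e e = P.submatrix e e * (Uᴴ * X * U) := by
      calc (Uᴴ * X * U) * P.submatrix e e
          = (Uᴴ * X * U) * P.submatrix e e * (Uᴴ * U) := by rw [h1, mul_one]
        _ = Uᴴ * (X * (U * P.submatrix e e * Uᴴ)) * U := by simp only [mul_assoc]
        _ = Uᴴ * ((U * P.submatrix e e * Uᴴ) * X) * U := by rw [h3]
        _ = (Uᴴ * U) * P.submatrix e e * (Uᴴ * X * U) := by simp only [mul_assoc]
        _ = P.submatrix e e * (Uᴴ * X * U) := by rw [h1, one_mul]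
    rw [hZ, submatrix_mul_equiv, submatrix_mul_equiv] at h4
    have h5 := congrArg (fun Y : Matrix n n ℂ => Y.submatrix e.symm e.symm) h4
    simpa [submatrix_submatrix] using h5
  have hent : ∀ (i i' j : Fin d) (p p' : Fin q),
      Z (i', p) (i, p') = if i' = i then Z (j, p) (j, p') else 0 := by
    intro i i' j p p'
    have h3 := congrFun (congrFun (hcomm (Matrix.single i j 1)) (i', p)) (j, p')
    rw [mul_apply, mul_apply, Fintype.sum_prod_type, Fintype.sum_prod_type] at h3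
    simp only [kroneckerMap_apply, single_apply, one_apply] at h3
    simpa [Finset.sum_ite_eq, ite_and, eq_comm] using h3
  refine ⟨fun p p' => Z (⟨0, hd⟩, p) (⟨0, hd⟩, p'), ?_⟩
  rw [hZ]
  congr 1
  ext ⟨i', p⟩ ⟨i, p'⟩
  rw [hent i i' ⟨0, hd⟩ p p']
  show _ = (1 : Matrix (Fin d) (Fin d) ℂ) i' i * Z (⟨0, hd⟩, p) (⟨0, hd⟩, p')
  rw [one_apply]
  split_ifs
  · rw [one_mul]
  · rw [zero_mul]

end OW
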