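import Mathlib

/-!
OW-41. Decompositions of a symmetric sequence with two dominating middle terms. `r 0 = r (-1)`, and the sum over all `p` is
`2 r 0 + 2 s`. Proof. (1) If `A` has only one term `c x^i` then `c` divides all `r p`, so `c = 1` and the sum of `A` is 1 (if `A = 0` the
sum is 0). Same for `B` (the hypothesis is symmetric in `A` and `B`: prove that first). So let both have at least two terms.
(2) Call `A` bad if it is not of the form `single i a + single (i + 1) a'`. If `A` is bad (at least two terms, and not two adjacent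
ones), then for each `j` there is `i` with `A i > 0` and `i + j ≠ 0, -1`, so `∑ B j ≤ ∑_{i + j ≠ 0, -1} A i * B j = 2 s`. So if both are bad
then `2 r 0 + 2 s = (∑ A) (∑ B) ≤ 4 s ^ 2`, against `hN`. (3) Let `A = single i a + single (i + 1) a'` with `a, a' ≥ 1` (the other case by
symmetry); shift to `i = 0` (replace `B` by its shift, or carry `i`). Then `r p = a B p + a' B (p - 1)`. With `M = B (-1)`:
`r 0 = a B 0 + a' M`, `r (-1) = a M + a' B (-2)`. Sum over `p ≥ 1`: `s = a ∑_{j ≥ 1} B j + a' ∑_{j ≥ 0} B j`, so `a' B 0 ≤ s` and, as `s > 0`,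
`∑_{j ≥ 0} B j ≥ 1`, so `a' ≤ s`. Sum over `p ≤ -2` (also `s`, by `hsym`): `s = a ∑_{j ≤ -2} B j + a' ∑_{j ≤ -3} B j`, so
`a B (-2) ≤ s` and `a ≤ s`. If `a > a'`: `(a - a') M = a B 0 - a' B (-2) ≤ a B 0`, so `a' (a - a') M ≤ a s`, and `a' (a - a') ≥ a - 1`, so
`(a - 1) M ≤ a s`, `a M ≤ a s + M ≤ a s + 2 s ≤ s ^ 2 + 2 s` (for `a ≥ 2`: `M ≤ a s / (a - 1) ≤ 2 s`), `r 0 = r (-1) ≤ s ^ 2 + 3 s`, against `hN`. If
`a < a'`: the mirror image. So `a = a'` divides all `r p`, `a = 1`.
-/

namespace OW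

private lemma comm63 {r : ℤ → ℕ} (A B : ℤ →₀ ℕ) (hr : ∀ p, r p = A.sum fun i a => a * B (p - i)) (p : ℤ) :
    r p = B.sum fun j b => b * A (p - j) := by
  rw [hr p]
  have key : ∀ C D : ℤ →₀ ℕ, (C.sum fun i a => a * D (p - i)) = ∑ᶠ i, C i * D (p - i) := by
    intro C D
    rw [finsum_eq_sum_of_support_subset (s := C.support)]
    · rfl
    · intro i hi
      rw [Function.mem_support] at hi
      rw [Finset.mem_coe, Finsupp.mem_support_iff]
      intro h
      apply hi
      rw [h, Nat.zero_mul]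
  rw [key A B, key B A, ← finsum_comp_equiv (Equiv.subLeft p)]
  apply finsum_congr
  intro i
  rw [Equiv.subLeft_apply, sub_sub_cancel, mul_comm]

private lemma pairs63 {r : ℤ → ℕ} {T : Finset ℤ} (hT : ∀ p, p ∉ T → r p = 0) (A B : ℤ →₀ ℕ)
    (hr : ∀ p, r p = A.sum fun i a => a * B (p - i)) (P : ℤ → Prop) [DecidablePred P] :
    ∑ j ∈ B.support, ∑ i ∈ A.support, (if P (i + j) then A i * B j else 0) = ∑ p ∈ T.filter P, r p := by
  have h1 : ∑ p ∈ T.filter P, r p =
      ∑ p ∈ T.filter P, ∑ j ∈ B.support, ∑ i ∈ A.support, if p = i + j then A i * B j else 0 := by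
    refine Finset.sum_congr rfl fun p _ => ?_
    rw [hr p, Finset.sum_comm]
    refine Finset.sum_congr rfl fun i _ => ?_
    change A i * B (p - i) = _
    by_cases hB : p - i ∈ B.support
    · rw [Finset.sum_eq_single_of_mem (p - i) hB]
      · rw [if_pos (by ring)]
      · intro j _ hj
        rw [if_neg]
        intro h
        exact hj (by linarith)
    · rw [Finset.sum_eq_zero]
      · rw [Finsupp.notMem_support_iff.1 hB, Nat.mul_zero]
      · intro j hj
        rw [if_neg]
        intro h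
        exact hB (by rwa [show p - i = j by linarith])
  rw [h1, Finset.sum_comm (s := T.filter P)]
  refine Finset.sum_congr rfl fun j hj => ?_
  rw [Finset.sum_comm (s := T.filter P)]
  refine Finset.sum_congr rfl fun i hi => ?_
  have hij : i + j ∈ T := by
    by_contra h
    have h0 := hT _ h
    rw [hr, Finsupp.sum, Finset.sum_eq_zero_iff] at h0
    have h2 := h0 i hi
    rw [add_sub_cancel_left] at h2
    rcases Nat.mul_eq_zero.1 h2 with h3 | h3
    · exact (Finsupp.mem_support_iff.1 hi) h3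
    · exact (Finsupp.mem_support_iff.1 hj) h3
  by_cases hP : P (i + j)
  · rw [if_pos hP, Finset.sum_eq_single_of_mem (i + j) (Finset.mem_filter.2 ⟨hij, hP⟩), if_pos rfl]
    intro q _ hq
    rw [if_neg hq]
  · rw [if_neg hP, Finset.sum_eq_zero]
    intro q hq
    rw [if_neg]
    rintro rfl
    exact hP (Finset.mem_filter.1 hq).2

/-- the two outer parts together have sum `2 s` -/
private lemma outer63 {r : ℤ → ℕ} {T : Finset ℤ} (hT : ∀ p, p ∉ T → r p = 0) (hsym : ∀ p, r (-1 - p) = r p) :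
    ∑ p ∈ T.filter (fun p => p ≠ 0 ∧ p ≠ -1), r p = 2 * ∑ p ∈ T.filter (fun p => 1 ≤ p), r p := by
  classical
  have h1 : T.filter (fun p => p ≠ 0 ∧ p ≠ -1) = T.filter (fun p => 1 ≤ p) ∪ T.filter (fun p => p ≤ -2) := by
    ext p
    simp only [Finset.mem_filter, Finset.mem_union]
    constructor
    · rintro ⟨h, h2, h3⟩
      rcases lt_or_ge p 1 with h4 | h4
      · exact Or.inr ⟨h, by omega⟩
      · exact Or.inl ⟨h, h4⟩
    · rintro (⟨h, h2⟩ | ⟨h, h2⟩)
      · exact ⟨h, by omega, by omega⟩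
      · exact ⟨h, by omega, by omega⟩
  have hdis : Disjoint (T.filter (fun p => 1 ≤ p)) (T.filter (fun p => p ≤ -2)) := by
    rw [Finset.disjoint_left]
    intro p hp hq
    have := (Finset.mem_filter.1 hp).2
    have := (Finset.mem_filter.1 hq).2
    omega
  have h2 : ∑ p ∈ T.filter (fun p => p ≤ -2), r p = ∑ p ∈ T.filter (fun p => 1 ≤ p), r p := by
    refine Finset.sum_bij_ne_zero (fun p _ _ => -1 - p) ?_ ?_ ?_ ?_
    · intro p hp h0
      rw [Finset.mem_filter] at hp ⊢
      refine ⟨?_, by omega⟩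
      by_contra h
      exact h0 ((hsym p) ▸ hT _ h)
    · intro p _ _ q _ _ h
      omega
    · intro q hq h0
      rw [Finset.mem_filter] at hq
      have h3 : r (-1 - q) ≠ 0 := by rwa [hsym]
      have h4 : -1 - q ∈ T.filter (fun p => p ≤ -2) := by
        rw [Finset.mem_filter]
        refine ⟨?_, by omega⟩
        by_contra h
        exact h3 (hT _ h)
      exact ⟨-1 - q, h4, h3, by ring⟩
    · intro p _ _
      exact (hsym p).symm
  rw [h1, Finset.sum_union hdis, h2, two_mul]

/-- if `A` is bad then the sum of `B` is at most `2 s` -/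
private lemma bad63 {r : ℤ → ℕ} {T : Finset ℤ} (hT : ∀ p, p ∉ T → r p = 0) (hsym : ∀ p, r (-1 - p) = r p) {s : ℕ}
    (hs : s = ∑ p ∈ T.filter (fun p => 1 ≤ p), r p) (A B : ℤ →₀ ℕ) (hr : ∀ p, r p = A.sum fun i a => a * B (p - i))
    (hbad : ∀ j : ℤ, ∃ i, A i ≠ 0 ∧ i + j ≠ 0 ∧ i + j ≠ -1) : (B.sum fun _ b => b) ≤ 2 * s := by
  rw [hs, ← outer63 hT hsym, ← pairs63 hT A B hr, Finsupp.sum]
  refine Finset.sum_le_sum fun j _ => ?_
  obtain ⟨i, hi, h⟩ := hbad j
  have h1 := Finset.single_le_sum (f := fun i => if (i + j ≠ 0 ∧ i + j ≠ -1) then A i * B j else 0)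
    (fun _ _ => Nat.zero_le _) (Finsupp.mem_support_iff.2 hi)
  refine le_trans ?_ h1
  rw [if_pos h]
  exact Nat.le_mul_of_pos_left _ (Nat.pos_of_ne_zero hi)

/-- the middle step: `A = a x^i + a' x^(i+1)` -/
private lemma mid63 {r : ℤ → ℕ} {T : Finset ℤ} (hT : ∀ p, p ∉ T → r p = 0) (hsym : ∀ p, r (-1 - p) = r p) {s : ℕ}
    (hs : s = ∑ p ∈ T.filter (fun p => 1 ≤ p), r p) (hs1 : 1 ≤ s) (hN : (4 * s + 1) ^ 2 ≤ 2 * r 0 + 2 * s)
    (hd : ∀ d : ℕ, (∀ p, d ∣ r p) → d = 1) (b : ℤ → ℕ) (a a' : ℕ) (ha : a ≠ 0) (ha' : a' ≠ 0)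
    (hr : ∀ p, r p = a * b p + a' * b (p - 1)) : a = 1 ∧ a' = 1 := by
  have hle : ∀ p, 1 ≤ p → r p ≤ s := by
    intro p hp
    by_cases h : p ∈ T
    · rw [hs]
      exact Finset.single_le_sum (f := r) (fun _ _ => Nat.zero_le _) (Finset.mem_filter.2 ⟨h, hp⟩)
    · rw [hT p h]
      exact Nat.zero_le _
  have hle2 : ∀ p, p ≤ -2 → r p ≤ s := by
    intro p hp
    rw [← hsym]
    exact hle _ (by omega)
  obtain ⟨p, hp1, hp0⟩ : ∃ p : ℤ, 1 ≤ p ∧ r p ≠ 0 := by
    by_contra h
    push Not at h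
    have : s = 0 := by
      rw [hs]
      exact Finset.sum_eq_zero fun p hp => h p (Finset.mem_filter.1 hp).2
    omega
  have ha's : a' ≤ s := by
    by_cases h : b p = 0
    · have h2 : b (p - 1) ≠ 0 := by
        intro h3
        apply hp0
        rw [hr p, h, h3, Nat.mul_zero, Nat.mul_zero]
      calc a' ≤ a' * b (p - 1) := Nat.le_mul_of_pos_right _ (Nat.pos_of_ne_zero h2)
        _ ≤ r p := by rw [hr p]; exact Nat.le_add_left _ _
        _ ≤ s := hle p hp1
    · calc a' ≤ a' * b p := Nat.le_mul_of_pos_right _ (Nat.pos_of_ne_zero h)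
        _ ≤ r (p + 1) := by rw [hr (p + 1), add_sub_cancel_right]; exact Nat.le_add_left _ _
        _ ≤ s := hle _ (by omega)
  have has : a ≤ s := by
    have hq0 : r (-1 - p) ≠ 0 := by rwa [hsym]
    by_cases h : b (-1 - p) = 0
    · have h2 : b (-1 - p - 1) ≠ 0 := by
        intro h3
        apply hq0
        rw [hr (-1 - p), h, h3, Nat.mul_zero, Nat.mul_zero]
      calc a ≤ a * b (-1 - p - 1) := Nat.le_mul_of_pos_right _ (Nat.pos_of_ne_zero h2)
        _ ≤ r (-1 - p - 1) := by rw [hr (-1 - p - 1)]; exact Nat.le_add_right _ _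
        _ ≤ s := hle2 _ (by omega)
    · calc a ≤ a * b (-1 - p) := Nat.le_mul_of_pos_right _ (Nat.pos_of_ne_zero h)
        _ ≤ r (-1 - p) := by rw [hr (-1 - p)]; exact Nat.le_add_right _ _
        _ ≤ s := hle2 _ (by omega)
  have h0 : r 0 = a * b 0 + a' * b (-1) := hr 0
  have h1 : r 0 = a * b (-1) + a' * b (-2) := by
    have h := hsym 0
    rw [sub_zero] at h
    rw [← h]
    exact hr (-1)
  have hb0 : a' * b 0 ≤ s := by
    have h := hr 1
    have h2 := hle 1 le_rfl
    rw [h, sub_self] at h2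
    omega
  have hb2 : a * b (-2) ≤ s := by
    have h := hr (-2)
    have h2 := hle2 (-2) le_rfl
    rw [h] at h2
    omega
  have hab : a = a' := by
    generalize b 0 = u at *
    generalize b (-1) = M at *
    generalize b (-2) = v at *
    have ha1 : 1 ≤ a := Nat.one_le_iff_ne_zero.2 ha
    have ha1' : 1 ≤ a' := Nat.one_le_iff_ne_zero.2 ha'
    rcases lt_trichotomy a a' with h | h | h
    · exfalso
      obtain ⟨k, rfl⟩ := Nat.exists_eq_add_of_lt h
      -- `a' = a + k + 1`
      have e1 : (k + 1) * M ≤ (a + k + 1) * v := by nlinarith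
      have e2 : a * ((k + 1) * M) ≤ (a + k + 1) * s := by
        calc a * ((k + 1) * M) ≤ a * ((a + k + 1) * v) := Nat.mul_le_mul_left _ e1
          _ = (a + k + 1) * (a * v) := by ring
          _ ≤ (a + k + 1) * s := Nat.mul_le_mul_left _ hb2
      have e3 : (a + k) * M ≤ (a + k + 1) * s := by
        have : (a + k) ≤ a * (k + 1) := by nlinarith
        calc (a + k) * M ≤ a * (k + 1) * M := Nat.mul_le_mul_right _ this
          _ = a * ((k + 1) * M) := by ring
          _ ≤ _ := e2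
      have e4 : M ≤ 2 * s := by
        have h5 : (a + k) * M ≤ (a + k) * (2 * s) := by
          calc (a + k) * M ≤ (a + k + 1) * s := e3
            _ ≤ (a + k) * (2 * s) := by nlinarith
        exact Nat.le_of_mul_le_mul_left h5 (by omega)
      have e5 : (a + k + 1) * M ≤ s * s + 2 * s := by
        calc (a + k + 1) * M = (a + k) * M + M := by ring
          _ ≤ (a + k + 1) * s + 2 * s := Nat.add_le_add e3 e4
          _ ≤ s * s + 2 * s := Nat.add_le_add_right (Nat.mul_le_mul_right _ ha's) _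
      have e6 : a * u ≤ s := le_trans (Nat.mul_le_mul_right _ h.le) hb0
      nlinarith
    · exact h
    · exfalso
      obtain ⟨k, rfl⟩ := Nat.exists_eq_add_of_lt h
      have e1 : (k + 1) * M ≤ (a' + k + 1) * u := by nlinarith
      have e2 : a' * ((k + 1) * M) ≤ (a' + k + 1) * s := by
        calc a' * ((k + 1) * M) ≤ a' * ((a' + k + 1) * u) := Nat.mul_le_mul_left _ e1
          _ = (a' + k + 1) * (a' * u) := by ring
          _ ≤ (a' + k + 1) * s := Nat.mul_le_mul_left _ hb0
      have e3 : (a' + k) * M ≤ (a' + k + 1) * s := by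
        have : (a' + k) ≤ a' * (k + 1) := by nlinarith
        calc (a' + k) * M ≤ a' * (k + 1) * M := Nat.mul_le_mul_right _ this
          _ = a' * ((k + 1) * M) := by ring
          _ ≤ _ := e2
      have e4 : M ≤ 2 * s := by
        have h5 : (a' + k) * M ≤ (a' + k) * (2 * s) := by
          calc (a' + k) * M ≤ (a' + k + 1) * s := e3
            _ ≤ (a' + k) * (2 * s) := by nlinarith
        exact Nat.le_of_mul_le_mul_left h5 (by omega)
      have e5 : (a' + k + 1) * M ≤ s * s + 2 * s := by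
        calc (a' + k + 1) * M = (a' + k) * M + M := by ring
          _ ≤ (a' + k + 1) * s + 2 * s := Nat.add_le_add e3 e4
          _ ≤ s * s + 2 * s := Nat.add_le_add_right (Nat.mul_le_mul_right _ has) _
      have e6 : a' * v ≤ s := le_trans (Nat.mul_le_mul_right _ h.le) hb2
      nlinarith
  subst hab
  have h2 : a = 1 := hd a fun p => by
    rw [hr p, ← Nat.mul_add]
    exact Dvd.intro _ rfl
  exact ⟨h2, h2⟩

/-- the case where the support of `A` lies in two adjacent places -/
private lemma half63 {r : ℤ → ℕ} {T : Finset ℤ} (hT : ∀ p, p ∉ T → r p = 0) (hsym : ∀ p, r (-1 - p) = r p) {s : ℕ}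
    (hs : s = ∑ p ∈ T.filter (fun p => 1 ≤ p), r p) (hs1 : 1 ≤ s) (hN : (4 * s + 1) ^ 2 ≤ 2 * r 0 + 2 * s)
    (hd : ∀ d : ℕ, (∀ p, d ∣ r p) → d = 1) (A B : ℤ →₀ ℕ) (hr : ∀ p, r p = A.sum fun i a => a * B (p - i))
    (i : ℤ) (hi : ∀ k, A k ≠ 0 → k = i ∨ k = i + 1) :
    (A.sum fun _ a => a) ≤ 1 ∨ ∃ i : ℤ, A = Finsupp.single i 1 + Finsupp.single (i + 1) 1 := by
  have hA : A = Finsupp.single i (A i) + Finsupp.single (i + 1) (A (i + 1)) := by
    ext k
    rw [Finsupp.add_apply, Finsupp.single_apply, Finsupp.single_apply]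
    by_cases h1 : i = k
    · subst h1
      rw [if_pos rfl, if_neg (by omega), add_zero]
    · by_cases h2 : i + 1 = k
      · subst h2
        rw [if_neg h1, if_pos rfl, zero_add]
      · rw [if_neg h1, if_neg h2, add_zero]
        by_contra h
        rcases hi k h with h3 | h3
        · exact h1 h3.symm
        · exact h2 h3.symm
  have hsum : (A.sum fun _ a => a) = A i + A (i + 1) := by
    rw [hA, Finsupp.sum_add_index' (fun _ => rfl) (fun _ _ _ => rfl), Finsupp.sum_single_index rfl,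
      Finsupp.sum_single_index rfl, ← hA]
  have hr2 : ∀ p, r p = A i * B (p - i) + A (i + 1) * B (p - 1 - i) := by
    intro p
    rw [hr p]
    conv_lhs => rw [hA]
    rw [Finsupp.sum_add_index' (h := fun i a => a * B (p - i)) (fun _ => Nat.zero_mul _)
      (fun _ _ _ => Nat.add_mul _ _ _),
      Finsupp.sum_single_index (h := fun i a => a * B (p - i)) (Nat.zero_mul _),
      Finsupp.sum_single_index (h := fun i a => a * B (p - i)) (Nat.zero_mul _),
      show p - (i + 1) = p - 1 - i by ring]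
  by_cases h0 : A i = 0
  · left
    have h1 := hd (A (i + 1)) fun p => by
      rw [hr2 p, h0, Nat.zero_mul, Nat.zero_add]
      exact Dvd.intro _ rfl
    rw [hsum, h0, h1]
  by_cases h0' : A (i + 1) = 0
  · left
    have h1 := hd (A i) fun p => by
      rw [hr2 p, h0', Nat.zero_mul, Nat.add_zero]
      exact Dvd.intro _ rfl
    rw [hsum, h0', h1]
  · right
    obtain ⟨h1, h2⟩ := mid63 hT hsym hs hs1 hN hd (fun p => B (p - i)) (A i) (A (i + 1)) h0 h0' hr2
    refine ⟨i, ?_⟩
    rw [h1, h2] at hA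
    exact hA

theorem num_pair {r : ℤ → ℕ} {T : Finset ℤ} (hT : ∀ p, p ∉ T → r p = 0) (hsym : ∀ p, r (-1 - p) = r p) {s : ℕ}
    (hs : s = ∑ p ∈ T.filter (fun p => 1 ≤ p), r p) (hs1 : 1 ≤ s) (hN : (4 * s + 1) ^ 2 ≤ 2 * r 0 + 2 * s)
    (hd : ∀ d : ℕ, (∀ p, d ∣ r p) → d = 1) (A B : ℤ →₀ ℕ) (hr : ∀ p, r p = A.sum fun i a => a * B (p - i)) :
    (A.sum fun _ a => a) ≤ 1 ∨ (B.sum fun _ b => b) ≤ 1 ∨
      (∃ i : ℤ, A = Finsupp.single i 1 + Finsupp.single (i + 1) 1) ∨
      ∃ i : ℤ, B = Finsupp.single i 1 + Finsupp.single (i + 1) 1 := by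
  have hr' := comm63 A B hr
  by_cases hA : ∀ j : ℤ, ∃ i, A i ≠ 0 ∧ i + j ≠ 0 ∧ i + j ≠ -1
  · by_cases hB : ∀ j : ℤ, ∃ i, B i ≠ 0 ∧ i + j ≠ 0 ∧ i + j ≠ -1
    · exfalso
      have h1 := bad63 hT hsym hs A B hr hA
      have h2 := bad63 hT hsym hs B A hr' hB
      have h3 : r 0 ≤ (A.sum fun _ a => a) * (B.sum fun _ b => b) := by
        rw [hr 0]
        unfold Finsupp.sum
        rw [Finset.sum_mul]
        refine Finset.sum_le_sum fun i _ => Nat.mul_le_mul_left _ ?_
        by_cases h : 0 - i ∈ B.support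
        · exact Finset.single_le_sum (f := fun j => B j) (fun _ _ => Nat.zero_le _) h
        · rw [Finsupp.notMem_support_iff.1 h]
          exact Nat.zero_le _
      have h4 : r 0 ≤ 2 * s * (2 * s) := le_trans h3 (Nat.mul_le_mul h2 h1)
      nlinarith
    · push Not at hB
      obtain ⟨j, hj⟩ := hB
      rcases half63 hT hsym hs hs1 hN hd B A hr' (-1 - j) (fun k hk => by
        by_cases h : k + j = 0
        · right; omega
        · left
          have := hj k hk h
          omega) with h | h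
      · exact Or.inr (Or.inl h)
      · exact Or.inr (Or.inr (Or.inr h))
  · push Not at hA
    obtain ⟨j, hj⟩ := hA
    rcases half63 hT hsym hs hs1 hN hd A B hr (-1 - j) (fun k hk => by
      by_cases h : k + j = 0
      · right; omega
      · left
        have := hj k hk h
        omega) with h | h
    · exact Or.inl h
    · exact Or.inr (Or.inr (Or.inl h))

end OW
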