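import Pool.Agent.Helper71.OW.Coo
import Pool.Agent.Helper71.OW.Cen
import Pool.Agent.Helper71.OW.NumA

/-!
OW-48. If `L` is not primitive, and the two middle multiplicities dominate and the multiplicities have no common divisor, then `L`
acts on `ℂ² ⊗ ℂ^q`. Proof. `¬ Prim L` gives a self-adjoint algebra `A ≠ ⊥, ⊤` that is normalised by `L`; its centre is
trivial (`centre` in `Pool/Agent/Helper71/OW/Cen.lean`), `coo` with `θ = 1/2` gives `d, q, e, U, x, y`, `d, q ≥ 2`. Let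
`r p = rank (E (p + 1/2))`: `r (-1 - p) = r p` (`rank (E (-μ)) = rank (E μ)`: `D.tauE`, see the private `rank_neg71` in
`Pool/Agent/Helper71/OW/Deg2.lean`), `s = ∑_{p ≥ 1} r p`, `card n = ∑ r p = 2 r 0 + 2 s` (`∑ μ ∈ Λ, rank (E μ) = card n`:
traces; `half` says that only the `μ = p + 1/2` occur). `num_pair` with `A = ∑ i, single (x i) 1`, `B = ∑ k, single (y k) 1` (their sums are `d` and
`q`): `A` or `B` is `single i 1 + single (i + 1) 1`. First case: `d = 2`, the `x` are `i, i + 1` in some order (compose `e` with a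
transposition of `Fin 2` if necessary, so that `x 0 = i + 1`, `x 1 = i`); the new `y k` is `y k + i + 1`: `h` is `diag (1/2, -1/2) ⊗ 1 + 1 ⊗ diag y`.
Second case: swap the two factors (`e.trans (Equiv.prodComm _ _)`; then `kr v z` becomes `kr z v`). The elements of `L` are
`v ⊗ 1 + 1 ⊗ z` by `coo`; move `(tr v / 2) • 1` to the second factor. (b) The rank formula: the eigenvalue `p + 1/2` of `h` is
`1/2 + y` with `y = p` or `-1/2 + y` with `y = p + 1`. (c) Let `c p` be the number of the `k` with `y k = p`: `r p = c p + c (p + 1)`, so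
`∑_{p ≥ 1} c p ≤ s`, `∑_{p ≤ -1} c p ≤ s` (from `∑_{p ≤ -2} r p = s`), so at most `2 s` of the `y k` are not 0, `card n = 2 q`,
`(2 s + 1) ^ 2 ≤ q` because `(4 s + 1) ^ 2 ≤ 2 q`. If all `y k` are 0 then `s = 0`. A common divisor of the `c p` divides all ranks.
-/

open Matrix MH

namespace OW

variable {n : Type*} [Fintype n] [DecidableEq n]
variable {h : Matrix n n ℂ} {E : ℝ → Matrix n n ℂ} {Λ : Finset ℝ}
variable {τ : Matrix n n ℂ →ₗ[ℂ] Matrix n n ℂ} {L : Submodule ℂ (Matrix n n ℂ)}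

omit [DecidableEq n] in
private lemma tz_reindex44 {d q d' q' : ℕ} (T Ti : Matrix n n ℂ) (e : n ≃ Fin d × Fin q) (σ : Fin d × Fin q ≃ Fin d' × Fin q')
    (M : Matrix (Fin d × Fin q) (Fin d × Fin q) ℂ) :
    tz T Ti (e.trans σ) (M.submatrix σ.symm σ.symm) = tz T Ti e M := by
  unfold tz
  rw [submatrix_submatrix]
  congr 3 <;> · funext a; simp

/-- the form of `h` and of the elements of `L` -/
private def Pf44 (L : Submodule ℂ (Matrix n n ℂ)) (h U : Matrix n n ℂ) {d q : ℕ} (e : n ≃ Fin d × Fin q)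
    (x : Fin d → ℤ) (y : Fin q → ℤ) : Prop :=
  h = tz U Uᴴ e (diagonal fun j : Fin d × Fin q => (((x j.1 + y j.2 : ℤ) : ℂ) + 1 / 2)) ∧
    ∀ X ∈ L, ∃ (v : Matrix (Fin d) (Fin d) ℂ) (z : Matrix (Fin q) (Fin q) ℂ), X = tz U Uᴴ e (kr v 1 + kr 1 z)

private lemma Pf44.swap {h U : Matrix n n ℂ} {d q : ℕ} {e : n ≃ Fin d × Fin q} {x : Fin d → ℤ} {y : Fin q → ℤ}
    (H : Pf44 L h U e x y) : Pf44 L h U (e.trans (Equiv.prodComm _ _)) y x := by
  obtain ⟨h1, h2⟩ := H
  refine ⟨?_, fun X hX => ?_⟩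
  · rw [h1]
    conv_lhs => rw [← tz_reindex44 U Uᴴ e (Equiv.prodComm _ _)]
    congr 1
    rw [submatrix_diagonal_equiv]
    congr 1
    funext j
    simp only [Function.comp, Equiv.prodComm_symm, Equiv.prodComm_apply, Prod.fst_swap, Prod.snd_swap]
    rw [add_comm (x j.2)]
  · obtain ⟨v, z, h3⟩ := h2 X hX
    refine ⟨z, v, ?_⟩
    rw [h3]
    conv_lhs => rw [← tz_reindex44 U Uᴴ e (Equiv.prodComm _ _)]
    congr 1
    ext ⟨a, b⟩ ⟨a', b'⟩
    simp only [submatrix_apply, Equiv.prodComm_symm, Equiv.prodComm_apply, Prod.swap_prod_mk, Matrix.add_apply,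
      kroneckerMap_apply]
    ring

private lemma Pf44.flip {h U : Matrix n n ℂ} {q : ℕ} {e : n ≃ Fin 2 × Fin q} {x : Fin 2 → ℤ} {y : Fin q → ℤ}
    (H : Pf44 L h U e x y) :
    Pf44 L h U (e.trans (Equiv.prodCongr (Equiv.swap 0 1) (Equiv.refl _))) (x ∘ Equiv.swap 0 1) y := by
  obtain ⟨h1, h2⟩ := H
  refine ⟨?_, fun X hX => ?_⟩
  · rw [h1]
    conv_lhs => rw [← tz_reindex44 U Uᴴ e (Equiv.prodCongr (Equiv.swap 0 1) (Equiv.refl _))]
    congr 1
    rw [submatrix_diagonal_equiv]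
    congr 1
  · obtain ⟨v, z, h3⟩ := h2 X hX
    refine ⟨v.submatrix (Equiv.swap 0 1) (Equiv.swap 0 1), z, ?_⟩
    rw [h3]
    conv_lhs => rw [← tz_reindex44 U Uᴴ e (Equiv.prodCongr (Equiv.swap 0 1) (Equiv.refl _))]
    congr 1
    ext ⟨a, b⟩ ⟨a', b'⟩
    have h4 : ((1 : Matrix (Fin 2) (Fin 2) ℂ) ((Equiv.swap 0 1) a) ((Equiv.swap 0 1) a')) =
        (1 : Matrix (Fin 2) (Fin 2) ℂ) a a' := by
      rw [Matrix.one_apply, Matrix.one_apply]
      simp only [EmbeddingLike.apply_eq_iff_eq]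
    simp only [submatrix_apply, Equiv.prodCongr_symm, Equiv.symm_swap, Equiv.refl_symm, Equiv.prodCongr_apply,
      Prod.map_apply, Equiv.coe_refl, id_eq, Matrix.add_apply, kroneckerMap_apply]
    rw [h4]

/-- the numbers -/
private lemma count44 {q : ℕ} {y : Fin q → ℤ} {r : ℤ → ℕ} {s : ℕ} {M : ℤ}
    (hr : ∀ p, r p = (Finset.univ.filter fun k => y k = p).card + (Finset.univ.filter fun k => y k = p + 1).card)
    (hT : ∀ p, r p ≠ 0 → -M - 1 ≤ p ∧ p ≤ M)
    (hs : s = ∑ p ∈ Finset.Icc 1 M, r p) (hs' : s = ∑ p ∈ Finset.Icc (-M - 1) (-2), r p) (hs1 : 1 ≤ s)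
    (hn : (4 * s + 1) ^ 2 ≤ 2 * q) :
    ((Finset.univ.filter fun k => y k ≠ 0).card + 1) ^ 2 ≤ q ∧ (∃ k, y k ≠ 0) ∧ 5 ≤ q := by
  have e1 : (Finset.univ.filter fun k => 1 ≤ y k).card ≤ s := by
    rw [hs, Finset.card_eq_sum_card_fiberwise (f := y) (t := Finset.Icc 1 M)]
    · refine Finset.sum_le_sum fun p hp => ?_
      rw [hr p]
      refine le_add_right (Finset.card_le_card ?_)
      intro k hk
      rw [Finset.mem_filter] at hk ⊢
      exact ⟨Finset.mem_univ _, hk.2⟩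
    · intro k hk
      rw [Finset.mem_coe, Finset.mem_filter] at hk
      have h2 : r (y k) ≠ 0 := by
        rw [hr]
        have h3 : 0 < (Finset.univ.filter fun k' => y k' = y k).card :=
          Finset.card_pos.2 ⟨k, Finset.mem_filter.2 ⟨Finset.mem_univ _, rfl⟩⟩
        omega
      rw [Finset.mem_coe, Finset.mem_Icc]
      exact ⟨hk.2, (hT _ h2).2⟩
  have e2 : (Finset.univ.filter fun k => y k ≤ -1).card ≤ s := by
    rw [hs', Finset.card_eq_sum_card_fiberwise (f := fun k => y k - 1) (t := Finset.Icc (-M - 1) (-2))]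
    · refine Finset.sum_le_sum fun p hp => ?_
      rw [hr p]
      refine le_add_left (Finset.card_le_card ?_)
      intro k hk
      rw [Finset.mem_filter] at hk ⊢
      exact ⟨Finset.mem_univ _, by linarith [hk.2]⟩
    · intro k hk
      rw [Finset.mem_coe, Finset.mem_filter] at hk
      have h2 : r (y k - 1) ≠ 0 := by
        rw [hr]
        have h3 : 0 < (Finset.univ.filter fun k' => y k' = y k - 1 + 1).card :=
          Finset.card_pos.2 ⟨k, Finset.mem_filter.2 ⟨Finset.mem_univ _, by ring⟩⟩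
        omega
      rw [Finset.mem_coe, Finset.mem_Icc]
      exact ⟨(hT _ h2).1, by linarith [hk.2]⟩
  have e3 : (Finset.univ.filter fun k => y k ≠ 0).card ≤ 2 * s := by
    have h1 : (Finset.univ.filter fun k => y k ≠ 0) ⊆
        (Finset.univ.filter fun k => 1 ≤ y k) ∪ (Finset.univ.filter fun k => y k ≤ -1) := by
      intro k hk
      rw [Finset.mem_filter] at hk
      rw [Finset.mem_union, Finset.mem_filter, Finset.mem_filter]
      rcases lt_or_gt_of_ne hk.2 with h | h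
      · exact Or.inr ⟨Finset.mem_univ _, by omega⟩
      · exact Or.inl ⟨Finset.mem_univ _, by omega⟩
    have h2 := (Finset.card_le_card h1).trans (Finset.card_union_le _ _)
    omega
  refine ⟨?_, ?_, by nlinarith⟩
  · have h2 : ((Finset.univ.filter fun k => y k ≠ 0).card + 1) ^ 2 ≤ (2 * s + 1) ^ 2 :=
      Nat.pow_le_pow_left (by omega) 2
    nlinarith
  · by_contra hcon
    push Not at hcon
    have h3 : s = 0 := by
      rw [hs]
      refine Finset.sum_eq_zero fun p hp => ?_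
      rw [Finset.mem_Icc] at hp
      have z1 : ∀ m : ℤ, m ≠ 0 → (Finset.univ.filter fun k => y k = m).card = 0 := by
        intro m hm
        rw [Finset.card_eq_zero, Finset.filter_eq_empty_iff]
        intro k _
        rw [hcon]
        exact fun h => hm h.symm
      rw [hr, z1 p (by omega), z1 (p + 1) (by omega), Nat.add_zero]
    omega

private lemma single_sum44 {d : ℕ} (x : Fin d → ℤ) (m : ℤ) :
    (∑ j, Finsupp.single (x j) 1 : ℤ →₀ ℕ) m = ∑ j, if x j = m then 1 else 0 := by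
  rw [Finsupp.finsetSum_apply]
  refine Finset.sum_congr rfl fun j _ => ?_
  rw [Finsupp.single_apply]

private lemma sum_one44 {d : ℕ} (x : Fin d → ℤ) :
    ((∑ j, Finsupp.single (x j) 1 : ℤ →₀ ℕ).sum fun _ a => a) = d := by
  rw [← Finsupp.sum_finsetSum_index (by simp) (by simp)]
  simp

private lemma sum_two44 {d q : ℕ} (x : Fin d → ℤ) (y : Fin q → ℤ) (p : ℤ) :
    ((∑ j, Finsupp.single (x j) 1 : ℤ →₀ ℕ).sum fun i a => a * (∑ k, Finsupp.single (y k) 1 : ℤ →₀ ℕ) (p - i)) =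
      ∑ j, ∑ k, if x j + y k = p then 1 else 0 := by
  rw [← Finsupp.sum_finsetSum_index (by simp) (by intros; ring)]
  refine Finset.sum_congr rfl fun j _ => ?_
  rw [Finsupp.sum_single_index (by simp), one_mul, single_sum44]
  refine Finset.sum_congr rfl fun k _ => ?_
  by_cases h : x j + y k = p
  · rw [if_pos h, if_pos (by linarith)]
  · rw [if_neg h, if_neg (fun h2 => h (by linarith))]

/-- the end of the proof, if `x` has two values `i`, `i + 1` -/
private lemma fin44 {h U : Matrix n n ℂ} (U1 : Uᴴ * U = 1) (U2 : U * Uᴴ = 1) {r : ℤ → ℕ} {s : ℕ} {M : ℤ}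
    (hT : ∀ p, r p ≠ 0 → -M - 1 ≤ p ∧ p ≤ M)
    (hs : s = ∑ p ∈ Finset.Icc 1 M, r p) (hs' : s = ∑ p ∈ Finset.Icc (-M - 1) (-2), r p) (hs1 : 1 ≤ s)
    (hn : (4 * s + 1) ^ 2 ≤ Fintype.card n) (hd : ∀ d : ℕ, (∀ p, d ∣ r p) → d = 1)
    {d q : ℕ} {e : n ≃ Fin d × Fin q} {x : Fin d → ℤ} {y : Fin q → ℤ} (H : Pf44 L h U e x y)
    (rk : ∀ p, r p = ∑ j, ∑ k, if x j + y k = p then 1 else 0) {i : ℤ}
    (hA : (∑ j, Finsupp.single (x j) 1 : ℤ →₀ ℕ) = Finsupp.single i 1 + Finsupp.single (i + 1) 1) :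
    ∃ (q : ℕ) (e : n ≃ Fin 2 × Fin q) (U : Matrix n n ℂ) (y : Fin q → ℤ), Tw L h e U y ∧
      ((Finset.univ.filter fun k => y k ≠ 0).card + 1) ^ 2 ≤ q ∧ (∃ k, y k ≠ 0) ∧ 5 ≤ q ∧
      ∀ d : ℕ, (∀ p : ℤ, d ∣ (Finset.univ.filter fun k => y k = p).card) → d = 1 := by
  have hd2 : d = 2 := by
    have h1 := sum_one44 x
    rw [hA, Finsupp.sum_add_index' (by simp) (by simp), Finsupp.sum_single_index rfl,
      Finsupp.sum_single_index rfl] at h1
    omega
  subst hd2
  -- the two values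
  have hx : (x 0 = i + 1 ∧ x 1 = i) ∨ (x 0 = i ∧ x 1 = i + 1) := by
    have h1 := single_sum44 x i
    have h2 := single_sum44 x (i + 1)
    rw [hA, Finsupp.add_apply, Finsupp.single_apply, Finsupp.single_apply, Fin.sum_univ_two] at h1 h2
    rw [if_pos rfl, if_neg (by omega)] at h1
    rw [if_neg (by omega), if_pos rfl] at h2
    split_ifs at h1 h2 <;> omega
  have key : ∀ (e : n ≃ Fin 2 × Fin q) (x : Fin 2 → ℤ), x 0 = i + 1 → x 1 = i → Pf44 L h U e x y →
      Tw L h e U (fun k => y k + i + 1) := by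
    intro e x hx0 hx1 H
    obtain ⟨h1, h2⟩ := H
    refine ⟨U1, U2, ?_, fun X hX => ?_⟩
    · rw [h1]
      congr 1
      ext ⟨a, b⟩ ⟨a', b'⟩
      simp only [Matrix.add_apply, kroneckerMap_apply]
      by_cases hb : b = b'
      · subst hb
        fin_cases a <;> fin_cases a' <;> simp [hx0, hx1] <;> ring
      · rw [Matrix.diagonal_apply_ne _ (fun h3 => hb (congrArg Prod.snd h3)), Matrix.one_apply_ne hb,
          Matrix.diagonal_apply_ne _ hb, mul_zero, mul_zero, add_zero]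
    · obtain ⟨v, z, h3⟩ := h2 X hX
      refine ⟨v - (v.trace / 2) • 1, z + (v.trace / 2) • 1, ?_, ?_⟩
      · rw [Matrix.trace_sub, Matrix.trace_smul, Matrix.trace_one, Fintype.card_fin, smul_eq_mul]
        push_cast
        ring
      · rw [h3]
        congr 1
        ext ⟨a, b⟩ ⟨a', b'⟩
        simp only [Matrix.add_apply, kroneckerMap_apply, Matrix.sub_apply, Matrix.smul_apply, smul_eq_mul]
        ring
  have hrr : ∀ p, r p = (Finset.univ.filter fun k => y k + i + 1 = p).card +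
      (Finset.univ.filter fun k => y k + i + 1 = p + 1).card := by
    intro p
    rw [rk, Fin.sum_univ_two, Finset.card_filter, Finset.card_filter]
    rcases hx with ⟨h0, h1⟩ | ⟨h0, h1⟩
    · rw [h0, h1]
      congr 1 <;>
      · refine Finset.sum_congr rfl fun k _ => ?_
        congr 1
        apply propext
        constructor <;> intro h <;> linarith
    · rw [h0, h1, add_comm]
      congr 1 <;>
      · refine Finset.sum_congr rfl fun k _ => ?_
        congr 1
        apply propext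
        constructor <;> intro h <;> linarith
  have hcard : Fintype.card n = 2 * q := by
    rw [Fintype.card_congr e, Fintype.card_prod, Fintype.card_fin, Fintype.card_fin]
  rw [hcard] at hn
  obtain ⟨c1, c2, c3⟩ := count44 hrr hT hs hs' hs1 hn
  have c4 : ∀ d : ℕ, (∀ p : ℤ, d ∣ (Finset.univ.filter fun k => y k + i + 1 = p).card) → d = 1 := by
    intro d hdd
    apply hd
    intro p
    rw [hrr]
    exact dvd_add (hdd _) (hdd _)
  rcases hx with ⟨h0, h1⟩ | ⟨h0, h1⟩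
  · exact ⟨q, e, U, _, key e x h0 h1 H, c1, c2, c3, c4⟩
  · refine ⟨q, _, U, _, key _ _ ?_ ?_ H.flip, c1, c2, c3, c4⟩
    · simp [h1]
    · simp [h0]

private lemma rank_trace44 (S : Spec h E Λ) (μ : ℝ) : ((E μ).rank : ℂ) = (E μ).trace :=
  rank_eq_trace (by rw [S.mul, if_pos rfl])

theorem exists_tw (D : Dat τ L h E Λ) (hP : ¬ Prim L) (half : ∀ μ : ℝ, E μ ≠ 0 → ∃ k : ℤ, μ = k + 1 / 2) {s : ℕ}
    (hs : s = ∑ μ ∈ Λ.filter (fun μ => 1 / 2 < μ), (E μ).rank) (hs1 : 1 ≤ s)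
    (hn : (4 * s + 1) ^ 2 ≤ Fintype.card n) (hd : ∀ d : ℕ, (∀ μ, d ∣ (E μ).rank) → d = 1) :
    ∃ (q : ℕ) (e : n ≃ Fin 2 × Fin q) (U : Matrix n n ℂ) (y : Fin q → ℤ), Tw L h e U y ∧
      ((Finset.univ.filter fun k => y k ≠ 0).card + 1) ^ 2 ≤ q ∧ (∃ k, y k ≠ 0) ∧ 5 ≤ q ∧
      ∀ d : ℕ, (∀ p : ℤ, d ∣ (Finset.univ.filter fun k => y k = p).card) → d = 1 := by
  classical
  have S := D.spec
  have hne : Nonempty n := by
    rw [← Fintype.card_pos_iff]
    have : 0 < (4 * s + 1) ^ 2 := by positivity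
    omega
  unfold Prim at hP
  push Not at hP
  obtain ⟨A, hst, hnA, hbot, htop⟩ := hP
  have half' : ∀ μ : ℝ, E μ ≠ 0 → ∃ k : ℤ, μ = k + (1 / 2 : ℝ) := half
  obtain ⟨d, q, e, U, x, y, hd1, hq1, U1, U2, hdb, hqt, hh, hmem, hrank⟩ :=
    coo S A hst (fun a ha hc => centre D.irr A hst hnA ha hc) (fun a ha => hnA h D.mem a ha) (1 / 2) half'
  have hd2 : 2 ≤ d := by
    rcases Nat.lt_or_ge 1 d with h | h
    · exact h
    · exact absurd (hdb (by omega)) hbot
  have hq2 : 2 ≤ q := by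
    rcases Nat.lt_or_ge 1 q with h | h
    · exact h
    · exact absurd (hqt (by omega)) htop
  -- the numbers
  obtain ⟨r, hrdef⟩ : ∃ r : ℤ → ℕ, r = fun p : ℤ => (E ((p : ℝ) + 1 / 2)).rank := ⟨_, rfl⟩
  have hr0 : ∀ p, r p = (E ((p : ℝ) + 1 / 2)).rank := fun p => by rw [hrdef]
  obtain ⟨M, hM⟩ : ∃ M : ℤ, ∀ μ ∈ Λ, -M - 1 ≤ ⌊μ⌋ ∧ ⌊μ⌋ ≤ M := by
    refine ⟨∑ μ ∈ Λ, |⌊μ⌋|, fun μ hμ => ?_⟩
    have h1 : |⌊μ⌋| ≤ ∑ μ ∈ Λ, |⌊μ⌋| :=
      Finset.single_le_sum (f := fun μ : ℝ => |⌊μ⌋|) (fun _ _ => abs_nonneg _) hμ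
    have h2 := abs_le.1 h1
    omega
  have hfl : ∀ p : ℤ, ⌊(p : ℝ) + 1 / 2⌋ = p := by
    intro p
    rw [Int.floor_eq_iff]
    constructor <;> linarith
  have hT : ∀ p, r p ≠ 0 → -M - 1 ≤ p ∧ p ≤ M := by
    intro p hp
    have h1 : ((p : ℝ) + 1 / 2) ∈ Λ := by
      by_contra h1
      apply hp
      rw [hr0, S.supp _ h1, Matrix.rank_zero]
    have h2 := hM _ h1
    rwa [hfl] at h2
  have hM0 : 0 ≤ M ∨ M < 0 := le_or_gt 0 M
  have hsym : ∀ p, r (-1 - p) = r p := by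
    intro p
    have h1 : ((((-1 - p : ℤ)) : ℝ) + 1 / 2) = -((p : ℝ) + 1 / 2) := by push_cast; ring
    rw [hr0, hr0, h1]
    have h2 : ((E (-((p : ℝ) + 1 / 2))).rank : ℂ) = ((E ((p : ℝ) + 1 / 2)).rank : ℂ) := by
      rw [rank_trace44 S, rank_trace44 S, ← D.tauE, D.inv.tr]
    exact_mod_cast h2
  have hsumP : ∀ (P : ℝ → Prop) [DecidablePred P] (Q : ℤ → Prop) [DecidablePred Q],
      (∀ p : ℤ, P ((p : ℝ) + 1 / 2) ↔ Q p) →
      ∑ μ ∈ Λ.filter P, (E μ).rank = ∑ p ∈ (Finset.Icc (-M - 1) M).filter Q, r p := by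
    intro P _ Q _ hPQ
    refine Finset.sum_bij_ne_zero (fun μ _ _ => ⌊μ⌋) ?_ ?_ ?_ ?_
    · intro μ hμ hμ0
      rw [Finset.mem_filter] at hμ
      have h1 : E μ ≠ 0 := fun h1 => hμ0 (by rw [h1, Matrix.rank_zero])
      obtain ⟨k, hk⟩ := half' μ h1
      have h2 := hM μ hμ.1
      rw [Finset.mem_filter, Finset.mem_Icc]
      refine ⟨h2, ?_⟩
      rw [hk, hfl, ← hPQ, ← hk]
      exact hμ.2
    · intro μ hμ hμ0 μ' hμ' hμ0' hf
      obtain ⟨k, hk⟩ := half' μ (fun h1 => hμ0 (by rw [h1, Matrix.rank_zero]))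
      obtain ⟨k', hk'⟩ := half' μ' (fun h1 => hμ0' (by rw [h1, Matrix.rank_zero]))
      rw [hk, hk', hfl, hfl] at hf
      rw [hk, hk', hf]
    · intro p hp hp0
      rw [Finset.mem_filter] at hp
      have h1 : ((p : ℝ) + 1 / 2) ∈ Λ := by
        by_contra h1
        apply hp0
        rw [hr0, S.supp _ h1, Matrix.rank_zero]
      refine ⟨(p : ℝ) + 1 / 2, Finset.mem_filter.2 ⟨h1, (hPQ p).2 hp.2⟩, ?_, hfl p⟩
      rwa [hr0] at hp0
    · intro μ hμ hμ0
      obtain ⟨k, hk⟩ := half' μ (fun h1 => hμ0 (by rw [h1, Matrix.rank_zero]))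
      rw [hr0, hk, hfl]
  have hs2 : s = ∑ p ∈ (Finset.Icc (-M - 1) M).filter (fun p => 1 ≤ p), r p := by
    rw [hs]
    refine hsumP _ _ fun p => ?_
    constructor
    · intro h
      have h1 : (0 : ℝ) < p := by linarith
      have h2 : (0 : ℤ) < p := by exact_mod_cast h1
      omega
    · intro h
      have h1 : (1 : ℝ) ≤ p := by exact_mod_cast h
      linarith
  have hM1 : 1 ≤ M := by
    by_contra hcon
    have h1 : s = 0 := by
      rw [hs2]
      refine Finset.sum_eq_zero fun p hp => ?_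
      rw [Finset.mem_filter, Finset.mem_Icc] at hp
      omega
    omega
  have hs3 : s = ∑ p ∈ Finset.Icc 1 M, r p := by
    rw [hs2]
    refine Finset.sum_congr ?_ fun _ _ => rfl
    ext p
    rw [Finset.mem_filter, Finset.mem_Icc, Finset.mem_Icc]
    omega
  have hs4 : s = ∑ p ∈ Finset.Icc (-M - 1) (-2), r p := by
    rw [hs3]
    refine Finset.sum_nbij' (fun p => -1 - p) (fun p => -1 - p) ?_ ?_ ?_ ?_ ?_
    · intro p hp
      rw [Finset.mem_Icc] at hp ⊢
      omega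
    · intro p hp
      rw [Finset.mem_Icc] at hp ⊢
      omega
    · intro p _
      ring
    · intro p _
      ring
    · intro p _
      exact (hsym p).symm
  have hN : Fintype.card n = 2 * r 0 + 2 * s := by
    have h1 : Fintype.card n = ∑ p ∈ Finset.Icc (-M - 1) M, r p := by
      have h2 : (Fintype.card n : ℂ) = ((∑ μ ∈ Λ, (E μ).rank : ℕ) : ℂ) := by
        push_cast
        rw [← Matrix.trace_one, ← S.sum, Matrix.trace_sum]
        exact Finset.sum_congr rfl fun μ _ => (rank_trace44 S μ).symm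
      have h3 : Fintype.card n = ∑ μ ∈ Λ, (E μ).rank := by exact_mod_cast h2
      have h4 := hsumP (fun _ => True) (fun _ => True) (fun _ => Iff.rfl)
      rw [Finset.filter_true_of_mem (fun _ _ => trivial), Finset.filter_true_of_mem (fun _ _ => trivial)] at h4
      rw [h3, h4]
    have h5 : Finset.Icc (-M - 1) M = Finset.Icc (-M - 1) (-2) ∪ ({-1, 0} ∪ Finset.Icc 1 M) := by
      ext p
      simp only [Finset.mem_union, Finset.mem_Icc, Finset.mem_insert, Finset.mem_singleton]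
      omega
    have h6 : Disjoint (Finset.Icc (-M - 1) (-2)) (({-1, 0} : Finset ℤ) ∪ Finset.Icc 1 M) := by
      rw [Finset.disjoint_left]
      intro p hp
      simp only [Finset.mem_union, Finset.mem_Icc, Finset.mem_insert, Finset.mem_singleton] at hp ⊢
      omega
    have h7 : Disjoint ({-1, 0} : Finset ℤ) (Finset.Icc 1 M) := by
      rw [Finset.disjoint_left]
      intro p hp
      simp only [Finset.mem_Icc, Finset.mem_insert, Finset.mem_singleton] at hp ⊢
      omega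
    have h8 : r (-1) = r 0 := by
      have := hsym 0
      rwa [sub_zero] at this
    rw [h1, h5, Finset.sum_union h6, Finset.sum_union h7, ← hs3, ← hs4, Finset.sum_pair (by decide), h8]
    ring
  have hd' : ∀ d : ℕ, (∀ p, d ∣ r p) → d = 1 := by
    intro d hdd
    apply hd
    intro μ
    by_cases h1 : E μ = 0
    · rw [h1, Matrix.rank_zero]
      exact dvd_zero _
    · obtain ⟨k, hk⟩ := half' μ h1
      have h2 := hdd k
      rwa [hr0, ← hk] at h2
  have hT' : ∀ p, p ∉ Finset.Icc (-M - 1) M → r p = 0 := by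
    intro p hp
    by_contra h1
    exact hp (Finset.mem_Icc.2 (hT p h1))
  have hrk : ∀ p, r p = ∑ j, ∑ k, if x j + y k = p then 1 else 0 := by
    intro p
    rw [hr0, hrank p, sum_two44]
  have hPf : Pf44 L h U e x y := by
    refine ⟨?_, fun X hX => hmem X fun a ha => hnA X hX a ha⟩
    rw [hh]
    congr 3
    funext j
    push_cast
    ring
  have hn4 : (4 * s + 1) ^ 2 ≤ 2 * r 0 + 2 * s := by rwa [← hN]
  rcases num_pair hT' hsym hs2 hs1 hn4 hd' (∑ i, Finsupp.single (x i) 1) (∑ k, Finsupp.single (y k) 1)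
    (fun p => by rw [hr0]; exact hrank p) with h1 | h1 | ⟨i, hi⟩ | ⟨i, hi⟩
  · rw [sum_one44] at h1
    omega
  · rw [sum_one44] at h1
    omega
  · exact fin44 U1 U2 hT hs3 hs4 hs1 hn hd' hPf hrk hi
  · refine fin44 U1 U2 hT hs3 hs4 hs1 hn hd' hPf.swap (fun p => ?_) hi
    rw [hrk, Finset.sum_comm]
    refine Finset.sum_congr rfl fun k _ => Finset.sum_congr rfl fun j _ => ?_
    rw [add_comm]

end OW
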