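import Pool.Agent.Helper71.OW.Main
import Pool.Agent.Helper71.OW.Tws
import Pool.Agent.Helper71.OW.Sl2
import Pool.Agent.Helper71.OW.Frm
import Pool.Agent.Helper71.OW.SoW
import Pool.Agent.Helper71.OW.Rk

/-!
OW-49. The dichotomy for Lie algebras: two dominating middle multiplicities, no common divisor: everything, or
`sl₂ ⊗ 1 + 1 ⊗ so(G)` on `ℂ² ⊗ ℂ^q`.
-/

set_option linter.unusedSectionVars false

open Matrix MH

namespace OW

variable {n : Type*} [Fintype n] [DecidableEq n]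
variable {h : Matrix n n ℂ} {E : ℝ → Matrix n n ℂ} {Λ : Finset ℝ} {J Ji : Matrix n n ℂ}
variable {τ : Matrix n n ℂ →ₗ[ℂ] Matrix n n ℂ} {L : Submodule ℂ (Matrix n n ℂ)}

private lemma kr_add_right71 {d q : ℕ} (x : Matrix (Fin d) (Fin d) ℂ) (z z' : Matrix (Fin q) (Fin q) ℂ) :
    kr x (z + z') = kr x z + kr x z' := kroneckerMap_add_right _ (fun a b c => mul_add a b c) _ _ _

private lemma kr_sub_right71 {d q : ℕ} (x : Matrix (Fin d) (Fin d) ℂ) (z z' : Matrix (Fin q) (Fin q) ℂ) :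
    kr x (z - z') = kr x z - kr x z' := by
  ext i j
  exact mul_sub _ _ _

private lemma kr_smul_right71 {d q : ℕ} (c : ℂ) (x : Matrix (Fin d) (Fin d) ℂ) (z : Matrix (Fin q) (Fin q) ℂ) :
    kr x (c • z) = c • kr x z := by
  ext i j
  exact mul_left_comm _ _ _

private lemma kr_zero_right71 {d q : ℕ} (x : Matrix (Fin d) (Fin d) ℂ) :
    kr x (0 : Matrix (Fin q) (Fin q) ℂ) = 0 := by
  ext i j
  exact mul_zero _

/-- the second factor of the Lie algebra -/
private def KW71 {q : ℕ} (L : Submodule ℂ (Matrix n n ℂ)) (U : Matrix n n ℂ) (e : n ≃ Fin 2 × Fin q) :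
    Submodule ℂ (Matrix (Fin q) (Fin q) ℂ) where
  carrier := {z | tz U Uᴴ e (kr 1 z) ∈ L}
  add_mem' := by
    intro x y hx hy
    change tz U Uᴴ e (kr 1 (x + y)) ∈ L
    rw [kr_add_right71, tz_add]
    exact L.add_mem hx hy
  zero_mem' := by
    change tz U Uᴴ e (kr 1 0) ∈ L
    rw [kr_zero_right71, tz_zero]
    exact L.zero_mem
  smul_mem' := by
    intro c x hx
    change tz U Uᴴ e (kr 1 (c • x)) ∈ L
    rw [kr_smul_right71, tz_smul]
    exact L.smul_mem c hx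

theorem dich (D : Dat τ L h E Λ) (Y : CY.Sym J Ji τ)
    (half : ∀ μ : ℝ, E μ ≠ 0 → ∃ k : ℤ, μ = k + 1 / 2) {s : ℕ}
    (hs : s = ∑ μ ∈ Λ.filter (fun μ => 1 / 2 < μ), (E μ).rank) (hs1 : 1 ≤ s) (hN : s ^ 3 + 26 < (E (1 / 2)).rank)
    (hn : (4 * s + 1) ^ 2 ≤ Fintype.card n) (hd : ∀ d : ℕ, (∀ μ, d ∣ (E μ).rank) → d = 1) :
    (∀ y : Matrix n n ℂ, τ y = -y → y ∈ L) ∨ ((∃ (q : ℕ) (e : n ≃ Fin 2 × Fin q) (U : Matrix n n ℂ)
      (G Gi : Matrix (Fin q) (Fin q) ℂ), U * Uᴴ = 1 ∧ TT J L e U Uᴴ G Gi) ∧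
        ∃ c : ℤ → ℕ, ∀ p : ℤ, (E ((p : ℝ) + 1 / 2)).rank = c p + c (p + 1)) := by
  classical
  by_cases P : Prim L
  · exact Or.inl fun y hy => main_prim D P Y half hs hs1 hN hn hy
  right
  obtain ⟨q, e, U, y, W, ht, h0, h5, hdd⟩ := exists_tw D P half hs hs1 hn hd
  -- skewness of the elements of `L`
  have hJ : ∀ z, z ∈ L → zᵀ * J + J * z = 0 := by
    intro z hz
    have h4 := D.sk z hz
    rw [Y.tau] at h4
    have h5 := congrArg (fun M => J * M) h4
    simp only [← mul_assoc, Y.left, one_mul, mul_neg] at h5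
    rw [h5, neg_add_cancel]
  have hsl : ∀ x : Matrix (Fin 2) (Fin 2) ℂ, x.trace = 0 → tz U Uᴴ e (kr x 1) ∈ L :=
    fun x hx => W.sl2 D.br D.st D.irr D.mem hx
  obtain ⟨G, Gi, hG1, hG2, hG3⟩ := form_of (T := U) (Ti := Uᴴ) W.right W.left Y.skew Y.left
    (fun x hx => hJ _ (hsl x hx))
  -- the second factor
  have hsplit : ∀ {x : Matrix (Fin 2) (Fin 2) ℂ} {z : Matrix (Fin q) (Fin q) ℂ}, x.trace = 0 →
      tz U Uᴴ e (kr x 1 + kr 1 z) ∈ L → z ∈ KW71 L U e := by
    intro x z hx hX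
    have h1 := L.sub_mem hX (hsl x hx)
    rw [tz_add, add_sub_cancel_left] at h1
    exact h1
  have hsk : ∀ z ∈ KW71 L U e, zᵀ * G + G * z = 0 := by
    intro z hz
    have h1 : tz U Uᴴ e (kr 1 z) ∈ L := hz
    have h2 := hJ _ h1
    have h3 : tz U Uᴴ e (kr 1 z) = tz U Uᴴ e (kr 0 1 + kr 1 z) := by
      congr 1
      have : kr (0 : Matrix (Fin 2) (Fin 2) ℂ) (1 : Matrix (Fin q) (Fin q) ℂ) = 0 := by
        ext i j
        exact zero_mul _
      rw [this, zero_add]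
    rw [h3] at h2
    exact (skew_iff W.right W.left hG3 (Matrix.trace_zero _ _)).1 h2
  have hall : ∀ z : Matrix (Fin q) (Fin q) ℂ, zᵀ * G + G * z = 0 → z ∈ KW71 L U e := by
    intro z hz
    refine so_part (L := KW71 L U e) ?_ ?_ ?_ hG2 hsk (y := y) ?_ ht h0 hdd (by omega) hz
    · intro x hx z hz
      have h1 := D.br _ hx _ hz
      rw [tz_mul W.left, tz_mul W.left, kr_mul, kr_mul, one_mul, ← tz_sub, ← kr_sub_right71] at h1
      exact h1
    · intro x hx
      have h1 := D.st _ hx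
      rw [tz_star] at h1
      have h2 : (kr (1 : Matrix (Fin 2) (Fin 2) ℂ) x)ᴴ = kr 1 xᴴ := by
        ext i j
        simp only [Matrix.conjTranspose_apply, kroneckerMap_apply, star_mul', Matrix.one_apply]
        by_cases hij : i.1 = j.1
        · rw [if_pos hij, if_pos hij.symm, star_one]
        · rw [if_neg hij, if_neg (Ne.symm hij), star_zero]
      rw [h2] at h1
      exact h1
    · intro T hT
      obtain ⟨c, hc⟩ := D.irr (tz U Uᴴ e (kr 1 T)) (by
        intro X hX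
        obtain ⟨x, z, hx, rfl⟩ := W.mem X hX
        have h1 := hT z (hsplit hx hX)
        rw [tz_mul W.left, tz_mul W.left, mul_add, add_mul, kr_mul, kr_mul, kr_mul, kr_mul]
        simp only [one_mul, mul_one]
        rw [h1])
      refine ⟨c, ?_⟩
      have h1 : tz U Uᴴ e (kr 1 T) = tz U Uᴴ e (kr 1 (c • (1 : Matrix (Fin q) (Fin q) ℂ))) := by
        rw [hc, kr_smul_right71, tz_smul, kr_one, tz_one W.right]
      have h2 := tz_inj W.left h1
      ext i j
      have h3 := congrFun (congrFun h2 (0, i)) (0, j)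
      simpa [kroneckerMap_apply] using h3
    · have h1 := D.mem
      rw [W.h_eq] at h1
      refine hsplit ?_ h1
      simp [Matrix.trace, Fin.sum_univ_two]
  refine ⟨⟨q, e, U, G, Gi, W.right, W.right, W.left, hG1, hG2, hG3, ?_, h5⟩, W.ranks D.spec⟩
  intro X
  constructor
  · intro hX
    obtain ⟨x, z, hx, hXe⟩ := W.mem X hX
    rw [hXe] at hX
    exact ⟨x, z, hx, hsk z (hsplit hx hX), hXe⟩
  · rintro ⟨x, z, hx, hz, rfl⟩
    rw [tz_add]
    exact L.add_mem (hsl x hx) (hall z hz)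

end OW
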