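import Pool.Agent.Helper71.OW.Main
import Pool.Agent.Helper71.OW.Dic
import Pool.Agent.Helper2.EL.Defs
import Pool.Agent.Helper21.MH.Cnt

/-!
OW-21. The Lie algebra theorem in any basis: a Lie algebra of matrices that are skew for an alternating form, with
scalar commutant, with a compact form and with a diagonalisable element with half integral eigenvalues whose middle
multiplicities dominate, is the symplectic Lie algebra.
-/

set_option linter.unusedSectionVars false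

open Matrix MH

namespace OW

variable {n : Type*} [Fintype n] [DecidableEq n]

/-- the adjoint for the form with Gram matrix `G` -/
noncomputable def tG71 (Gi G : Matrix n n ℂ) : Matrix n n ℂ →ₗ[ℂ] Matrix n n ℂ where
  toFun x := Gi * xᵀ * G
  map_add' x y := by rw [Matrix.transpose_add, mul_add, add_mul]
  map_smul' c x := by
    rw [Matrix.transpose_smul, mul_smul_comm, smul_mul_assoc]
    rfl

theorem tG71_apply (Gi G x : Matrix n n ℂ) : tG71 Gi G x = Gi * xᵀ * G := rfl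

/-- the Lie algebra in the new basis -/
noncomputable def LBB71 (L : Submodule ℂ (Matrix n n ℂ)) (B Bi : Matrix n n ℂ) :
    Submodule ℂ (Matrix n n ℂ) where
  carrier := {x | cj Bi B x ∈ L}
  add_mem' := by
    intro x y hx hy
    change cj Bi B (x + y) ∈ L
    rw [cj_add]
    exact L.add_mem hx hy
  zero_mem' := by
    change cj Bi B 0 ∈ L
    rw [cj_zero]
    exact L.zero_mem
  smul_mem' := by
    intro c x hx
    change cj Bi B (c • x) ∈ L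
    rw [cj_smul]
    exact L.smul_mem c hx

theorem mem_LBB71 {L : Submodule ℂ (Matrix n n ℂ)} {B Bi x : Matrix n n ℂ} :
    x ∈ LBB71 L B Bi ↔ cj Bi B x ∈ L := Iff.rfl

/-- the spectral decomposition of a Hermitian matrix is Hermitian -/
private theorem spec_of71 {h : Matrix n n ℂ} {E : ℝ → Matrix n n ℂ} {Λ : Finset ℝ} (hE : SD h E Λ) (hh : hᴴ = h) :
    Spec h E Λ := by
  have hF : SD h (fun μ => (E μ)ᴴ) Λ := by
    refine ⟨fun μ ν => ?_, ?_, ?_⟩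
    · rw [← Matrix.conjTranspose_mul, hE.mul]
      by_cases hμ : μ = ν
      · rw [if_pos hμ, if_pos hμ.symm, hμ]
      · rw [if_neg hμ, if_neg (Ne.symm hμ), Matrix.conjTranspose_zero]
    · rw [← Matrix.conjTranspose_sum, hE.sum, Matrix.conjTranspose_one]
    · conv_lhs => rw [← hh, hE.eq]
      rw [Matrix.conjTranspose_sum]
      refine Finset.sum_congr rfl fun μ _ => ?_
      rw [Matrix.conjTranspose_smul]
      congr 1
      exact Complex.conj_ofReal μ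
  have hz : ∀ μ ν : ℝ, μ ≠ ν → E μ * (E ν)ᴴ = 0 := by
    intro μ ν hμ
    have e1 : E μ * (h * (E ν)ᴴ) = (ν : ℂ) • (E μ * (E ν)ᴴ) := by
      rw [hF.l_mul ν, mul_smul_comm]
    rw [← mul_assoc, hE.mul_l, smul_mul_assoc] at e1
    have e2 : ((μ : ℂ) - ν) • (E μ * (E ν)ᴴ) = 0 := by rw [sub_smul, e1, sub_self]
    rcases smul_eq_zero.1 e2 with e3 | e3
    · exact absurd (by exact_mod_cast sub_eq_zero.1 e3) hμ
    · exact e3
  refine ⟨fun μ => ?_, hE.mul, fun μ hμ => hE.supp hμ, hE.sum, hE.eq⟩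
  by_cases hμ : μ ∈ Λ
  · have e1 : E μ = E μ * (E μ)ᴴ := by
      conv_lhs => rw [← mul_one (E μ), ← hF.sum, Finset.mul_sum]
      rw [Finset.sum_eq_single_of_mem μ hμ]
      intro ν _ hν
      exact hz μ ν (Ne.symm hν)
    have e2 : (E μ)ᴴ = E μ * (E μ)ᴴ := by
      conv_lhs => rw [← one_mul (E μ)ᴴ, ← hE.sum, Finset.sum_mul]
      rw [Finset.sum_eq_single_of_mem μ hμ]
      intro ν _ hν
      exact hz ν μ hν
    rw [e2]
    exact e1.symm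
  · rw [hE.supp hμ, Matrix.conjTranspose_zero]

/-- conjugation of a spectral decomposition -/
private theorem sd_cj71 {h : Matrix n n ℂ} {E : ℝ → Matrix n n ℂ} {Λ : Finset ℝ} (hE : SD h E Λ)
    {B Bi : Matrix n n ℂ} (h1 : B * Bi = 1) (h2 : Bi * B = 1) :
    SD (cj B Bi h) (fun μ => cj B Bi (E μ)) Λ := by
  refine ⟨fun μ ν => ?_, ?_, ?_⟩
  · rw [cj_mul h2, hE.mul]
    by_cases hμ : μ = ν
    · rw [if_pos hμ, if_pos hμ]
    · rw [if_neg hμ, if_neg hμ, cj_zero]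
  · rw [← cj_sum, hE.sum, cj_one h1]
  · conv_lhs => rw [hE.eq, cj_sum]
    exact Finset.sum_congr rfl fun μ _ => cj_smul _ _ _ _

/-- skew matrices in the new basis -/
theorem tG_cj71 {Q' Qi B Bi : Matrix n n ℂ} (hQ2 : Qi * Q' = 1) (h2 : Bi * B = 1) {X : Matrix n n ℂ}
    (hX : Xᵀ * Q' + Q' * X = 0) : tG71 (B * Qi * Bᵀ) (Biᵀ * Q' * Bi) (cj B Bi X) = -cj B Bi X := by
  have e1 : Bᵀ * Biᵀ = 1 := by rw [← Matrix.transpose_mul, h2, Matrix.transpose_one]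
  have e2 : Xᵀ * Q' = -(Q' * X) := eq_neg_of_add_eq_zero_left hX
  rw [tG71_apply]
  unfold cj
  rw [Matrix.transpose_mul, Matrix.transpose_mul]
  calc B * Qi * Bᵀ * (Biᵀ * (Xᵀ * Bᵀ)) * (Biᵀ * Q' * Bi)
      = B * Qi * (Bᵀ * Biᵀ) * Xᵀ * (Bᵀ * Biᵀ) * Q' * Bi := by simp only [mul_assoc]
    _ = B * Qi * (Xᵀ * Q') * Bi := by rw [e1, mul_one, mul_one]; simp only [mul_assoc]
    _ = -(B * (Qi * Q') * X * Bi) := by rw [e2, mul_neg, neg_mul]; simp only [mul_assoc]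
    _ = -(B * X * Bi) := by rw [hQ2, mul_one]

/-- the data of the Lie algebra theorem -/
theorem dat_irr71 [Nonempty n] {Q' Qi : Matrix n n ℂ} (hQs : Q'ᵀ = -Q') (hQ1 : Q' * Qi = 1)
    (hQ2 : Qi * Q' = 1)
    {L : Submodule ℂ (Matrix n n ℂ)} (hbr : ∀ X ∈ L, ∀ Y ∈ L, X * Y - Y * X ∈ L)
    (hcom : ∀ T : Matrix n n ℂ, (∀ X ∈ L, T * X = X * T) → ∃ c : ℂ, T = c • (1 : Matrix n n ℂ))
    (hsk : ∀ X ∈ L, Xᵀ * Q' + Q' * X = 0) {h : Matrix n n ℂ} (hh : h ∈ L) {E : ℝ → Matrix n n ℂ} {Λ : Finset ℝ}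
    (hE : SD h E Λ) {B Bi : Matrix n n ℂ} (h1 : B * Bi = 1) (h2 : Bi * B = 1) (h3 : (cj B Bi h)ᴴ = cj B Bi h)
    (h4 : ∀ X ∈ L, cj Bi B (cj B Bi X)ᴴ ∈ L) :
    Dat (tG71 (B * Qi * Bᵀ) (Biᵀ * Q' * Bi)) (LBB71 L B Bi) (cj B Bi h) (fun μ => cj B Bi (E μ)) Λ ∧
      CY.Sym (Biᵀ * Q' * Bi) (B * Qi * Bᵀ) (tG71 (B * Qi * Bᵀ) (Biᵀ * Q' * Bi)) := by
  have b1 : Bᵀ * Biᵀ = 1 := by rw [← Matrix.transpose_mul, h2, Matrix.transpose_one]
  have b2 : Biᵀ * Bᵀ = 1 := by rw [← Matrix.transpose_mul, h1, Matrix.transpose_one]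
  have hGiG : B * Qi * Bᵀ * (Biᵀ * Q' * Bi) = 1 := by
    calc B * Qi * Bᵀ * (Biᵀ * Q' * Bi) = B * Qi * (Bᵀ * Biᵀ) * Q' * Bi := by simp only [mul_assoc]
      _ = B * (Qi * Q') * Bi := by rw [b1, mul_one]; simp only [mul_assoc]
      _ = 1 := by rw [hQ2, mul_one, h1]
  have hGGi : Biᵀ * Q' * Bi * (B * Qi * Bᵀ) = 1 := by
    calc Biᵀ * Q' * Bi * (B * Qi * Bᵀ) = Biᵀ * Q' * (Bi * B) * Qi * Bᵀ := by simp only [mul_assoc]
      _ = Biᵀ * (Q' * Qi) * Bᵀ := by rw [h2, mul_one]; simp only [mul_assoc]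
      _ = 1 := by rw [hQ1, mul_one, b2]
  have hGt : (Biᵀ * Q' * Bi)ᵀ = -(Biᵀ * Q' * Bi) := by
    rw [Matrix.transpose_mul, Matrix.transpose_mul, Matrix.transpose_transpose, hQs, mul_assoc, neg_mul, mul_neg]
  have hsk' : ∀ x ∈ LBB71 L B Bi, tG71 (B * Qi * Bᵀ) (Biᵀ * Q' * Bi) x = -x := by
    intro x hx
    have e1 := tG_cj71 (B := B) hQ2 h2 (hsk _ (mem_LBB71.1 hx))
    rwa [cj_cj h1] at e1
  have hst' : ∀ x ∈ LBB71 L B Bi, xᴴ ∈ LBB71 L B Bi := by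
    intro x hx
    have e1 := h4 _ (mem_LBB71.1 hx)
    rwa [cj_cj h1] at e1
  have hirr' : ∀ T : Matrix n n ℂ, (∀ x ∈ LBB71 L B Bi, T * x = x * T) → ∃ c : ℂ, T = c • (1 : Matrix n n ℂ) := by
    intro T hT
    obtain ⟨c, hc⟩ := hcom (cj Bi B T) (by
      intro X hX
      have e1 := hT (cj B Bi X) (by rw [mem_LBB71, cj_cj h2]; exact hX)
      have e2 := congrArg (cj Bi B) e1
      rwa [← cj_mul h1, ← cj_mul h1, cj_cj h2] at e2)
    refine ⟨c, ?_⟩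
    have e3 := congrArg (cj B Bi) hc
    rwa [cj_cj h1, cj_smul, cj_one h1] at e3
  generalize B * Qi * Bᵀ = Gi at hGiG hGGi hsk' ⊢
  generalize Biᵀ * Q' * Bi = G at hGiG hGGi hGt hsk' ⊢
  have hGit : Giᵀ = -Gi := by
    have e1 : Giᵀ * G = -1 := by
      have e2 := congrArg Matrix.transpose hGGi
      rw [Matrix.transpose_mul, hGt, Matrix.transpose_one, mul_neg] at e2
      rw [← e2, neg_neg]
    calc Giᵀ = Giᵀ * (G * Gi) := by rw [hGGi, mul_one]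
      _ = -Gi := by rw [← mul_assoc, e1, neg_one_mul]
  have hsk2 : ∀ x ∈ LBB71 L B Bi, xᵀ * G = -(G * x) := by
    intro x hx
    calc xᵀ * G = G * (Gi * xᵀ * G) := by simp only [← mul_assoc]; rw [hGGi, one_mul]
      _ = -(G * x) := by rw [← tG71_apply, hsk' x hx, mul_neg]
  obtain ⟨c, hc⟩ := hirr' (Gᴴ * G) (by
    intro x hx
    have e1 : (xᴴ)ᵀ * G = -(G * xᴴ) := hsk2 _ (hst' x hx)
    have e2 : Gᴴ * xᵀ = -(x * Gᴴ) := by
      have e3 := congrArg Matrix.conjTranspose e1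
      rw [Matrix.conjTranspose_mul, Matrix.conjTranspose_neg, Matrix.conjTranspose_mul,
        Matrix.conjTranspose_conjTranspose] at e3
      have e4 : ((xᴴ)ᵀ)ᴴ = xᵀ := by
        have : (xᴴ)ᵀ = (xᵀ)ᴴ := rfl
        rw [this, Matrix.conjTranspose_conjTranspose]
      rwa [e4] at e3
    calc Gᴴ * G * x = -(Gᴴ * xᵀ * G) := by rw [mul_assoc, mul_assoc, hsk2 x hx, mul_neg, neg_neg]
      _ = x * (Gᴴ * G) := by rw [e2, neg_mul, neg_neg, mul_assoc])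
  have hcr : starRingEnd ℂ c = c := by
    have e1 : (Gᴴ * G)ᴴ = Gᴴ * G := by rw [Matrix.conjTranspose_mul, Matrix.conjTranspose_conjTranspose]
    rw [hc, Matrix.conjTranspose_smul, Matrix.conjTranspose_one] at e1
    obtain ⟨i⟩ := (inferInstance : Nonempty n)
    have e2 := congrFun (congrFun e1 i) i
    simpa using e2
  have hG1 : Gᴴ = c • Gi := by
    calc Gᴴ = Gᴴ * G * Gi := by rw [mul_assoc, hGGi, mul_one]
      _ = c • Gi := by rw [hc, smul_mul_assoc, one_mul]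
  have hG2 : G = c • Giᴴ := by
    have e1 := congrArg Matrix.conjTranspose hG1
    rw [Matrix.conjTranspose_conjTranspose, Matrix.conjTranspose_smul] at e1
    rw [e1]
    congr 1
  refine ⟨⟨⟨?_, ?_, ?_, ?_⟩, spec_of71 (sd_cj71 hE h1 h2) h3, hsk', ?_, hst', hirr', ?_⟩, ⟨hGt, hGGi, hGiG, fun x => rfl⟩⟩
  · intro x y
    rw [tG71_apply, tG71_apply, tG71_apply, Matrix.transpose_mul]
    calc Gi * (yᵀ * xᵀ) * G = Gi * yᵀ * 1 * xᵀ * G := by rw [mul_one, ← mul_assoc Gi]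
      _ = Gi * yᵀ * G * (Gi * xᵀ * G) := by rw [← hGGi]; simp only [mul_assoc]
  · intro x
    rw [tG71_apply, tG71_apply, Matrix.transpose_mul, Matrix.transpose_mul, Matrix.transpose_transpose, hGt, hGit]
    calc Gi * (-G * (x * -Gi)) * G = Gi * G * x * (Gi * G) := by
          simp only [neg_mul, mul_neg, neg_neg, mul_assoc]
      _ = x := by rw [hGiG, one_mul, mul_one]
  · intro x
    rw [tG71_apply, tG71_apply, Matrix.conjTranspose_mul, Matrix.conjTranspose_mul]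
    have e1 : (xᴴ)ᵀ = (xᵀ)ᴴ := rfl
    rw [e1]
    calc Gi * (xᵀ)ᴴ * G = c • (Gi * (xᵀ)ᴴ * Giᴴ) := by
          conv_lhs => rw [hG2]
          rw [mul_smul_comm]
      _ = Gᴴ * ((xᵀ)ᴴ * Giᴴ) := by rw [hG1, smul_mul_assoc, mul_assoc]
  · intro x
    rw [tG71_apply, mul_assoc, Matrix.trace_mul_comm, mul_assoc, hGGi, mul_one, Matrix.trace_transpose]
  · intro x hx y hy
    rw [mem_LBB71, cj_sub, ← cj_mul h1, ← cj_mul h1]
    exact hbr _ (mem_LBB71.1 hx) _ (mem_LBB71.1 hy)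
  · rw [mem_LBB71, cj_cj h2]
    exact hh

/-- `L` is everything. -/
theorem full_of_com {Q' Qi : Matrix n n ℂ} (hQs : Q'ᵀ = -Q') (hQ1 : Q' * Qi = 1) (hQ2 : Qi * Q' = 1)
    {L : Submodule ℂ (Matrix n n ℂ)} (hbr : ∀ X ∈ L, ∀ Y ∈ L, X * Y - Y * X ∈ L)
    (hcom : ∀ T : Matrix n n ℂ, (∀ X ∈ L, T * X = X * T) → ∃ c : ℂ, T = c • (1 : Matrix n n ℂ))
    (hsk : ∀ X ∈ L, Xᵀ * Q' + Q' * X = 0) {h : Matrix n n ℂ} (hh : h ∈ L) {E : ℝ → Matrix n n ℂ} {Λ : Finset ℝ}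
    (hE : SD h E Λ) (half : ∀ μ : ℝ, E μ ≠ 0 → ∃ k : ℤ, μ = k + 1 / 2)
    (hI : Indec (fun p : ℤ => (E (p + 1 / 2)).rank)) {s : ℕ}
    (hs : s = ∑ μ ∈ Λ.filter (fun μ => 1 / 2 < μ), (E μ).rank) (hs1 : 1 ≤ s) (hN : s ^ 3 + 26 < (E (1 / 2)).rank)
    (hn : (4 * s + 1) ^ 2 ≤ Fintype.card n)
    (hherm : ∃ B Bi : Matrix n n ℂ, B * Bi = 1 ∧ Bi * B = 1 ∧
      (cj B Bi h)ᴴ = cj B Bi h ∧ ∀ X ∈ L, cj Bi B (cj B Bi X)ᴴ ∈ L)
    {X : Matrix n n ℂ} (hX : Xᵀ * Q' + Q' * X = 0) : X ∈ L := by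
  classical
  have hne : Nonempty n := by
    apply Fintype.card_pos_iff.mp
    have : 0 < (4 * s + 1) ^ 2 := by positivity
    omega
  obtain ⟨B, Bi, h1, h2, h3, h4⟩ := hherm
  obtain ⟨D, Y⟩ := dat_irr71 hQs hQ1 hQ2 hbr hcom hsk hh hE h1 h2 h3 h4
  have hEE : ∀ μ, E μ * E μ = E μ := fun μ => by rw [hE.mul, if_pos rfl]
  have r1 : ∀ μ, (cj B Bi (E μ)).rank = (E μ).rank := fun μ => rank_cj h1 h2 (hEE μ)
  have hmem := main D Y (fun μ hμ => half μ (fun h0 => hμ (by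
      show cj B Bi (E μ) = 0
      rw [h0, cj_zero]))) (by simpa only [r1] using hI) (s := s) (by simpa only [r1] using hs) hs1 (by simpa only [r1] using hN) hn
      (tG_cj71 (B := B) hQ2 h2 hX)
  rw [mem_LBB71, cj_cj h2] at hmem
  exact hmem

/-- The dichotomy in any basis. -/
theorem dich_of_com {Q' Qi : Matrix n n ℂ} (hQs : Q'ᵀ = -Q') (hQ1 : Q' * Qi = 1) (hQ2 : Qi * Q' = 1)
    {L : Submodule ℂ (Matrix n n ℂ)} (hbr : ∀ X ∈ L, ∀ Y ∈ L, X * Y - Y * X ∈ L)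
    (hcom : ∀ T : Matrix n n ℂ, (∀ X ∈ L, T * X = X * T) → ∃ c : ℂ, T = c • (1 : Matrix n n ℂ))
    (hsk : ∀ X ∈ L, Xᵀ * Q' + Q' * X = 0) {h : Matrix n n ℂ} (hh : h ∈ L) {E : ℝ → Matrix n n ℂ} {Λ : Finset ℝ}
    (hE : SD h E Λ) (half : ∀ μ : ℝ, E μ ≠ 0 → ∃ k : ℤ, μ = k + 1 / 2)
    (hd : ∀ d : ℕ, (∀ μ, d ∣ (E μ).rank) → d = 1) {s : ℕ}
    (hs : s = ∑ μ ∈ Λ.filter (fun μ => 1 / 2 < μ), (E μ).rank) (hs1 : 1 ≤ s) (hN : s ^ 3 + 26 < (E (1 / 2)).rank)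
    (hn : (4 * s + 1) ^ 2 ≤ Fintype.card n)
    (hherm : ∃ B Bi : Matrix n n ℂ, B * Bi = 1 ∧ Bi * B = 1 ∧
      (cj B Bi h)ᴴ = cj B Bi h ∧ ∀ X ∈ L, cj Bi B (cj B Bi X)ᴴ ∈ L) :
    (∀ X : Matrix n n ℂ, Xᵀ * Q' + Q' * X = 0 → X ∈ L) ∨ ((∃ (q : ℕ) (e : n ≃ Fin 2 × Fin q) (T Ti : Matrix n n ℂ)
      (G Gi : Matrix (Fin q) (Fin q) ℂ), TT Q' L e T Ti G Gi) ∧
        ∃ c : ℤ → ℕ, ∀ p : ℤ, (E ((p : ℝ) + 1 / 2)).rank = c p + c (p + 1)) := by
  classical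
  have hne : Nonempty n := by
    apply Fintype.card_pos_iff.mp
    have : 0 < (4 * s + 1) ^ 2 := by positivity
    omega
  obtain ⟨B, Bi, h1, h2, h3, h4⟩ := hherm
  obtain ⟨D, Y⟩ := dat_irr71 hQs hQ1 hQ2 hbr hcom hsk hh hE h1 h2 h3 h4
  have hEE : ∀ μ, E μ * E μ = E μ := fun μ => by rw [hE.mul, if_pos rfl]
  have r1 : ∀ μ, (cj B Bi (E μ)).rank = (E μ).rank := fun μ => rank_cj h1 h2 (hEE μ)
  rcases dich D Y (fun μ hμ => half μ (fun h0 => hμ (by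
      show cj B Bi (E μ) = 0
      rw [h0, cj_zero]))) (s := s) (by simpa only [r1] using hs) hs1 (by simpa only [r1] using hN) hn
      (by simpa only [r1] using hd) with hall | ⟨⟨q, e, U, G, Gi, hU, H⟩, hc⟩
  · left
    intro X hX
    have hmem := hall _ (tG_cj71 (B := B) hQ2 h2 hX)
    rw [mem_LBB71, cj_cj h2] at hmem
    exact hmem
  · right
    refine ⟨⟨q, e, Bi * U, Uᴴ * B, G, Gi, ?_, ?_, H.Gs, H.G1, ?_, ?_, H.big⟩, by simpa only [r1] using hc⟩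
    · calc Bi * U * (Uᴴ * B) = Bi * (U * Uᴴ) * B := by simp only [mul_assoc]
        _ = 1 := by rw [H.T1, mul_one, h2]
    · calc Uᴴ * B * (Bi * U) = Uᴴ * (B * Bi) * U := by simp only [mul_assoc]
        _ = 1 := by rw [h1, mul_one, H.T2]
    · rw [← H.form, Matrix.transpose_mul]
      simp only [mul_assoc]
    · intro X
      have e1 : ∀ M : Matrix (Fin 2 × Fin q) (Fin 2 × Fin q) ℂ,
          tz (Bi * U) (Uᴴ * B) e M = cj Bi B (tz U Uᴴ e M) := by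
        intro M
        unfold tz cj
        simp only [mul_assoc]
      have e2 : X ∈ L ↔ cj B Bi X ∈ LBB71 L B Bi := by
        rw [mem_LBB71, cj_cj h2]
      rw [e2, H.mem]
      constructor
      · rintro ⟨x, z, hx, hz, hX⟩
        refine ⟨x, z, hx, hz, ?_⟩
        rw [e1, ← hX, cj_cj h2]
      · rintro ⟨x, z, hx, hz, hX⟩
        refine ⟨x, z, hx, hz, ?_⟩
        rw [hX, e1, cj_cj h1]

end OW
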