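import Pool.Agent.Helper2.EL.Irr

/-!
OW-59. A group `Γ` that acts semisimply on `F ^ n` and such that only the scalars commute with subgroups of finite
index of `Γ` is absolutely irreducible under all subgroups of finite index (Clifford).
-/

set_option linter.unusedSectionVars false

open Matrix

namespace MH

variable {n : Type*} [Fintype n] [DecidableEq n] {F : Type*} [Field F]

/-- `F ^ n` is a semisimple representation of `Γ`. -/
def SemiS (Γ : Subgroup (GL n F)) : Prop :=
  ∀ W : Submodule F (n → F), (∀ g ∈ Γ, ∀ w ∈ W, (g : Matrix n n F) *ᵥ w ∈ W) →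
    ∃ W' : Submodule F (n → F), (∀ g ∈ Γ, ∀ w ∈ W', (g : Matrix n n F) *ᵥ w ∈ W') ∧ IsCompl W W'

/-- the subspace is stable under the group -/
private def Stb (Γ : Subgroup (GL n F)) (W : Submodule F (n → F)) : Prop :=
  ∀ g ∈ Γ, ∀ w ∈ W, (g : Matrix n n F) *ᵥ w ∈ W

/-- the projection to a stable subspace with stable complement commutes with the group -/
private theorem proj_com {Γ : Subgroup (GL n F)} {W W' : Submodule F (n → F)} (h1 : Stb Γ W) (h2 : Stb Γ W')
    (hc : IsCompl W W')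
    (hcom : ∀ T : Matrix n n F, (∀ g ∈ Γ, (g : Matrix n n F) * T = T * (g : Matrix n n F)) →
      ∃ c : F, T = c • (1 : Matrix n n F)) : W = ⊥ ∨ W = ⊤ := by
  -- the projection
  set p : (n → F) →ₗ[F] (n → F) := W.subtype ∘ₗ Submodule.projectionOnto W W' hc with hp
  have p1 : ∀ v, v ∈ W → p v = v := by
    intro v hv
    rw [hp, LinearMap.comp_apply, Submodule.subtype_apply]
    exact congrArg Subtype.val (Submodule.projectionOnto_apply_left hc ⟨v, hv⟩)
  have p2 : ∀ v, v ∈ W' → p v = 0 := by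
    intro v hv
    rw [hp, LinearMap.comp_apply, Submodule.subtype_apply, Submodule.projectionOnto_apply_of_mem_right hc hv]
    rfl
  have p3 : ∀ v, p v ∈ W := fun v => (Submodule.projectionOnto W W' hc v).2
  obtain ⟨c, hcc⟩ := hcom (LinearMap.toMatrix' p) (by
    intro g hg
    apply Matrix.toLin'.injective
    apply LinearMap.ext
    intro v
    rw [Matrix.toLin'_mul, Matrix.toLin'_mul, LinearMap.comp_apply, LinearMap.comp_apply, Matrix.toLin'_toMatrix',
      Matrix.toLin'_apply, Matrix.toLin'_apply]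
    have hv : v ∈ W ⊔ W' := by rw [hc.sup_eq_top]; exact Submodule.mem_top
    obtain ⟨w, hw, w', hw', rfl⟩ := Submodule.mem_sup.1 hv
    rw [map_add, p1 w hw, p2 w' hw', add_zero, Matrix.mulVec_add, map_add, p1 _ (h1 g hg w hw),
      p2 _ (h2 g hg w' hw'), add_zero])
  have hpc : ∀ v, p v = c • v := by
    intro v
    have h3 : p v = LinearMap.toMatrix' p *ᵥ v := by
      rw [← Matrix.toLin'_apply, Matrix.toLin'_toMatrix']
    rw [h3, hcc, Matrix.smul_mulVec, Matrix.one_mulVec]
  by_cases hc0 : c = 0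
  · left
    rw [Submodule.eq_bot_iff]
    intro v hv
    rw [← p1 v hv, hpc, hc0, zero_smul]
  · right
    rw [Submodule.eq_top_iff']
    intro v
    have h3 := p3 (c⁻¹ • v)
    rwa [hpc, smul_smul, mul_inv_cancel₀ hc0, one_smul] at h3

/-- the image of a subspace under an element of the group -/
private def gW (g : GL n F) (W : Submodule F (n → F)) : Submodule F (n → F) :=
  W.map (Matrix.toLin' (g : Matrix n n F))

private theorem mem_gW {g : GL n F} {W : Submodule F (n → F)} {v : n → F} :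
    v ∈ gW g W ↔ ((g⁻¹ : GL n F) : Matrix n n F) *ᵥ v ∈ W := by
  have h1 : ((g⁻¹ : GL n F) : Matrix n n F) * (g : Matrix n n F) = 1 := by
    rw [← Units.val_mul, inv_mul_cancel, Units.val_one]
  have h2 : (g : Matrix n n F) * ((g⁻¹ : GL n F) : Matrix n n F) = 1 := by
    rw [← Units.val_mul, mul_inv_cancel, Units.val_one]
  unfold gW
  rw [Submodule.mem_map]
  constructor
  · rintro ⟨w, hw, rfl⟩
    rw [Matrix.toLin'_apply, Matrix.mulVec_mulVec, h1, Matrix.one_mulVec]
    exact hw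
  · intro h
    refine ⟨_, h, ?_⟩
    rw [Matrix.toLin'_apply, Matrix.mulVec_mulVec, h2, Matrix.one_mulVec]

/-- Clifford's theorem -/
private theorem cliff_s {Γ N : Subgroup (GL n F)} (hN : N ≤ Γ) (hnorm : ∀ g ∈ Γ, ∀ h ∈ N, g * h * g⁻¹ ∈ N)
    (hss : SemiS Γ)
    (hcom : ∀ T : Matrix n n F, (∀ g ∈ N, (g : Matrix n n F) * T = T * (g : Matrix n n F)) →
      ∃ c : F, T = c • (1 : Matrix n n F)) (U : Submodule F (n → F)) (hU : Stb N U) : U = ⊥ ∨ U = ⊤ := by
  by_cases hV : (⊤ : Submodule F (n → F)) = ⊥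
  · left
    rw [eq_bot_iff, ← hV]
    exact le_top
  -- a minimal stable subspace
  obtain ⟨W, hWN, hW0, hWmin⟩ : ∃ W : Submodule F (n → F), Stb N W ∧ W ≠ ⊥ ∧
      ∀ W', Stb N W' → W' ≤ W → W' = ⊥ ∨ W' = W := by
    have hex : ∃ k, ∃ W : Submodule F (n → F), Stb N W ∧ W ≠ ⊥ ∧ Module.finrank F W = k :=
      ⟨_, ⊤, fun g _ w _ => Submodule.mem_top, hV, rfl⟩
    classical
    obtain ⟨W, h1, h2, h3⟩ := Nat.find_spec hex
    refine ⟨W, h1, h2, fun W' h4 h5 => ?_⟩
    by_cases h6 : W' = ⊥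
    · exact Or.inl h6
    · right
      have h7 := Nat.find_min' hex ⟨W', h4, h6, rfl⟩
      rw [← h3] at h7
      exact Submodule.eq_of_le_of_finrank_le h5 h7
  -- the conjugates
  have hgN : ∀ g ∈ Γ, Stb N (gW g W) := by
    intro g hg h hh v hv
    rw [mem_gW] at hv ⊢
    have h1 : g⁻¹ * h * g ∈ N := by
      have := hnorm g⁻¹ (Γ.inv_mem hg) h hh
      rwa [inv_inv] at this
    have h2 := hWN _ h1 _ hv
    have h3 : ((g⁻¹ * h * g : GL n F) : Matrix n n F) *ᵥ (((g⁻¹ : GL n F) : Matrix n n F) *ᵥ v) =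
        ((g⁻¹ : GL n F) : Matrix n n F) *ᵥ ((h : Matrix n n F) *ᵥ v) := by
      rw [Matrix.mulVec_mulVec, Matrix.mulVec_mulVec, ← Units.val_mul, ← Units.val_mul]
      congr 2
      group
    rw [h3] at h2
    exact h2
  have hgmin : ∀ g ∈ Γ, ∀ W', Stb N W' → W' ≤ gW g W → W' = ⊥ ∨ W' = gW g W := by
    intro g hg W' h1 h2
    have h3 : Stb N (gW g⁻¹ W') := by
      intro h hh v hv
      rw [mem_gW, inv_inv] at hv ⊢
      have h4 := h1 _ (hnorm g hg h hh) _ hv
      have h5 : ((g * h * g⁻¹ : GL n F) : Matrix n n F) *ᵥ ((g : Matrix n n F) *ᵥ v) =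
          (g : Matrix n n F) *ᵥ ((h : Matrix n n F) *ᵥ v) := by
        rw [Matrix.mulVec_mulVec, Matrix.mulVec_mulVec, ← Units.val_mul, ← Units.val_mul]
        congr 2
        group
      rw [h5] at h4
      exact h4
    have hback : ∀ v, v ∈ W' ↔ ((g⁻¹ : GL n F) : Matrix n n F) *ᵥ v ∈ gW g⁻¹ W' := by
      intro v
      rw [mem_gW, inv_inv, Matrix.mulVec_mulVec, ← Units.val_mul, mul_inv_cancel, Units.val_one, Matrix.one_mulVec]
    rcases hWmin _ h3 (by
      intro v hv
      rw [mem_gW, inv_inv] at hv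
      have h4 := h2 hv
      rwa [mem_gW, Matrix.mulVec_mulVec, ← Units.val_mul, inv_mul_cancel, Units.val_one, Matrix.one_mulVec] at h4)
      with h4 | h4
    · left
      rw [Submodule.eq_bot_iff]
      intro v hv
      have h5 := (hback v).1 hv
      rw [h4, Submodule.mem_bot] at h5
      have h6 := congrArg (fun u => (g : Matrix n n F) *ᵥ u) h5
      simp only [Matrix.mulVec_zero] at h6
      rwa [Matrix.mulVec_mulVec, ← Units.val_mul, mul_inv_cancel, Units.val_one, Matrix.one_mulVec] at h6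
    · right
      ext v
      rw [hback v, h4, mem_gW]
  -- the sum of the conjugates
  have hsum : (⨆ g : Γ, gW (g : GL n F) W) = ⊤ := by
    have hst : Stb Γ (⨆ g : Γ, gW (g : GL n F) W) := by
      intro h hh v hv
      induction hv using Submodule.iSup_induction' with
      | mem g x hx =>
        refine Submodule.mem_iSup_of_mem (⟨h, hh⟩ * g) ?_
        rw [mem_gW] at hx ⊢
        rw [Matrix.mulVec_mulVec, ← Units.val_mul]
        have : (((⟨h, hh⟩ : Γ) * g : Γ) : GL n F)⁻¹ * h = (g : GL n F)⁻¹ := by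
          rw [Subgroup.coe_mul]
          group
        rw [this]
        exact hx
      | zero =>
        rw [Matrix.mulVec_zero]
        exact Submodule.zero_mem _
      | add x y _ _ hx hy =>
        rw [Matrix.mulVec_add]
        exact Submodule.add_mem _ hx hy
    obtain ⟨W', h1, h2⟩ := hss _ hst
    rcases proj_com (Γ := Γ) hst h1 h2 (fun T hT => hcom T fun g hg => hT g (hN hg)) with h3 | h3
    · exfalso
      apply hW0
      rw [eq_bot_iff, ← h3]
      intro v hv
      refine Submodule.mem_iSup_of_mem 1 ?_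
      rw [mem_gW, Subgroup.coe_one, inv_one, Units.val_one, Matrix.one_mulVec]
      exact hv
    · exact h3
  -- a maximal stable subspace that meets `U` trivially
  obtain ⟨U', hU'N, hUU', hmax⟩ : ∃ U' : Submodule F (n → F), Stb N U' ∧ U ⊓ U' = ⊥ ∧
      ∀ U'', Stb N U'' → U ⊓ U'' = ⊥ → Module.finrank F U'' ≤ Module.finrank F U' := by
    have hb : ∀ W : Submodule F (n → F), Module.finrank F W ≤ Module.finrank F (n → F) := fun W => Submodule.finrank_le W
    have hex : ∃ k, ∃ W : Submodule F (n → F), Stb N W ∧ U ⊓ W = ⊥ ∧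
        Module.finrank F (n → F) - Module.finrank F W = k :=
      ⟨_, ⊥, fun g _ w hw => by
        rw [Submodule.mem_bot] at hw ⊢
        rw [hw, Matrix.mulVec_zero], inf_bot_eq _, rfl⟩
    classical
    obtain ⟨W, h1, h2, h3⟩ := Nat.find_spec hex
    refine ⟨W, h1, h2, fun U'' h4 h5 => ?_⟩
    have h7 := Nat.find_min' hex ⟨U'', h4, h5, rfl⟩
    rw [← h3] at h7
    have := hb U''
    have := hb W
    omega
  have htop : U ⊔ U' = ⊤ := by
    by_contra hne
    obtain ⟨g, hg⟩ : ∃ g : Γ, ¬ gW (g : GL n F) W ≤ U ⊔ U' := by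
      by_contra! hcon
      apply hne
      rw [eq_top_iff, ← hsum]
      exact iSup_le hcon
    have hstU : Stb N (U ⊔ U') := by
      intro h hh v hv
      obtain ⟨x, hx, y, hy, rfl⟩ := Submodule.mem_sup.1 hv
      rw [Matrix.mulVec_add]
      exact Submodule.add_mem_sup (hU h hh x hx) (hU'N h hh y hy)
    have hint : (U ⊔ U') ⊓ gW (g : GL n F) W = ⊥ := by
      rcases hgmin g g.2 ((U ⊔ U') ⊓ gW (g : GL n F) W) (fun h hh v hv =>
        ⟨hstU h hh v hv.1, hgN g g.2 h hh v hv.2⟩) inf_le_right with h1 | h1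
      · exact h1
      · exact absurd (inf_eq_right.1 h1) hg
    have hst2 : Stb N (U' ⊔ gW (g : GL n F) W) := by
      intro h hh v hv
      obtain ⟨x, hx, y, hy, rfl⟩ := Submodule.mem_sup.1 hv
      rw [Matrix.mulVec_add]
      exact Submodule.add_mem_sup (hU'N h hh x hx) (hgN g g.2 h hh y hy)
    have hint2 : U ⊓ (U' ⊔ gW (g : GL n F) W) = ⊥ := by
      rw [Submodule.eq_bot_iff]
      rintro v ⟨h1, h2⟩
      obtain ⟨x, hx, y, hy, rfl⟩ := Submodule.mem_sup.1 h2
      have h3 : y ∈ (U ⊔ U') ⊓ gW (g : GL n F) W := by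
        refine ⟨?_, hy⟩
        have : y = (x + y) - x := by abel
        rw [this]
        exact Submodule.sub_mem _ (Submodule.mem_sup_left h1) (Submodule.mem_sup_right hx)
      rw [hint, Submodule.mem_bot] at h3
      rw [h3, add_zero] at h1 ⊢
      have h4 : x ∈ U ⊓ U' := ⟨h1, hx⟩
      rwa [hUU', Submodule.mem_bot] at h4
    have h1 := hmax _ hst2 hint2
    have h2 : U' = U' ⊔ gW (g : GL n F) W := Submodule.eq_of_le_of_finrank_le le_sup_left h1
    apply hg
    calc gW (g : GL n F) W ≤ U' ⊔ gW (g : GL n F) W := le_sup_right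
      _ = U' := h2.symm
      _ ≤ U ⊔ U' := le_sup_right
  exact proj_com hU hU'N ⟨disjoint_iff.2 hUU', codisjoint_iff.2 htop⟩ hcom

/-- **Clifford.** -/
theorem potIrr_of_semiS {Γ : Subgroup (GL n F)} (hss : SemiS Γ)
    (hcom : ∀ Γ' : Subgroup (GL n F), Γ' ≤ Γ → Γ'.relIndex Γ ≠ 0 →
      ∀ T : Matrix n n F, (∀ g ∈ Γ', (g : Matrix n n F) * T = T * (g : Matrix n n F)) →
        ∃ c : F, T = c • (1 : Matrix n n F)) : PotIrr Γ := by
  intro Γ' h1 h2
  refine ⟨fun U hU => ?_, hcom Γ' h1 h2⟩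
  -- the normal core
  set K : Subgroup Γ := (Γ'.subgroupOf Γ).normalCore with hK
  have hKn : K.Normal := Subgroup.normalCore_normal _
  have hKle : K ≤ Γ'.subgroupOf Γ := Subgroup.normalCore_le _
  have : (Γ'.subgroupOf Γ).FiniteIndex := ⟨h2⟩
  have hKf : K.FiniteIndex := Subgroup.finiteIndex_normalCore _
  have hN1 : K.map Γ.subtype ≤ Γ := Subgroup.map_subtype_le K
  have hN2 : K.map Γ.subtype ≤ Γ' := by
    rintro _ ⟨x, hx, rfl⟩
    exact hKle hx
  have hN3 : (K.map Γ.subtype).relIndex Γ ≠ 0 := by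
    have h3 : (K.map Γ.subtype).subgroupOf Γ = K :=
      Subgroup.comap_map_eq_self_of_injective Γ.subtype_injective K
    unfold Subgroup.relIndex
    rw [h3]
    exact hKf.index_ne_zero
  refine cliff_s (Γ := Γ) (N := K.map Γ.subtype) hN1 ?_ hss (hcom _ hN1 hN3) U (fun g hg w hw => hU g (hN2 hg) w hw)
  rintro g hg _ ⟨x, hx, rfl⟩
  refine ⟨_, hKn.conj_mem x hx ⟨g, hg⟩, ?_⟩
  rw [map_mul, map_mul, map_inv]
  rfl

end MH
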