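import Pool.Agent.Helper71.OW.Gen2

/-!
OW-8. The first factor has dimension three if `I` kills the eigenspace of `3/2`; and the size of `I`. Proof of `three`.
`c ∈ I` kills the image of `E (-3/2)` too (`τ`: `E (-3/2) c = -τ (c E (3/2)) = 0`, and `c` commutes with `E (-3/2)`). For
`x, y, z ∈ J = Ld L h (-1)` the image of `x y z E (3/2)` is in that of `E (-3/2)`, so `[c, x y z] E (3/2) = 0`. For `m ≠ j` let
`c = D m m - D j j`: `[c, f i r] = γ (δ_im - δ_ij) f i r`. So `f i₁ r₁ * f i₂ r₂ * f i₃ r₃ * E (3/2) ≠ 0` implies that `m` and `j`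
occur equally often among `i₁, i₂, i₃`. If `d = 2` this is impossible (`3` is odd), if `d ≥ 4` also (some `j` does not
occur, `m = i₁` does). But by `cubic` and `gen` (expand `x, y, z`) one of these products is nonzero.
Proof of `count`: the `D m j`, `m ≠ j`, are linearly independent (apply a relation to `f j r`).
-/

open Matrix MH

namespace OW

variable {n : Type*} [Fintype n] [DecidableEq n]
variable {h : Matrix n n ℂ} {E : ℝ → Matrix n n ℂ} {Λ : Finset ℝ}
variable {τ : Matrix n n ℂ →ₗ[ℂ] Matrix n n ℂ} {L I K : Submodule ℂ (Matrix n n ℂ)}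
variable {d q : ℕ} {f : Fin d → Fin q → Matrix n n ℂ} {γ β : ℂ} {D : Fin d → Fin d → Matrix n n ℂ}

private lemma kill69 (V : Lv τ L h E Λ) (T : Tn L h I K f) (hI : ∀ c ∈ I, c * E (3 / 2) = 0) {c : Matrix n n ℂ}
    (hc : c ∈ I) : c * E (-(3 / 2)) = 0 := by
  have D := V.dat
  have hL : c ∈ Ld L h 0 := T.pr.le1 hc
  have h1 : E (-(3 / 2)) * c = 0 := by
    have h2 : τ (c * E (3 / 2)) = τ (E (3 / 2)) * τ c := D.inv.mul _ _
    rw [hI c hc, map_zero, D.tauE, D.sk c hL.1, mul_neg] at h2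
    exact neg_eq_zero.1 h2.symm
  rw [D.Ld_mul_E hL, add_zero, h1, zero_mul]

private lemma kill3_69 (V : Lv τ L h E Λ) (T : Tn L h I K f) (hI : ∀ c ∈ I, c * E (3 / 2) = 0) {c x y z : Matrix n n ℂ}
    (hc : c ∈ I) (hx : x ∈ Ld L h (-1)) (hy : y ∈ Ld L h (-1)) (hz : z ∈ Ld L h (-1)) :
    c * (x * y * z * E (3 / 2)) = 0 := by
  have D := V.dat
  have e3 : z * E (3 / 2) = E (1 / 2) * z * E (3 / 2) := by
    have h1 := D.Ld_mul_E hz (3 / 2)
    rwa [show (3 : ℝ) / 2 + -1 = 1 / 2 by norm_num] at h1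
  have e2 : y * E (1 / 2) = E (-(1 / 2)) * y * E (1 / 2) := by
    have h1 := D.Ld_mul_E hy (1 / 2)
    rwa [show (1 : ℝ) / 2 + -1 = -(1 / 2) by norm_num] at h1
  have e1 : x * E (-(1 / 2)) = E (-(3 / 2)) * x * E (-(1 / 2)) := by
    have h1 := D.Ld_mul_E hx (-(1 / 2))
    rwa [show -((1 : ℝ) / 2) + -1 = -(3 / 2) by norm_num] at h1
  have e4 : x * y * z * E (3 / 2) = E (-(3 / 2)) * (x * E (-(1 / 2)) * y * E (1 / 2) * z * E (3 / 2)) := by
    calc x * y * z * E (3 / 2) = x * y * (z * E (3 / 2)) := by rw [mul_assoc]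
      _ = x * (y * E (1 / 2)) * z * E (3 / 2) := by rw [e3]; simp only [mul_assoc]
      _ = (x * E (-(1 / 2))) * y * E (1 / 2) * z * E (3 / 2) := by rw [e2]; simp only [mul_assoc]
      _ = E (-(3 / 2)) * (x * E (-(1 / 2)) * y * E (1 / 2) * z * E (3 / 2)) := by
          conv_lhs => rw [e1]
          simp only [mul_assoc]
  rw [e4, ← mul_assoc, kill69 V T hI hc, zero_mul]

private lemma wt69 (hD : TyA I f γ β D) (m j i : Fin d) (r : Fin q) :
    (D m m - D j j) * f i r - f i r * (D m m - D j j) =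
      (γ * ((if i = m then 1 else 0) - (if i = j then 1 else 0))) • f i r := by
  have h1 := hD.2 m m i r
  have h2 := hD.2 j j i r
  rw [if_pos rfl] at h1 h2
  have e1 : (D m m - D j j) * f i r - f i r * (D m m - D j j) =
      (D m m * f i r - f i r * D m m) - (D j j * f i r - f i r * D j j) := by noncomm_ring
  rw [e1, h1, h2]
  by_cases hm : i = m
  · by_cases hj : i = j
    · subst hm
      subst hj
      simp
    · subst hm
      simp [hj]
  · by_cases hj : i = j
    · subst hj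
      simp only [if_neg hm, if_true, zero_sub, mul_neg, mul_one, neg_smul]
      abel
    · simp [hm, hj]

private lemma wt3_69 {c x y z : Matrix n n ℂ} {a b e : ℂ} (hx : c * x - x * c = a • x) (hy : c * y - y * c = b • y)
    (hz : c * z - z * c = e • z) : c * (x * y * z) - x * y * z * c = (a + b + e) • (x * y * z) := by
  have e1 : c * (x * y * z) - x * y * z * c = (c * x - x * c) * y * z + x * (c * y - y * c) * z +
      x * y * (c * z - z * c) := by noncomm_ring
  rw [e1, hx, hy, hz]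
  simp only [smul_mul_assoc, mul_smul_comm, add_smul]

theorem Tn.three (V : Lv τ L h E Λ) (T : Tn L h I K f) (htop : ∀ μ : ℝ, 3 / 2 < μ → E μ = 0)
    (hI : ∀ c ∈ I, c * E (3 / 2) = 0) (hD : TyA I f γ β D) (hγ : γ ≠ 0) (hd : 2 ≤ d) : d = 3 := by
  classical
  have hex : ∃ i₁ r₁ i₂ r₂ i₃ r₃, f i₁ r₁ * f i₂ r₂ * f i₃ r₃ * E (3 / 2) ≠ 0 := by
    by_contra hcon
    push Not at hcon
    obtain ⟨x, hx, y, hy, z, hz, hne⟩ := V.cubic htop
    apply hne
    have s1 : ∀ i₁ r₁ i₂ r₂, f i₁ r₁ * f i₂ r₂ * z * E (3 / 2) = 0 := by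
      intro i₁ r₁ i₂ r₂
      rw [T.gen z hz]
      simp only [Finset.mul_sum, Finset.sum_mul, mul_smul_comm, smul_mul_assoc]
      exact Finset.sum_eq_zero fun i _ => Finset.sum_eq_zero fun k _ => by rw [hcon, smul_zero]
    have s2 : ∀ i₁ r₁, f i₁ r₁ * y * z * E (3 / 2) = 0 := by
      intro i₁ r₁
      rw [T.gen y hy]
      simp only [Finset.mul_sum, Finset.sum_mul, mul_smul_comm, smul_mul_assoc]
      exact Finset.sum_eq_zero fun i _ => Finset.sum_eq_zero fun k _ => by rw [s1, smul_zero]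
    rw [T.gen x hx]
    simp only [Finset.sum_mul, smul_mul_assoc]
    exact Finset.sum_eq_zero fun i _ => Finset.sum_eq_zero fun k _ => by rw [s2, smul_zero]
  obtain ⟨i₁, r₁, i₂, r₂, i₃, r₃, hne⟩ := hex
  set N : Fin d → ℕ := fun m => (if i₁ = m then 1 else 0) + (if i₂ = m then 1 else 0) + (if i₃ = m then 1 else 0) with hN
  have hconst : ∀ m j, N m = N j := by
    intro m j
    set c := D m m - D j j with hc
    have hcI : c ∈ I := I.sub_mem (hD.1 m m) (hD.1 j j)
    have h1 := wt3_69 (wt69 hD m j i₁ r₁) (wt69 hD m j i₂ r₂) (wt69 hD m j i₃ r₃)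
    rw [← hc] at h1
    have h2 : (c * (f i₁ r₁ * f i₂ r₂ * f i₃ r₃) - f i₁ r₁ * f i₂ r₂ * f i₃ r₃ * c) * E (3 / 2) = 0 := by
      rw [sub_mul, mul_assoc c, kill3_69 V T hI hcI (T.mem _ _) (T.mem _ _) (T.mem _ _), mul_assoc _ c, hI c hcI, mul_zero,
        sub_zero]
    rw [h1, smul_mul_assoc] at h2
    rcases smul_eq_zero.1 h2 with h3 | h3
    · have h4 : γ * ((N m : ℂ) - (N j : ℂ)) = 0 := by
        rw [← h3, hN]
        push_cast
        ring
      have h5 := (mul_eq_zero.1 h4).resolve_left hγ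
      exact_mod_cast sub_eq_zero.1 h5
    · exact absurd h3 hne
  have hsum : ∑ m : Fin d, N m = 3 := by
    simp only [hN, Finset.sum_add_distrib, Finset.sum_ite_eq, Finset.mem_univ, if_true]
  have hd0 : 0 < d := by omega
  have h3 : d * N ⟨0, hd0⟩ = 3 := by
    rw [← hsum, Finset.sum_congr rfl fun m _ => hconst m ⟨0, hd0⟩, Finset.sum_const, Finset.card_univ, Fintype.card_fin,
      smul_eq_mul]
  have h4 : d ∣ 3 := Dvd.intro _ h3
  rcases (Nat.dvd_prime Nat.prime_three).1 h4 with h5 | h5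
  · omega
  · exact h5

theorem Tn.count (T : Tn L h I K f) (hD : TyA I f γ β D) (hγ : γ ≠ 0) (hq : 1 ≤ q) :
    d * d ≤ Module.finrank ℂ I + d := by
  classical
  set r : Fin q := ⟨0, hq⟩ with hr
  have hli : LinearIndependent ℂ (fun p : {p : Fin d × Fin d // p.1 ≠ p.2} => (⟨D p.1.1 p.1.2, hD.1 _ _⟩ : I)) := by
    rw [Fintype.linearIndependent_iff]
    intro g hg p0
    have hg' : ∑ p : {p : Fin d × Fin d // p.1 ≠ p.2}, g p • D p.1.1 p.1.2 = 0 := by
      have h1 := congrArg (Submodule.subtype I) hg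
      rw [map_sum, map_zero] at h1
      simpa using h1
    let φ : Matrix n n ℂ →ₗ[ℂ] ℂ := (Matrix.traceLinearMap n ℂ ℂ) ∘ₗ (LinearMap.mulLeft ℂ (f p0.1.1 r)ᴴ) ∘ₗ
      (LinearMap.mulRight ℂ (f p0.1.2 r) - LinearMap.mulLeft ℂ (f p0.1.2 r))
    have hφ : ∀ X, φ X = ((f p0.1.1 r)ᴴ * (X * f p0.1.2 r - f p0.1.2 r * X)).trace := fun X => rfl
    have h1 := congrArg φ hg'
    rw [map_sum, map_zero, Finset.sum_eq_single p0] at h1
    · rw [map_smul, hφ, hD.2, if_pos rfl, if_neg p0.2, sub_zero, mul_smul_comm, Matrix.trace_smul, T.orth,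
        if_pos ⟨rfl, rfl⟩] at h1
      simp only [smul_eq_mul, mul_one] at h1
      exact (mul_eq_zero.1 h1).resolve_right hγ
    · intro p _ hp
      rw [map_smul, hφ, hD.2, if_neg p.2, sub_zero]
      by_cases h2 : p0.1.2 = p.1.2
      · have h3 : ¬ (p0.1.1 = p.1.1 ∧ r = r) := by
          rintro ⟨h4, -⟩
          exact hp (Subtype.ext (Prod.ext h4.symm h2.symm))
        rw [if_pos h2, mul_smul_comm, Matrix.trace_smul, T.orth, if_neg h3, smul_zero, smul_zero]
      · rw [if_neg h2, mul_zero, Matrix.trace_zero, smul_zero]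
    · intro h2
      exact absurd (Finset.mem_univ _) h2
  have h1 := hli.fintype_card_le_finrank
  have h2 : Fintype.card {p : Fin d × Fin d // p.1 ≠ p.2} = d * d - d := by
    rw [Fintype.card_subtype]
    have h3 := Finset.offDiag_card (Finset.univ : Finset (Fin d))
    rw [Finset.card_univ, Fintype.card_fin] at h3
    rw [← h3]
    congr 1
    ext p
    simp [Finset.mem_offDiag]
  rw [h2] at h1
  omega

end OW
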