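import Pool.Agent.Helper71.OW.Defs

/-!
OW-1. A nonzero self-adjoint ideal is everything. Proof: `B` = the elements of `L` orthogonal to `A` (for `tr (xᴴ y)`),
also a self-adjoint ideal; for `a ∈ A`, `b ∈ B`: `[a, b]` is in `A` and in `B` (`tr (a'ᴴ [a, b]) = tr ([a'ᴴ, a] b)`,
`[a'ᴴ, a] = ([aᴴ, a'])ᴴ`), so zero. The algebra generated by `A` is self-adjoint and normalised by `L`, not `⊥` since the
elements of `L` have trace zero (`τ x = -x`), so it is `⊤` and `B` consists of scalars of trace zero. `exists_onb98 A`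
gives `L ≤ A ⊔ B`.
-/

open Matrix MH

namespace OW

variable {n : Type*} [Fintype n] [DecidableEq n]
variable {h : Matrix n n ℂ} {E : ℝ → Matrix n n ℂ} {Λ : Finset ℝ}
variable {τ : Matrix n n ℂ →ₗ[ℂ] Matrix n n ℂ} {L : Submodule ℂ (Matrix n n ℂ)}

private lemma trace_zero67 (D : Dat τ L h E Λ) {x : Matrix n n ℂ} (hx : x ∈ L) : x.trace = 0 := by
  have h1 := D.inv.tr x
  rw [D.sk x hx, trace_neg] at h1
  have h2 : (2 : ℂ) * x.trace = 0 := by linear_combination -h1
  exact (mul_eq_zero.mp h2).resolve_left two_ne_zero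

/-- scalars of `L` vanish -/
private lemma scalar_zero67 (D : Dat τ L h E Λ) {x : Matrix n n ℂ} (hx : x ∈ L) {c : ℂ}
    (hc : x = c • (1 : Matrix n n ℂ)) : x = 0 := by
  have h1 := trace_zero67 D hx
  rw [hc, trace_smul, trace_one, smul_eq_mul] at h1
  rcases mul_eq_zero.mp h1 with h2 | h2
  · rw [hc, h2, zero_smul]
  · have h3 : Fintype.card n = 0 := by exact_mod_cast h2
    have h4 := Fintype.card_eq_zero_iff.mp h3
    ext i j
    exact h4.elim i

theorem ideal_eq (D : Dat τ L h E Λ) (P : Prim L) {A : Submodule ℂ (Matrix n n ℂ)} (hA : A ≤ L)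
    (hst : ∀ a ∈ A, aᴴ ∈ A) (hid : ∀ x ∈ L, ∀ a ∈ A, x * a - a * x ∈ A) (h0 : A ≠ ⊥) : A = L := by
  -- the algebra generated by `A`
  have hS1 : ∀ s ∈ Algebra.adjoin ℂ (A : Set (Matrix n n ℂ)), sᴴ ∈ Algebra.adjoin ℂ (A : Set (Matrix n n ℂ)) := by
    intro s hs
    induction hs using Algebra.adjoin_induction with
    | mem x hx => exact Algebra.subset_adjoin (hst x hx)
    | algebraMap c =>
      rw [Algebra.algebraMap_eq_smul_one, conjTranspose_smul, conjTranspose_one]
      exact Subalgebra.smul_mem _ (one_mem _) _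
    | add x y _ _ hx hy => rw [conjTranspose_add]; exact add_mem hx hy
    | mul x y _ _ hx hy => rw [conjTranspose_mul]; exact mul_mem hy hx
  have hS2 : ∀ x ∈ L, ∀ s ∈ Algebra.adjoin ℂ (A : Set (Matrix n n ℂ)),
      x * s - s * x ∈ Algebra.adjoin ℂ (A : Set (Matrix n n ℂ)) := by
    intro x hx s hs
    induction hs using Algebra.adjoin_induction with
    | mem y hy => exact Algebra.subset_adjoin (hid x hx y hy)
    | algebraMap c =>
      rw [Algebra.commutes c x, sub_self]
      exact zero_mem _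
    | add y z _ _ hy hz =>
      have e1 : x * (y + z) - (y + z) * x = (x * y - y * x) + (x * z - z * x) := by noncomm_ring
      rw [e1]
      exact add_mem hy hz
    | mul y z hy' hz' hy hz =>
      have e1 : x * (y * z) - y * z * x = (x * y - y * x) * z + y * (x * z - z * x) := by noncomm_ring
      rw [e1]
      exact add_mem (mul_mem hy hz') (mul_mem hy' hz)
  have hS : Algebra.adjoin ℂ (A : Set (Matrix n n ℂ)) = ⊤ := by
    rcases P _ hS1 hS2 with h1 | h1
    · exfalso
      apply h0
      rw [eq_bot_iff]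
      intro a ha
      have h2 : a ∈ Algebra.adjoin ℂ (A : Set (Matrix n n ℂ)) := Algebra.subset_adjoin ha
      rw [h1, Algebra.mem_bot] at h2
      obtain ⟨c, hc⟩ := h2
      rw [Algebra.algebraMap_eq_smul_one] at hc
      rw [Submodule.mem_bot]
      exact scalar_zero67 D (hA ha) hc.symm
    · exact h1
  -- elements of `L` orthogonal to `A` vanish
  have hB : ∀ b ∈ L, (∀ a ∈ A, (aᴴ * b).trace = 0) → b = 0 := by
    intro b hb hort
    have hcomm : ∀ a ∈ A, a * b = b * a := by
      intro a ha
      have h1 : a * b - b * a ∈ A := by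
        have := A.neg_mem (hid b hb a ha)
        rwa [neg_sub] at this
      have h2 : ∀ a' ∈ A, (a'ᴴ * (a * b - b * a)).trace = 0 := by
        intro a' ha'
        have h3 : a'ᴴ * a - a * a'ᴴ ∈ A := hid _ (hA (hst a' ha')) a ha
        have h4 := hort _ (hst _ h3)
        rw [conjTranspose_conjTranspose, sub_mul, trace_sub] at h4
        rw [mul_sub, trace_sub, ← mul_assoc, ← mul_assoc, ← h4]
        congr 1
        rw [mul_assoc a, trace_mul_comm a, mul_assoc]
      by_contra hne
      have h5 := trace_pos (sub_ne_zero.mpr hne)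
      rw [h2 _ h1] at h5
      simp at h5
    have h2 : ∀ s ∈ Algebra.adjoin ℂ (A : Set (Matrix n n ℂ)), s * b = b * s := by
      intro s hs
      induction hs using Algebra.adjoin_induction with
      | mem y hy => exact hcomm y hy
      | algebraMap c => exact Algebra.commutes c b
      | add y z _ _ hy hz => rw [add_mul, mul_add, hy, hz]
      | mul y z _ _ hy hz => rw [mul_assoc, hz, ← mul_assoc, hy, mul_assoc]
    obtain ⟨c, hc⟩ := D.irr b fun x _ => (h2 x (by rw [hS]; trivial)).symm
    exact scalar_zero67 D hb hc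
  refine le_antisymm hA fun x hx => ?_
  obtain ⟨u, hu, horth, hgen⟩ := exists_onb98 A
  set a := ∑ i, ((u i)ᴴ * x).trace • u i with ha
  have haA : a ∈ A := A.sum_mem fun i _ => A.smul_mem _ (hu i)
  have h1 : ∀ i, ((u i)ᴴ * (x - a)).trace = 0 := by
    intro i
    rw [mul_sub, trace_sub, ha, Finset.mul_sum, trace_sum]
    have e1 : ∀ j, ((u i)ᴴ * (((u j)ᴴ * x).trace • u j)).trace = if i = j then ((u j)ᴴ * x).trace else 0 := by
      intro j
      rw [mul_smul_comm, trace_smul, horth, smul_eq_mul]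
      split_ifs <;> simp
    simp only [e1, Finset.sum_ite_eq, Finset.mem_univ, if_true, sub_self]
  have h2 : ∀ a' ∈ A, (a'ᴴ * (x - a)).trace = 0 := by
    intro a' ha'
    rw [hgen a' ha', conjTranspose_sum, Finset.sum_mul, trace_sum]
    refine Finset.sum_eq_zero fun i _ => ?_
    rw [conjTranspose_smul, smul_mul_assoc, trace_smul, h1, smul_zero]
  have h3 := hB (x - a) (L.sub_mem hx (hA haA)) h2
  rw [sub_eq_zero.mp h3]
  exact haA

end OW
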