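import Pool.Agent.Helper71.OW.Jir
import Pool.Agent.Helper71.OW.Ideal

/-!
OW-4. `dim Ld L h (-1) ≤ dim Ld L h 0`. Proof. Orthonormal bases (`exists_onb98`): `z_a` of `Ld L h 0`, `f_i` of
`J = Ld L h (-1)`; `b = (f_i, z_a, f_iᴴ)` generates `L` by `m = Σ tr (bᴴ m) b`.
(1) The operator `N y = Σ_b ([bᴴ, [b, y]] + [b, [bᴴ, y]])` commutes with `[x, ·]`, `x ∈ L`, and with `ᴴ`, and
`tr (yᴴ N y) = Σ_b (|[b, y]|² + |[bᴴ, y]|²)`; an eigenspace of it is a self-adjoint ideal, so it is `L` (`ideal_eq`).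
(2) For `f_k`: `[f_i, f_k] = 0`, `Σ_i |[f_iᴴ, f_k]|² = Σ_a |[z_a, f_k]|² = Σ_a |[z_aᴴ, f_k]|²`, so all are `c / 4`.
(3) For `z_a`: `2 Σ_i (|[f_i, z_a]|² + |[f_iᴴ, z_a]|²) ≤ c`. Sum over `a`, exchange the sums, (2): `l₁ c ≤ c l₀`.
-/

open Matrix MH

namespace OW

variable {n : Type*} [Fintype n] [DecidableEq n]
variable {h : Matrix n n ℂ} {E : ℝ → Matrix n n ℂ} {Λ : Finset ℝ}
variable {τ : Matrix n n ℂ →ₗ[ℂ] Matrix n n ℂ} {L : Submodule ℂ (Matrix n n ℂ)}

private def ad12 (x : Matrix n n ℂ) : Matrix n n ℂ →ₗ[ℂ] Matrix n n ℂ where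
  toFun y := x * y - y * x
  map_add' a b := by noncomm_ring
  map_smul' c a := by simp [smul_sub]

private lemma ad12_apply (x y : Matrix n n ℂ) : ad12 x y = x * y - y * x := rfl

private lemma ad12_swap (x y : Matrix n n ℂ) : ad12 x y = -ad12 y x := by
  rw [ad12_apply, ad12_apply, neg_sub]

private lemma ad12_jac (x a y : Matrix n n ℂ) :
    ad12 x (ad12 a y) = ad12 (ad12 x a) y + ad12 a (ad12 x y) := by
  simp only [ad12_apply]
  noncomm_ring

private lemma ad12_sum {ι : Type*} [Fintype ι] (c : ι → ℂ) (b : ι → Matrix n n ℂ) (y : Matrix n n ℂ) :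
    ad12 (∑ i, c i • b i) y = ∑ i, c i • ad12 (b i) y := by
  rw [ad12_swap, map_sum, ← Finset.sum_neg_distrib]
  refine Finset.sum_congr rfl fun i _ => ?_
  rw [map_smul, ← smul_neg, ← ad12_swap]

private lemma ad12_neg (x y : Matrix n n ℂ) : ad12 (-x) y = -ad12 x y := by
  simp only [ad12_apply]
  noncomm_ring

private lemma ad12_star (x y : Matrix n n ℂ) : (ad12 x y)ᴴ = -ad12 xᴴ yᴴ := by
  rw [ad12_apply, ad12_apply, conjTranspose_sub, conjTranspose_mul, conjTranspose_mul, neg_sub]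

private lemma tr_ad12 (X Y W : Matrix n n ℂ) : (X * ad12 Y W).trace = (ad12 X Y * W).trace := by
  rw [ad12_apply, ad12_apply, mul_sub, sub_mul, trace_sub, trace_sub]
  congr 1
  · rw [mul_assoc]
  · rw [← mul_assoc, trace_mul_comm (X * W) Y, mul_assoc]

private lemma star_tr12 (X Y : Matrix n n ℂ) : star ((Xᴴ * Y).trace) = (Yᴴ * X).trace := by
  rw [← trace_conjTranspose, conjTranspose_mul, conjTranspose_conjTranspose]

private lemma pars12 {ι : Type*} [Fintype ι] {M : Submodule ℂ (Matrix n n ℂ)} {u : ι → Matrix n n ℂ}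
    (gen : ∀ m ∈ M, m = ∑ i, ((u i)ᴴ * m).trace • u i) {m : Matrix n n ℂ} (hm : m ∈ M) :
    (mᴴ * m).trace.re = ∑ i, ‖((u i)ᴴ * m).trace‖ ^ 2 := by
  have h1 : (mᴴ * m).trace = ∑ i, ((u i)ᴴ * m).trace * star (((u i)ᴴ * m).trace) := by
    have h2 : mᴴ * m = mᴴ * ∑ i, ((u i)ᴴ * m).trace • u i := congrArg (mᴴ * ·) (gen m hm)
    rw [h2, Finset.mul_sum, trace_sum]
    refine Finset.sum_congr rfl fun i _ => ?_
    rw [mul_smul_comm, trace_smul, smul_eq_mul, star_tr12]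
  rw [h1, Complex.re_sum]
  refine Finset.sum_congr rfl fun i _ => ?_
  rw [← Complex.normSq_eq_norm_sq, Complex.star_def, Complex.mul_conj, Complex.ofReal_re]

private lemma q_star12 (m : Matrix n n ℂ) : (mᴴᴴ * mᴴ).trace.re = (mᴴ * m).trace.re := by
  rw [conjTranspose_conjTranspose, trace_mul_comm]

private lemma pars12' {ι : Type*} [Fintype ι] {M : Submodule ℂ (Matrix n n ℂ)} {u : ι → Matrix n n ℂ}
    (gen : ∀ m ∈ M, m = ∑ i, ((u i)ᴴ * m).trace • u i) {m : Matrix n n ℂ} (hm : mᴴ ∈ M) :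
    (mᴴ * m).trace.re = ∑ i, ‖(u i * m).trace‖ ^ 2 := by
  rw [← q_star12, pars12 gen hm]
  refine Finset.sum_congr rfl fun i _ => ?_
  congr 1
  rw [← conjTranspose_mul, trace_conjTranspose, norm_star, trace_mul_comm]

/-- the operator `N` -/
private noncomputable def N12 {ι : Type*} [Fintype ι] (b : ι → Matrix n n ℂ) : Matrix n n ℂ →ₗ[ℂ] Matrix n n ℂ :=
  ∑ i, ((ad12 (b i)ᴴ) ∘ₗ (ad12 (b i)) + (ad12 (b i)) ∘ₗ (ad12 (b i)ᴴ))

private lemma N12_apply {ι : Type*} [Fintype ι] (b : ι → Matrix n n ℂ) (y : Matrix n n ℂ) :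
    N12 b y = ∑ i, (ad12 (b i)ᴴ (ad12 (b i) y) + ad12 (b i) (ad12 (b i)ᴴ y)) := by
  simp [N12, LinearMap.sum_apply]

private lemma N12_star {ι : Type*} [Fintype ι] (b : ι → Matrix n n ℂ) (y : Matrix n n ℂ) :
    (N12 b y)ᴴ = N12 b yᴴ := by
  rw [N12_apply, N12_apply, conjTranspose_sum]
  refine Finset.sum_congr rfl fun i _ => ?_
  rw [conjTranspose_add, ad12_star, ad12_star, ad12_star, ad12_star, conjTranspose_conjTranspose]
  simp only [map_neg, neg_neg]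
  rw [add_comm]

private lemma N12_tr {ι : Type*} [Fintype ι] (b : ι → Matrix n n ℂ) (y : Matrix n n ℂ) :
    (yᴴ * N12 b y).trace = ∑ i, (((ad12 (b i) y)ᴴ * ad12 (b i) y).trace +
      ((ad12 (b i)ᴴ y)ᴴ * ad12 (b i)ᴴ y).trace) := by
  rw [N12_apply, Finset.mul_sum, trace_sum]
  refine Finset.sum_congr rfl fun i _ => ?_
  rw [mul_add, trace_add, tr_ad12 yᴴ (b i)ᴴ, tr_ad12 yᴴ (b i), ad12_star, ad12_star, conjTranspose_conjTranspose,
    ad12_swap yᴴ (b i)ᴴ, ad12_swap yᴴ (b i)]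

private lemma N12_comm (D : Dat τ L h E Λ) {ι : Type*} [Fintype ι] {b : ι → Matrix n n ℂ} (hb : ∀ i, b i ∈ L)
    (gen : ∀ m ∈ L, m = ∑ i, ((b i)ᴴ * m).trace • b i) {x : Matrix n n ℂ} (hx : x ∈ L) (y : Matrix n n ℂ) :
    ad12 x (N12 b y) = N12 b (ad12 x y) := by
  obtain ⟨a, ha⟩ : ∃ a : ι → ι → ℂ, ∀ j i, a j i = ((b j)ᴴ * ad12 x (b i)).trace := ⟨_, fun j i => rfl⟩
  have h1 : ∀ i, ad12 x (b i) = ∑ j, a j i • b j := by
    intro i
    have := gen _ (D.br x hx _ (hb i))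
    simp only [ha]
    exact this
  have h2 : ∀ i, ad12 x (b i)ᴴ = -∑ j, a i j • (b j)ᴴ := by
    intro i
    have e1 : ad12 xᴴ (b i) = ∑ j, ((b j)ᴴ * ad12 xᴴ (b i)).trace • b j := gen _ (D.br _ (D.st x hx) _ (hb i))
    have e2 := congrArg conjTranspose e1
    rw [ad12_star, conjTranspose_conjTranspose, conjTranspose_sum] at e2
    rw [neg_eq_iff_eq_neg] at e2
    rw [e2]
    congr 1
    refine Finset.sum_congr rfl fun j _ => ?_
    rw [conjTranspose_smul, star_tr12, ad12_star, conjTranspose_conjTranspose, ha, tr_ad12,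
      ad12_swap (b i)ᴴ x]
  rw [N12_apply, N12_apply, map_sum]
  have h3 : ∀ i, ad12 x (ad12 (b i)ᴴ (ad12 (b i) y) + ad12 (b i) (ad12 (b i)ᴴ y)) =
      (ad12 (b i)ᴴ (ad12 (b i) (ad12 x y)) + ad12 (b i) (ad12 (b i)ᴴ (ad12 x y))) +
      ((∑ j, a j i • ad12 (b i)ᴴ (ad12 (b j) y) - ∑ j, a i j • ad12 (b j)ᴴ (ad12 (b i) y)) +
      (∑ j, a j i • ad12 (b j) (ad12 (b i)ᴴ y) - ∑ j, a i j • ad12 (b i) (ad12 (b j)ᴴ y))) := by
    intro i
    rw [map_add, ad12_jac x (b i)ᴴ, ad12_jac x (b i) y, ad12_jac x (b i) (ad12 (b i)ᴴ y), ad12_jac x (b i)ᴴ y,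
      h1, h2, ad12_neg, ad12_neg, ad12_sum, ad12_sum, ad12_sum, ad12_sum]
    simp only [map_add, map_neg, map_sum, map_smul]
    abel
  have h4 : ∑ i, ((∑ j, a j i • ad12 (b i)ᴴ (ad12 (b j) y) - ∑ j, a i j • ad12 (b j)ᴴ (ad12 (b i) y)) +
      (∑ j, a j i • ad12 (b j) (ad12 (b i)ᴴ y) - ∑ j, a i j • ad12 (b i) (ad12 (b j)ᴴ y))) = 0 := by
    rw [Finset.sum_add_distrib, Finset.sum_sub_distrib, Finset.sum_sub_distrib]
    rw [Finset.sum_comm (f := fun i j => a j i • ad12 (b i)ᴴ (ad12 (b j) y)),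
      Finset.sum_comm (f := fun i j => a j i • ad12 (b j) (ad12 (b i)ᴴ y)), sub_self, sub_self, add_zero]
  rw [Finset.sum_congr rfl fun i _ => h3 i, Finset.sum_add_distrib, h4, add_zero]

private lemma N12_scalar (D : Dat τ L h E Λ) (P : Prim L) {ι : Type*} [Fintype ι] {b : ι → Matrix n n ℂ}
    (hb : ∀ i, b i ∈ L) (gen : ∀ m ∈ L, m = ∑ i, ((b i)ᴴ * m).trace • b i) :
    ∃ c : ℝ, ∀ y ∈ L, N12 b y = (c : ℂ) • y := by
  classical
  by_cases hL : L = ⊥
  · refine ⟨0, fun y hy => ?_⟩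
    rw [hL, Submodule.mem_bot] at hy
    rw [hy, map_zero, smul_zero]
  have hst : ∀ y ∈ L, N12 b y ∈ L := by
    intro y hy
    rw [N12_apply]
    refine Submodule.sum_mem _ fun i _ => add_mem ?_ ?_
    · exact D.br _ (D.st _ (hb i)) _ (D.br _ (hb i) _ hy)
    · exact D.br _ (hb i) _ (D.br _ (D.st _ (hb i)) _ hy)
  haveI : Nontrivial L := Submodule.nontrivial_iff_ne_bot.2 hL
  obtain ⟨c, hc⟩ := Module.End.exists_eigenvalue ((N12 b).restrict hst)
  obtain ⟨⟨y0, hy0⟩, hy1⟩ := hc.exists_hasEigenvector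
  have hy2 : N12 b y0 = c • y0 := congrArg Subtype.val hy1.apply_eq_smul
  have hy3 : y0 ≠ 0 := fun h0 => hy1.2 (Subtype.ext h0)
  have hreal : star c = c := by
    have e1 := N12_tr b y0
    rw [hy2, mul_smul_comm, trace_smul, smul_eq_mul] at e1
    have e2 : star (c * (y0ᴴ * y0).trace) = c * (y0ᴴ * y0).trace := by
      rw [e1, star_sum]
      refine Finset.sum_congr rfl fun i _ => ?_
      rw [star_add, star_tr12, star_tr12]
    rw [star_mul', star_tr12] at e2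
    have e3 : (y0ᴴ * y0).trace ≠ 0 := by
      intro h0
      have := trace_pos hy3
      rw [h0] at this
      simp at this
    exact mul_right_cancel₀ e3 e2
  have hcr : ((c.re : ℝ) : ℂ) = c := by
    rw [Complex.star_def] at hreal
    exact Complex.conj_eq_iff_re.1 hreal
  have memA : ∀ y, y ∈ L ⊓ LinearMap.ker (N12 b - c • LinearMap.id) ↔ y ∈ L ∧ N12 b y = c • y := by
    intro y
    rw [Submodule.mem_inf, LinearMap.mem_ker, LinearMap.sub_apply, LinearMap.smul_apply,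
      LinearMap.id_apply, sub_eq_zero]
  have hA := ideal_eq D P (A := L ⊓ LinearMap.ker (N12 b - c • LinearMap.id)) inf_le_left (by
      intro a ha
      rw [memA] at ha ⊢
      refine ⟨D.st a ha.1, ?_⟩
      rw [← N12_star, ha.2, conjTranspose_smul, hreal]) (by
      intro x hx a ha
      rw [memA] at ha ⊢
      refine ⟨D.br x hx a ha.1, ?_⟩
      rw [← ad12_apply, ← N12_comm D hb gen hx, ha.2, map_smul]) (by
      intro h0
      have : y0 ∈ L ⊓ LinearMap.ker (N12 b - c • LinearMap.id) := (memA y0).2 ⟨hy0, hy2⟩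
      rw [h0, Submodule.mem_bot] at this
      exact hy3 this)
  refine ⟨c.re, fun y hy => ?_⟩
  rw [← hA, memA] at hy
  rw [hcr, hy.2]

theorem Lv.finrank_le_zero (V : Lv τ L h E Λ) :
    Module.finrank ℂ (Ld L h (-1)) ≤ Module.finrank ℂ (Ld L h 0) := by
  classical
  have D := V.dat
  have hf := exists_onb98 (Ld L h (-1))
  have hz := exists_onb98 (Ld L h 0)
  generalize Module.finrank ℂ (Ld L h (-1)) = l₁ at hf ⊢
  generalize Module.finrank ℂ (Ld L h 0) = l₀ at hz ⊢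
  obtain ⟨f, hfm, hfo, hfg⟩ := hf
  obtain ⟨z, hzm, hzo, hzg⟩ := hz
  rcases Nat.eq_zero_or_pos l₁ with h0 | h0
  · rw [h0]
    exact Nat.zero_le _
  have hh : hᴴ = h := D.spec.hh
  have st0 : ∀ x ∈ Ld L h 0, xᴴ ∈ Ld L h 0 := by
    rintro x ⟨h1, h2⟩
    refine ⟨D.st x h1, ?_⟩
    have e1 := congrArg conjTranspose h2
    rw [conjTranspose_sub, conjTranspose_mul, conjTranspose_mul, conjTranspose_smul, hh] at e1
    simp only [Complex.ofReal_zero, star_zero, zero_smul] at e1 ⊢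
    rw [← neg_sub, e1, neg_zero]
  have orth : ∀ {μ ν : ℝ} {x y : Matrix n n ℂ}, μ ≠ ν → x ∈ Ld L h μ → y ∈ Ld L h ν → (xᴴ * y).trace = 0 := by
    intro μ ν x y hne hx hy
    have e1 : (xᴴ * ad12 h y).trace = (ν : ℂ) * (xᴴ * y).trace := by
      rw [ad12_apply, hy.2, mul_smul_comm, trace_smul, smul_eq_mul]
    have e2 : (xᴴ * ad12 h y).trace = (μ : ℂ) * (xᴴ * y).trace := by
      rw [tr_ad12]
      have e3 : ad12 xᴴ h = (ad12 h x)ᴴ := by rw [ad12_star, hh, ← ad12_swap]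
      rw [e3, ad12_apply, hx.2, conjTranspose_smul, smul_mul_assoc, trace_smul, smul_eq_mul, Complex.star_def,
        Complex.conj_ofReal]
    have e3 : ((ν : ℂ) - μ) * (xᴴ * y).trace = 0 := by
      rw [sub_mul, ← e1, ← e2, sub_self]
    rcases mul_eq_zero.1 e3 with e4 | e4
    · exfalso
      apply hne
      have : (ν : ℂ) = μ := sub_eq_zero.1 e4
      exact_mod_cast this.symm
    · exact e4
  have st1 : ∀ x ∈ Ld L h (-1), xᴴ ∈ Ld L h 1 := by
    rintro x ⟨h1, h2⟩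
    refine ⟨D.st x h1, ?_⟩
    have e1 := congrArg conjTranspose h2
    rw [conjTranspose_sub, conjTranspose_mul, conjTranspose_mul, conjTranspose_smul, hh] at e1
    rw [← neg_sub, e1]
    simp
  -- the basis
  set b : Fin l₁ ⊕ (Fin l₀ ⊕ Fin l₁) → Matrix n n ℂ := Sum.elim f (Sum.elim z fun i => (f i)ᴴ) with hbdef
  have hb : ∀ i, b i ∈ L := by
    rintro (i | i | i)
    · exact (hfm i).1
    · exact (hzm i).1
    · exact D.st _ (hfm i).1
  have gen : ∀ m ∈ L, m = ∑ i, ((b i)ᴴ * m).trace • b i := by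
    intro m hm
    obtain ⟨x, hx, y, hy, w, hw, e⟩ := V.split hm
    have e1 : ∀ i, ((f i)ᴴ * m).trace = ((f i)ᴴ * x).trace := by
      intro i
      rw [e, mul_add, mul_add, trace_add, trace_add, orth (by norm_num) (hfm i) hy,
        orth (by norm_num) (hfm i) (st1 w hw), add_zero, add_zero]
    have e2 : ∀ i, ((z i)ᴴ * m).trace = ((z i)ᴴ * y).trace := by
      intro i
      rw [e, mul_add, mul_add, trace_add, trace_add, orth (by norm_num) (hzm i) hx,
        orth (by norm_num) (hzm i) (st1 w hw), add_zero, zero_add]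
    have e3 : ∀ i, ((f i)ᴴᴴ * m).trace = star (((f i)ᴴ * w).trace) := by
      intro i
      rw [e, mul_add, mul_add, trace_add, trace_add, orth (by norm_num) (st1 _ (hfm i)) hx,
        orth (by norm_num) (st1 _ (hfm i)) hy, zero_add, zero_add, conjTranspose_conjTranspose, star_tr12,
        trace_mul_comm]
    rw [Fintype.sum_sum_type, Fintype.sum_sum_type]
    simp only [hbdef, Sum.elim_inl, Sum.elim_inr]
    simp only [e1, e2, e3]
    have g3 : wᴴ = ∑ i, star (((f i)ᴴ * w).trace) • (f i)ᴴ := by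
      have := congrArg conjTranspose (hfg w hw)
      rw [conjTranspose_sum] at this
      rw [this]
      exact Finset.sum_congr rfl fun i _ => by rw [conjTranspose_smul]
    rw [← hfg x hx, ← hzg y hy, ← g3, e, add_assoc]
  obtain ⟨c, hc⟩ := N12_scalar D V.prim hb gen
  set q : Matrix n n ℂ → ℝ := fun x => (xᴴ * x).trace.re with hq
  have hq0 : ∀ x, 0 ≤ q x := fun x => trace_nonneg x
  have hqs : ∀ x, q xᴴ = q x := fun x => q_star12 x
  have hqn : ∀ x, q (-x) = q x := by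
    intro x
    simp only [hq, conjTranspose_neg, neg_mul_neg]
  have star1 : ∀ y ∈ L, (∑ i, (q (ad12 (f i) y) + q (ad12 (f i)ᴴ y))) +
      ((∑ a, (q (ad12 (z a) y) + q (ad12 (z a)ᴴ y))) + ∑ i, (q (ad12 (f i)ᴴ y) + q (ad12 (f i) y))) = c * q y := by
    intro y hy
    have e1 := congrArg Complex.re (N12_tr b y)
    rw [hc y hy, mul_smul_comm, trace_smul, smul_eq_mul, Complex.re_ofReal_mul, Complex.re_sum,
      Fintype.sum_sum_type, Fintype.sum_sum_type] at e1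
    simp only [hbdef, Sum.elim_inl, Sum.elim_inr, Complex.add_re, conjTranspose_conjTranspose] at e1
    exact e1.symm
  -- part (2)
  have brz : ∀ i k, ad12 (f i)ᴴ (f k) ∈ Ld L h 0 := by
    intro i k
    have := Dat.Ld_bracket D.br (st1 _ (hfm i)) (hfm k)
    rwa [add_neg_cancel] at this
  have brf : ∀ x ∈ Ld L h 0, ∀ k, ad12 x (f k) ∈ Ld L h (-1) := by
    intro x hx k
    have := Dat.Ld_bracket D.br hx (hfm k)
    rwa [zero_add] at this
  have p1 : ∀ k, ∑ i, q (ad12 (f i)ᴴ (f k)) = ∑ a, q (ad12 (z a)ᴴ (f k)) := by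
    intro k
    have e1 : ∀ i, q (ad12 (f i)ᴴ (f k)) = ∑ a, ‖((z a)ᴴ * ad12 (f i)ᴴ (f k)).trace‖ ^ 2 :=
      fun i => pars12 hzg (brz i k)
    have e2 : ∀ a, q (ad12 (z a)ᴴ (f k)) = ∑ i, ‖((f i)ᴴ * ad12 (z a)ᴴ (f k)).trace‖ ^ 2 :=
      fun a => pars12 hfg (brf _ (st0 _ (hzm a)) k)
    simp only [e1, e2]
    rw [Finset.sum_comm]
    refine Finset.sum_congr rfl fun a _ => Finset.sum_congr rfl fun i _ => ?_
    congr 1
    rw [tr_ad12, tr_ad12, ad12_swap (z a)ᴴ, neg_mul, trace_neg, norm_neg]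
  have p2 : ∀ k, ∑ i, q (ad12 (f i)ᴴ (f k)) = ∑ a, q (ad12 (z a) (f k)) := by
    intro k
    have e1 : ∀ i, q (ad12 (f i)ᴴ (f k)) = ∑ a, ‖(z a * ad12 (f i)ᴴ (f k)).trace‖ ^ 2 :=
      fun i => pars12' hzg (st0 _ (brz i k))
    have e2 : ∀ a, q (ad12 (z a) (f k)) = ∑ i, ‖((f i)ᴴ * ad12 (z a) (f k)).trace‖ ^ 2 :=
      fun a => pars12 hfg (brf _ (hzm a) k)
    simp only [e1, e2]
    rw [Finset.sum_comm]
    refine Finset.sum_congr rfl fun a _ => Finset.sum_congr rfl fun i _ => ?_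
    congr 1
    rw [tr_ad12, tr_ad12, ad12_swap (z a), neg_mul, trace_neg, norm_neg]
  have hq00 : q 0 = 0 := by simp [hq]
  have p3 : ∀ k, 4 * ∑ i, q (ad12 (f i)ᴴ (f k)) = c := by
    intro k
    have e1 := star1 (f k) (hfm k).1
    have e2 : ∀ i, q (ad12 (f i) (f k)) = 0 := by
      intro i
      rw [ad12_apply, V.comm (hfm i) (hfm k), sub_self, hq00]
    have e3 : q (f k) = 1 := by
      simp only [hq]
      rw [hfo, if_pos rfl, Complex.one_re]
    simp only [e2, zero_add, add_zero] at e1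
    rw [Finset.sum_add_distrib, ← p1, ← p2, e3] at e1
    linarith
  -- part (3)
  have p4 : ∀ a, 2 * (∑ i, q (ad12 (z a) (f i)) + ∑ i, q (ad12 (z a)ᴴ (f i))) ≤ c := by
    intro a
    have e1 := star1 (z a) (hzm a).1
    have e3 : q (z a) = 1 := by
      simp only [hq]
      rw [hzo, if_pos rfl, Complex.one_re]
    have e4 : ∀ i, q (ad12 (f i) (z a)) = q (ad12 (z a) (f i)) := by
      intro i
      rw [ad12_swap, hqn]
    have e5 : ∀ i, q (ad12 (f i)ᴴ (z a)) = q (ad12 (z a)ᴴ (f i)) := by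
      intro i
      rw [← hqs, ad12_star, conjTranspose_conjTranspose, hqn, ad12_swap, hqn]
    have e6 : 0 ≤ ∑ a', (q (ad12 (z a') (z a)) + q (ad12 (z a')ᴴ (z a))) :=
      Finset.sum_nonneg fun i _ => add_nonneg (hq0 _) (hq0 _)
    simp only [e4, e5] at e1
    rw [Finset.sum_add_distrib (s := (Finset.univ : Finset (Fin l₁))),
      Finset.sum_add_distrib (s := (Finset.univ : Finset (Fin l₁))), e3] at e1
    linarith
  have p5 : (l₁ : ℝ) * c ≤ l₀ * c := by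
    have e1 := Finset.sum_le_sum fun a (_ : a ∈ (Finset.univ : Finset (Fin l₀))) => p4 a
    rw [← Finset.mul_sum, Finset.sum_add_distrib, Finset.sum_comm,
      Finset.sum_comm (f := fun a i => q (ad12 (z a)ᴴ (f i)))] at e1
    simp only [← p1, ← p2] at e1
    have e2 : ∀ k, ∑ i, q (ad12 (f i)ᴴ (f k)) = c / 4 := fun k => by linarith [p3 k]
    simp only [e2, Finset.sum_const, Finset.card_univ, Fintype.card_fin, nsmul_eq_mul] at e1
    linarith
  have hcpos : 0 < c := by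
    have e1 := star1 h D.mem
    have e2 : q (ad12 (f ⟨0, h0⟩) h) = 1 := by
      have e3 : ad12 (f ⟨0, h0⟩) h = f ⟨0, h0⟩ := by
        rw [ad12_swap, ad12_apply, (hfm ⟨0, h0⟩).2]
        simp
      rw [e3]
      simp only [hq]
      rw [hfo, if_pos rfl, Complex.one_re]
    have e3 : q (ad12 (f ⟨0, h0⟩) h) + q (ad12 (f ⟨0, h0⟩)ᴴ h) ≤ ∑ i, (q (ad12 (f i) h) + q (ad12 (f i)ᴴ h)) :=
      Finset.single_le_sum (f := fun i => q (ad12 (f i) h) + q (ad12 (f i)ᴴ h))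
        (fun i _ => add_nonneg (hq0 _) (hq0 _)) (Finset.mem_univ _)
    have e4 : 0 ≤ ∑ a, (q (ad12 (z a) h) + q (ad12 (z a)ᴴ h)) :=
      Finset.sum_nonneg fun i _ => add_nonneg (hq0 _) (hq0 _)
    have e5 : 0 ≤ ∑ i, (q (ad12 (f i)ᴴ h) + q (ad12 (f i) h)) :=
      Finset.sum_nonneg fun i _ => add_nonneg (hq0 _) (hq0 _)
    have e6 := hq0 (ad12 (f ⟨0, h0⟩)ᴴ h)
    have e7 : 0 < c * q h := by linarith
    by_contra hcn
    push Not at hcn
    exact absurd e7 (not_lt.2 (mul_nonpos_of_nonpos_of_nonneg hcn (hq0 h)))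
  have p6 : (l₁ : ℝ) ≤ l₀ := le_of_mul_le_mul_right p5 hcpos
  exact_mod_cast p6

end OW
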