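import Pool.Agent.Helper71.OW.Cen

/-!
OW-5b. Self-adjoint algebras of matrices with trivial centre are `M_d ⊗ 1`. Proof of `coord`. (1) Among the nonzero
elements of `A` take one of minimal rank; a spectral projection `p ∈ A` of `x xᴴ` (a polynomial in it) has the same
minimal rank, so `p A p = ℂ p` (an element of `p A p` has an eigenvalue on the image of `p`). Existing code:
Helper98/MH/MinP, Helper48/GH (`exists_irr_sum`), Helper64/GH/Units may help. (2) A maximal orthogonal family `p_1, .., p_d`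
of such projections in `A` has sum one. (3) `p_i A p_j ≠ 0` (otherwise the projection onto the span of the images of the
`a p_j`, `a ∈ A`, is a nontrivial element of the centre of `A`; it is in `A` by the double commutant theorem
Helper63/GH/Dcom; or: the set of the `j` equivalent to `i`, `z` = sum of these `p_j` is in the centre), and
`v ∈ p_i A p_1` nonzero is scaled to `vᴴ v = p_1`, `v vᴴ = p_i`: `v_i`. (4) `A` is spanned by the `v_i v_jᴴ`. `u_k`, `k < q`, an
orthonormal basis of the image of `p_1`: the columns of `U` are the `v_i u_k`, `e` any bijection.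
-/

open Matrix MH

namespace OW

variable {n : Type*} [Fintype n] [DecidableEq n]

/-- A minimal projection of the algebra. -/
private theorem exists_min56 [Nonempty n] (A : Subalgebra ℂ (Matrix n n ℂ)) (hstA : ∀ a ∈ A, aᴴ ∈ A) :
    ∃ e ∈ A, e * e = e ∧ eᴴ = e ∧ e ≠ 0 ∧ ∀ y ∈ A, ∃ c : ℂ, e * y * e = c • e := by
  classical
  have hex : ∃ r : ℕ, ∃ a ∈ A, a ≠ 0 ∧ a.rank = r := ⟨_, 1, A.one_mem, one_ne_zero, rfl⟩
  obtain ⟨a, ha, ha0, har⟩ := Nat.find_spec hex
  have hmin : ∀ b ∈ A, b ≠ 0 → a.rank ≤ b.rank := by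
    intro b hb hb0
    rw [har]
    exact Nat.find_min' hex ⟨b, hb, hb0, rfl⟩
  -- key property
  have key : ∀ y ∈ A, ∃ t : ℂ, a * y * a = t • a := by
    intro y hy
    -- the operator a y on the range of a has an eigenvalue
    let R : Submodule ℂ (n → ℂ) := LinearMap.range (Matrix.toLin' a)
    have hst : ∀ v ∈ R, Matrix.toLin' (a * y) v ∈ R := by
      intro v _
      rw [Matrix.toLin'_mul]
      exact LinearMap.mem_range_self _ _
    let f : R →ₗ[ℂ] R := (Matrix.toLin' (a * y)).restrict hst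
    have hRne : Nontrivial R := by
      rw [Submodule.nontrivial_iff_ne_bot]
      intro h0
      apply ha0
      have : Matrix.toLin' a = 0 := LinearMap.range_eq_bot.mp h0
      exact Matrix.toLin'.injective (by rw [this, map_zero])
    obtain ⟨t, ht⟩ := Module.End.exists_eigenvalue f
    obtain ⟨v, hv⟩ := ht.exists_hasEigenvector
    refine ⟨t, ?_⟩
    by_contra hne
    have hne' : a * y * a - t • a ≠ 0 := fun h' => hne (sub_eq_zero.mp h')
    have hmem : a * y * a - t • a ∈ A :=
      sub_mem (mul_mem (mul_mem ha hy) ha) (SMulMemClass.smul_mem t ha)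
    have hle := hmin _ hmem hne'
    obtain ⟨w, hw⟩ := v.2
    have hvw : a *ᵥ w = (v : n → ℂ) := by rw [← hw, Matrix.toLin'_apply]
    have hv0 : (v : n → ℂ) ≠ 0 := fun h0 => hv.2 (Subtype.ext h0)
    have hfv : (a * y) *ᵥ (v : n → ℂ) = t • (v : n → ℂ) := by
      have h1 := hv.apply_eq_smul
      have h2 := congrArg Subtype.val h1
      simpa [f] using h2
    have hker : LinearMap.ker (Matrix.toLin' a) <
        LinearMap.ker (Matrix.toLin' (a * y * a - t • a)) := by
      rw [lt_iff_le_and_ne]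
      constructor
      · intro u hu
        rw [LinearMap.mem_ker, Matrix.toLin'_apply] at hu ⊢
        rw [Matrix.sub_mulVec, ← Matrix.mulVec_mulVec, hu, Matrix.smul_mulVec, hu]
        simp
      · intro heq
        have : w ∈ LinearMap.ker (Matrix.toLin' a) := by
          rw [heq, LinearMap.mem_ker, Matrix.toLin'_apply, Matrix.sub_mulVec,
            ← Matrix.mulVec_mulVec, hvw, hfv, Matrix.smul_mulVec, hvw, sub_self]
        rw [LinearMap.mem_ker, Matrix.toLin'_apply, hvw] at this
        exact hv0 this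
    have h1 := Submodule.finrank_lt_finrank_of_lt hker
    have h2 := LinearMap.finrank_range_add_finrank_ker (Matrix.toLin' a)
    have h3 := LinearMap.finrank_range_add_finrank_ker (Matrix.toLin' (a * y * a - t • a))
    have h4 : a.rank = Module.finrank ℂ (LinearMap.range (Matrix.toLin' a)) := by
      rw [Matrix.rank_eq_finrank_range_toLin a (Pi.basisFun ℂ n) (Pi.basisFun ℂ n),
        Matrix.toLin_eq_toLin']
    have h5 : (a * y * a - t • a).rank =
        Module.finrank ℂ (LinearMap.range (Matrix.toLin' (a * y * a - t • a))) := by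
      rw [Matrix.rank_eq_finrank_range_toLin _ (Pi.basisFun ℂ n) (Pi.basisFun ℂ n),
        Matrix.toLin_eq_toLin']
    omega
  obtain ⟨t, ht⟩ := key _ (hstA _ ha)
  have hpos := trace_pos ha0
  have him := trace_im a
  have haa : aᴴ * a ≠ 0 := fun h0 => ha0 (eq_zero_of_mul h0)
  have hsq : (aᴴ * a) * (aᴴ * a) = t • (aᴴ * a) := by
    have : (aᴴ * a) * (aᴴ * a) = aᴴ * (a * aᴴ * a) := by simp only [mul_assoc]
    rw [this, ht, mul_smul_comm]
  have hsa : (aᴴ * a)ᴴ = aᴴ * a := by rw [conjTranspose_mul, conjTranspose_conjTranspose]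
  have hpos2 := trace_pos haa
  rw [hsa, hsq, Matrix.trace_smul, smul_eq_mul] at hpos2
  have him2 := trace_im (aᴴ * a)
  rw [hsa, hsq, Matrix.trace_smul, smul_eq_mul] at him2
  rw [Complex.mul_re, him, mul_zero, sub_zero] at hpos2
  rw [Complex.mul_im, him, mul_zero, zero_add] at him2
  have htim : t.im = 0 := by
    rcases mul_eq_zero.mp him2 with h1 | h1
    · exact h1
    · exact absurd h1 hpos.ne'
  have htre : 0 < t.re := by
    rcases pos_iff_pos_of_mul_pos hpos2 |>.mpr hpos with h1
    exact h1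
  have ht0 : t ≠ 0 := by intro h0; rw [h0] at htre; simp at htre
  have htr : (starRingEnd ℂ) t = t := by
    apply Complex.ext
    · rw [Complex.conj_re]
    · rw [Complex.conj_im, htim, neg_zero]
  refine ⟨t⁻¹ • (aᴴ * a), SMulMemClass.smul_mem _ (mul_mem (hstA _ ha) ha), ?_, ?_, ?_, ?_⟩
  · rw [smul_mul_smul_comm, hsq, smul_smul, mul_assoc, inv_mul_cancel₀ ht0, mul_one]
  · rw [conjTranspose_smul, hsa]
    congr 1
    rw [← starRingEnd_apply, map_inv₀, htr]
  · intro h0
    rcases smul_eq_zero.mp h0 with h1 | h1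
    · exact ht0 (inv_eq_zero.mp h1)
    · exact haa h1
  · intro y hy
    obtain ⟨c, hc⟩ := key (y * aᴴ) (mul_mem hy (hstA _ ha))
    refine ⟨t⁻¹ * c, ?_⟩
    rw [smul_mul_assoc, smul_mul_smul_comm]
    have : aᴴ * a * y * (aᴴ * a) = aᴴ * (a * (y * aᴴ) * a) := by simp only [mul_assoc]
    rw [this, hc, mul_smul_comm, smul_smul, smul_smul]
    congr 1
    ring


/-- `n`-by-`q` part of a projection: `w k` has its column `s` in the image of `e`. -/
private theorem exists_col56 {e : Matrix n n ℂ} (hee : e * e = e) (hes : eᴴ = e) (s : n) :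
    ∃ (q : ℕ) (w : Fin q → Matrix n n ℂ), (∀ k, e * w k = w k) ∧ (∀ k, w k * single s s (1 : ℂ) = w k) ∧
      (∀ k l, (w k)ᴴ * w l = if k = l then single s s (1 : ℂ) else 0) ∧ ∑ k, w k * (w k)ᴴ = e := by
  classical
  set f : Matrix n n ℂ := single s s (1 : ℂ) with hf
  have hff : f * f = f := by rw [hf, single_mul_single_same, one_mul]
  have hfs : fᴴ = f := by rw [hf, conjTranspose_single, star_one]
  have hf0 : f ≠ 0 := by
    intro h0
    have := congrFun (congrFun h0 s) s
    rw [hf, single_apply_same, Matrix.zero_apply] at this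
    exact one_ne_zero this
  have hfy : ∀ y : Matrix n n ℂ, ∃ c : ℂ, f * y * f = c • f := by
    intro y
    refine ⟨y s s, ?_⟩
    rw [hf, single_mul_mul_single, one_mul, mul_one, smul_single, smul_eq_mul, mul_one]
  let M : Submodule ℂ (Matrix n n ℂ) :=
    { carrier := {m | e * m = m ∧ m * f = m}
      add_mem' := by
        rintro a b ⟨ha, ha'⟩ ⟨hb, hb'⟩
        exact ⟨by rw [mul_add, ha, hb], by rw [add_mul, ha', hb']⟩
      zero_mem' := ⟨mul_zero _, zero_mul _⟩
      smul_mem' := by
        rintro c a ⟨ha, ha'⟩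
        exact ⟨by rw [mul_smul_comm, ha], by rw [smul_mul_assoc, ha']⟩ }
  obtain ⟨w, hw, hww, hQ, -⟩ := exists_onb_rel98 hff hfs hf0 M (fun m hm => hm.2) (by
    intro m hm m' hm'
    obtain ⟨c, hc⟩ := hfy (mᴴ * m')
    refine ⟨c, ?_⟩
    rw [← hc]
    have h1 : f * mᴴ = mᴴ := by
      have := congrArg conjTranspose hm.2
      rwa [conjTranspose_mul, hfs] at this
    rw [← mul_assoc, h1, mul_assoc, hm'.2])
  refine ⟨_, w, fun k => (hw k).1, fun k => (hw k).2, hww, ?_⟩
  set Q : Matrix n n ℂ := ∑ k, w k * (w k)ᴴ with hQd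
  have hQs : Qᴴ = Q := by
    rw [hQd, conjTranspose_sum]
    refine Finset.sum_congr rfl fun k _ => ?_
    rw [conjTranspose_mul, conjTranspose_conjTranspose]
  have heQ : e * Q = Q := by
    rw [hQd, Finset.mul_sum]
    refine Finset.sum_congr rfl fun k _ => ?_
    rw [← mul_assoc, (hw k).1]
  have hQe : Q * e = e := by
    ext r t
    have h1 : e * single t s (1 : ℂ) ∈ M := by
      refine ⟨by rw [← mul_assoc, hee], ?_⟩
      rw [mul_assoc, hf, single_mul_single_same, one_mul]
    have h2 := hQ _ h1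
    have h3 := congrFun (congrFun h2 r) s
    rw [← mul_assoc, mul_single_apply_same, mul_single_apply_same, mul_one, mul_one] at h3
    exact h3
  have h4 := congrArg conjTranspose heQ
  rw [conjTranspose_mul, hQs, hes, hQe] at h4
  exact h4.symm

theorem coord [Nonempty n] (A : Subalgebra ℂ (Matrix n n ℂ)) (hst : ∀ a ∈ A, aᴴ ∈ A)
    (hcen : ∀ a ∈ A, (∀ b ∈ A, a * b = b * a) → ∃ c : ℂ, a = c • (1 : Matrix n n ℂ)) :
    ∃ (d q : ℕ) (e : n ≃ Fin d × Fin q) (U : Matrix n n ℂ), 1 ≤ d ∧ 1 ≤ q ∧ Uᴴ * U = 1 ∧ U * Uᴴ = 1 ∧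
      ∀ X : Matrix n n ℂ, X ∈ A ↔ ∃ C : Matrix (Fin d) (Fin d) ℂ,
        Uᴴ * X * U = (kroneckerMap (· * ·) C (1 : Matrix (Fin q) (Fin q) ℂ)).submatrix e e := by
  classical
  obtain ⟨p, hpA, hpp, hps, hp0, hpy⟩ := exists_min56 A hst
  obtain ⟨s⟩ := ‹Nonempty n›
  let N : Submodule ℂ (Matrix n n ℂ) :=
    { carrier := {m | m ∈ A ∧ m * p = m}
      add_mem' := by
        rintro a b ⟨ha, ha'⟩ ⟨hb, hb'⟩
        exact ⟨A.add_mem ha hb, by rw [add_mul, ha', hb']⟩
      zero_mem' := ⟨A.zero_mem, zero_mul _⟩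
      smul_mem' := by
        rintro c a ⟨ha, ha'⟩
        exact ⟨A.smul_mem ha c, by rw [smul_mul_assoc, ha']⟩ }
  have hrel : ∀ m ∈ A, ∀ m' ∈ A, m * p = m → m' * p = m' → ∀ X ∈ A, ∃ c : ℂ, mᴴ * X * m' = c • p := by
    intro m hm m' hm' h1 h2 X hX
    obtain ⟨c, hc⟩ := hpy (mᴴ * X * m') (A.mul_mem (A.mul_mem (hst _ hm) hX) hm')
    refine ⟨c, ?_⟩
    rw [← hc]
    have h3 : p * mᴴ = mᴴ := by
      have := congrArg conjTranspose h1
      rwa [conjTranspose_mul, hps] at this
    have h4 : p * (mᴴ * X * m') * p = (p * mᴴ) * X * (m' * p) := by simp only [mul_assoc]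
    rw [h4, h3, h2]
  obtain ⟨d, u, hu, huu, hQ⟩ : ∃ (d : ℕ) (u : Fin d → Matrix n n ℂ), (∀ i, u i ∈ A ∧ u i * p = u i) ∧
      (∀ i j, (u i)ᴴ * u j = if i = j then p else 0) ∧
      (∀ m ∈ N, (∑ i, u i * (u i)ᴴ) * m = m) := by
    obtain ⟨u, hu, huu, hQ, -⟩ := exists_onb_rel98 hpp hps hp0 N (fun m hm => hm.2) (by
      intro m hm m' hm'
      obtain ⟨c, hc⟩ := hrel m hm.1 m' hm'.1 hm.2 hm'.2 1 A.one_mem
      exact ⟨c, by rw [← hc, mul_one]⟩)
    exact ⟨_, u, hu, huu, hQ⟩
  set Q : Matrix n n ℂ := ∑ i, u i * (u i)ᴴ with hQd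
  have hQA : Q ∈ A := A.sum_mem fun i _ => A.mul_mem (hu i).1 (hst _ (hu i).1)
  have hQs : Qᴴ = Q := by
    rw [hQd, conjTranspose_sum]
    refine Finset.sum_congr rfl fun k _ => ?_
    rw [conjTranspose_mul, conjTranspose_conjTranspose]
  have hQb : ∀ b ∈ A, Q * b * Q = b * Q := by
    intro b hb
    have h1 : ∀ i, Q * (b * u i) = b * u i := fun i =>
      hQ _ ⟨A.mul_mem hb (hu i).1, by rw [mul_assoc, (hu i).2]⟩
    calc Q * b * Q = ∑ i, Q * (b * u i) * (u i)ᴴ := by
          conv_lhs => rw [hQd]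
          rw [← hQd, Finset.mul_sum]
          refine Finset.sum_congr rfl fun i _ => ?_
          simp only [mul_assoc]
      _ = ∑ i, b * u i * (u i)ᴴ := Finset.sum_congr rfl fun i _ => by rw [h1]
      _ = b * Q := by
          rw [hQd, Finset.mul_sum]
          refine Finset.sum_congr rfl fun i _ => ?_
          rw [mul_assoc]
  have hQc : ∀ b ∈ A, Q * b = b * Q := by
    intro b hb
    have h1 := congrArg conjTranspose (hQb _ (hst b hb))
    rw [conjTranspose_mul, conjTranspose_mul, conjTranspose_mul, hQs, conjTranspose_conjTranspose, ← mul_assoc] at h1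
    rw [← h1, hQb b hb]
  have hQp : Q * p = p := hQ p ⟨hpA, hpp⟩
  have hQQ : Q * Q = Q := by
    have := hQb 1 A.one_mem
    rwa [mul_one, one_mul] at this
  have hQ1 : Q = 1 := by
    obtain ⟨c, hc⟩ := hcen Q hQA hQc
    have hp1 : c • p = (1 : ℂ) • p := by
      rw [hc, smul_mul_assoc, one_mul] at hQp
      rw [hQp, one_smul]
    have hc1 : c = 1 := by
      have h0 : (c - 1) • p = 0 := by rw [sub_smul, hp1, sub_self]
      rcases smul_eq_zero.mp h0 with h | h
      · exact sub_eq_zero.mp h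
      · exact absurd h hp0
    rw [hc, hc1, one_smul]
  obtain ⟨q, w, hw1, hw2, hww, hwp⟩ := exists_col56 hpp hps s
  set f : Matrix n n ℂ := single s s (1 : ℂ) with hf
  have hff : f s s = 1 := by rw [hf, single_apply_same]
  -- the unitary matrix
  let V : Matrix n (Fin d × Fin q) ℂ := Matrix.of fun r x => (u x.1 * w x.2) r s
  have hV : ∀ r x, V r x = (u x.1 * w x.2) r s := fun _ _ => rfl
  have hblock : ∀ (X : Matrix n n ℂ) (x y : Fin d × Fin q), (Vᴴ * X * V) x y = ((w x.2)ᴴ * ((u x.1)ᴴ * X * u y.1) * w y.2) s s := by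
    intro X x y
    have e1 : (w x.2)ᴴ * ((u x.1)ᴴ * X * u y.1) * w y.2 = (u x.1 * w x.2)ᴴ * X * (u y.1 * w y.2) := by
      rw [conjTranspose_mul]
      simp only [mul_assoc]
    rw [e1]
    simp only [Matrix.mul_apply, conjTranspose_apply, hV]
  have hker : ∀ (X : Matrix n n ℂ) (C : Matrix (Fin d) (Fin d) ℂ), (∀ i j, (u i)ᴴ * X * u j = C i j • p) →
      Vᴴ * X * V = kroneckerMap (· * ·) C (1 : Matrix (Fin q) (Fin q) ℂ) := by
    intro X C hC
    ext x y
    rw [hblock, hC, mul_smul_comm, smul_mul_assoc, mul_assoc, hw1, hww, kroneckerMap_apply, Matrix.smul_apply, smul_eq_mul]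
    by_cases h : x.2 = y.2
    · rw [if_pos h, h, one_apply_eq, hff]
    · rw [if_neg h, one_apply_ne h, Matrix.zero_apply]
  have hVV : Vᴴ * V = 1 := by
    have h1 := hker 1 1 (by
      intro i j
      rw [mul_one, huu]
      by_cases h : i = j
      · rw [if_pos h, h, one_apply_eq, one_smul]
      · rw [if_neg h, one_apply_ne h, zero_smul])
    rw [Matrix.mul_one] at h1
    rw [h1]
    exact kroneckerMap_one_one _ (fun _ => zero_mul _) (fun _ => mul_zero _) (one_mul _)
  have hVV2 : V * Vᴴ = 1 := by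
    rw [← hQ1, hQd]
    have e1 : ∀ i, u i * (u i)ᴴ = ∑ k, (u i * w k) * (u i * w k)ᴴ := by
      intro i
      have h1 : ∀ k, (u i * w k) * (u i * w k)ᴴ = u i * (w k * (w k)ᴴ) * (u i)ᴴ := by
        intro k
        rw [conjTranspose_mul]
        simp only [mul_assoc]
      rw [Finset.sum_congr rfl fun k _ => h1 k, ← Finset.sum_mul, ← Finset.mul_sum, hwp, (hu i).2]
    rw [Finset.sum_congr rfl fun i _ => e1 i]
    ext r t
    rw [Matrix.mul_apply, Fintype.sum_prod_type, Matrix.sum_apply]
    refine Finset.sum_congr rfl fun i _ => ?_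
    rw [Matrix.sum_apply]
    refine Finset.sum_congr rfl fun k _ => ?_
    rw [Matrix.mul_apply]
    have h2 : ∀ r' z, z ≠ s → (u i * w k) r' z = 0 := by
      intro r' z hz
      have h3 : u i * w k = u i * w k * f := by rw [mul_assoc, hw2]
      rw [h3, hf, mul_single_apply_of_ne _ _ _ _ _ hz]
    rw [Finset.sum_eq_single s]
    · rw [hV, conjTranspose_apply, conjTranspose_apply, hV]
    · intro z _ hz
      rw [h2 r z hz, zero_mul]
    · intro h
      exact absurd (Finset.mem_univ s) h
  have hcard : Fintype.card n = Fintype.card (Fin d × Fin q) := by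
    have h1 := trace_mul_comm V Vᴴ
    rw [hVV, hVV2, trace_one, trace_one] at h1
    exact_mod_cast h1
  have hn : 0 < Fintype.card n := Fintype.card_pos_iff.mpr ⟨s⟩
  have hdq : 0 < d * q := by
    rw [hcard, Fintype.card_prod, Fintype.card_fin, Fintype.card_fin] at hn
    exact hn
  have hd1 : 1 ≤ d := Nat.pos_of_mul_pos_right hdq
  have hq1 : 1 ≤ q := Nat.pos_of_mul_pos_left hdq
  let e : n ≃ Fin d × Fin q := Fintype.equivOfCardEq hcard
  have hsub : ∀ X : Matrix n n ℂ, (V.submatrix id e)ᴴ * X * V.submatrix id e = (Vᴴ * X * V).submatrix e e := by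
    intro X
    ext x y
    simp only [Matrix.mul_apply, conjTranspose_apply, submatrix_apply, id]
  refine ⟨d, q, e, V.submatrix id e, hd1, hq1, ?_, ?_, ?_⟩
  · have h1 := hsub 1
    rw [Matrix.mul_one, Matrix.mul_one, hVV, submatrix_one_equiv] at h1
    exact h1
  · rw [conjTranspose_submatrix, submatrix_mul_equiv, hVV2]
    exact submatrix_id_id _
  · intro X
    rw [hsub]
    constructor
    · intro hX
      choose C hC using fun i j => hrel (u i) (hu i).1 (u j) (hu j).1 (hu i).2 (hu j).2 X hX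
      exact ⟨Matrix.of C, by rw [hker X (Matrix.of C) hC]⟩
    · rintro ⟨C, hC⟩
      have hC' : Vᴴ * X * V = kroneckerMap (· * ·) C (1 : Matrix (Fin q) (Fin q) ℂ) := by
        have h1 := congrArg (fun m => m.submatrix e.symm e.symm) hC
        simpa using h1
      set Y : Matrix n n ℂ := ∑ i, ∑ j, C i j • (u i * (u j)ᴴ) with hY
      have hYA : Y ∈ A := A.sum_mem fun i _ => A.sum_mem fun j _ => A.smul_mem (A.mul_mem (hu i).1 (hst _ (hu j).1)) _
      have hYV : Vᴴ * Y * V = kroneckerMap (· * ·) C (1 : Matrix (Fin q) (Fin q) ℂ) := by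
        refine hker Y C fun i j => ?_
        have h1 : ∀ a b, (u i)ᴴ * (C a b • (u a * (u b)ᴴ)) * u j = if a = i then (if b = j then C a b • p else 0) else 0 := by
          intro a b
          have h2 : (u i)ᴴ * (C a b • (u a * (u b)ᴴ)) * u j = C a b • (((u i)ᴴ * u a) * ((u b)ᴴ * u j)) := by
            rw [mul_smul_comm, smul_mul_assoc]
            congr 1
            simp only [mul_assoc]
          rw [h2, huu, huu]
          by_cases ha : a = i
          · by_cases hb : b = j
            · rw [if_pos ha.symm, if_pos hb, if_pos ha, if_pos hb, hpp]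
            · rw [if_neg hb, if_pos ha, if_neg hb, mul_zero, smul_zero]
          · rw [if_neg (fun h => ha h.symm), if_neg ha, zero_mul, smul_zero]
        rw [hY, Finset.mul_sum, Finset.sum_mul]
        have h3 : ∀ a, (u i)ᴴ * (∑ b, C a b • (u a * (u b)ᴴ)) * u j = if a = i then C a j • p else 0 := by
          intro a
          rw [Finset.mul_sum, Finset.sum_mul, Finset.sum_congr rfl fun b _ => h1 a b]
          by_cases ha : a = i
          · simp [ha]
          · simp [ha]
        rw [Finset.sum_congr rfl fun a _ => h3 a]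
        simp
      have hXY : X = Y := by
        have h1 : ∀ Z : Matrix n n ℂ, V * (Vᴴ * Z * V) * Vᴴ = Z := by
          intro Z
          have : V * (Vᴴ * Z * V) * Vᴴ = (V * Vᴴ) * Z * (V * Vᴴ) := by simp only [Matrix.mul_assoc]
          rw [this, hVV2, one_mul, mul_one]
        rw [← h1 X, ← h1 Y, hC', hYV]
      rw [hXY]
      exact hYA

end OW
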