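import Pool.Agent.Helper71.OW.Jir
import Pool.Agent.Helper71.OW.TC

/-!
OW-6. The part of degree `-1` is a tensor product. Proof. `f` an orthonormal basis of `J = Ld L h (-1)` (`exists_onb98`), for
`z ∈ Ld L h 0` let `M z` be the matrix `tr (f iᴴ [z, f j])`: `[z, f j] = Σ_i (M z) i j • f i`; `M` is linear, `M (zᴴ) = (M z)ᴴ`,
`M [z, w] = [M z, M w]`. Let `L'` = the image of `Ld L h 0`. The commutant of `L'` is the scalars: a matrix `T` commuting
with `L'` has an eigenvalue `c`, the eigenspace gives a subspace of `J` stable under degree `0`, so it is `J` (`jirr`). Let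
`A` = the algebra generated by the `M c`, `c ∈ I`: self-adjoint, normalised by `L'` (`[M K, A] = 0`, `[M I, A] ≤ A`); its centre
is trivial (`centre`). `coord A` gives `d, q, e, U`; new basis `f' i k = Σ_a U a (e.symm (i, k)) • f a`. `M d`, `d ∈ K`, commutes
with `A`: `coord_comm`.
-/

open Matrix MH

namespace OW

variable {n : Type*} [Fintype n] [DecidableEq n]
variable {h : Matrix n n ℂ} {E : ℝ → Matrix n n ℂ} {Λ : Finset ℝ}
variable {τ : Matrix n n ℂ →ₗ[ℂ] Matrix n n ℂ} {L I K : Submodule ℂ (Matrix n n ℂ)}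

/-- the matrix of the bracket with `z` -/
private def mz6 {N : ℕ} (f : Fin N → Matrix n n ℂ) : Matrix n n ℂ →ₗ[ℂ] Matrix (Fin N) (Fin N) ℂ where
  toFun z := Matrix.of fun i j => ((f i)ᴴ * (z * f j - f j * z)).trace
  map_add' := by
    intro x y
    ext i j
    rw [Matrix.add_apply]
    simp only [of_apply]
    rw [← trace_add, ← mul_add]
    congr 2
    noncomm_ring
  map_smul' := by
    intro c x
    ext i j
    rw [Matrix.smul_apply]
    simp only [of_apply, RingHom.id_apply]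
    rw [← trace_smul, ← mul_smul_comm]
    congr 2
    rw [smul_mul_assoc, mul_smul_comm, smul_sub]

private lemma mz6_apply {N : ℕ} (f : Fin N → Matrix n n ℂ) (z : Matrix n n ℂ) (i j : Fin N) :
    mz6 f z i j = ((f i)ᴴ * (z * f j - f j * z)).trace := rfl

private lemma mz6_star {N : ℕ} (f : Fin N → Matrix n n ℂ) (z : Matrix n n ℂ) : mz6 f zᴴ = (mz6 f z)ᴴ := by
  ext i j
  rw [conjTranspose_apply, mz6_apply, mz6_apply, ← trace_conjTranspose, conjTranspose_mul, conjTranspose_sub,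
    conjTranspose_mul, conjTranspose_mul, conjTranspose_conjTranspose, mul_sub, sub_mul, trace_sub, trace_sub]
  congr 1
  · rw [mul_assoc]
  · rw [mul_assoc, trace_mul_comm zᴴ, mul_assoc]

private lemma br6 (V : Lv τ L h E Λ) {z x : Matrix n n ℂ} (hz : z ∈ Ld L h 0) (hx : x ∈ Ld L h (-1)) :
    z * x - x * z ∈ Ld L h (-1) := by
  have := Dat.Ld_bracket V.dat.br hz hx
  rwa [zero_add] at this

private lemma exp6 (V : Lv τ L h E Λ) {N : ℕ} {f : Fin N → Matrix n n ℂ} (hf : ∀ i, f i ∈ Ld L h (-1))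
    (hg : ∀ m ∈ Ld L h (-1), m = ∑ i, ((f i)ᴴ * m).trace • f i) {z : Matrix n n ℂ} (hz : z ∈ Ld L h 0) (j : Fin N) :
    z * f j - f j * z = ∑ i, mz6 f z i j • f i := by
  exact hg _ (br6 V hz (hf j))

private lemma mz6_br (V : Lv τ L h E Λ) {N : ℕ} {f : Fin N → Matrix n n ℂ} (hf : ∀ i, f i ∈ Ld L h (-1))
    (hg : ∀ m ∈ Ld L h (-1), m = ∑ i, ((f i)ᴴ * m).trace • f i) {z w : Matrix n n ℂ} (hz : z ∈ Ld L h 0)
    (hw : w ∈ Ld L h 0) : mz6 f (z * w - w * z) = mz6 f z * mz6 f w - mz6 f w * mz6 f z := by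
  have key : ∀ {z w : Matrix n n ℂ}, z ∈ Ld L h 0 → w ∈ Ld L h 0 → ∀ i j,
      ((f i)ᴴ * (z * (w * f j - f j * w) - (w * f j - f j * w) * z)).trace = (mz6 f z * mz6 f w) i j := by
    intro z w hz hw i j
    rw [exp6 V hf hg hw j, Finset.mul_sum, Finset.sum_mul, ← Finset.sum_sub_distrib, Finset.mul_sum, trace_sum,
      mul_apply]
    refine Finset.sum_congr rfl fun k _ => ?_
    rw [mul_smul_comm, smul_mul_assoc, ← smul_sub, mul_smul_comm, trace_smul, mz6_apply f z i k, smul_eq_mul, mul_comm]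
  ext i j
  rw [Matrix.sub_apply, ← key hz hw, ← key hw hz, mz6_apply, ← trace_sub, ← mul_sub]
  congr 2
  noncomm_ring

omit [DecidableEq n] in
private lemma coef6 {N : ℕ} {f : Fin N → Matrix n n ℂ}
    (ho : ∀ i j, ((f i)ᴴ * f j).trace = if i = j then 1 else 0) (v : Fin N → ℂ) (k : Fin N) :
    ((f k)ᴴ * ∑ j, v j • f j).trace = v k := by
  rw [Finset.mul_sum, trace_sum, Finset.sum_eq_single k]
  · rw [mul_smul_comm, trace_smul, ho, if_pos rfl, smul_eq_mul, mul_one]
  · intro j _ hj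
    rw [mul_smul_comm, trace_smul, ho, if_neg (Ne.symm hj), smul_zero]
  · intro hk
    exact absurd (Finset.mem_univ k) hk

private lemma act6 (V : Lv τ L h E Λ) {N : ℕ} {f : Fin N → Matrix n n ℂ} (hf : ∀ i, f i ∈ Ld L h (-1))
    (hg : ∀ m ∈ Ld L h (-1), m = ∑ i, ((f i)ᴴ * m).trace • f i) {z : Matrix n n ℂ} (hz : z ∈ Ld L h 0)
    (v : Fin N → ℂ) :
    z * (∑ j, v j • f j) - (∑ j, v j • f j) * z = ∑ i, (mz6 f z *ᵥ v) i • f i := by
  rw [Finset.mul_sum, Finset.sum_mul, ← Finset.sum_sub_distrib]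
  have h1 : ∀ j ∈ Finset.univ, z * (v j • f j) - v j • f j * z = ∑ i, (mz6 f z i j * v j) • f i := by
    intro j _
    rw [mul_smul_comm, smul_mul_assoc, ← smul_sub, exp6 V hf hg hz j, Finset.smul_sum]
    refine Finset.sum_congr rfl fun i _ => ?_
    rw [smul_smul, mul_comm]
  rw [Finset.sum_congr rfl h1, Finset.sum_comm]
  refine Finset.sum_congr rfl fun i _ => ?_
  rw [← Finset.sum_smul]
  rfl

/-- the commutant of the image of degree zero is the scalars -/
private lemma irr6 (V : Lv τ L h E Λ) {N : ℕ} {f : Fin N → Matrix n n ℂ} (hf : ∀ i, f i ∈ Ld L h (-1))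
    (ho : ∀ i j, ((f i)ᴴ * f j).trace = if i = j then 1 else 0)
    (hg : ∀ m ∈ Ld L h (-1), m = ∑ i, ((f i)ᴴ * m).trace • f i) [Nonempty (Fin N)]
    (T : Matrix (Fin N) (Fin N) ℂ) (hT : ∀ z ∈ Ld L h 0, T * mz6 f z = mz6 f z * T) :
    ∃ c : ℂ, T = c • (1 : Matrix (Fin N) (Fin N) ℂ) := by
  classical
  have : Nontrivial (Fin N → ℂ) := Function.nontrivial
  obtain ⟨c, hc⟩ := Module.End.exists_eigenvalue (Matrix.toLin' T)
  obtain ⟨v, hv⟩ := hc.exists_hasEigenvector
  refine ⟨c, ?_⟩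
  let Φ : (Fin N → ℂ) →ₗ[ℂ] Matrix n n ℂ := Fintype.linearCombination ℂ f
  have hΦ : ∀ u : Fin N → ℂ, Φ u = ∑ j, u j • f j := fun u => Fintype.linearCombination_apply ℂ f u
  let W : Submodule ℂ (Fin N → ℂ) := Module.End.eigenspace (Matrix.toLin' T) c
  have hW : ∀ u, u ∈ W ↔ T *ᵥ u = c • u := by
    intro u
    rw [Module.End.mem_eigenspace_iff, Matrix.toLin'_apply]
  have h1 := V.jirr (A := W.map Φ) (by
    rintro x ⟨u, _, rfl⟩
    rw [hΦ]
    exact Submodule.sum_mem _ fun j _ => Submodule.smul_mem _ _ (hf j)) (by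
    rintro z hz x ⟨u, hu, rfl⟩
    rw [hΦ, act6 V hf hg hz u]
    refine ⟨mz6 f z *ᵥ u, ?_, hΦ _⟩
    have hu' := (hW u).1 hu
    apply (hW _).2
    rw [mulVec_mulVec, hT z hz, ← mulVec_mulVec, hu', mulVec_smul])
  have hinj : ∀ u : Fin N → ℂ, ∀ k, ((f k)ᴴ * Φ u).trace = u k := by
    intro u k
    rw [hΦ]
    exact coef6 ho u k
  rcases h1 with h1 | h1
  · exfalso
    have h2 : Φ v ∈ W.map Φ := ⟨v, (hW v).2 (by
      have := hv.apply_eq_smul
      rwa [Matrix.toLin'_apply] at this), rfl⟩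
    rw [h1, Submodule.mem_bot] at h2
    apply hv.2
    funext k
    rw [← hinj v k, h2, mul_zero, trace_zero]
    rfl
  · ext i j
    have h2 : f j ∈ W.map Φ := by
      rw [h1]
      exact hf j
    obtain ⟨u, hu, huj⟩ := h2
    have h3 : u = Pi.single j 1 := by
      funext k
      rw [← hinj u k, huj, ho, Pi.single_apply]
    have h4 := (hW u).1 hu
    rw [h3, mulVec_single_one] at h4
    have h5 := congrFun h4 i
    rw [Matrix.smul_apply, one_apply]
    simpa [Pi.single_apply] using h5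

theorem Lv.exists_tn (V : Lv τ L h E Λ) (P : Pr L h I K) :
    ∃ (d q : ℕ) (f : Fin d → Fin q → Matrix n n ℂ), 1 ≤ d ∧ 1 ≤ q ∧ Tn L h I K f := by
  classical
  obtain ⟨N, f, hN0, hf, ho, hg⟩ : ∃ (N : ℕ) (f : Fin N → Matrix n n ℂ), 0 < N ∧ (∀ i, f i ∈ Ld L h (-1)) ∧
      (∀ i j, ((f i)ᴴ * f j).trace = if i = j then 1 else 0) ∧
      ∀ m ∈ Ld L h (-1), m = ∑ i, ((f i)ᴴ * m).trace • f i := by
    obtain ⟨f, hf, ho, hg⟩ := exists_onb98 (Ld L h (-1))
    refine ⟨_, f, ?_, hf, ho, hg⟩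
    rw [Nat.pos_iff_ne_zero]
    intro h0
    exact V.J_ne (Submodule.finrank_eq_zero.1 h0)
  have : Nonempty (Fin N) := ⟨⟨0, hN0⟩⟩
  -- the algebra
  let A : Subalgebra ℂ (Matrix (Fin N) (Fin N) ℂ) := Algebra.adjoin ℂ ((fun z => mz6 f z) '' (I : Set (Matrix n n ℂ)))
  have hIA : ∀ c ∈ I, mz6 f c ∈ A := fun c hc => Algebra.subset_adjoin ⟨c, hc, rfl⟩
  have hst : ∀ a ∈ A, aᴴ ∈ A := by
    intro a ha
    induction ha using Algebra.adjoin_induction with
    | mem x hx =>
      obtain ⟨c, hc, rfl⟩ := hx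
      rw [← mz6_star]
      exact hIA _ (P.st1 c hc)
    | algebraMap r =>
      rw [Algebra.algebraMap_eq_smul_one, conjTranspose_smul, conjTranspose_one]
      exact A.smul_mem (one_mem A) _
    | add x y _ _ hx hy =>
      rw [conjTranspose_add]
      exact add_mem hx hy
    | mul x y _ _ hx hy =>
      rw [conjTranspose_mul]
      exact mul_mem hy hx
  have hcomm : ∀ w ∈ K, ∀ a ∈ A, mz6 f w * a = a * mz6 f w := by
    intro w hw a ha
    induction ha using Algebra.adjoin_induction with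
    | mem x hx =>
      obtain ⟨c, hc, rfl⟩ := hx
      have h1 := mz6_br V hf hg (P.le2 hw) (P.le1 hc)
      rw [P.com c hc w hw, sub_self, map_zero] at h1
      have h2 : mz6 f w * mz6 f c = mz6 f c * mz6 f w := sub_eq_zero.1 h1.symm
      exact h2
    | algebraMap r => exact (Algebra.commutes r _).symm
    | add x y _ _ hx hy => rw [mul_add, add_mul, hx, hy]
    | mul x y _ _ hx hy => rw [← mul_assoc, hx, mul_assoc, hy, mul_assoc]
  have hnorm : ∀ x ∈ (Ld L h 0).map (mz6 f), ∀ a ∈ A, x * a - a * x ∈ A := by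
    rintro x ⟨z, hz, rfl⟩ a ha
    obtain ⟨c, hc, w, hw, rfl⟩ := Submodule.mem_sup.1 (P.sup hz)
    rw [map_add, add_mul, mul_add, hcomm w hw a ha]
    have e1 : mz6 f c * a + a * mz6 f w - (a * mz6 f c + a * mz6 f w) = mz6 f c * a - a * mz6 f c := by abel
    rw [e1]
    exact sub_mem (mul_mem (hIA c hc) ha) (mul_mem ha (hIA c hc))
  have hcen : ∀ a ∈ A, (∀ b ∈ A, a * b = b * a) → ∃ c : ℂ, a = c • (1 : Matrix (Fin N) (Fin N) ℂ) := by
    intro a ha hab
    refine centre (L := (Ld L h 0).map (mz6 f)) ?_ A hst hnorm ha hab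
    intro T hT
    exact irr6 V hf ho hg T fun z hz => hT _ ⟨z, hz, rfl⟩
  obtain ⟨d, q, e, U, hd, hq, hU1, hU2, hA⟩ := coord A hst hcen
  -- the new basis
  set g : Fin N → Matrix n n ℂ := fun x => ∑ a, U a x • f a with hgdef
  have hact : ∀ z ∈ Ld L h 0, ∀ x, z * g x - g x * z = ∑ y, (Uᴴ * mz6 f z * U) y x • g y := by
    intro z hz x
    have h1 := act6 V hf hg hz (fun a => U a x)
    rw [hgdef]
    simp only
    rw [h1]
    have h2 : ∀ i, (mz6 f z *ᵥ fun a => U a x) i = ∑ y, U i y * (Uᴴ * mz6 f z * U) y x := by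
      intro i
      have e1 : mz6 f z * U = U * (Uᴴ * mz6 f z * U) := by
        rw [← mul_assoc, ← mul_assoc, hU2, one_mul]
      have e2 := congrFun (congrFun e1 i) x
      rw [mul_apply, mul_apply] at e2
      exact e2
    have h3 : ∀ y, (Uᴴ * mz6 f z * U) y x • (∑ a, U a y • f a) = ∑ a, (U a y * (Uᴴ * mz6 f z * U) y x) • f a := by
      intro y
      rw [Finset.smul_sum]
      refine Finset.sum_congr rfl fun a _ => ?_
      rw [smul_smul, mul_comm]
    simp only [h2, h3]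
    rw [Finset.sum_comm]
    refine Finset.sum_congr rfl fun i _ => ?_
    rw [Finset.sum_smul]
  have hgmem : ∀ x, g x ∈ Ld L h (-1) := fun x =>
    Submodule.sum_mem _ fun a _ => Submodule.smul_mem _ _ (hf a)
  have htr : ∀ x (m : Matrix n n ℂ), ((g x)ᴴ * m).trace = ∑ a, star (U a x) * ((f a)ᴴ * m).trace := by
    intro x m
    rw [hgdef]
    simp only
    rw [conjTranspose_sum, Finset.sum_mul, trace_sum]
    refine Finset.sum_congr rfl fun a _ => ?_
    rw [conjTranspose_smul, smul_mul_assoc, trace_smul, smul_eq_mul]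
  have hgorth : ∀ x y, ((g x)ᴴ * g y).trace = if x = y then 1 else 0 := by
    intro x y
    rw [htr]
    have h1 : ∀ a, ((f a)ᴴ * g y).trace = U a y := fun a => coef6 ho (fun a => U a y) a
    simp only [h1]
    have h2 := congrFun (congrFun hU1 x) y
    rw [mul_apply, one_apply] at h2
    exact h2
  have hggen : ∀ m ∈ Ld L h (-1), m = ∑ x, ((g x)ᴴ * m).trace • g x := by
    intro m hm
    have h1 : ∀ x, ((g x)ᴴ * m).trace • g x =
        ∑ b, (U b x * ∑ a, star (U a x) * ((f a)ᴴ * m).trace) • f b := by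
      intro x
      rw [htr, hgdef]
      simp only
      rw [Finset.smul_sum]
      refine Finset.sum_congr rfl fun b _ => ?_
      rw [smul_smul, mul_comm]
    simp only [h1]
    rw [Finset.sum_comm]
    conv_lhs => rw [hg m hm]
    refine Finset.sum_congr rfl fun b _ => ?_
    rw [← Finset.sum_smul]
    congr 1
    have h2 : ∀ x, U b x * ∑ a, star (U a x) * ((f a)ᴴ * m).trace =
        ∑ a, (U b x * star (U a x)) * ((f a)ᴴ * m).trace := by
      intro x
      rw [Finset.mul_sum]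
      refine Finset.sum_congr rfl fun a _ => ?_
      rw [mul_assoc]
    simp only [h2]
    rw [Finset.sum_comm]
    have h3 : ∀ a, ∑ x, (U b x * star (U a x)) * ((f a)ᴴ * m).trace =
        (if b = a then 1 else 0) * ((f a)ᴴ * m).trace := by
      intro a
      rw [← Finset.sum_mul]
      congr 1
      have h4 := congrFun (congrFun hU2 b) a
      rw [mul_apply, one_apply] at h4
      exact h4
    simp only [h3]
    simp
  -- reindexing
  have hre : ∀ F : Fin N → Matrix n n ℂ, ∑ x, F x = ∑ i, ∑ k, F (e.symm (i, k)) := by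
    intro F
    rw [← Equiv.sum_comp e.symm F, Fintype.sum_prod_type]
  refine ⟨d, q, fun i k => g (e.symm (i, k)), hd, hq, P, fun i k => hgmem _, ?_, ?_, ?_, ?_⟩
  · intro i k j l
    rw [hgorth]
    simp only [e.symm.injective.eq_iff, Prod.mk.injEq]
  · intro m hm
    rw [← hre (fun x => ((g x)ᴴ * m).trace • g x)]
    exact hggen m hm
  · intro c hc
    obtain ⟨C, hC⟩ := (hA _).1 (hIA c hc)
    refine ⟨C, fun i k => ?_⟩
    rw [hact c (P.le1 hc), hre, hC]
    refine Finset.sum_congr rfl fun j _ => ?_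
    rw [Finset.sum_eq_single k]
    · simp
    · intro l _ hl
      simp [hl]
    · intro hk
      exact absurd (Finset.mem_univ k) hk
  · intro c hc
    obtain ⟨C, hC⟩ := coord_comm hd hU1 hU2 hA (X := mz6 f c) (hcomm c hc)
    refine ⟨C, fun i k => ?_⟩
    rw [hact c (P.le2 hc), hre, hC]
    rw [Finset.sum_eq_single i]
    · refine Finset.sum_congr rfl fun l _ => ?_
      simp
    · intro j _ hj
      refine Finset.sum_eq_zero fun l _ => ?_
      simp [hj]
    · intro hi
      exact absurd (Finset.mem_univ i) hi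

end OW
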