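import Pool.Agent.Helper71.OW.Jir

/-!
OW-7. `I` acts on the first factor like all matrices if the second factor has dimension at least two. Proof.
Let `C c` be the matrix of `c ∈ I` (`act1`; `C (cᴴ) = (C c)ᴴ` by orthonormality), `C' c` that of `c ∈ K` (`act2`). For
`x, y ∈ J`, `[x, yᴴ]` has degree `0`, `= D(x, y) + D'(x, y)`, `D ∈ I`, `D' ∈ K` (`sup`; components unique by `orth`). For `c ∈ I`:
`tr (cᴴ D(f i k, f j l)) = tr ((f j l)ᴴ [cᴴ, f i k]) = (C cᴴ) j i δ_kl`, so `D(f i k, f j l) = δ_kl D(i, j)` with `D(i, j) ∈ I` not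
depending on `k` (nondegeneracy of the trace form on `I`), and `tr (cᴴ D(i, j)) = (C cᴴ) j i`. In the same way
`D'(f i k, f j l) = δ_ij D'(k, l)`.
For `x, y, z ∈ J`: `[[x, yᴴ], z] = [[z, yᴴ], x]` (`x z = z x`, Jacobi). Take `x = f i k`, `y = f j l`, `z = f m l`, `k ≠ l`; compare
coefficients of `f r k`: `δ_ij δ_rm γ = C(D(m, j)) r i + δ_mj δ_ri β`, `γ = C'(D'(k, l)) k l`, `β = C'(D'(l, l)) k k`. So the
`D(m, j)` are as claimed. If `γ = 0`: `D(m, j)` acts as the scalar `-β δ_mj` on `J`, so `D(m, j) = β δ_mj h` by `scal`, and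
`(C cᴴ) j m = tr (cᴴ D(m, j))` is `0` for `m ≠ j` and independent of `m` for `m = j`: `C cᴴ` is scalar for all `c ∈ I`.
-/

open Matrix MH

namespace OW

variable {n : Type*} [Fintype n] [DecidableEq n]
variable {h : Matrix n n ℂ} {E : ℝ → Matrix n n ℂ} {Λ : Finset ℝ}
variable {τ : Matrix n n ℂ →ₗ[ℂ] Matrix n n ℂ} {L I K : Submodule ℂ (Matrix n n ℂ)}
variable {d q : ℕ} {f : Fin d → Fin q → Matrix n n ℂ}

lemma Pr.swap (P : Pr L h I K) : Pr L h K I where
  le1 := P.le2
  le2 := P.le1
  st1 := P.st2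
  st2 := P.st1
  com := fun c hc d hd => (P.com d hd c hc).symm
  orth := by
    intro c hc d hd
    have h1 := P.orth d hd c hc
    have h2 : (cᴴ * d).trace = star ((dᴴ * c).trace) := by
      rw [← trace_conjTranspose, conjTranspose_mul, conjTranspose_conjTranspose]
    rw [h2, h1, star_zero]
  sup := by
    rw [sup_comm]
    exact P.sup

lemma Tn.swap (T : Tn L h I K f) : Tn L h K I (fun k i => f i k) where
  pr := T.pr.swap
  mem := fun k i => T.mem i k
  orth := by
    intro k i l j
    rw [T.orth i k j l]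
    simp only [and_comm]
  gen := by
    intro m hm
    conv_lhs => rw [T.gen m hm]
    exact Finset.sum_comm
  act1 := by
    intro c hc
    obtain ⟨C, hC⟩ := T.act2 c hc
    exact ⟨C, fun k i => hC i k⟩
  act2 := by
    intro c hc
    obtain ⟨C, hC⟩ := T.act1 c hc
    exact ⟨C, fun k i => hC i k⟩

omit [DecidableEq n] in
private lemma tr_br7 (c x y : Matrix n n ℂ) :
    (c * (x * yᴴ - yᴴ * x)).trace = (yᴴ * (c * x - x * c)).trace := by
  rw [mul_sub, mul_sub, trace_sub, trace_sub]
  congr 1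
  · rw [← mul_assoc, trace_mul_comm (c * x) yᴴ]
  · rw [trace_mul_comm c, mul_assoc]

private lemma uniq7 (P : Pr L h I K) {a a' : Matrix n n ℂ} (ha : a ∈ I) (ha' : a' ∈ I)
    (h1 : ∀ c ∈ I, (c * a).trace = (c * a').trace) : a = a' := by
  rw [← sub_eq_zero]
  apply eq_zero_of_trace
  have h2 := h1 (a - a')ᴴ (P.st1 _ (I.sub_mem ha ha'))
  rw [mul_sub, trace_sub, h2, sub_self, Complex.zero_re]

/-- the coefficients of the first component of a bracket -/
private lemma comp7 (T : Tn L h I K f) {i j : Fin d} {k l : Fin q} {a b : Matrix n n ℂ}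
    (hb : b ∈ K) (hab : f i k * (f j l)ᴴ - (f j l)ᴴ * f i k = a + b) {c : Matrix n n ℂ} (hc : c ∈ I)
    {C : Matrix (Fin d) (Fin d) ℂ} (hC : ∀ i k, c * f i k - f i k * c = ∑ j, C j i • f j k) :
    (c * a).trace = if k = l then C j i else 0 := by
  have h1 : (c * b).trace = 0 := by
    have := T.pr.orth _ (T.pr.st1 c hc) b hb
    rwa [conjTranspose_conjTranspose] at this
  have h2 : (c * a).trace = (c * (f i k * (f j l)ᴴ - (f j l)ᴴ * f i k)).trace := by
    rw [hab, mul_add, trace_add, h1, add_zero]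
  rw [h2, tr_br7, hC, Finset.mul_sum, trace_sum]
  have h3 : ∀ s, ((f j l)ᴴ * C s i • f s k).trace = if j = s then (if k = l then C j i else 0) else 0 := by
    intro s
    rw [mul_smul_comm, trace_smul, T.orth, smul_eq_mul]
    by_cases hjs : j = s
    · subst hjs
      by_cases hkl : k = l
      · subst hkl
        simp
      · have : ¬ (j = j ∧ l = k) := fun h' => hkl h'.2.symm
        rw [if_neg this, if_pos rfl, if_neg hkl, mul_zero]
    · have : ¬ (j = s ∧ l = k) := fun h' => hjs h'.1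
      rw [if_neg this, if_neg hjs, mul_zero]
  rw [Finset.sum_congr rfl fun s _ => h3 s, Finset.sum_ite_eq]
  simp

private lemma triple7 {x y z : Matrix n n ℂ} (hxz : x * z = z * x) :
    (x * yᴴ - yᴴ * x) * z - z * (x * yᴴ - yᴴ * x) = (z * yᴴ - yᴴ * z) * x - x * (z * yᴴ - yᴴ * z) := by
  have e : (x * yᴴ - yᴴ * x) * z - z * (x * yᴴ - yᴴ * x) - ((z * yᴴ - yᴴ * z) * x - x * (z * yᴴ - yᴴ * z)) =
      (x * z - z * x) * yᴴ - yᴴ * (x * z - z * x) := by
    noncomm_ring
  rw [hxz, sub_self, zero_mul, mul_zero, sub_self] at e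
  exact sub_eq_zero.1 e

private lemma lin7 (T : Tn L h I K f) {z : Matrix n n ℂ} {χ : ℂ} (h1 : ∀ i k, z * f i k - f i k * z = χ • f i k) :
    ∀ x ∈ Ld L h (-1), z * x - x * z = χ • x := by
  intro x hx
  have h2 := T.gen x hx
  have h3 : ∀ g : Fin d → Fin q → ℂ, z * (∑ i, ∑ k, g i k • f i k) - (∑ i, ∑ k, g i k • f i k) * z =
      χ • ∑ i, ∑ k, g i k • f i k := by
    intro g
    simp only [Finset.mul_sum, Finset.sum_mul, Finset.smul_sum, ← Finset.sum_sub_distrib]
    refine Finset.sum_congr rfl fun i _ => Finset.sum_congr rfl fun k _ => ?_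
    rw [mul_smul_comm, smul_mul_assoc, ← smul_sub, h1, smul_comm]
  rw [h2]
  exact h3 _

private lemma star7 (V : Lv τ L h E Λ) {Y : Matrix n n ℂ} (hY : Y ∈ Ld L h (-1)) : Yᴴ ∈ Ld L h 1 := by
  refine ⟨V.dat.st Y hY.1, ?_⟩
  have h1 := congrArg conjTranspose hY.2
  rw [conjTranspose_sub, conjTranspose_mul, conjTranspose_mul, conjTranspose_smul, V.dat.spec.hh] at h1
  have h2 : star (((-1 : ℝ) : ℝ) : ℂ) = ((-1 : ℝ) : ℂ) := Complex.conj_ofReal _
  rw [h2] at h1
  push_cast at h1 ⊢
  rw [one_smul, ← neg_sub, h1, neg_smul, one_smul, neg_neg]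

private lemma br7 (V : Lv τ L h E Λ) {x y : Matrix n n ℂ} (hx : x ∈ Ld L h (-1)) (hy : y ∈ Ld L h (-1)) :
    x * yᴴ - yᴴ * x ∈ Ld L h 0 := by
  have := Dat.Ld_bracket V.dat.br hx (star7 V hy)
  rwa [neg_add_cancel] at this

/-- the two components of all the brackets -/
private lemma split7 (V : Lv τ L h E Λ) (T : Tn L h I K f) (l : Fin q) (i₀ : Fin d) :
    ∃ (D : Fin d → Fin d → Matrix n n ℂ) (D' : Fin q → Fin q → Matrix n n ℂ), (∀ i j, D i j ∈ I) ∧
      (∀ k s, D' k s ∈ K) ∧ (∀ i j k s, f i k * (f j s)ᴴ - (f j s)ᴴ * f i k =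
        (if k = s then D i j else 0) + (if i = j then D' k s else 0)) ∧
      ∀ c ∈ I, ∀ C : Matrix (Fin d) (Fin d) ℂ, (∀ i k, c * f i k - f i k * c = ∑ j, C j i • f j k) →
        ∀ i j, (c * D i j).trace = C j i := by
  have h1 : ∀ (i j : Fin d) (k s : Fin q), ∃ a ∈ I, ∃ b ∈ K, f i k * (f j s)ᴴ - (f j s)ᴴ * f i k = a + b := by
    intro i j k s
    obtain ⟨a, ha, b, hb, hab⟩ := Submodule.mem_sup.1 (T.pr.sup (br7 V (T.mem i k) (T.mem j s)))
    exact ⟨a, ha, b, hb, hab.symm⟩
  choose a ha b hb hab using h1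
  refine ⟨fun i j => a i j l l, fun k s => b i₀ i₀ k s, fun i j => ha _ _ _ _, fun k s => hb _ _ _ _, ?_, ?_⟩
  · intro i j k s
    have e1 : a i j k s = if k = s then a i j l l else 0 := by
      refine uniq7 T.pr (ha _ _ _ _) ?_ ?_
      · split_ifs
        · exact ha _ _ _ _
        · exact I.zero_mem
      · intro c hc
        obtain ⟨C, hC⟩ := T.act1 c hc
        rw [comp7 T (hb i j k s) (hab i j k s) hc hC]
        split_ifs with hks
        · rw [comp7 T (hb i j l l) (hab i j l l) hc hC, if_pos rfl]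
        · rw [mul_zero, trace_zero]
    have e2 : b i j k s = if i = j then b i₀ i₀ k s else 0 := by
      have hab' : ∀ i j k s, f i k * (f j s)ᴴ - (f j s)ᴴ * f i k = b i j k s + a i j k s := by
        intro i j k s
        rw [hab, add_comm]
      refine uniq7 T.swap.pr (hb _ _ _ _) ?_ ?_
      · split_ifs
        · exact hb _ _ _ _
        · exact K.zero_mem
      · intro c hc
        obtain ⟨C, hC⟩ := T.swap.act1 c hc
        rw [comp7 T.swap (ha i j k s) (hab' i j k s) hc hC]
        split_ifs with hks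
        · rw [comp7 T.swap (ha i₀ i₀ k s) (hab' i₀ i₀ k s) hc hC, if_pos rfl]
        · rw [mul_zero, trace_zero]
    rw [hab, e1, e2]
  · intro c hc C hC i j
    rw [comp7 T (hb i j l l) (hab i j l l) hc hC, if_pos rfl]

/-- a coefficient -/
private lemma coef7 (T : Tn L h I K f) (r : Fin d) (k : Fin q) (C : Fin d → Fin q → ℂ) :
    ((f r k)ᴴ * ∑ i, ∑ s, C i s • f i s).trace = C r k := by
  rw [Finset.mul_sum, trace_sum, Finset.sum_eq_single r]
  · rw [Finset.mul_sum, trace_sum, Finset.sum_eq_single k]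
    · rw [mul_smul_comm, trace_smul, T.orth, if_pos ⟨rfl, rfl⟩, smul_eq_mul, mul_one]
    · intro s _ hs
      rw [mul_smul_comm, trace_smul, T.orth, if_neg (fun h' => hs h'.2.symm), smul_zero]
    · intro h'
      exact absurd (Finset.mem_univ _) h'
  · intro i _ hi
    rw [Finset.mul_sum, trace_sum]
    refine Finset.sum_eq_zero fun s _ => ?_
    rw [mul_smul_comm, trace_smul, T.orth, if_neg (fun h' => hi h'.1.symm), smul_zero]
  · intro h'
    exact absurd (Finset.mem_univ _) h'

private lemma coef_row7 (T : Tn L h I K f) (r : Fin d) (k s : Fin q) (C : Fin d → ℂ) :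
    ((f r k)ᴴ * ∑ j, C j • f j s).trace = if k = s then C r else 0 := by
  rw [Finset.mul_sum, trace_sum, Finset.sum_eq_single r]
  · rw [mul_smul_comm, trace_smul, T.orth, smul_eq_mul]
    by_cases hks : k = s
    · rw [if_pos ⟨rfl, hks⟩, if_pos hks, mul_one]
    · rw [if_neg (fun h' => hks h'.2), if_neg hks, mul_zero]
  · intro j _ hj
    rw [mul_smul_comm, trace_smul, T.orth, if_neg (fun h' => hj h'.1.symm), smul_zero]
  · intro h'
    exact absurd (Finset.mem_univ _) h'

private lemma coef_col7 (T : Tn L h I K f) (r i : Fin d) (k : Fin q) (C : Fin q → ℂ) :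
    ((f r k)ᴴ * ∑ s, C s • f i s).trace = if r = i then C k else 0 := by
  rw [Finset.mul_sum, trace_sum, Finset.sum_eq_single k]
  · rw [mul_smul_comm, trace_smul, T.orth, smul_eq_mul]
    by_cases hri : r = i
    · rw [if_pos ⟨hri, rfl⟩, if_pos hri, mul_one]
    · rw [if_neg (fun h' => hri h'.1), if_neg hri, mul_zero]
  · intro s _ hs
    rw [mul_smul_comm, trace_smul, T.orth, if_neg (fun h' => hs h'.2.symm), smul_zero]
  · intro h'
    exact absurd (Finset.mem_univ _) h'

theorem Tn.typeA (V : Lv τ L h E Λ) (T : Tn L h I K f) {k l : Fin q} (hkl : k ≠ l) :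
    ∃ (γ β : ℂ) (D : Fin d → Fin d → Matrix n n ℂ), TyA I f γ β D ∧ (γ = 0 → ∀ c ∈ I, Scl L h c) := by
  classical
  have hd : Nonempty (Fin d) := by
    by_contra hd
    rw [not_nonempty_iff] at hd
    apply V.J_ne
    rw [eq_bot_iff]
    intro m hm
    rw [Submodule.mem_bot, T.gen m hm, Finset.univ_eq_empty, Finset.sum_empty]
  obtain ⟨i₀⟩ := hd
  obtain ⟨D, D', hD, hD', hbr, htr⟩ := split7 V T l i₀
  obtain ⟨C1, hC1⟩ := T.act2 _ (hD' k l)
  obtain ⟨C2, hC2⟩ := T.act2 _ (hD' l l)
  have key : ∀ m j i r, ∀ C : Matrix (Fin d) (Fin d) ℂ,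
      (∀ i k, D m j * f i k - f i k * D m j = ∑ s, C s i • f s k) →
      C r i = (if i = j then (if m = r then C1 k l else 0) else 0) -
        (if m = j then (if i = r then C2 k k else 0) else 0) := by
    intro m j i r C hC
    have e1 := triple7 (y := f j l) (V.comm (T.mem i k) (T.mem m l))
    rw [hbr i j k l, hbr m j l l, if_neg hkl, if_pos rfl, zero_add] at e1
    have e2 := congrArg (fun X => ((f r k)ᴴ * X).trace) e1
    have e3 : ((f r k)ᴴ * ((if i = j then D' k l else 0) * f m l - f m l * (if i = j then D' k l else 0))).trace =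
        if i = j then (if m = r then C1 k l else 0) else 0 := by
      by_cases hij : i = j
      · rw [if_pos hij, if_pos hij, hC1, coef_col7 T r m k]
        simp only [eq_comm]
      · rw [if_neg hij, if_neg hij]
        simp
    have e4 : ((f r k)ᴴ * ((D m j + if m = j then D' l l else 0) * f i k -
        f i k * (D m j + if m = j then D' l l else 0))).trace =
        C r i + (if m = j then (if i = r then C2 k k else 0) else 0) := by
      by_cases hmj : m = j
      · rw [if_pos hmj, if_pos hmj]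
        have e5 : (D m j + D' l l) * f i k - f i k * (D m j + D' l l) =
            (D m j * f i k - f i k * D m j) + (D' l l * f i k - f i k * D' l l) := by
          noncomm_ring
        rw [e5, hC, hC2, mul_add, trace_add, coef_row7 T r k k, coef_col7 T r i k, if_pos rfl]
        simp only [eq_comm]
      · rw [if_neg hmj, if_neg hmj, add_zero, add_zero, hC, coef_row7 T r k k, if_pos rfl]
    rw [e3, e4] at e2
    linear_combination -e2
  have hTy : TyA I f (C1 k l) (C2 k k) D := by
    refine ⟨hD, ?_⟩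
    intro m j i r
    obtain ⟨C, hC⟩ := T.act1 _ (hD m j)
    rw [hC i r]
    have e1 : ∀ s, C s i • f s r = (if m = s then (if i = j then C1 k l • f m r else 0) else 0) -
        (if i = s then (if m = j then C2 k k • f i r else 0) else 0) := by
      intro s
      rw [key m j i s C hC, sub_smul]
      congr 1
      · split_ifs with h1 h2 h2
        · rw [h2]
        · rw [zero_smul]
        · rw [zero_smul]
        · rw [zero_smul]
      · split_ifs with h1 h2 h2
        · rw [h2]
        · rw [zero_smul]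
        · rw [zero_smul]
        · rw [zero_smul]
    rw [Finset.sum_congr rfl fun s _ => e1 s, Finset.sum_sub_distrib, Finset.sum_ite_eq, Finset.sum_ite_eq,
      if_pos (Finset.mem_univ _), if_pos (Finset.mem_univ _)]
  refine ⟨C1 k l, C2 k k, D, hTy, ?_⟩
  intro hγ c hc
  have hne : ∀ m j, m ≠ j → D m j = 0 := by
    intro m j hmj
    have e1 := V.scal (z := D m j) (χ := 0) (T.pr.le1 (hD m j)) (lin7 T fun i r => by
      rw [hTy.2 m j i r, hγ, if_neg hmj, zero_smul, zero_smul]
      simp)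
    rw [e1, zero_smul, neg_zero]
  have heq : ∀ m, D m m = C2 k k • h := by
    intro m
    have e1 := V.scal (z := D m m) (χ := -(C2 k k)) (T.pr.le1 (hD m m)) (lin7 T fun i r => by
      rw [hTy.2 m m i r, hγ, if_pos rfl, zero_smul, neg_smul]
      simp)
    rw [e1, neg_smul, neg_neg]
  obtain ⟨C, hC⟩ := T.act1 c hc
  refine ⟨C2 k k * (c * h).trace, lin7 T ?_⟩
  intro i r
  rw [hC i r, Finset.sum_eq_single i]
  · congr 1
    rw [← htr c hc C hC i i, heq, mul_smul_comm, trace_smul, smul_eq_mul]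
  · intro j _ hj
    rw [← htr c hc C hC i j, hne i j (Ne.symm hj), mul_zero, trace_zero, zero_smul]
  · intro h'
    exact absurd (Finset.mem_univ _) h'

end OW
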