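import Pool.Agent.Helper71.OW.Gen2
import Pool.Agent.Helper71.OW.Dim
import Pool.Agent.Helper71.OW.Ten
import Pool.Agent.Helper71.OW.TyA
import Pool.Agent.Helper71.OW.Cub

/-!
OW-9. The bound if the largest eigenvalue is `3/2` with multiplicity `s ≥ 2`. Proof. `J = Ld L h (-1)`;
`I = {z ∈ Ld L h 0 : z E (3/2) = 0}`, `K` = the orthogonal complement of `I` in `Ld L h 0`. Both are ideals of `Ld L h 0` (degree
`0` commutes with `E (3/2)`; `tr (cᴴ [w, z]) = tr ([cᴴ, w] z)`), self-adjoint, `I ⊓ K = ⊥`, so they commute: `Pr L h I K`.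
`z ↦ z E (3/2) = E (3/2) z E (3/2)` is injective on `K`: `finrank K ≤ s ^ 2`. `N ≤ finrank J * s` (`rank_le`, `μ = 1/2`).
(a) `I = ⊥`: `K = Ld L h 0`, `finrank J ≤ finrank (Ld L h 0) ≤ s ^ 2` (`finrank_le_zero`), `N ≤ s ^ 3`.
(b) `I ≠ ⊥`: `exists_tn`. An element `c` of `I` with `Scl` is `-χ h` (`scal`), kills `E (3/2)`, so `c = 0`. If all elements of `K` are
`Scl`, they are multiples of `h`, so `Ld L h 0` acts on `E (3/2)` by scalars, `s ≤ 1` by `one`, no. `q = 1` would make all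
elements of `K` `Scl` (`act2`), so `2 ≤ q`, and `typeA` gives `γ ≠ 0` for `I` (`γ = 0`: all `Scl`, `I = ⊥`); `d = 1` would make `I`
`Scl`, so `2 ≤ d`, `d = 3` (`three`). `typeA` for `T.swap` gives `γ' ≠ 0` for `K`, `q * q ≤ s ^ 2 + q` (`count`), so `q ≤ s + 1`.
`finrank J = 3 q` (the `f i k` are a basis), `N ≤ 3 q s ≤ 3 (s + 1) s`.
-/

open Matrix MH

namespace OW

variable {n : Type*} [Fintype n] [DecidableEq n]
variable {h : Matrix n n ℂ} {E : ℝ → Matrix n n ℂ} {Λ : Finset ℝ}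
variable {τ : Matrix n n ℂ →ₗ[ℂ] Matrix n n ℂ} {L : Submodule ℂ (Matrix n n ℂ)}

private lemma star0_75 (D : Dat τ L h E Λ) {x : Matrix n n ℂ} (hx : x ∈ Ld L h 0) : xᴴ ∈ Ld L h 0 := by
  refine ⟨D.st x hx.1, ?_⟩
  have h1 := congrArg conjTranspose hx.2
  rw [conjTranspose_sub, conjTranspose_mul, conjTranspose_mul, conjTranspose_smul, D.spec.hh] at h1
  simp only [Complex.ofReal_zero, star_zero, zero_smul] at h1 ⊢
  rw [← neg_sub, h1, neg_zero]

private lemma comm0_75 (D : Dat τ L h E Λ) {z : Matrix n n ℂ} (hz : z ∈ Ld L h 0) (μ : ℝ) :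
    E μ * z = z * E μ := by
  have h1 := D.Ld_mul_E hz μ
  have h2 := congrArg conjTranspose (D.Ld_mul_E (star0_75 D hz) μ)
  rw [conjTranspose_mul, conjTranspose_mul, conjTranspose_mul, conjTranspose_conjTranspose, D.spec.star, D.spec.star,
    ← mul_assoc] at h2
  rw [add_zero] at h1 h2
  rw [h2, h1]

private lemma br0_75 (D : Dat τ L h E Λ) {x y : Matrix n n ℂ} (hx : x ∈ Ld L h 0) (hy : y ∈ Ld L h 0) :
    x * y - y * x ∈ Ld L h 0 := by
  have h3 := Dat.Ld_bracket D.br hx hy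
  rwa [zero_add] at h3

/-- the elements of degree zero that kill `e` -/
private def II75 (L : Submodule ℂ (Matrix n n ℂ)) (h e : Matrix n n ℂ) : Submodule ℂ (Matrix n n ℂ) where
  carrier := {y | y ∈ Ld L h 0 ∧ y * e = 0}
  add_mem' := by
    rintro y y' ⟨h1, h2⟩ ⟨h3, h4⟩
    exact ⟨(Ld L h 0).add_mem h1 h3, by rw [add_mul, h2, h4, add_zero]⟩
  zero_mem' := ⟨(Ld L h 0).zero_mem, zero_mul _⟩
  smul_mem' := by
    rintro c y ⟨h1, h2⟩
    exact ⟨(Ld L h 0).smul_mem c h1, by rw [smul_mul_assoc, h2, smul_zero]⟩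

/-- its orthogonal complement in the part of degree zero -/
private def KK75 (L : Submodule ℂ (Matrix n n ℂ)) (h e : Matrix n n ℂ) : Submodule ℂ (Matrix n n ℂ) where
  carrier := {y | y ∈ Ld L h 0 ∧ ∀ c ∈ II75 L h e, (cᴴ * y).trace = 0}
  add_mem' := by
    rintro y y' ⟨h1, h2⟩ ⟨h3, h4⟩
    exact ⟨(Ld L h 0).add_mem h1 h3, fun c hc => by rw [mul_add, trace_add, h2 c hc, h4 c hc, add_zero]⟩
  zero_mem' := ⟨(Ld L h 0).zero_mem, fun c _ => by rw [mul_zero, trace_zero]⟩
  smul_mem' := by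
    rintro c y ⟨h1, h2⟩
    exact ⟨(Ld L h 0).smul_mem c h1, fun b hb => by rw [mul_smul_comm, trace_smul, h2 b hb, smul_zero]⟩

private lemma II_star75 (D : Dat τ L h E Λ) {μ : ℝ} {c : Matrix n n ℂ} (hc : c ∈ II75 L h (E μ)) :
    cᴴ ∈ II75 L h (E μ) := by
  refine ⟨star0_75 D hc.1, ?_⟩
  have h1 : c * E μ = 0 := hc.2
  rw [← comm0_75 D hc.1] at h1
  have h2 := congrArg conjTranspose h1
  rwa [conjTranspose_mul, D.spec.star, conjTranspose_zero] at h2

private lemma II_ideal75 (D : Dat τ L h E Λ) {μ : ℝ} {c w : Matrix n n ℂ} (hc : c ∈ II75 L h (E μ))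
    (hw : w ∈ Ld L h 0) : w * c - c * w ∈ II75 L h (E μ) := by
  refine ⟨br0_75 D hw hc.1, ?_⟩
  have h1 : c * E μ = 0 := hc.2
  rw [sub_mul, mul_assoc, h1, mul_zero, mul_assoc, ← comm0_75 D hw, ← mul_assoc, h1, zero_mul, sub_zero]

private lemma KK_star75 (D : Dat τ L h E Λ) {μ : ℝ} {c : Matrix n n ℂ} (hc : c ∈ KK75 L h (E μ)) :
    cᴴ ∈ KK75 L h (E μ) := by
  refine ⟨star0_75 D hc.1, fun b hb => ?_⟩
  have h1 := hc.2 bᴴ (II_star75 D hb)
  rw [conjTranspose_conjTranspose] at h1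
  rw [← conjTranspose_mul, trace_conjTranspose, trace_mul_comm, h1, star_zero]

private lemma KK_ideal75 (D : Dat τ L h E Λ) {μ : ℝ} {z w : Matrix n n ℂ} (hz : z ∈ KK75 L h (E μ))
    (hw : w ∈ Ld L h 0) : w * z - z * w ∈ KK75 L h (E μ) := by
  refine ⟨br0_75 D hw hz.1, fun c hc => ?_⟩
  have h1 : wᴴ * c - c * wᴴ ∈ II75 L h (E μ) := II_ideal75 D hc (star0_75 D hw)
  have h2 := hz.2 _ h1
  rw [conjTranspose_sub, conjTranspose_mul, conjTranspose_mul, conjTranspose_conjTranspose, sub_mul, trace_sub] at h2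
  rw [mul_sub, trace_sub, ← mul_assoc, ← mul_assoc, trace_mul_comm (cᴴ * z) w, ← mul_assoc, h2]

private lemma pr75 (D : Dat τ L h E Λ) (μ : ℝ) : Pr L h (II75 L h (E μ)) (KK75 L h (E μ)) where
  le1 := fun y hy => hy.1
  le2 := fun y hy => hy.1
  st1 := fun c hc => II_star75 D hc
  st2 := fun c hc => KK_star75 D hc
  com := by
    intro c hc d hd
    have h1 : c * d - d * c ∈ KK75 L h (E μ) := KK_ideal75 D hd hc.1
    have h2 : c * d - d * c ∈ II75 L h (E μ) := by
      have h3 := (II75 L h (E μ)).neg_mem (II_ideal75 D hc hd.1)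
      rwa [neg_sub] at h3
    have h3 := h1.2 _ h2
    have h4 := eq_zero_of_trace (x := c * d - d * c) (by rw [h3]; rfl)
    exact sub_eq_zero.1 h4
  orth := fun c hc d hd => hd.2 c hc
  sup := by
    intro m hm
    obtain ⟨u, hu, hon, hgen⟩ := exists_onb98 (II75 L h (E μ))
    have h1 : (∑ i, ((u i)ᴴ * m).trace • u i) ∈ II75 L h (E μ) :=
      Submodule.sum_mem _ fun i _ => Submodule.smul_mem _ _ (hu i)
    have h2 : m - ∑ i, ((u i)ᴴ * m).trace • u i ∈ KK75 L h (E μ) := by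
      refine ⟨(Ld L h 0).sub_mem hm h1.1, fun c hc => ?_⟩
      have h3 : ∀ j, ((u j)ᴴ * (m - ∑ i, ((u i)ᴴ * m).trace • u i)).trace = 0 := by
        intro j
        rw [mul_sub, trace_sub, Finset.mul_sum, trace_sum]
        simp only [mul_smul_comm, trace_smul, hon, smul_eq_mul, mul_ite, mul_one, mul_zero]
        rw [Finset.sum_ite_eq, if_pos (Finset.mem_univ _), sub_self]
      rw [hgen c hc, conjTranspose_sum, Finset.sum_mul, trace_sum]
      refine Finset.sum_eq_zero fun j _ => ?_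
      rw [conjTranspose_smul, smul_mul_assoc, trace_smul, h3, smul_zero]
    have h4 : m = (∑ i, ((u i)ᴴ * m).trace • u i) + (m - ∑ i, ((u i)ᴴ * m).trace • u i) := by abel
    rw [h4]
    exact Submodule.add_mem_sup h1 h2

private lemma KK_inj75 {e z : Matrix n n ℂ} (hz : z ∈ KK75 L h e) (h0 : z * e = 0) : z = 0 := by
  have h1 : z ∈ II75 L h e := ⟨hz.1, h0⟩
  exact eq_zero_of_trace (by rw [hz.2 z h1]; rfl)

private lemma finrank_KK75 (D : Dat τ L h E Λ) (μ : ℝ) :
    Module.finrank ℂ (KK75 L h (E μ)) ≤ (E μ).rank * (E μ).rank := by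
  have hEE : E μ * E μ = E μ := by rw [D.spec.mul, if_pos rfl]
  have hmr : ∀ {w : n → ℂ}, w ∈ LinearMap.range (E μ).mulVecLin ↔ E μ *ᵥ w = w := by
    intro w
    constructor
    · rintro ⟨u, rfl⟩
      rw [Matrix.mulVecLin_apply, Matrix.mulVec_mulVec, hEE]
    · intro h1
      exact ⟨w, h1⟩
  have hmem : ∀ (x : KK75 L h (E μ)) (w : LinearMap.range (E μ).mulVecLin),
      (x : Matrix n n ℂ) *ᵥ (w : n → ℂ) ∈ LinearMap.range (E μ).mulVecLin := by
    intro x w
    rw [hmr, Matrix.mulVec_mulVec, comm0_75 D x.2.1, ← Matrix.mulVec_mulVec, hmr.1 w.2]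
  let Φ : KK75 L h (E μ) →ₗ[ℂ] (LinearMap.range (E μ).mulVecLin →ₗ[ℂ] LinearMap.range (E μ).mulVecLin) :=
    { toFun := fun x =>
        { toFun := fun w => ⟨(x : Matrix n n ℂ) *ᵥ (w : n → ℂ), hmem x w⟩
          map_add' := fun w w' => Subtype.ext (Matrix.mulVec_add _ _ _)
          map_smul' := fun c w => Subtype.ext (Matrix.mulVec_smul _ _ _) }
      map_add' := fun x y => LinearMap.ext fun w => Subtype.ext (Matrix.add_mulVec _ _ _)
      map_smul' := fun c x => LinearMap.ext fun w => Subtype.ext (Matrix.smul_mulVec _ _ _) }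
  have hinj : Function.Injective Φ := by
    rw [injective_iff_map_eq_zero]
    intro x hx
    apply Subtype.ext
    refine KK_inj75 x.2 ?_
    apply Matrix.toLin'.injective
    rw [map_zero]
    refine LinearMap.ext fun w => ?_
    rw [Matrix.toLin'_apply, ← Matrix.mulVec_mulVec, LinearMap.zero_apply]
    have h1 := congrArg Subtype.val (LinearMap.congr_fun hx ⟨E μ *ᵥ w, ⟨w, rfl⟩⟩)
    exact h1
  have h1 := LinearMap.finrank_le_finrank_of_injective hinj
  rw [Module.finrank_linearMap] at h1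
  exact h1

private lemma finrank_J75 {I K : Submodule ℂ (Matrix n n ℂ)} {d q : ℕ} {f : Fin d → Fin q → Matrix n n ℂ}
    (T : Tn L h I K f) : Module.finrank ℂ (Ld L h (-1)) ≤ d * q := by
  have h1 : Ld L h (-1) ≤ Submodule.span ℂ (Set.range fun p : Fin d × Fin q => f p.1 p.2) := by
    intro m hm
    rw [T.gen m hm]
    exact Submodule.sum_mem _ fun i _ => Submodule.sum_mem _ fun k _ =>
      Submodule.smul_mem _ _ (Submodule.subset_span ⟨(i, k), rfl⟩)
  refine (Submodule.finrank_mono h1).trans ?_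
  have h2 := finrank_range_le_card (R := ℂ) (fun p : Fin d × Fin q => f p.1 p.2)
  rw [Fintype.card_prod, Fintype.card_fin, Fintype.card_fin] at h2
  exact h2

private lemma scl_of75 {I K : Submodule ℂ (Matrix n n ℂ)} {d q : ℕ} {f : Fin d → Fin q → Matrix n n ℂ}
    (T : Tn L h I K f) {c : Matrix n n ℂ} {χ : ℂ} (hc : ∀ i k, c * f i k - f i k * c = χ • f i k) :
    Scl L h c := by
  refine ⟨χ, fun x hx => ?_⟩
  have h1 : c * x - x * c = ∑ i, ∑ k, ((f i k)ᴴ * x).trace • (c * f i k - f i k * c) := by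
    conv_lhs => rw [T.gen x hx]
    rw [Finset.mul_sum, Finset.sum_mul, ← Finset.sum_sub_distrib]
    refine Finset.sum_congr rfl fun i _ => ?_
    rw [Finset.mul_sum, Finset.sum_mul, ← Finset.sum_sub_distrib]
    refine Finset.sum_congr rfl fun k _ => ?_
    rw [mul_smul_comm, smul_mul_assoc, smul_sub]
  rw [h1]
  conv_rhs => rw [T.gen x hx]
  rw [Finset.smul_sum]
  refine Finset.sum_congr rfl fun i _ => ?_
  rw [Finset.smul_sum]
  refine Finset.sum_congr rfl fun k _ => ?_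
  rw [hc, smul_comm]

theorem Lv.bound (V : Lv τ L h E Λ) (htop : ∀ μ : ℝ, 3 / 2 < μ → E μ = 0) (hs : 2 ≤ (E (3 / 2)).rank) :
    (E (1 / 2)).rank ≤ (E (3 / 2)).rank ^ 3 ∨ (E (1 / 2)).rank ≤ 3 * (E (3 / 2)).rank * ((E (3 / 2)).rank + 1) := by
  classical
  have D := V.dat
  have hE0 : E (3 / 2) ≠ 0 := by
    intro h0
    rw [h0, rank_zero] at hs
    omega
  set s := (E (3 / 2)).rank with hsdef
  have hN : (E (1 / 2)).rank ≤ Module.finrank ℂ (Ld L h (-1)) * s := by
    have h1 := V.rank_le (μ := 1 / 2) ⟨3 / 2, by norm_num, hE0⟩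
    have h2 : (1 / 2 : ℝ) + 1 = 3 / 2 := by norm_num
    rwa [h2] at h1
  have P := pr75 D (3 / 2)
  have hK := finrank_KK75 D (3 / 2)
  rw [← hsdef] at hK
  set I := II75 L h (E (3 / 2)) with hI
  set K := KK75 L h (E (3 / 2)) with hKdef
  by_cases hI0 : I = ⊥
  · left
    have h1 : Ld L h 0 ≤ K := by
      have := P.sup
      rwa [hI0, bot_sup_eq] at this
    have h2 := Submodule.finrank_mono h1
    have h3 := V.finrank_le_zero
    calc (E (1 / 2)).rank ≤ Module.finrank ℂ (Ld L h (-1)) * s := hN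
      _ ≤ (s * s) * s := Nat.mul_le_mul_right _ ((h3.trans h2).trans hK)
      _ = s ^ 3 := by ring
  · right
    obtain ⟨d, q, f, hd, hq, T⟩ := V.exists_tn P
    have hhE : h * E (3 / 2) = ((3 / 2 : ℝ) : ℂ) • E (3 / 2) := D.spec.h_mul _
    -- scalar elements are multiples of `h`
    have hscl : ∀ c ∈ Ld L h 0, Scl L h c → ∃ χ : ℂ, c = χ • h := by
      rintro c hc ⟨χ, hχ⟩
      exact ⟨-χ, by rw [V.scal hc hχ, neg_smul]⟩
    have hIscl : ∀ c ∈ I, Scl L h c → c = 0 := by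
      intro c hc hS
      obtain ⟨χ, hχ⟩ := hscl c hc.1 hS
      have h1 : c * E (3 / 2) = 0 := hc.2
      rw [hχ, smul_mul_assoc, hhE, smul_smul] at h1
      rcases smul_eq_zero.1 h1 with h2 | h2
      · rcases mul_eq_zero.1 h2 with h3 | h3
        · rw [hχ, h3, zero_smul]
        · exfalso
          have h4 : (3 / 2 : ℝ) = 0 := by exact_mod_cast h3
          norm_num at h4
      · exact absurd h2 hE0
    have hInot : ¬ ∀ c ∈ I, Scl L h c := by
      intro hall
      apply hI0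
      rw [Submodule.eq_bot_iff]
      exact fun c hc => hIscl c hc (hall c hc)
    have hKnot : ¬ ∀ c ∈ K, Scl L h c := by
      intro hall
      have h1 : s ≤ 1 := by
        refine V.one htop fun z hz => ?_
        obtain ⟨c, hc, k, hk, rfl⟩ := Submodule.mem_sup.1 (P.sup hz)
        obtain ⟨χ, hχ⟩ := hscl k hk.1 (hall k hk)
        refine ⟨χ * ((3 / 2 : ℝ) : ℂ), ?_⟩
        have h2 : c * E (3 / 2) = 0 := hc.2
        rw [add_mul, h2, zero_add, hχ, smul_mul_assoc, hhE, smul_smul]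
      omega
    have hq2 : 2 ≤ q := by
      by_contra hlt
      have hq1 : q = 1 := by omega
      subst hq1
      apply hKnot
      intro c hc
      obtain ⟨C, hC⟩ := T.act2 c hc
      refine scl_of75 T (χ := C 0 0) fun i k => ?_
      rw [hC, Fin.sum_univ_one, Subsingleton.elim k 0]
    have hd2 : 2 ≤ d := by
      by_contra hlt
      have hd1 : d = 1 := by omega
      subst hd1
      apply hInot
      intro c hc
      obtain ⟨C, hC⟩ := T.act1 c hc
      refine scl_of75 T (χ := C 0 0) fun i k => ?_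
      rw [hC, Fin.sum_univ_one, Subsingleton.elim i 0]
    have hd3 : d = 3 := by
      obtain ⟨γ, β, DD, hD, hγ0⟩ := Tn.typeA V T (k := (⟨0, by omega⟩ : Fin q)) (l := ⟨1, by omega⟩)
        (by intro h1; have := congrArg Fin.val h1; simp at this)
      exact T.three V htop (fun c hc => hc.2) hD (fun h0 => hInot (hγ0 h0)) hd2
    have hqs : q ≤ s + 1 := by
      obtain ⟨γ, β, DD, hD, hγ0⟩ := Tn.typeA V T.swap (k := (⟨0, by omega⟩ : Fin d)) (l := ⟨1, by omega⟩)
        (by intro h1; have := congrArg Fin.val h1; simp at this)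
      have h1 := T.swap.count hD (fun h0 => hKnot (hγ0 h0)) hd
      by_contra hlt
      have h2 : s + 2 ≤ q := by omega
      have h3 : q * q ≤ s * s + q := h1.trans (Nat.add_le_add_right hK q)
      obtain ⟨t, rfl⟩ := Nat.exists_eq_add_of_le h2
      nlinarith
    have hJ := finrank_J75 T
    rw [hd3] at hJ
    calc (E (1 / 2)).rank ≤ Module.finrank ℂ (Ld L h (-1)) * s := hN
      _ ≤ (3 * q) * s := Nat.mul_le_mul_right _ hJ
      _ ≤ (3 * (s + 1)) * s := Nat.mul_le_mul_right _ (Nat.mul_le_mul_left _ hqs)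
      _ = 3 * s * (s + 1) := by ring

end OW
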