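import Mathlib

/-!
OW-26. The Lie algebra of the symplectic group is simple. Proof. `Q'⁻¹` is alternating too; the skew matrices are the
`y * Q'` with `yᵀ = y` (if `X = y Q'` then `Xᵀ Q' + Q' X = -Q' yᵀ Q' + Q' y Q'`), and `[y Q', z Q'] = (y Q' z - z Q' y) Q'`.
For a vector `u` let `e u = u uᵀ Q'` (`vecMulVec u (Q'ᵀ *ᵥ u)` up to sign). Take `0 ≠ X = x Q' ∈ M`, `x` symmetric. There is `v` with
`c = vᵀ Q' x Q' v ≠ 0` (polarisation: a symmetric matrix `Q' x Q'` (note `(Q' x Q')ᵀ = Q' x Q'`) that is not zero has a vector with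
`vᵀ (..) v ≠ 0`). Then `[e v, [e v, X]] = e v e v X - 2 e v X e v + X e v e v` and `e v * e v = 0` (`vᵀ Q' v = 0`), so it is
`-2 e v X e v = -2 v (vᵀ Q' x Q' v) vᵀ Q' = -2 c • e v ∈ M`, so `e v ∈ M`, for some `v ≠ 0`. For each `u` with `uᵀ Q' v ≠ 0`:
`[e u, e v] = (uᵀ Q' v) (u vᵀ + v uᵀ) Q' ∈ M`, and `[e u, [e u, e v]] = -2 e u e v e u = 2 (uᵀ Q' v) ^ 2 • e u` (sign to be checked), so
`e u ∈ M` for all `u` with `uᵀ Q' v ≠ 0`. These `u` are the complement of a proper subspace (`Q'` invertible, `v ≠ 0`), so for each `w` with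
`wᵀ Q' v = 0` take `u` with `uᵀ Q' v ≠ 0`: `e (u + w), e (u - w), e u ∈ M` and `e (u + w) + e (u - w) = 2 e u + 2 e w`, so `e w ∈ M`. So
all `e u ∈ M`. The symmetric matrices are spanned by the `u uᵀ` (polarisation: `y = ∑ y i j (e_i e_jᵀ + e_j e_iᵀ) / 2`), so `M` is
everything: a skew `Y` is `y Q'` with `y = Y Q'⁻¹` symmetric.
-/

open Matrix

namespace MH

variable {n : Type*} [Fintype n] [DecidableEq n]

/-- the matrix `u vᵀ Q'` -/
private def ev54 (Q' : Matrix n n ℂ) (u v : n → ℂ) : Matrix n n ℂ := vecMulVec u (v ᵥ* Q')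

private theorem ev54_mul (Q' : Matrix n n ℂ) (u v w z : n → ℂ) :
    ev54 Q' u v * ev54 Q' w z = (v ⬝ᵥ (Q' *ᵥ w)) • ev54 Q' u z := by
  unfold ev54
  rw [vecMulVec_mul_vecMulVec, ← dotProduct_mulVec, vecMulVec_smul]

private theorem ev54_mid (Q' X : Matrix n n ℂ) (v : n → ℂ) :
    ev54 Q' v v * X * ev54 Q' v v = (v ⬝ᵥ (Q' *ᵥ (X *ᵥ v))) • ev54 Q' v v := by
  unfold ev54
  rw [vecMulVec_mul, vecMulVec_mul_vecMulVec, vecMul_vecMul, ← dotProduct_mulVec, vecMulVec_smul, mulVec_mulVec]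

private theorem ev54_mulVec (Q' : Matrix n n ℂ) (u v w : n → ℂ) :
    ev54 Q' u v *ᵥ w = (v ⬝ᵥ (Q' *ᵥ w)) • u := by
  ext i
  simp only [ev54, mulVec, dotProduct, vecMulVec_apply, vecMul, Pi.smul_apply, smul_eq_mul, Finset.mul_sum, Finset.sum_mul]
  rw [Finset.sum_comm]
  refine Finset.sum_congr rfl fun j _ => Finset.sum_congr rfl fun k _ => ?_
  ring

private theorem form54 {Q' : Matrix n n ℂ} (hs : Q'ᵀ = -Q') (u v : n → ℂ) :
    u ⬝ᵥ (Q' *ᵥ v) = -(v ⬝ᵥ (Q' *ᵥ u)) := by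
  rw [dotProduct_mulVec, ← mulVec_transpose, hs, neg_mulVec, neg_dotProduct, dotProduct_comm]

private theorem form54_self {Q' : Matrix n n ℂ} (hs : Q'ᵀ = -Q') (u : n → ℂ) :
    u ⬝ᵥ (Q' *ᵥ u) = 0 := by
  have h := form54 hs u u
  linear_combination (1 / 2) * h

private theorem ev54_skew {Q' : Matrix n n ℂ} (hs : Q'ᵀ = -Q') (u : n → ℂ) :
    (ev54 Q' u u)ᵀ * Q' + Q' * ev54 Q' u u = 0 := by
  have h1 : ev54 Q' u u = vecMulVec u u * Q' := by
    unfold ev54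
    rw [vecMulVec_mul]
  rw [h1, transpose_mul, transpose_vecMulVec, hs]
  rw [Matrix.neg_mul, Matrix.neg_mul, Matrix.mul_assoc]
  abel

theorem sp_simple {Q' : Matrix n n ℂ} (hs : Q'ᵀ = -Q') (hd : Q'.det ≠ 0)
    {M : Submodule ℂ (Matrix n n ℂ)} (hsk : ∀ X ∈ M, Xᵀ * Q' + Q' * X = 0)
    (hid : ∀ Y : Matrix n n ℂ, Yᵀ * Q' + Q' * Y = 0 → ∀ X ∈ M, Y * X - X * Y ∈ M) (h0 : M ≠ ⊥)
    {Y : Matrix n n ℂ} (hY : Yᵀ * Q' + Q' * Y = 0) : Y ∈ M := by
  have hu : IsUnit Q'.det := isUnit_iff_ne_zero.2 hd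
  -- one element of the ideal gives rank one elements
  have hA : ∀ X ∈ M, ∀ v : n → ℂ, v ⬝ᵥ (Q' *ᵥ (X *ᵥ v)) ≠ 0 → ev54 Q' v v ∈ M := by
    intro X hX v hv
    have h1 := hid _ (ev54_skew hs v) _ (hid _ (ev54_skew hs v) X hX)
    have h2 : ev54 Q' v v * ev54 Q' v v = 0 := by
      rw [ev54_mul, form54_self hs, zero_smul]
    have h3 : ev54 Q' v v * (ev54 Q' v v * X - X * ev54 Q' v v) - (ev54 Q' v v * X - X * ev54 Q' v v) * ev54 Q' v v =
        (-2 * (v ⬝ᵥ (Q' *ᵥ (X *ᵥ v)))) • ev54 Q' v v := by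
      have h4 := ev54_mid Q' X v
      have h5 : (-2 * (v ⬝ᵥ (Q' *ᵥ (X *ᵥ v)))) • ev54 Q' v v = (-2 : ℂ) • (ev54 Q' v v * X * ev54 Q' v v) := by
        rw [h4, smul_smul]
      rw [h5, Matrix.mul_sub, Matrix.sub_mul, ← Matrix.mul_assoc, h2, Matrix.zero_mul, Matrix.mul_assoc X, h2, Matrix.mul_zero, ← Matrix.mul_assoc]
      rw [neg_smul, two_smul]
      abel
    rw [h3] at h1
    exact (M.smul_mem_iff (mul_ne_zero (by norm_num) hv)).1 h1
  -- a rank one element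
  obtain ⟨X, hX, hX0⟩ := (Submodule.ne_bot_iff M).1 h0
  have hex : ∃ v : n → ℂ, v ⬝ᵥ (Q' *ᵥ (X *ᵥ v)) ≠ 0 := by
    by_contra hcon
    push Not at hcon
    apply hX0
    have hsym : ∀ v w : n → ℂ, v ⬝ᵥ (Q' *ᵥ (X *ᵥ w)) = w ⬝ᵥ (Q' *ᵥ (X *ᵥ v)) := by
      intro v w
      have h1 : (Q' * X)ᵀ = Q' * X := by
        have h2 := hsk X hX
        rw [transpose_mul, hs, Matrix.mul_neg]
        rw [neg_eq_iff_add_eq_zero]
        exact h2
      rw [mulVec_mulVec, mulVec_mulVec, dotProduct_mulVec, ← mulVec_transpose, h1, dotProduct_comm]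
    have hz : ∀ v w : n → ℂ, v ⬝ᵥ (Q' *ᵥ (X *ᵥ w)) = 0 := by
      intro v w
      have h1 := hcon (v + w)
      rw [mulVec_add, mulVec_add, add_dotProduct, dotProduct_add, dotProduct_add, hcon v, hcon w, hsym w v] at h1
      linear_combination (1 / 2) * h1
    have h1 : Q' * X = 0 := by
      ext i j
      have h2 := hz (Pi.single i 1) (Pi.single j 1)
      rw [mulVec_mulVec, mulVec_single_one, single_one_dotProduct] at h2
      simpa using h2
    calc X = Q'⁻¹ * (Q' * X) := by rw [← Matrix.mul_assoc, Matrix.nonsing_inv_mul _ hu, Matrix.one_mul]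
      _ = 0 := by rw [h1, Matrix.mul_zero]
  obtain ⟨v, hv⟩ := hex
  have hev : ev54 Q' v v ∈ M := hA X hX v hv
  have hv0 : v ≠ 0 := by
    rintro rfl
    simp at hv
  -- all rank one elements
  have hB : ∀ u : n → ℂ, u ⬝ᵥ (Q' *ᵥ v) ≠ 0 → ev54 Q' u u ∈ M := by
    intro u hu'
    refine hA _ hev u ?_
    rw [ev54_mulVec, mulVec_smul, dotProduct_smul, smul_eq_mul, form54 hs v u]
    exact mul_ne_zero (neg_ne_zero.2 hu') hu'
  obtain ⟨u, hu'⟩ : ∃ u : n → ℂ, u ⬝ᵥ (Q' *ᵥ v) ≠ 0 := by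
    by_contra hcon
    push Not at hcon
    apply hv0
    have h1 : Q' *ᵥ v = 0 := by
      ext i
      have h2 := hcon (Pi.single i 1)
      rw [single_one_dotProduct] at h2
      simpa using h2
    calc v = Q'⁻¹ *ᵥ (Q' *ᵥ v) := by rw [mulVec_mulVec, Matrix.nonsing_inv_mul _ hu, one_mulVec]
      _ = 0 := by rw [h1, mulVec_zero]
  have hadd : ∀ x y : n → ℂ, ev54 Q' (x + y) (x + y) = ev54 Q' x x + ev54 Q' x y + (ev54 Q' y x + ev54 Q' y y) := by
    intro x y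
    unfold ev54
    rw [add_vecMul, add_vecMulVec, vecMulVec_add, vecMulVec_add]
  have hC : ∀ w : n → ℂ, ev54 Q' w w ∈ M := by
    intro w
    by_cases hw : w ⬝ᵥ (Q' *ᵥ v) = 0
    · have h1 : ev54 Q' (u + w) (u + w) ∈ M := hB _ (by rwa [add_dotProduct, hw, add_zero])
      have h2 : ev54 Q' (u + -w) (u + -w) ∈ M := hB _ (by rwa [add_dotProduct, neg_dotProduct, hw, neg_zero, add_zero])
      have h3 : ev54 Q' u u ∈ M := hB u hu'
      have h4 := M.sub_mem (M.add_mem h1 h2) (M.add_mem h3 h3)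
      have h5 : ev54 Q' (u + w) (u + w) + ev54 Q' (u + -w) (u + -w) - (ev54 Q' u u + ev54 Q' u u) = (2 : ℂ) • ev54 Q' w w := by
        rw [hadd, hadd]
        have e1 : ev54 Q' u (-w) = -ev54 Q' u w := by
          unfold ev54
          rw [neg_vecMul, vecMulVec_neg]
        have e2 : ev54 Q' (-w) u = -ev54 Q' w u := by
          unfold ev54
          rw [neg_vecMulVec]
        have e3 : ev54 Q' (-w) (-w) = ev54 Q' w w := by
          unfold ev54
          rw [neg_vecMul, vecMulVec_neg, neg_vecMulVec, neg_neg]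
        rw [e1, e2, e3, two_smul]
        abel
      rw [h5] at h4
      exact (M.smul_mem_iff (by norm_num)).1 h4
    · exact hB w hw
  have hD : ∀ x y : n → ℂ, ev54 Q' x y + ev54 Q' y x ∈ M := by
    intro x y
    have h1 := M.sub_mem (hC (x + y)) (M.add_mem (hC x) (hC y))
    have h2 : ev54 Q' (x + y) (x + y) - (ev54 Q' x x + ev54 Q' y y) = ev54 Q' x y + ev54 Q' y x := by
      rw [hadd]
      abel
    rwa [h2] at h1
  -- the general element
  obtain ⟨y, hy⟩ : ∃ y : Matrix n n ℂ, y = Y * Q'⁻¹ := ⟨_, rfl⟩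
  have hYy : Y = y * Q' := by
    rw [hy, Matrix.mul_assoc, Matrix.nonsing_inv_mul _ hu, Matrix.mul_one]
  have hysym : yᵀ = y := by
    have h1 : Q' * (y - yᵀ) * Q' = 0 := by
      rw [hYy, transpose_mul, hs] at hY
      rw [Matrix.mul_sub, Matrix.sub_mul, Matrix.mul_assoc, Matrix.mul_assoc]
      rw [Matrix.neg_mul, Matrix.neg_mul, Matrix.mul_assoc] at hY
      rw [← hY]
      abel
    have h2 : y - yᵀ = 0 := by
      calc y - yᵀ = Q'⁻¹ * (Q' * (y - yᵀ) * Q') * Q'⁻¹ := by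
            rw [Matrix.mul_assoc, Matrix.mul_assoc (Q' * (y - yᵀ)), Matrix.mul_nonsing_inv _ hu, Matrix.mul_one, ← Matrix.mul_assoc, Matrix.nonsing_inv_mul _ hu, Matrix.one_mul]
        _ = 0 := by rw [h1, Matrix.mul_zero, Matrix.zero_mul]
    exact (sub_eq_zero.1 h2).symm
  have hsum : Y = ∑ i, ∑ j, (y i j / 2) • (ev54 Q' (Pi.single i 1) (Pi.single j 1) + ev54 Q' (Pi.single j 1) (Pi.single i 1)) := by
    have h1 : y = ∑ i, ∑ j, (y i j / 2) • (vecMulVec (Pi.single i 1) (Pi.single j 1) + vecMulVec (Pi.single j 1) (Pi.single i 1)) := by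
      ext a b
      simp only [Matrix.sum_apply, Matrix.smul_apply, Matrix.add_apply, vecMulVec_apply, Pi.single_apply, smul_eq_mul]
      have h2 : y b a = y a b := by
        have := congrFun (congrFun hysym a) b
        simpa using this
      simp only [mul_add, Finset.sum_add_distrib]
      simp [h2]
    rw [hYy]
    conv_lhs => rw [h1]
    simp only [Finset.sum_mul]
    refine Finset.sum_congr rfl fun i _ => Finset.sum_congr rfl fun j _ => ?_
    rw [Matrix.smul_mul, Matrix.add_mul, vecMulVec_mul, vecMulVec_mul]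
    rfl
  rw [hsum]
  exact M.sum_mem fun i _ => M.sum_mem fun j _ => M.smul_mem _ (hD _ _)

end MH
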