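import Pool.Agent.Helper71.OW.Nm2
import Pool.Agent.Helper71.OW.Frm
import Pool.Agent.Helper71.OW.SpS
import Pool.Agent.Helper14.GH.HW4

/-!
OW-53. The tensor of type (2,2) of the algebra `M_2 ⊗ 1`: `tA = ∑ i j, E_ij ⊗ E_ji` (`t22` in `Pool/Agent/Helper14/GH/HW4.lean`). (a) `tA_fix`: fixed by
`a ⊗ b`: `∑ a E_ij a⁻¹ ⊗ a E_ji a⁻¹ = ∑ E_ij ⊗ E_ji` (`slot22`; compare entries: `∑ i j, (a E_ij a⁻¹) k l * (a E_ji a⁻¹) k' l' =
∑ i j, a k i * a⁻¹ j l * a k' j * a⁻¹ i l' = δ k l' * δ k' l`). (b) `tA_kill`: if `X` kills `tA` then `X` normalises `M_2 ⊗ 1`, so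
`X = x ⊗ 1 + 1 ⊗ z` (`norm_lie`). Proof: `dL_t22`: `∑ [X, E_ij] ⊗ E_ji + E_ij ⊗ [X, E_ji] = 0`. There are linear forms on matrices that separate
the `E_ji` (`φ_ij Y =` the entry `(j, i)` of the first factor at a fixed `k₀` of the second one, in the coordinates `e, T`; `φ_ij (E_kl ⊗ 1) = 1`
iff `(k, l) = (j, i)`); apply `φ_ij` to the second factor: `[X, E_ij] = - ∑ φ_ij ([X, E_lk]) E_kl ∈ M_2 ⊗ 1`. (c) `tA_norm`: the same for the group:
`∑ g E_ij g' ⊗ g E_ji g' = ∑ E_ij ⊗ E_ji` gives with the forms `φ_ij` that all `E_ij ⊗ 1` are in the span of the `g (E_kl ⊗ 1) g'`, so the span of the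
`g (E_kl ⊗ 1) g'` contains `M_2 ⊗ 1`, so by dimension they are equal, and `norm_alg` (or exchange `g` and `g'`). (d) `not_all`: not every skew matrix is of the
form `x ⊗ 1 + 1 ⊗ z`, if `TT` holds: otherwise `I = {tz (kr x 1) | tr x = 0}` is an ideal of the symplectic Lie algebra, so everything
(`sp_simple` in `Pool/Agent/Helper71/OW/SpS.lean`), but `tz (kr 1 z)` with `z ≠ 0` skew for `G` is skew and not in `I` (`skew_iff` in `Frm.lean`).
-/

open Matrix MH

namespace OW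

variable {n : Type*} [Fintype n] [DecidableEq n] {q : ℕ}
variable {T Ti : Matrix n n ℂ} {e : n ≃ Fin 2 × Fin q}

set_option linter.unusedSectionVars false

/-- apply a linear form to the second factor -/
private def ap68 (c : Matrix n n ℂ) : ((Fin 2 ⊕ Fin 2 → n) → ℂ) →ₗ[ℂ] Matrix n n ℂ where
  toFun t := Matrix.of fun x y => ∑ u, ∑ v, c u v * t (Sum.elim ![x, u] ![y, v])
  map_add' s t := by
    ext x y
    simp only [Pi.add_apply, Matrix.of_apply, Matrix.add_apply, mul_add, Finset.sum_add_distrib]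
  map_smul' a t := by
    ext x y
    simp only [Pi.smul_apply, Matrix.of_apply, Matrix.smul_apply, smul_eq_mul, Finset.mul_sum, RingHom.id_apply]
    refine Finset.sum_congr rfl fun u _ => Finset.sum_congr rfl fun v _ => ?_
    ring

private theorem ap68_t22 (c A B : Matrix n n ℂ) : ap68 c (t22 A B) = (∑ u, ∑ v, c u v * B u v) • A := by
  ext x y
  simp only [ap68, LinearMap.coe_mk, AddHom.coe_mk, Matrix.of_apply, Matrix.smul_apply, smul_eq_mul, Finset.sum_mul]
  refine Finset.sum_congr rfl fun u _ => Finset.sum_congr rfl fun v _ => ?_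
  have h : t22 A B (Sum.elim ![x, u] ![y, v]) = A x y * B u v := rfl
  rw [h]
  ring

/-- the coefficients of the linear form -/
private def cf68 (T Ti : Matrix n n ℂ) (K L : n) : Matrix n n ℂ := Matrix.of fun u v => Ti K u * T v L

private theorem cf68_sum (T Ti : Matrix n n ℂ) (K L : n) (B : Matrix n n ℂ) :
    ∑ u, ∑ v, cf68 T Ti K L u v * B u v = (Ti * B * T) K L := by
  rw [Matrix.mul_apply]
  simp only [Matrix.mul_apply, Finset.sum_mul, cf68, Matrix.of_apply]
  rw [Finset.sum_comm]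
  refine Finset.sum_congr rfl fun u _ => Finset.sum_congr rfl fun v _ => ?_
  ring

private theorem kr_lin68 (C : Matrix (Fin 2) (Fin 2) ℂ) :
    tz T Ti e (kr C 1) = ∑ i : Fin 2, ∑ j : Fin 2, C i j • tz T Ti e (kr (Matrix.single i j 1) 1) := by
  have h : kr C (1 : Matrix (Fin q) (Fin q) ℂ) = ∑ i : Fin 2, ∑ j : Fin 2, C i j • kr (Matrix.single i j 1) 1 := by
    ext ⟨a, b⟩ ⟨c, d⟩
    simp only [Matrix.sum_apply, Matrix.smul_apply, kroneckerMap_apply, smul_eq_mul, Matrix.single_apply]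
    fin_cases a <;> fin_cases c <;> simp
  rw [h]
  simp only [Fin.sum_univ_two, tz_add, tz_smul]

/-- a sum of multiples of the `E_ij ⊗ 1` -/
private theorem kr_lin68' (f : Fin 2 → Fin 2 → ℂ) :
    ∑ i : Fin 2, ∑ j : Fin 2, f i j • tz T Ti e (kr (Matrix.single i j 1) 1) = tz T Ti e (kr (Matrix.of f) 1) := by
  rw [kr_lin68 (Matrix.of f)]
  rfl

private theorem empty68 (e : n ≃ Fin 2 × Fin q) (hq : q = 0) : IsEmpty n := by
  subst hq
  exact ⟨fun x => (e x).2.elim0⟩

private theorem kr_app68 (x : Matrix (Fin 2) (Fin 2) ℂ) (z : Matrix (Fin q) (Fin q) ℂ) (a c : Fin 2) (b d : Fin q) :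
    kr x z (a, b) (c, d) = x a c * z b d := rfl

private theorem form68 (h2 : Ti * T = 1) (k0 : Fin q) (k l i j : Fin 2) :
    (Ti * tz T Ti e (kr (Matrix.single i j 1) 1) * T) (e.symm (k, k0)) (e.symm (l, k0)) =
      if i = k ∧ j = l then 1 else 0 := by
  rw [coord_tz h2, Matrix.submatrix_apply, Equiv.apply_symm_apply, Equiv.apply_symm_apply, kr_app68,
    Matrix.single_apply, Matrix.one_apply_eq, mul_one]

/-- the tensor of the algebra `M_2 ⊗ 1` -/
noncomputable def tA (T Ti : Matrix n n ℂ) (e : n ≃ Fin 2 × Fin q) : (Fin 2 ⊕ Fin 2 → n) → ℂ :=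
  ∑ i : Fin 2, ∑ j : Fin 2, t22 (tz T Ti e (kr (Matrix.single i j 1) 1)) (tz T Ti e (kr (Matrix.single j i 1) 1))

theorem tA_fix (h1 : T * Ti = 1) (h2 : Ti * T = 1) {g g' : Matrix n n ℂ} (g1 : g * g' = 1) (g2 : g' * g = 1)
    {a : Matrix (Fin 2) (Fin 2) ℂ} {b : Matrix (Fin q) (Fin q) ℂ} (hg : g = tz T Ti e (kr a b)) :
    actF (slot 2 2 g g') (tA T Ti e) = tA T Ti e := by
  rcases Nat.eq_zero_or_pos q with hq | hq
  · have := empty68 e hq
    funext i
    exact isEmptyElim (i (Sum.inl 0))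
  -- `a` is invertible
  have hM : kr a b * (Ti * g' * T).submatrix e.symm e.symm = 1 := by
    apply tz_inj h2 (T := T) (Ti := Ti) (e := e)
    rw [← tz_mul h2, tz_coord h1, tz_one h1, ← hg, g1]
  have hdet : a.det ≠ 0 := by
    intro h0
    have h3 := congrArg Matrix.det hM
    rw [Matrix.det_mul, Matrix.det_one] at h3
    have h4 : (kr a b).det = a.det ^ Fintype.card (Fin q) * b.det ^ Fintype.card (Fin 2) := Matrix.det_kronecker a b
    rw [h4, h0, Fintype.card_fin, zero_pow hq.ne', zero_mul, zero_mul] at h3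
    exact zero_ne_one h3
  obtain ⟨a', ha1, ha2⟩ : ∃ a' : Matrix (Fin 2) (Fin 2) ℂ, a * a' = 1 ∧ a' * a = 1 :=
    ⟨a⁻¹, Matrix.mul_nonsing_inv _ (isUnit_iff_ne_zero.2 hdet), Matrix.nonsing_inv_mul _ (isUnit_iff_ne_zero.2 hdet)⟩
  have hconj : ∀ C : Matrix (Fin 2) (Fin 2) ℂ, g * tz T Ti e (kr C 1) * g' = tz T Ti e (kr (a * C * a') 1) := by
    intro C
    have h3 : g * tz T Ti e (kr C 1) = tz T Ti e (kr (a * C * a') 1) * g := by
      rw [hg, tz_mul h2, tz_mul h2, kr_mul, kr_mul, mul_one, one_mul]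
      congr 2
      rw [mul_assoc, ha2, mul_one]
    rw [h3, mul_assoc, g1, mul_one]
  unfold tA
  rw [actF_sum]
  simp only [actF_sum, slot22, hconj]
  funext i
  set F : Matrix (Fin 2) (Fin 2) ℂ :=
    Matrix.of fun k l => tz T Ti e (kr (Matrix.single k l 1) 1) (i (Sum.inl 0)) (i (Sum.inr 0)) with hF
  set F' : Matrix (Fin 2) (Fin 2) ℂ :=
    Matrix.of fun k l => tz T Ti e (kr (Matrix.single k l 1) 1) (i (Sum.inl 1)) (i (Sum.inr 1)) with hF'
  have e1 : ∀ (C : Matrix (Fin 2) (Fin 2) ℂ), tz T Ti e (kr C 1) (i (Sum.inl 0)) (i (Sum.inr 0)) =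
      ∑ k, ∑ l, C k l * F k l := by
    intro C
    rw [kr_lin68 C]
    simp only [Matrix.sum_apply, Matrix.smul_apply, smul_eq_mul, hF, Matrix.of_apply]
  have e2 : ∀ (C : Matrix (Fin 2) (Fin 2) ℂ), tz T Ti e (kr C 1) (i (Sum.inl 1)) (i (Sum.inr 1)) =
      ∑ k, ∑ l, C k l * F' k l := by
    intro C
    rw [kr_lin68 C]
    simp only [Matrix.sum_apply, Matrix.smul_apply, smul_eq_mul, hF', Matrix.of_apply]
  have e3 : ∀ (G : Matrix (Fin 2) (Fin 2) ℂ) (x y : Fin 2),
      ∑ k, ∑ l, (a * Matrix.single x y (1 : ℂ) * a' : Matrix (Fin 2) (Fin 2) ℂ) k l * G k l = (aᵀ * G * a'ᵀ) x y := by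
    intro G x y
    have e4 : ∀ k l, (a * Matrix.single x y (1 : ℂ) * a' : Matrix (Fin 2) (Fin 2) ℂ) k l = a k x * a' y l := by
      intro k l
      rw [Matrix.mul_apply, Finset.sum_eq_single y]
      · rw [Matrix.mul_apply, Finset.sum_eq_single x]
        · rw [Matrix.single_apply_same, mul_one]
        · intro z _ hz
          rw [Matrix.single_apply_of_row_ne hz.symm, mul_zero]
        · intro h
          exact absurd (Finset.mem_univ _) h
      · intro z _ hz
        rw [Matrix.mul_apply, Finset.sum_eq_zero, zero_mul]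
        intro w _
        rw [Matrix.single_apply_of_col_ne _ _ hz.symm, mul_zero]
      · intro h
        exact absurd (Finset.mem_univ _) h
    simp only [e4, Matrix.mul_apply, Matrix.transpose_apply, Finset.sum_mul]
    rw [Finset.sum_comm]
    refine Finset.sum_congr rfl fun l _ => Finset.sum_congr rfl fun k _ => ?_
    ring
  simp only [Finset.sum_apply]
  have lhs : ∑ x : Fin 2, ∑ y : Fin 2, t22 (tz T Ti e (kr (a * Matrix.single x y 1 * a') 1))
      (tz T Ti e (kr (a * Matrix.single y x 1 * a') 1)) i = (F * F').trace := by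
    have e5 : ∀ x y : Fin 2, t22 (tz T Ti e (kr (a * Matrix.single x y 1 * a') 1))
        (tz T Ti e (kr (a * Matrix.single y x 1 * a') 1)) i = (aᵀ * F * a'ᵀ) x y * (aᵀ * F' * a'ᵀ) y x := by
      intro x y
      unfold t22
      rw [e1, e2, e3, e3]
    simp only [e5]
    have e6 : ((aᵀ * F * a'ᵀ) * (aᵀ * F' * a'ᵀ)).trace = (F * F').trace := by
      have t1 : a'ᵀ * aᵀ = 1 := by rw [← Matrix.transpose_mul, ha1, Matrix.transpose_one]
      calc ((aᵀ * F * a'ᵀ) * (aᵀ * F' * a'ᵀ)).trace = ((aᵀ * F * (a'ᵀ * aᵀ) * F') * a'ᵀ).trace := by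
            simp only [mul_assoc]
        _ = (a'ᵀ * (aᵀ * F * (a'ᵀ * aᵀ) * F')).trace := Matrix.trace_mul_comm _ _
        _ = ((a'ᵀ * aᵀ) * F * (a'ᵀ * aᵀ) * F').trace := by simp only [mul_assoc]
        _ = (F * F').trace := by rw [t1, one_mul, mul_one]
    rw [← e6, Matrix.trace]
    simp only [Matrix.diag_apply, Matrix.mul_apply (M := aᵀ * F * a'ᵀ)]
  have rhs : ∑ x : Fin 2, ∑ y : Fin 2, t22 (tz T Ti e (kr (Matrix.single x y 1) 1))
      (tz T Ti e (kr (Matrix.single y x 1) 1)) i = (F * F').trace := by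
    rw [Matrix.trace]
    simp only [Matrix.diag_apply, Matrix.mul_apply, hF, hF', Matrix.of_apply]
    rfl
  rw [lhs, rhs]

theorem tA_kill (h1 : T * Ti = 1) (h2 : Ti * T = 1) {X : Matrix n n ℂ} (hX : dL 2 2 (tA T Ti e) X = 0) :
    ∃ (x : Matrix (Fin 2) (Fin 2) ℂ) (z : Matrix (Fin q) (Fin q) ℂ), x.trace = 0 ∧
      X = tz T Ti e (kr x 1 + kr 1 z) := by
  rcases Nat.eq_zero_or_pos q with hq | hq
  · have := empty68 e hq
    exact ⟨0, 0, by simp, Subsingleton.elim _ _⟩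
  have k0 : Fin q := ⟨0, hq⟩
  have h3 : ∑ i : Fin 2, ∑ j : Fin 2, (t22 (X * tz T Ti e (kr (Matrix.single i j 1) 1) -
      tz T Ti e (kr (Matrix.single i j 1) 1) * X) (tz T Ti e (kr (Matrix.single j i 1) 1)) +
      t22 (tz T Ti e (kr (Matrix.single i j 1) 1)) (X * tz T Ti e (kr (Matrix.single j i 1) 1) -
      tz T Ti e (kr (Matrix.single j i 1) 1) * X)) = 0 := by
    rw [← hX]
    unfold tA
    rw [dL_apply, dact_sum]
    refine Finset.sum_congr rfl fun i _ => ?_
    rw [dact_sum]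
    refine Finset.sum_congr rfl fun j _ => ?_
    rw [← dL_apply, dL_t22]
  refine norm_lie h1 h2 fun C => ?_
  have key : ∀ k l : Fin 2, ∃ f : Fin 2 → Fin 2 → ℂ, X * tz T Ti e (kr (Matrix.single k l 1) 1) -
      tz T Ti e (kr (Matrix.single k l 1) 1) * X =
        ∑ i : Fin 2, ∑ j : Fin 2, f i j • tz T Ti e (kr (Matrix.single i j 1) 1) := by
    intro k l
    have h4 := congrArg (ap68 (cf68 T Ti (e.symm (l, k0)) (e.symm (k, k0)))) h3
    simp only [map_sum, map_add, map_zero, ap68_t22, cf68_sum, form68 h2 k0, Finset.sum_add_distrib] at h4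
    have h5 : ∑ i : Fin 2, ∑ j : Fin 2, (if j = l ∧ i = k then (1 : ℂ) else 0) •
        (X * tz T Ti e (kr (Matrix.single i j 1) 1) - tz T Ti e (kr (Matrix.single i j 1) 1) * X) =
        X * tz T Ti e (kr (Matrix.single k l 1) 1) - tz T Ti e (kr (Matrix.single k l 1) 1) * X := by
      rw [Finset.sum_eq_single k, Finset.sum_eq_single l]
      · rw [if_pos ⟨rfl, rfl⟩, one_smul]
      · intro z _ hz
        rw [if_neg (fun h => hz h.1), zero_smul]
      · intro h
        exact absurd (Finset.mem_univ _) h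
      · intro z _ hz
        refine Finset.sum_eq_zero fun w _ => ?_
        rw [if_neg (fun h => hz h.2), zero_smul]
      · intro h
        exact absurd (Finset.mem_univ _) h
    rw [h5] at h4
    refine ⟨fun i j => -(Ti * (X * tz T Ti e (kr (Matrix.single j i 1) 1) -
      tz T Ti e (kr (Matrix.single j i 1) 1) * X) * T) (e.symm (l, k0)) (e.symm (k, k0)), ?_⟩
    rw [eq_neg_of_add_eq_zero_left h4]
    simp only [neg_smul, Finset.sum_neg_distrib]
  choose f hf using key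
  refine ⟨∑ k, ∑ l, C k l • Matrix.of (f k l), ?_⟩
  have h6 : X * tz T Ti e (kr C 1) - tz T Ti e (kr C 1) * X = ∑ k, ∑ l, C k l •
      (X * tz T Ti e (kr (Matrix.single k l 1) 1) - tz T Ti e (kr (Matrix.single k l 1) 1) * X) := by
    rw [kr_lin68 C]
    simp only [Finset.mul_sum, Finset.sum_mul, mul_smul_comm, smul_mul_assoc, smul_sub, Finset.sum_sub_distrib]
  rw [h6]
  simp only [hf, kr_lin68']
  rw [kr_lin68 (∑ k, ∑ l, C k l • Matrix.of (f k l))]
  have h7 : ∀ k l, tz T Ti e (kr (Matrix.of (f k l)) 1) =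
      ∑ i : Fin 2, ∑ j : Fin 2, f k l i j • tz T Ti e (kr (Matrix.single i j 1) 1) := fun k l => (kr_lin68' _).symm
  simp only [h7, Matrix.sum_apply, Matrix.smul_apply, Matrix.of_apply, smul_eq_mul]
  simp only [Fin.sum_univ_two, smul_add, smul_smul, add_smul]
  abel

theorem tA_norm (h1 : T * Ti = 1) (h2 : Ti * T = 1) {g g' : Matrix n n ℂ} (g1 : g * g' = 1) (g2 : g' * g = 1)
    (hg : actF (slot 2 2 g g') (tA T Ti e) = tA T Ti e) :
    ∃ (a : Matrix (Fin 2) (Fin 2) ℂ) (b : Matrix (Fin q) (Fin q) ℂ), g = tz T Ti e (kr a b) := by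
  rcases Nat.eq_zero_or_pos q with hq | hq
  · have := empty68 e hq
    exact ⟨0, 0, Subsingleton.elim _ _⟩
  have k0 : Fin q := ⟨0, hq⟩
  have h3 : ∑ i : Fin 2, ∑ j : Fin 2, t22 (tz T Ti e (kr (Matrix.single i j 1) 1))
      (tz T Ti e (kr (Matrix.single j i 1) 1)) = ∑ i : Fin 2, ∑ j : Fin 2,
      t22 (g' * tz T Ti e (kr (Matrix.single i j 1) 1) * g) (g' * tz T Ti e (kr (Matrix.single j i 1) 1) * g) := by
    have h4 : actF (slot 2 2 g' g) (actF (slot 2 2 g g') (tA T Ti e)) = actF (slot 2 2 g' g) (tA T Ti e) := by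
      rw [hg]
    unfold tA at h4
    simp only [actF_sum, slot22] at h4
    have h5 : ∀ Y : Matrix n n ℂ, g' * (g * Y * g') * g = Y := by
      intro Y
      calc g' * (g * Y * g') * g = (g' * g) * Y * (g' * g) := by simp only [mul_assoc]
        _ = Y := by rw [g2, one_mul, mul_one]
    simp only [h5] at h4
    exact h4
  refine norm_alg h1 h2 g1 g2 fun C => ?_
  have key : ∀ k l : Fin 2, ∃ f : Fin 2 → Fin 2 → ℂ, g * tz T Ti e (kr (Matrix.single k l 1) 1) * g' =
        ∑ i : Fin 2, ∑ j : Fin 2, f i j • tz T Ti e (kr (Matrix.single i j 1) 1) := by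
    intro k l
    have h4 := congrArg (ap68 (cf68 T Ti (e.symm (l, k0)) (e.symm (k, k0)))) h3
    simp only [map_sum, ap68_t22, cf68_sum, form68 h2 k0] at h4
    have h5 : ∑ i : Fin 2, ∑ j : Fin 2, (if j = l ∧ i = k then (1 : ℂ) else 0) •
        tz T Ti e (kr (Matrix.single i j 1) 1) = tz T Ti e (kr (Matrix.single k l 1) 1) := by
      rw [Finset.sum_eq_single k, Finset.sum_eq_single l]
      · rw [if_pos ⟨rfl, rfl⟩, one_smul]
      · intro z _ hz
        rw [if_neg (fun h => hz h.1), zero_smul]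
      · intro h
        exact absurd (Finset.mem_univ _) h
      · intro z _ hz
        refine Finset.sum_eq_zero fun w _ => ?_
        rw [if_neg (fun h => hz h.2), zero_smul]
      · intro h
        exact absurd (Finset.mem_univ _) h
    rw [h5] at h4
    refine ⟨fun i j => (Ti * (g' * tz T Ti e (kr (Matrix.single j i 1) 1) * g) * T)
      (e.symm (l, k0)) (e.symm (k, k0)), ?_⟩
    rw [h4]
    simp only [Finset.mul_sum, Finset.sum_mul, mul_smul_comm, smul_mul_assoc]
    refine Finset.sum_congr rfl fun i _ => Finset.sum_congr rfl fun j _ => ?_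
    congr 1
    calc g * (g' * tz T Ti e (kr (Matrix.single i j 1) 1) * g) * g' =
        (g * g') * tz T Ti e (kr (Matrix.single i j 1) 1) * (g * g') := by simp only [mul_assoc]
      _ = _ := by rw [g1, one_mul, mul_one]
  choose f hf using key
  refine ⟨∑ k, ∑ l, C k l • Matrix.of (f k l), ?_⟩
  have h6 : g * tz T Ti e (kr C 1) * g' = ∑ k, ∑ l, C k l •
      (g * tz T Ti e (kr (Matrix.single k l 1) 1) * g') := by
    rw [kr_lin68 C]
    simp only [Finset.mul_sum, Finset.sum_mul, mul_smul_comm, smul_mul_assoc]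
  rw [h6]
  simp only [hf]
  rw [kr_lin68 (∑ k, ∑ l, C k l • Matrix.of (f k l))]
  simp only [Matrix.sum_apply, Matrix.smul_apply, Matrix.of_apply, smul_eq_mul]
  simp only [Fin.sum_univ_two, smul_add, smul_smul, add_smul]
  abel

theorem TT.not_all {Q' : Matrix n n ℂ} (hQ : Q'ᵀ = -Q') (hQd : Q'.det ≠ 0) {L : Submodule ℂ (Matrix n n ℂ)}
    {G Gi : Matrix (Fin q) (Fin q) ℂ} (H : TT Q' L e T Ti G Gi)
    (hall : ∀ X : Matrix n n ℂ, Xᵀ * Q' + Q' * X = 0 → ∃ (x : Matrix (Fin 2) (Fin 2) ℂ)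
      (z : Matrix (Fin q) (Fin q) ℂ), x.trace = 0 ∧ X = tz T Ti e (kr x 1 + kr 1 z)) : False := by
  have hq : 0 < q := lt_of_lt_of_le (by norm_num) H.big
  have h1 := H.T1
  have h2 := H.T2
  -- the ideal `sl₂ ⊗ 1`
  let M : Submodule ℂ (Matrix n n ℂ) :=
    { carrier := {X | ∃ x : Matrix (Fin 2) (Fin 2) ℂ, x.trace = 0 ∧ X = tz T Ti e (kr x 1)}
      add_mem' := by
        rintro _ _ ⟨x, hx, rfl⟩ ⟨y, hy, rfl⟩
        refine ⟨x + y, by rw [Matrix.trace_add, hx, hy, add_zero], ?_⟩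
        rw [← tz_add]
        congr 1
        exact (Matrix.add_kronecker x y _).symm
      zero_mem' := ⟨0, by simp, by
        have h3 : kr (0 : Matrix (Fin 2) (Fin 2) ℂ) (1 : Matrix (Fin q) (Fin q) ℂ) = 0 := Matrix.zero_kronecker _
        rw [h3, tz_zero]⟩
      smul_mem' := by
        rintro c _ ⟨x, hx, rfl⟩
        refine ⟨c • x, by rw [Matrix.trace_smul, hx, smul_zero], ?_⟩
        rw [← tz_smul]
        congr 1
        exact (Matrix.smul_kronecker c x _).symm }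
  have hM : ∀ X, X ∈ M ↔ ∃ x : Matrix (Fin 2) (Fin 2) ℂ, x.trace = 0 ∧ X = tz T Ti e (kr x 1) := fun X => Iff.rfl
  have hk0 : kr (1 : Matrix (Fin 2) (Fin 2) ℂ) (0 : Matrix (Fin q) (Fin q) ℂ) = 0 := Matrix.kronecker_zero _
  have hk0' : kr (0 : Matrix (Fin 2) (Fin 2) ℂ) (1 : Matrix (Fin q) (Fin q) ℂ) = 0 := Matrix.zero_kronecker _
  have hsk : ∀ X ∈ M, Xᵀ * Q' + Q' * X = 0 := by
    intro X hX
    obtain ⟨x, hx, rfl⟩ := (hM X).1 hX
    have h3 := (skew_iff (J := Q') h1 h2 H.form hx (z := 0)).2 (by simp)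
    rwa [hk0, add_zero] at h3
  have hid : ∀ Y : Matrix n n ℂ, Yᵀ * Q' + Q' * Y = 0 → ∀ X ∈ M, Y * X - X * Y ∈ M := by
    intro Y hY X hX
    obtain ⟨x, hx, rfl⟩ := (hM X).1 hX
    obtain ⟨y, z, hy, rfl⟩ := hall Y hY
    refine (hM _).2 ⟨y * x - x * y, by rw [Matrix.trace_sub, Matrix.trace_mul_comm, sub_self], ?_⟩
    rw [tz_mul h2, tz_mul h2, ← tz_sub, add_mul, mul_add, kr_mul, kr_mul, kr_mul, kr_mul]
    simp only [mul_one, one_mul]
    congr 1
    have h3 : kr (y * x - x * y) (1 : Matrix (Fin q) (Fin q) ℂ) = kr (y * x) 1 - kr (x * y) 1 := by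
      ext ⟨a, b⟩ ⟨c, d⟩
      simp only [kroneckerMap_apply, Matrix.sub_apply, sub_mul]
    rw [h3]
    abel
  have h0 : M ≠ ⊥ := by
    intro hb
    have h3 : tz T Ti e (kr (Matrix.single 0 1 1) (1 : Matrix (Fin q) (Fin q) ℂ)) ∈ M :=
      (hM _).2 ⟨Matrix.single 0 1 1, by simp [Matrix.trace], rfl⟩
    rw [hb, Submodule.mem_bot] at h3
    rw [← tz_zero (T := T) (Ti := Ti) (e := e)] at h3
    have h4 := congrFun (congrFun (tz_inj h2 h3) (0, ⟨0, hq⟩)) (1, ⟨0, hq⟩)
    rw [kr_app68, Matrix.one_apply_eq] at h4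
    simp at h4
  -- an element of `so(G)`
  let i0 : Fin q := ⟨0, hq⟩
  let i1 : Fin q := ⟨1, lt_of_lt_of_le (by norm_num) H.big⟩
  have hi : i0 ≠ i1 := by
    intro h
    have := congrArg Fin.val h
    simp [i0, i1] at this
  let s : Matrix (Fin q) (Fin q) ℂ := Matrix.single i0 i1 1 - Matrix.single i1 i0 1
  have hs : sᵀ = -s := by
    simp only [s, Matrix.transpose_sub, Matrix.transpose_single, neg_sub]
  have hs0 : s ≠ 0 := by
    intro h
    have h3 := congrFun (congrFun h i0) i1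
    simp only [s, Matrix.sub_apply, Matrix.single_apply_same, Matrix.zero_apply] at h3
    rw [Matrix.single_apply_of_row_ne hi.symm] at h3
    simp at h3
  have hGiG : Giᵀ * G = 1 := by
    have h3 := congrArg Matrix.transpose H.G1
    rwa [Matrix.transpose_mul, Matrix.transpose_one, H.Gs] at h3
  have hz : (Gi * s)ᵀ * G + G * (Gi * s) = 0 := by
    rw [Matrix.transpose_mul, mul_assoc, hGiG, mul_one, ← mul_assoc, H.G1, one_mul, hs, neg_add_cancel]
  have h3 := (skew_iff (J := Q') h1 h2 H.form (x := 0) (by simp) (z := Gi * s)).2 hz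
  rw [hk0', zero_add] at h3
  obtain ⟨x, hx, hxe⟩ := (hM _).1 (sp_simple hQ hQd hsk hid h0 h3)
  have h4 := tz_inj h2 hxe
  have h5 : Gi * s = x 0 0 • (1 : Matrix (Fin q) (Fin q) ℂ) := by
    ext p p'
    have h6 := congrFun (congrFun h4 (0, p)) (0, p')
    rw [kr_app68, kr_app68, Matrix.one_apply_eq, one_mul] at h6
    rw [h6, Matrix.smul_apply, smul_eq_mul]
  have h6 : s = x 0 0 • G := by
    calc s = G * (Gi * s) := by rw [← mul_assoc, H.G1, one_mul]
      _ = x 0 0 • G := by rw [h5, mul_smul_comm, mul_one]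
  have h7 : sᵀ = s := by
    rw [h6, Matrix.transpose_smul, H.Gs]
  apply hs0
  have h8 : s = -s := h7.symm.trans hs
  ext i j
  have h9 := congrFun (congrFun h8 i) j
  rw [Matrix.neg_apply] at h9
  rw [Matrix.zero_apply]
  linear_combination (1 / 2) * h9

end OW
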