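import Pool.Agent.Helper71.OW.Sml
import Pool.Agent.Helper21.GH.Gst
import Pool.Agent.Helper98.MH.Spc

/-!
OW-14. `L` is everything if it has an element of degree at least two and the two middle multiplicities dominate.
-/

open Matrix MH

namespace OW

variable {n : Type*} [Fintype n] [DecidableEq n]
variable {h : Matrix n n ℂ} {E : ℝ → Matrix n n ℂ} {Λ : Finset ℝ} {J Ji : Matrix n n ℂ}
variable {τ : Matrix n n ℂ →ₗ[ℂ] Matrix n n ℂ} {L : Submodule ℂ (Matrix n n ℂ)}

private lemma rank_add71 (A B : Matrix n n ℂ) : (A + B).rank ≤ A.rank + B.rank := by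
  have h1 : LinearMap.range (A + B).mulVecLin ≤ LinearMap.range A.mulVecLin ⊔ LinearMap.range B.mulVecLin := by
    rintro _ ⟨v, rfl⟩
    rw [Matrix.mulVecLin_apply, Matrix.add_mulVec]
    exact Submodule.add_mem_sup ⟨v, rfl⟩ ⟨v, rfl⟩
  unfold Matrix.rank
  exact (Submodule.finrank_mono h1).trans (Submodule.finrank_add_le_finrank_add_finrank _ _)

private lemma rank_sum71 {ι : Type*} (A : Finset ι) (F : ι → Matrix n n ℂ) :
    (∑ i ∈ A, F i).rank ≤ ∑ i ∈ A, (F i).rank := by
  classical
  induction A using Finset.induction_on with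
  | empty => simp
  | insert a A ha ih =>
    rw [Finset.sum_insert ha, Finset.sum_insert ha]
    exact (rank_add71 _ _).trans (by omega)

private lemma rank_neg71 (D : Dat τ L h E Λ) (μ : ℝ) : (E (-μ)).rank = (E μ).rank := by
  have S := D.spec
  have h1 : ∀ ρ, ((E ρ).rank : ℂ) = (E ρ).trace := fun ρ => rank_eq_trace (by rw [S.mul, if_pos rfl])
  have h2 : ((E (-μ)).rank : ℂ) = ((E μ).rank : ℂ) := by
    rw [h1, h1, ← D.tauE, D.inv.tr]
  exact_mod_cast h2

/-- elements of degree at least two have small rank -/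
lemma rank_deg (D : Dat τ L h E Λ) (half : ∀ μ : ℝ, E μ ≠ 0 → ∃ k : ℤ, μ = k + 1 / 2) {s : ℕ}
    (hs : s = ∑ μ ∈ Λ.filter (fun μ => 1 / 2 < μ), (E μ).rank) {ν : ℝ} (hν : 2 ≤ ν) {x : Matrix n n ℂ}
    (hx : x ∈ Ld L h ν) : x.rank ≤ 2 * s := by
  classical
  have S := D.spec
  set P := ∑ μ ∈ Λ.filter (fun μ => 1 / 2 < μ), E μ with hP
  set M := ∑ μ ∈ Λ.filter (fun μ => μ < -(1 / 2)), E μ with hM
  have e1 : (E (-(1 / 2)) + E (1 / 2) + P + M) = 1 := by
    apply S.ext
    intro μ μ'
    rw [mul_one, S.mul, mul_add, mul_add, mul_add, add_mul, add_mul, add_mul, S.mul, S.mul, hP, hM, Finset.mul_sum,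
      Finset.mul_sum]
    simp only [S.mul]
    by_cases e : E μ = 0
    · have e3 : ∀ A : Finset ℝ, (∑ x ∈ A, if μ = x then E μ else 0) = 0 := by
        intro A
        refine Finset.sum_eq_zero fun x _ => ?_
        rw [e]
        simp
      rw [e3, e3, e]
      simp
    · obtain ⟨k, hk⟩ := half μ e
      have hμΛ : μ ∈ Λ := by
        by_contra h4
        exact e (S.supp μ h4)
      have e4 : (∑ x ∈ Λ.filter (fun μ => 1 / 2 < μ), if μ = x then E μ else 0) = if 1 / 2 < μ then E μ else 0 := by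
        rw [Finset.sum_ite_eq]
        simp only [Finset.mem_filter, hμΛ, true_and]
      have e5 : (∑ x ∈ Λ.filter (fun μ => μ < -(1 / 2)), if μ = x then E μ else 0) =
          if μ < -(1 / 2) then E μ else 0 := by
        rw [Finset.sum_ite_eq]
        simp only [Finset.mem_filter, hμΛ, true_and]
      rw [e4, e5]
      have e6 : (if μ = -(1 / 2) then E μ else 0) + (if μ = 1 / 2 then E μ else 0) + (if 1 / 2 < μ then E μ else 0) +
          (if μ < -(1 / 2) then E μ else 0) = E μ := by
        rcases lt_trichotomy μ (-(1 / 2)) with h1 | h1 | h1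
        · rw [if_neg h1.ne, if_neg (by linarith), if_neg (by linarith), if_pos h1]
          simp
        · rw [if_pos h1, if_neg (by linarith), if_neg (by linarith), if_neg (by linarith)]
          simp
        · have h2 : (1 : ℝ) / 2 ≤ μ := by
            rw [hk] at h1 ⊢
            have h3 : (-1 : ℝ) < k := by linarith
            have h4 : (-1 : ℤ) < k := by exact_mod_cast h3
            have h5 : (0 : ℤ) ≤ k := by omega
            have h6 : (0 : ℝ) ≤ k := by exact_mod_cast h5
            linarith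
          rcases lt_or_eq_of_le h2 with h3 | h3
          · rw [if_neg h1.ne', if_neg h3.ne', if_pos h3, if_neg (by linarith)]
            simp
          · rw [if_neg h1.ne', if_pos h3.symm, if_neg (by linarith), if_neg (by linarith)]
            simp
      rw [← add_mul, ← add_mul, ← add_mul, e6, S.mul]
  have e2 : ∀ μ : ℝ, -(1 / 2) ≤ μ → P * (x * E μ) = x * E μ := by
    intro μ hμ
    rw [D.Ld_mul_E hx, ← mul_assoc, ← mul_assoc]
    congr 2
    by_cases e : E (μ + ν) = 0
    · rw [e, mul_zero]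
    · have hμΛ : μ + ν ∈ Λ := by
        by_contra h4
        exact e (S.supp _ h4)
      rw [hP, Finset.sum_mul, Finset.sum_eq_single (μ + ν)]
      · rw [S.mul, if_pos rfl]
      · intro ρ _ hρ
        rw [S.mul, if_neg hρ]
      · intro h'
        exact absurd (Finset.mem_filter.2 ⟨hμΛ, by linarith⟩) h'
  have e3 : x = P * (x * (E (-(1 / 2)) + E (1 / 2) + P)) + x * M := by
    have h1 : P * (x * P) = x * P := by
      conv_rhs => rw [hP, Finset.mul_sum]
      conv_lhs => rw [hP, Finset.mul_sum, Finset.mul_sum]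
      rw [← hP]
      refine Finset.sum_congr rfl fun μ hμ => ?_
      exact e2 μ (by have := (Finset.mem_filter.1 hμ).2; linarith)
    rw [mul_add x, mul_add x, mul_add P, mul_add P, e2 _ le_rfl, e2 _ (by norm_num), h1, ← mul_add, ← mul_add,
      ← mul_add, e1, mul_one]
  have r1 : P.rank ≤ s := by
    rw [hs]
    exact rank_sum71 _ _
  have r2 : M.rank ≤ s := by
    refine (rank_sum71 _ _).trans ?_
    rw [hs]
    have e7 : ∑ μ ∈ Λ.filter (fun μ => μ < -(1 / 2)), (E μ).rank =
        ∑ μ ∈ (Λ.filter (fun μ => μ < -(1 / 2))).image (fun μ => -μ), (E μ).rank := by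
      rw [Finset.sum_image (fun a _ b _ hab => neg_injective hab)]
      exact Finset.sum_congr rfl fun μ _ => (rank_neg71 D μ).symm
    rw [e7]
    have e8 : ∑ μ ∈ (Λ.filter (fun μ => μ < -(1 / 2))).image (fun μ => -μ), (E μ).rank =
        ∑ μ ∈ ((Λ.filter (fun μ => μ < -(1 / 2))).image (fun μ => -μ)).filter (fun μ => μ ∈ Λ), (E μ).rank := by
      rw [Finset.sum_filter]
      refine Finset.sum_congr rfl fun μ _ => ?_
      split_ifs with h1
      · rfl
      · rw [S.supp μ h1, Matrix.rank_zero]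
    rw [e8]
    refine Finset.sum_le_sum_of_subset fun μ hμ => ?_
    obtain ⟨h1, h2⟩ := Finset.mem_filter.1 hμ
    obtain ⟨ρ, h3, rfl⟩ := Finset.mem_image.1 h1
    refine Finset.mem_filter.2 ⟨h2, ?_⟩
    have := (Finset.mem_filter.1 h3).2
    linarith
  calc x.rank = (P * (x * (E (-(1 / 2)) + E (1 / 2) + P)) + x * M).rank := by rw [← e3]
    _ ≤ (P * (x * (E (-(1 / 2)) + E (1 / 2) + P))).rank + (x * M).rank := rank_add71 _ _
    _ ≤ P.rank + M.rank := add_le_add (Matrix.rank_mul_le_left _ _) (Matrix.rank_mul_le_right _ _)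
    _ ≤ 2 * s := by omega

private lemma tr0_71 (D : Dat τ L h E Λ) {x : Matrix n n ℂ} (hx : x ∈ L) : x.trace = 0 := by
  have h1 := D.inv.tr x
  rw [D.sk x hx, trace_neg] at h1
  have h2 : (2 : ℂ) * x.trace = 0 := by linear_combination -h1
  simpa using h2

theorem full_of_deg (D : Dat τ L h E Λ) (P : Prim L) (Y : CY.Sym J Ji τ)
    (half : ∀ μ : ℝ, E μ ≠ 0 → ∃ k : ℤ, μ = k + 1 / 2) {s : ℕ}
    (hs : s = ∑ μ ∈ Λ.filter (fun μ => 1 / 2 < μ), (E μ).rank) (hn : (4 * s + 1) ^ 2 ≤ Fintype.card n)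
    (h3 : 3 ≤ Fintype.card n) {ν : ℝ} (hν : 2 ≤ ν) {x : Matrix n n ℂ} (hx : x ∈ Ld L h ν) (hx0 : x ≠ 0)
    {y : Matrix n n ℂ} (hy : τ y = -y) : y ∈ L := by
  classical
  have S := D.spec
  have hn0 : ((Fintype.card n : ℕ) : ℂ) ≠ 0 := by
    rw [Nat.cast_ne_zero]
    omega
  haveI : Nonempty n := Fintype.card_pos_iff.1 (by omega)
  -- the small Hermitian element
  set k := x * xᴴ - xᴴ * x with hk
  have hkL : k ∈ L := D.br _ hx.1 _ (D.st _ hx.1)
  have hks : kᴴ = k := by
    rw [hk, conjTranspose_sub, conjTranspose_mul, conjTranspose_mul, conjTranspose_conjTranspose]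
  have hk0 : k ≠ 0 := by
    intro h0
    have h1 : h * xᴴ - xᴴ * h = -((ν : ℂ) • xᴴ) := by
      have h2 := congrArg conjTranspose hx.2
      rw [conjTranspose_sub, conjTranspose_mul, conjTranspose_mul, S.hh, conjTranspose_smul] at h2
      have h4 : star (ν : ℂ) = (ν : ℂ) := Complex.conj_ofReal ν
      rw [h4] at h2
      rw [← neg_sub, h2]
    have h2 : (k * h).trace = (ν : ℂ) * (xᴴ * x).trace := by
      have h4 : (k * h).trace = (x * (xᴴ * h - h * xᴴ)).trace := by
        rw [hk, sub_mul, mul_sub, trace_sub, trace_sub, mul_assoc]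
        congr 1
        rw [mul_assoc, trace_mul_comm, mul_assoc]
      rw [h4, ← neg_sub, h1, neg_neg, mul_smul_comm, trace_smul, smul_eq_mul, trace_mul_comm]
    rw [h0, zero_mul, trace_zero] at h2
    have h4 := trace_pos hx0
    rcases mul_eq_zero.1 h2.symm with h5 | h5
    · have : ν = 0 := by exact_mod_cast h5
      linarith
    · rw [h5] at h4
      simp at h4
  have hkr : k.rank ≤ 4 * s := by
    have r1 := rank_deg D half hs hν hx
    calc k.rank ≤ (x * xᴴ).rank + (xᴴ * x).rank := by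
          rw [hk, sub_eq_add_neg]
          refine (rank_add71 _ _).trans ?_
          have h7 : (-(xᴴ * x)).rank ≤ (xᴴ * x).rank := by
            rw [show -(xᴴ * x) = (xᴴ * x) * (-1) by rw [mul_neg, mul_one]]
            exact Matrix.rank_mul_le_left _ _
          omega
      _ ≤ x.rank + x.rank := add_le_add (Matrix.rank_mul_le_left _ _) (Matrix.rank_mul_le_right _ _)
      _ ≤ 4 * s := by omega
  obtain ⟨E', Λ', S', -⟩ := exists_spec98 hks
  -- the algebra with the scalars
  set L' : Submodule ℂ (Matrix n n ℂ) := L ⊔ Submodule.span ℂ {1} with hL'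
  have memL' : ∀ z, z ∈ L' ↔ ∃ l ∈ L, ∃ c : ℂ, z = l + c • (1 : Matrix n n ℂ) := by
    intro z
    rw [hL', Submodule.mem_sup]
    constructor
    · rintro ⟨l, hl, w, hw, rfl⟩
      obtain ⟨c, rfl⟩ := Submodule.mem_span_singleton.1 hw
      exact ⟨l, hl, c, rfl⟩
    · rintro ⟨l, hl, c, rfl⟩
      exact ⟨l, hl, _, Submodule.smul_mem _ _ (Submodule.mem_span_singleton_self _), rfl⟩
  have leL' : L ≤ L' := le_sup_left
  have tr0L : ∀ z ∈ L', z.trace = 0 → z ∈ L := by
    intro z hz h0
    obtain ⟨l, hl, c, rfl⟩ := (memL' z).1 hz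
    rw [trace_add, tr0_71 D hl, zero_add, trace_smul, trace_one, smul_eq_mul] at h0
    rcases mul_eq_zero.1 h0 with h4 | h4
    · rw [h4, zero_smul, add_zero]
      exact hl
    · exact absurd h4 hn0
  have br' : ∀ a ∈ L', ∀ b ∈ L', a * b - b * a ∈ L' := by
    intro a ha b hb
    obtain ⟨l, hl, c, rfl⟩ := (memL' a).1 ha
    obtain ⟨m, hm, d, rfl⟩ := (memL' b).1 hb
    have : (l + c • (1 : Matrix n n ℂ)) * (m + d • (1 : Matrix n n ℂ)) -
        (m + d • (1 : Matrix n n ℂ)) * (l + c • (1 : Matrix n n ℂ)) = l * m - m * l := by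
      simp only [add_mul, mul_add, smul_mul_assoc, mul_smul_comm, one_mul, mul_one, smul_add]
      rw [smul_comm c d]
      abel
    rw [this]
    exact leL' (D.br _ hl _ hm)
  have st' : ∀ a ∈ L', aᴴ ∈ L' := by
    intro a ha
    obtain ⟨l, hl, c, rfl⟩ := (memL' a).1 ha
    rw [conjTranspose_add, conjTranspose_smul, conjTranspose_one]
    exact (memL' _).2 ⟨_, D.st _ hl, _, rfl⟩
  have G : GH.Gr L' k E' Λ' := ⟨S', br', st', leL' hkL⟩
  have P' : Prim L' := by
    intro A h4 h5
    exact P A h4 fun z hz => h5 z (leL' hz)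
  have h1L' : (1 : Matrix n n ℂ) ∈ L' := (memL' 1).2 ⟨0, L.zero_mem, 1, by simp⟩
  have hE0 : E' 0 ≠ 1 := by
    intro h0
    apply hk0
    have h4 := S'.mul_h 0
    rw [h0, one_mul] at h4
    rw [h4]
    simp
  have hr1 : (1 - E' 0).rank ≤ 4 * s := by
    have h4 : 1 - E' 0 = k * ∑ μ ∈ Λ'.erase 0, ((μ : ℂ)⁻¹) • E' μ := by
      rw [Finset.mul_sum]
      have h5 : ∀ μ ∈ Λ'.erase 0, k * ((μ : ℂ)⁻¹ • E' μ) = E' μ := by
        intro μ hμ
        have h6 : (μ : ℂ) ≠ 0 := by exact_mod_cast (Finset.ne_of_mem_erase hμ)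
        rw [mul_smul_comm, S'.h_mul, smul_smul, inv_mul_cancel₀ h6, one_smul]
      rw [Finset.sum_congr rfl h5, ← S'.sum, sub_eq_iff_eq_add]
      by_cases h6 : (0 : ℝ) ∈ Λ'
      · rw [Finset.sum_erase_add _ _ h6]
      · rw [Finset.erase_eq_of_notMem h6, S'.supp 0 h6, add_zero]
    rw [h4]
    exact (Matrix.rank_mul_le_left _ _).trans hkr
  have hsq : (4 * s + 1) ^ 2 ≤ Fintype.card n := hn
  have hDg : GH.Dg k := by
    refine ⟨Λ'.image (fun μ : ℝ => (μ : ℂ)), fun z => if z.im = 0 then E' z.re else 0, ?_, ?_, ?_⟩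
    · intro μ ν'
      simp only
      by_cases h4 : μ.im = 0 <;> by_cases h5 : ν'.im = 0
      · rw [if_pos h4, if_pos h5, S'.mul]
        by_cases h6 : μ.re = ν'.re
        · rw [if_pos h6, if_pos (Complex.ext h6 (h4.trans h5.symm))]
        · rw [if_neg h6, if_neg (fun h7 => h6 (by rw [h7]))]
      · rw [if_neg h5, mul_zero, if_neg]
        rintro rfl
        exact h5 h4
      · rw [if_neg h4, zero_mul]
        split_ifs <;> rfl
      · rw [if_neg h4, zero_mul]
        split_ifs <;> rfl
    · rw [Finset.sum_image (fun a _ b _ hab => by exact_mod_cast hab)]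
      simp only [Complex.ofReal_im, if_true, Complex.ofReal_re]
      exact S'.sum
    · rw [Finset.sum_image (fun a _ b _ hab => by exact_mod_cast hab)]
      simp only [Complex.ofReal_im, if_true, Complex.ofReal_re]
      exact S'.eq
  have hSm : GH.Sm k := by
    refine ⟨0, Or.inr ?_⟩
    rw [zero_smul, sub_zero]
    refine le_trans ?_ hsq
    exact Nat.pow_le_pow_left (by omega) 2
  have hns : ∀ c : ℂ, k ≠ c • (1 : Matrix n n ℂ) := by
    intro c hc
    have h4 := tr0_71 D hkL
    rw [hc, trace_smul, trace_one, smul_eq_mul] at h4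
    rcases mul_eq_zero.1 h4 with h5 | h5
    · apply hk0
      rw [hc, h5, zero_smul]
    · exact hn0 h5
  have good := GH.gst G h1L' hE0 (Or.inr ((Nat.pow_le_pow_left (by omega) 2).trans hsq)) h3
    (fun T hT => small br' st' P' (leL' hkL) hDg hSm hns hT)
  -- skewness of the elements of `L`
  have hJ : ∀ z, z ∈ L → zᵀ * J + J * z = 0 := by
    intro z hz
    have h4 := D.sk z hz
    rw [Y.tau] at h4
    have h5 := congrArg (fun M => J * M) h4
    simp only [← mul_assoc, Y.left, one_mul, mul_neg] at h5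
    rw [h5, neg_add_cancel]
  rcases good.ty with hT | ⟨Q, -, hQu, hQ1, hQ2⟩
  · -- everything of trace zero
    exact tr0L y (hT y (by
      have h4 := D.inv.tr y
      rw [hy, trace_neg] at h4
      have h5 : (2 : ℂ) * y.trace = 0 := by linear_combination -h4
      simpa using h5)) (by
      have h4 := D.inv.tr y
      rw [hy, trace_neg] at h4
      have h5 : (2 : ℂ) * y.trace = 0 := by linear_combination -h4
      simpa using h5)
  · obtain ⟨Qi, hQQ⟩ := hQu.exists_right_inv
    have hQQ' : Qi * Q = 1 := mul_eq_one_comm.1 hQQ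
    -- elements of trace zero of `L'` are skew for `Q`
    have hskQ : ∀ z ∈ L', z.trace = 0 → zᵀ * Q + Q * z = 0 := by
      intro z hz h0
      obtain ⟨c, hc⟩ := hQ2 z hz
      have h4 : zᵀ + Q * z * Qi = c • (1 : Matrix n n ℂ) := by
        have h5 := congrArg (fun M => M * Qi) hc
        simp only [add_mul, smul_mul_assoc, hQQ] at h5
        rw [mul_assoc zᵀ, hQQ, mul_one] at h5
        exact h5
      have h5 := congrArg trace h4
      rw [trace_add, trace_transpose, trace_mul_comm, ← mul_assoc, hQQ', one_mul, h0, zero_add, trace_smul,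
        trace_one, smul_eq_mul] at h5
      rcases mul_eq_zero.1 h5.symm with h6 | h6
      · rw [hc, h6, zero_smul]
      · exact absurd h6 hn0
    -- `J` is a multiple of `Q`
    have hcomm : ∀ z ∈ L', z.trace = 0 → (Qi * J) * z = z * (Qi * J) := by
      intro z hz h0
      have h4 := hskQ z hz h0
      have h5 := hJ z (tr0L z hz h0)
      have h6 : Qi * zᵀ = -(z * Qi) := by
        have h7 := congrArg (fun M => Qi * M * Qi) h4
        simp only [mul_add, add_mul, mul_zero, zero_mul] at h7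
        rw [← mul_assoc Qi zᵀ, mul_assoc (Qi * zᵀ), hQQ, mul_one, ← mul_assoc Qi Q, hQQ', one_mul] at h7
        exact eq_neg_of_add_eq_zero_left h7
      have h7 : J * z = -(zᵀ * J) := by
        rw [eq_neg_iff_add_eq_zero, add_comm]
        exact h5
      rw [mul_assoc, h7, mul_neg, ← mul_assoc, h6, neg_mul, neg_neg, mul_assoc]
    have hLd0 : ∀ ρ : ℝ, ρ ≠ 0 → ∀ z ∈ Ld L' k ρ, z.trace = 0 := by
      intro ρ hρ z hz
      have h4 := congrArg trace hz.2
      rw [trace_sub, trace_mul_comm, sub_self, trace_smul, smul_eq_mul] at h4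
      rcases mul_eq_zero.1 h4.symm with h5 | h5
      · exact absurd (by exact_mod_cast h5) hρ
      · exact h5
    obtain ⟨c, hc⟩ := good.nr (Qi * J) (hcomm k (leL' hkL) (tr0_71 D hkL))
      (fun ρ hρ z hz => hcomm z hz.1 (hLd0 ρ hρ z hz))
    have hJQ : J = c • Q := by
      have h4 : Q * (Qi * J) = J := by rw [← mul_assoc, hQQ, one_mul]
      rw [← h4, hc, mul_smul_comm, mul_one]
    have hc0 : c ≠ 0 := by
      rintro rfl
      have h4 := Y.left
      rw [hJQ, zero_smul, zero_mul] at h4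
      exact zero_ne_one h4
    -- `y` is skew for `Q`
    have hyJ : yᵀ * J + J * y = 0 := by
      rw [Y.tau] at hy
      have h5 := congrArg (fun M => J * M) hy
      simp only [← mul_assoc, Y.left, one_mul, mul_neg] at h5
      rw [h5, neg_add_cancel]
    have hyQ : yᵀ * Q + Q * y = 0 := by
      rw [hJQ, mul_smul_comm, smul_mul_assoc, ← smul_add] at hyJ
      rcases smul_eq_zero.1 hyJ with h6 | h6
      · exact absurd h6 hc0
      · exact h6
    refine tr0L y (hQ1 y hyQ) ?_
    have h4 := D.inv.tr y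
    rw [hy, trace_neg] at h4
    have h5 : (2 : ℂ) * y.trace = 0 := by linear_combination -h4
    simpa using h5

end OW
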