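import Pool.Agent.Helper71.OW.Frm
import Pool.Agent.Helper21.MH.HodgeD

/-!
OW-52. The determinant tensor of the second factor. If `g = a ⊗ b` with `b` an isometry of `G` fixes all the tensors of type `(q, q)` that are
killed by `L = sl₂ ⊗ 1 + 1 ⊗ so(G)`, and `q` is even, then `det b = 1`. Proof. Let `q = 2 h`. In the coordinates `T, e` let
`u : (Fin q → n) → ℂ` be the tensor with `u (i) = κ (first components) * ω (second components)`, `κ j = ∏ l : Fin h, J0 (j (2 l)) (j (2 l + 1))`,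
`ω` the determinant tensor (`qt5` and `ep5` with `act_qt5`, `act_ep5` in `Pool/Agent/Helper5/EL/MTle.lean` (private, copy them)). Then
`actF (fun _ => a ⊗ b) u = (det a) ^ h * det b • u` for all matrices `a, b` (`a J0 aᵀ = det a • J0`). Let `v = qt5 h Q'` on the dual
slots: `actF (fun _ => g'ᵀ) v = qt5 h (g'ᵀ Q' g')`, `g'ᵀ Q' g' = (det a)⁻¹ • Q'` (`sim_iff`). So `t = pt5 u v` (with `Fin (h * 2)` and `Fin q` identified;
or state it for `q = h * 2` after `subst`) satisfies `actF (slot q q g g') t = det b • t`, and `t ≠ 0` (`ep_self5`, `J0 0 1 = 1`, `Q' ≠ 0`). `L` kills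
`t`: the derivative at `c = 0` of `actF (fun k => 1 + c • X k) t` is `dact X t` (`HasDerivAt` of a finite product), and for `X = x ⊗ 1` resp. `1 ⊗ z`
`actF (fun _ => 1 + c X) u = det (1 + c x) ^ h u` resp. `det (1 + c z) u`, with derivative `h tr x` resp. `tr z`, both 0 (`z` skew for the invertible `G`
has trace 0), and `(1 - c Xᵀ) Q' (1 - c X)` has derivative `-(Xᵀ Q' + Q' X) = 0` (`skew_iff`). So the fixed tensor `t` gives `det b = 1`.
-/

open Matrix MH

namespace OW

variable {n : Type*} [Fintype n] [DecidableEq n] {q : ℕ}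
variable {T Ti : Matrix n n ℂ} {e : n ≃ Fin 2 × Fin q}

set_option linter.unusedSectionVars false

section gen

variable {m : Type*} [Fintype m] [DecidableEq m]

/-- product of tensors -/
private def pt_h4 {a b : ℕ} (u : (Fin a → m) → ℂ) (v : (Fin b → m) → ℂ) : (Fin a ⊕ Fin b → m) → ℂ :=
  fun i => u (fun k => i (Sum.inl k)) * v (fun k => i (Sum.inr k))

private lemma act_pt_h4 {a b : ℕ} (u : (Fin a → m) → ℂ) (v : (Fin b → m) → ℂ) (g g' : Matrix m m ℂ)
    (i : Fin a ⊕ Fin b → m) :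
    actF (slot a b g g') (pt_h4 u v) i =
      actF (fun _ => g) u (fun k => i (Sum.inl k)) * actF (fun _ => g'ᵀ) v (fun k => i (Sum.inr k)) := by
  unfold actF
  rw [Finset.sum_mul_sum, ← Fintype.sum_prod_type']
  refine Fintype.sum_equiv (Equiv.sumArrowEquivProdArrow (Fin a) (Fin b) m) _ _ fun j => ?_
  rw [Fintype.prod_sum_type]
  simp only [slot, Sum.elim_inl, Sum.elim_inr, pt_h4, Equiv.sumArrowEquivProdArrow, Equiv.coe_fn_mk,
    Function.comp_def]
  ring

/-- the tensor `M ⊗ ... ⊗ M` -/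
private def qt_h4 (h : ℕ) (M : Matrix m m ℂ) : (Fin (h * 2) → m) → ℂ :=
  fun j => ∏ l : Fin h, M (j (finProdFinEquiv (l, 0))) (j (finProdFinEquiv (l, 1)))

private lemma act_qt_h4 (h : ℕ) (B M : Matrix m m ℂ) :
    actF (fun _ => B) (qt_h4 h M) = qt_h4 h (B * M * Bᵀ) := by
  funext i
  unfold actF qt_h4
  have h1 : ∀ l : Fin h, (B * M * Bᵀ) (i (finProdFinEquiv (l, 0))) (i (finProdFinEquiv (l, 1))) =
      ∑ w : Fin 2 → m, B (i (finProdFinEquiv (l, 0))) (w 0) * B (i (finProdFinEquiv (l, 1))) (w 1) *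
        M (w 0) (w 1) := by
    intro l
    rw [← Equiv.sum_comp (finTwoArrowEquiv m).symm, Fintype.sum_prod_type]
    simp only [Matrix.mul_apply, Finset.sum_mul, Matrix.transpose_apply, finTwoArrowEquiv_symm_apply,
      Matrix.cons_val_zero, Matrix.cons_val_one]
    rw [Finset.sum_comm]
    refine Finset.sum_congr rfl fun x _ => Finset.sum_congr rfl fun y _ => ?_
    ring
  simp_rw [h1]
  rw [Finset.prod_univ_sum, Fintype.piFinset_univ]
  refine Fintype.sum_equiv ((Equiv.arrowCongr (finProdFinEquiv (m := h) (n := 2)).symm (Equiv.refl m)).trans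
    (Equiv.curry (Fin h) (Fin 2) m)) _ _ fun j => ?_
  rw [← Equiv.prod_comp (finProdFinEquiv (m := h) (n := 2)), Fintype.prod_prod_type, ← Finset.prod_mul_distrib]
  refine Finset.prod_congr rfl fun l _ => ?_
  rw [Fin.prod_univ_two]
  rfl

private lemma qt_smul_h4 (h : ℕ) (c : ℂ) (M : Matrix m m ℂ) : qt_h4 h (c • M) = c ^ h • qt_h4 h M := by
  funext j
  simp only [qt_h4, Matrix.smul_apply, smul_eq_mul, Finset.prod_mul_distrib, Finset.prod_const,
    Finset.card_univ, Fintype.card_fin, Pi.smul_apply]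

private lemma qt_ne_h4 {M : Matrix m m ℂ} {x y : m} (hxy : M x y ≠ 0) (h : ℕ) :
    qt_h4 h M (fun k => if (finProdFinEquiv.symm k).2 = 0 then x else y) ≠ 0 := by
  unfold qt_h4
  rw [Finset.prod_ne_zero_iff]
  intro l _
  simpa using hxy

/-- the determinant tensor -/
private def ep_h4 {d : ℕ} (e : Fin d ≃ m) : (Fin d → m) → ℂ :=
  fun i => (Matrix.of fun k l => if i k = e l then (1 : ℂ) else 0).det

private lemma det_row_h4 {d : ℕ} (N : Matrix (Fin d) (Fin d) ℂ) :
    N.det = ∑ σ : Equiv.Perm (Fin d), ((Equiv.Perm.sign σ : ℤ) : ℂ) * ∏ k, N k (σ k) := by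
  rw [← Matrix.det_transpose, Matrix.det_apply']
  rfl

private lemma act_ep_h4 {d : ℕ} (e : Fin d ≃ m) (g : Matrix m m ℂ) :
    actF (fun _ => g) (ep_h4 e) = g.det • ep_h4 e := by
  funext i
  have h1 : (g.det • ep_h4 e) i = (Matrix.of fun k l => g (i k) (e l)).det := by
    have h2 : (Matrix.of fun k l => g (i k) (e l)) =
        (Matrix.of fun k l => if i k = e l then (1 : ℂ) else 0) * g.submatrix e e := by
      ext k l
      rw [Matrix.mul_apply]
      simp only [Matrix.of_apply, Matrix.submatrix_apply, ite_mul, one_mul, zero_mul]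
      rw [Finset.sum_eq_single (e.symm (i k))]
      · simp
      · intro x _ hx
        rw [if_neg]
        intro h
        apply hx
        rw [h, Equiv.symm_apply_apply]
      · intro h
        exact absurd (Finset.mem_univ _) h
    rw [h2, Matrix.det_mul, Matrix.det_submatrix_equiv_self]
    simp only [Pi.smul_apply, smul_eq_mul, ep_h4]
    ring
  rw [h1, det_row_h4]
  unfold actF ep_h4
  simp_rw [det_row_h4, Finset.mul_sum]
  rw [Finset.sum_comm]
  refine Finset.sum_congr rfl fun σ _ => ?_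
  have h3 : ∏ k, (Matrix.of fun k l => g (i k) (e l)) k (σ k) =
      ∑ j : Fin d → m, ∏ k, (g (i k) (j k) * (if j k = e (σ k) then (1 : ℂ) else 0)) := by
    have h4 : ∀ k, (Matrix.of fun k l => g (i k) (e l)) k (σ k) =
        ∑ y : m, g (i k) y * (if y = e (σ k) then (1 : ℂ) else 0) := by
      intro k
      rw [Matrix.of_apply, Finset.sum_eq_single (e (σ k))]
      · rw [if_pos rfl, mul_one]
      · intro y _ hy
        rw [if_neg hy, mul_zero]
      · intro h
        exact absurd (Finset.mem_univ _) h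
    simp_rw [h4]
    rw [Finset.prod_univ_sum, Fintype.piFinset_univ]
  rw [h3, Finset.mul_sum]
  refine Finset.sum_congr rfl fun j _ => ?_
  rw [Finset.prod_mul_distrib]
  simp only [Matrix.of_apply]
  ring

private lemma ep_self_h4 {d : ℕ} (e : Fin d ≃ m) : ep_h4 e (fun k => e k) = 1 := by
  unfold ep_h4
  have h1 : (Matrix.of fun k l => if e k = e l then (1 : ℂ) else 0) =
      (1 : Matrix (Fin d) (Fin d) ℂ) := by
    ext k l
    rw [Matrix.of_apply, Matrix.one_apply]
    simp only [EmbeddingLike.apply_eq_iff_eq]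
  rw [h1, Matrix.det_one]

private lemma act_re_h4 {w κ : Type*} [Fintype w] [DecidableEq w] [Fintype κ] [DecidableEq κ] (e : m ≃ w)
    (M : Matrix w w ℂ) (t : (κ → w) → ℂ) :
    actF (fun _ => M.submatrix e e) (fun i => t (fun k => e (i k))) =
      fun i => actF (fun _ => M) t (fun k => e (i k)) := by
  funext i
  unfold actF
  refine Fintype.sum_equiv (Equiv.arrowCongr (Equiv.refl κ) e) _ _ fun j => ?_
  simp [Equiv.arrowCongr, Function.comp_def]

/-- the derivative of the action at the unit -/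
private lemma hd_act_h4 {κ : Type*} [Fintype κ] [DecidableEq κ] (X : κ → Matrix m m ℂ) (t : (κ → m) → ℂ)
    (i : κ → m) :
    HasDerivAt (fun c : ℂ => actF (fun k => 1 + c • X k) t i) (dact X t i) 0 := by
  have h1 : dact X t i = ∑ j : κ → m, (∑ k, (∏ l ∈ Finset.univ.erase k, (1 + (0 : ℂ) • X l) (i l) (j l)) •
      X k (i k) (j k)) * t j := by
    unfold dact
    rw [Finset.sum_apply]
    simp_rw [actF_upd, Finset.sum_mul]
    rw [Finset.sum_comm]
    refine Finset.sum_congr rfl fun j _ => Finset.sum_congr rfl fun k _ => ?_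
    rw [Finset.sdiff_singleton_eq_erase, smul_eq_mul]
    simp only [zero_smul, add_zero]
    ring
  rw [h1]
  unfold actF
  refine HasDerivAt.fun_sum fun j _ => ?_
  refine HasDerivAt.mul_const ?_ (t j)
  refine HasDerivAt.fun_finsetProd fun k _ => ?_
  have h2 : (fun c : ℂ => (1 + c • X k) (i k) (j k)) =
      fun c : ℂ => (1 : Matrix m m ℂ) (i k) (j k) + c * X k (i k) (j k) := by
    funext c
    rw [Matrix.add_apply, Matrix.smul_apply, smul_eq_mul]
  rw [h2]
  have h3 := ((hasDerivAt_id (0 : ℂ)).mul_const (X k (i k) (j k))).const_add ((1 : Matrix m m ℂ) (i k) (j k))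
  rw [one_mul] at h3
  exact h3

/-- the derivative of the determinant at the unit -/
private lemma hd_det_h4 (x : Matrix m m ℂ) : HasDerivAt (fun c : ℂ => (1 + c • x).det) x.trace 0 := by
  set p := (det (1 + (Polynomial.X : Polynomial ℂ) • x.map Polynomial.C)).divX.divX with hp
  have h0 : (fun c : ℂ => (1 + c • x).det) = fun c : ℂ => 1 + x.trace * c + p.eval c * c ^ 2 :=
    funext fun c => Matrix.det_one_add_smul c x
  rw [h0]
  have h1 : HasDerivAt (fun c : ℂ => 1 + x.trace * c) x.trace 0 := by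
    have := ((hasDerivAt_id (0 : ℂ)).const_mul x.trace).const_add 1
    rw [mul_one] at this
    exact this
  have h2 : HasDerivAt (fun c : ℂ => p.eval c * c ^ 2) 0 0 := by
    have := (p.hasDerivAt (0 : ℂ)).fun_mul (hasDerivAt_pow 2 (0 : ℂ))
    simpa using this
  have h3 := h1.add h2
  rw [add_zero] at h3
  exact h3

private lemma hd_qt_h4 (h : ℕ) {X Q : Matrix m m ℂ} (hX : Xᵀ * Q + Q * X = 0) (j : Fin (h * 2) → m) :
    HasDerivAt (fun c : ℂ => qt_h4 h ((1 - c • X)ᵀ * Q * (1 - c • X)) j) 0 0 := by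
  have h1 : ∀ c : ℂ, (1 - c • X)ᵀ * Q * (1 - c • X) = Q + c ^ 2 • (Xᵀ * Q * X) := by
    intro c
    have h2 : (1 - c • X)ᵀ * Q * (1 - c • X) = Q - c • (Xᵀ * Q + Q * X) + c ^ 2 • (Xᵀ * Q * X) := by
      rw [Matrix.transpose_sub, Matrix.transpose_one, Matrix.transpose_smul, sub_mul, one_mul, mul_sub, mul_one,
        sub_mul, smul_mul_assoc, mul_smul_comm, smul_mul_assoc, mul_smul_comm, smul_smul, smul_add, pow_two]
      abel
    rw [h2, hX, smul_zero, sub_zero]
  simp_rw [h1]
  unfold qt_h4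
  have h4 : ∀ k : Fin h, HasDerivAt (fun c : ℂ => (Q + c ^ 2 • (Xᵀ * Q * X)) (j (finProdFinEquiv (k, 0)))
      (j (finProdFinEquiv (k, 1)))) 0 0 := by
    intro k
    have h6 : (fun c : ℂ => (Q + c ^ 2 • (Xᵀ * Q * X)) (j (finProdFinEquiv (k, 0))) (j (finProdFinEquiv (k, 1)))) =
        fun c : ℂ => Q (j (finProdFinEquiv (k, 0))) (j (finProdFinEquiv (k, 1))) +
          c ^ 2 * (Xᵀ * Q * X) (j (finProdFinEquiv (k, 0))) (j (finProdFinEquiv (k, 1))) := by
      funext c
      rw [Matrix.add_apply, Matrix.smul_apply, smul_eq_mul]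
    rw [h6]
    have h5 := ((hasDerivAt_pow 2 (0 : ℂ)).mul_const
      ((Xᵀ * Q * X) (j (finProdFinEquiv (k, 0))) (j (finProdFinEquiv (k, 1))))).const_add
      (Q (j (finProdFinEquiv (k, 0))) (j (finProdFinEquiv (k, 1))))
    simpa using h5
  have h7 := HasDerivAt.fun_finsetProd (u := (Finset.univ : Finset (Fin h))) (fun k _ => h4 k)
  simpa using h7

end gen

private lemma J0_h4 (a : Matrix (Fin 2) (Fin 2) ℂ) : a * J0 * aᵀ = a.det • J0 := by
  ext i j
  fin_cases i <;> fin_cases j <;>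
    simp [J0, Matrix.mul_apply, Fin.sum_univ_two, Matrix.det_fin_two] <;> ring

/-- the tensor in the coordinates -/
private def ut_h4 (h : ℕ) : (Fin (h * 2) → Fin 2 × Fin (h * 2)) → ℂ :=
  fun w => qt_h4 h J0 (fun k => (w k).1) * ep_h4 (Equiv.refl (Fin (h * 2))) (fun k => (w k).2)

private lemma act_ut_h4 (h : ℕ) (a : Matrix (Fin 2) (Fin 2) ℂ) (b : Matrix (Fin (h * 2)) (Fin (h * 2)) ℂ) :
    actF (fun _ => kr a b) (ut_h4 h) = (a.det ^ h * b.det) • ut_h4 h := by
  funext w
  have h1 : actF (fun _ => kr a b) (ut_h4 h) w =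
      actF (fun _ => a) (qt_h4 h J0) (fun k => (w k).1) *
        actF (fun _ => b) (ep_h4 (Equiv.refl (Fin (h * 2)))) (fun k => (w k).2) := by
    unfold actF
    rw [Finset.sum_mul_sum, ← Fintype.sum_prod_type']
    refine Fintype.sum_equiv (Equiv.arrowProdEquivProdArrow (Fin (h * 2)) (fun _ => Fin 2)
      (fun _ => Fin (h * 2))) _ _ fun j => ?_
    simp only [kroneckerMap_apply, Finset.prod_mul_distrib, ut_h4, Equiv.arrowProdEquivProdArrow, Equiv.coe_fn_mk]
    ring
  rw [h1, act_qt_h4, J0_h4, qt_smul_h4, act_ep_h4]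
  simp only [Pi.smul_apply, smul_eq_mul, ut_h4]
  ring

private lemma ut_ne_h4 (h : ℕ) : ut_h4 h ≠ 0 := by
  intro h0
  have h1 := congrFun h0 (fun k => (if (finProdFinEquiv.symm k).2 = 0 then (0 : Fin 2) else 1, k))
  have h2 : qt_h4 h J0 (fun k => if (finProdFinEquiv.symm k).2 = 0 then (0 : Fin 2) else 1) ≠ 0 :=
    qt_ne_h4 (by simp [J0]) h
  have h3 : ep_h4 (Equiv.refl (Fin (h * 2))) (fun k => k) = 1 := ep_self_h4 _
  simp only [ut_h4, Pi.zero_apply] at h1
  rw [h3, mul_one] at h1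
  exact h2 h1

section main

variable {h : ℕ} {T Ti : Matrix n n ℂ} {e : n ≃ Fin 2 × Fin (h * 2)}

private def uu_h4 (h : ℕ) (T : Matrix n n ℂ) (e : n ≃ Fin 2 × Fin (h * 2)) : (Fin (h * 2) → n) → ℂ :=
  actF (fun _ => T) (fun i => ut_h4 h (fun k => e (i k)))

private lemma act_uu_h4 (h2 : Ti * T = 1) (a : Matrix (Fin 2) (Fin 2) ℂ) (b : Matrix (Fin (h * 2)) (Fin (h * 2)) ℂ) :
    actF (fun _ => tz T Ti e (kr a b)) (uu_h4 h T e) = (a.det ^ h * b.det) • uu_h4 h T e := by
  unfold uu_h4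
  have h3 : tz T Ti e (kr a b) * T = T * (kr a b).submatrix e e := by
    unfold tz
    rw [Matrix.mul_assoc, h2, Matrix.mul_one]
  rw [actF_mul]
  simp_rw [h3]
  rw [← actF_mul (fun _ => T) (fun _ => (kr a b).submatrix e e), act_re_h4, act_ut_h4, ← actF_smul]
  rfl

private lemma uu_ne_h4 (h2 : Ti * T = 1) : uu_h4 h T e ≠ 0 := by
  intro h0
  have h1 : actF (fun _ => Ti) (uu_h4 h T e) = fun i => ut_h4 h (fun k => e (i k)) := by
    unfold uu_h4
    rw [actF_mul]
    simp_rw [h2]
    rw [actF_one]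
  rw [h0, actF_zero] at h1
  apply ut_ne_h4 h
  funext w
  have h3 := congrFun h1 (fun k => e.symm (w k))
  simp only [Pi.zero_apply, Equiv.apply_symm_apply] at h3
  exact h3.symm

private lemma kill_h4 {Q X : Matrix n n ℂ} (h2 : Ti * T = 1) (hX : Xᵀ * Q + Q * X = 0)
    {A : ℂ → Matrix (Fin 2) (Fin 2) ℂ} {B : ℂ → Matrix (Fin (h * 2)) (Fin (h * 2)) ℂ}
    (hAB : ∀ c : ℂ, 1 + c • X = tz T Ti e (kr (A c) (B c)))
    (hd : HasDerivAt (fun c : ℂ => (A c).det ^ h * (B c).det) 0 0) :
    dL (h * 2) (h * 2) (pt_h4 (uu_h4 h T e) (qt_h4 h Q)) X = 0 := by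
  funext i
  rw [dL_apply, Pi.zero_apply]
  have k1 := hd_act_h4 (lslot (h * 2) (h * 2) X) (pt_h4 (uu_h4 h T e) (qt_h4 h Q)) i
  have k2 : (fun c : ℂ => actF (fun k => 1 + c • lslot (h * 2) (h * 2) X k)
      (pt_h4 (uu_h4 h T e) (qt_h4 h Q)) i) =
      fun c : ℂ => (A c).det ^ h * (B c).det * uu_h4 h T e (fun k => i (Sum.inl k)) *
        qt_h4 h ((1 - c • X)ᵀ * Q * (1 - c • X)) (fun k => i (Sum.inr k)) := by
    funext c
    have k3 : (fun k => 1 + c • lslot (h * 2) (h * 2) X k) = slot (h * 2) (h * 2) (1 + c • X) (1 - c • X) := by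
      funext k
      rcases k with k | k
      · rfl
      · change 1 + c • (-Xᵀ) = (1 - c • X)ᵀ
        rw [Matrix.transpose_sub, Matrix.transpose_one, Matrix.transpose_smul, smul_neg, sub_eq_add_neg]
    rw [k3, act_pt_h4, hAB, act_uu_h4 h2, act_qt_h4, Matrix.transpose_transpose]
    rfl
  rw [k2] at k1
  have k4 := (hd.mul_const (uu_h4 h T e (fun k => i (Sum.inl k)))).mul
    (hd_qt_h4 h hX (fun k => i (Sum.inr k)))
  have k5 := k1.unique k4
  rw [k5]
  simp

end main

theorem TT.det_one {Q' : Matrix n n ℂ} {L : Submodule ℂ (Matrix n n ℂ)} {G Gi : Matrix (Fin q) (Fin q) ℂ}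
    (H : TT Q' L e T Ti G Gi) (hq : Even q) {g g' : Matrix n n ℂ} (g1 : g * g' = 1) (g2 : g' * g = 1)
    {a : Matrix (Fin 2) (Fin 2) ℂ} {b : Matrix (Fin q) (Fin q) ℂ} (hg : g = tz T Ti e (kr a b))
    (hb : bᵀ * G * b = G)
    (hfix : ∀ t : (Fin q ⊕ Fin q → n) → ℂ, (∀ X ∈ L, dL q q t X = 0) → actF (slot q q g g') t = t) :
    b.det = 1 := by
  obtain ⟨h, rfl⟩ : ∃ h, q = h * 2 := by
    obtain ⟨r, hr⟩ := hq
    exact ⟨r, by omega⟩
  have hG1 : Gi * G = 1 := mul_eq_one_comm.1 H.G1
  -- the determinant of the first factor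
  have hc : a.det ≠ 0 := by
    intro h0
    have e1 : (tz T Ti e (kr a b)).det = 0 := by
      unfold tz
      rw [Matrix.det_mul, Matrix.det_mul, Matrix.det_submatrix_equiv_self]
      have : (kr a b).det = 0 := by
        rw [Matrix.det_kronecker, h0]
        have := H.big
        rw [Fintype.card_fin, zero_pow (by omega), zero_mul]
      rw [this, mul_zero, zero_mul]
    have e2 := congrArg Matrix.det g1
    rw [Matrix.det_mul, hg, e1, zero_mul, Matrix.det_one] at e2
    exact zero_ne_one e2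
  have hsim : gᵀ * Q' * g = a.det • Q' := by
    rw [hg]
    exact (sim_iff H.T1 H.T2 H.form).2 (by rw [hb])
  have hsim' : g'ᵀ * Q' * g' = (a.det)⁻¹ • Q' := by
    have e1 : g'ᵀ * gᵀ = 1 := by rw [← Matrix.transpose_mul, g1, Matrix.transpose_one]
    have e2 : g'ᵀ * (gᵀ * Q' * g) * g' = Q' := by
      calc g'ᵀ * (gᵀ * Q' * g) * g' = (g'ᵀ * gᵀ) * Q' * (g * g') := by simp only [Matrix.mul_assoc]
        _ = Q' := by rw [e1, g1, Matrix.one_mul, Matrix.mul_one]
    rw [hsim, mul_smul_comm, smul_mul_assoc] at e2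
    calc g'ᵀ * Q' * g' = (a.det)⁻¹ • (a.det • (g'ᵀ * Q' * g')) := by
          rw [smul_smul, inv_mul_cancel₀ hc, one_smul]
      _ = _ := by rw [e2]
  -- the form does not vanish
  obtain ⟨x0, y0, hxy⟩ : ∃ x y, Q' x y ≠ 0 := by
    by_contra hcon
    push Not at hcon
    have hQ0 : Q' = 0 := by
      ext x y
      exact hcon x y
    have e1 := H.form
    rw [hQ0, Matrix.mul_zero, Matrix.zero_mul] at e1
    have hG0 : G = 0 := by
      ext k l
      have e2 := congrFun (congrFun e1 (e.symm (0, k))) (e.symm (1, l))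
      simp only [Matrix.zero_apply, submatrix_apply, Equiv.apply_symm_apply, kroneckerMap_apply] at e2
      have e3 : J0 0 1 = 1 := by simp [J0]
      rw [e3, one_mul] at e2
      rw [← e2, Matrix.zero_apply]
    have e4 := H.G1
    rw [hG0, Matrix.zero_mul] at e4
    have hb5 := H.big
    have e5 := congrFun (congrFun e4 ⟨0, by omega⟩) ⟨0, by omega⟩
    rw [Matrix.zero_apply, Matrix.one_apply_eq] at e5
    exact zero_ne_one e5
  set t := pt_h4 (uu_h4 h T e) (qt_h4 h Q') with ht
  have hact : actF (slot (h * 2) (h * 2) g g') t = b.det • t := by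
    funext i
    rw [ht, act_pt_h4, hg, act_uu_h4 H.T2, act_qt_h4, Matrix.transpose_transpose, hsim', qt_smul_h4]
    simp only [Pi.smul_apply, smul_eq_mul, pt_h4]
    have e1 : a.det ^ h * (a.det)⁻¹ ^ h = 1 := by rw [← mul_pow, mul_inv_cancel₀ hc, one_pow]
    linear_combination (b.det * uu_h4 h T e (fun k => i (Sum.inl k)) * qt_h4 h Q' (fun k => i (Sum.inr k))) * e1
  have htne : t ≠ 0 := by
    intro h0
    obtain ⟨i1, hi1⟩ := Function.ne_iff.1 (uu_ne_h4 (h := h) (T := T) (Ti := Ti) (e := e) H.T2)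
    have e1 := congrFun h0 (Sum.elim i1 (fun k => if (finProdFinEquiv.symm k).2 = 0 then x0 else y0))
    simp only [ht, pt_h4, Sum.elim_inl, Sum.elim_inr, Pi.zero_apply] at e1
    rcases mul_eq_zero.1 e1 with e2 | e2
    · exact hi1 e2
    · exact qt_ne_h4 hxy h e2
  have hkill : ∀ X ∈ L, dL (h * 2) (h * 2) t X = 0 := by
    intro X hX
    obtain ⟨x, z, hx, hz, rfl⟩ := (H.mem X).1 hX
    rw [tz_add, map_add]
    have htz : z.trace = 0 := by
      have e1 : z = -(Gi * zᵀ * G) := by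
        have e2 : Gi * (zᵀ * G + G * z) = 0 := by rw [hz, Matrix.mul_zero]
        rw [Matrix.mul_add, ← Matrix.mul_assoc, ← Matrix.mul_assoc, hG1, Matrix.one_mul] at e2
        exact eq_neg_of_add_eq_zero_right e2
      have e3 : z.trace = -z.trace := by
        conv_lhs => rw [e1]
        rw [Matrix.trace_neg, Matrix.trace_mul_comm, ← Matrix.mul_assoc, H.G1, Matrix.one_mul,
          Matrix.trace_transpose]
      linear_combination (1 / 2) * e3
    have k1 : dL (h * 2) (h * 2) t (tz T Ti e (kr x 1)) = 0 := by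
      have s1 := (skew_iff H.T1 H.T2 H.form (z := 0) hx).2 (by simp)
      have s2 : kr x (1 : Matrix (Fin (h * 2)) (Fin (h * 2)) ℂ) + kr 1 0 = kr x 1 := by
        ext i j
        simp [kroneckerMap_apply]
      rw [s2] at s1
      refine kill_h4 H.T2 s1 (A := fun c => 1 + c • x) (B := fun _ => 1) ?_ ?_
      · intro c
        have e1 : kr (1 + c • x) (1 : Matrix (Fin (h * 2)) (Fin (h * 2)) ℂ) = 1 + c • kr x 1 := by
          rw [← kr_one]
          ext i j
          simp only [kroneckerMap_apply, Matrix.add_apply, Matrix.smul_apply, smul_eq_mul]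
          ring
        rw [e1, tz_add, tz_one H.T1, tz_smul]
      · have e1 := (hd_det_h4 x).fun_pow h
        rw [hx, mul_zero] at e1
        simpa using e1
    have k2 : dL (h * 2) (h * 2) t (tz T Ti e (kr 1 z)) = 0 := by
      have s1 := (skew_iff H.T1 H.T2 H.form (x := 0) (z := z) (by simp)).2 hz
      have s2 : kr (0 : Matrix (Fin 2) (Fin 2) ℂ) (1 : Matrix (Fin (h * 2)) (Fin (h * 2)) ℂ) + kr 1 z = kr 1 z := by
        ext i j
        simp [kroneckerMap_apply]
      rw [s2] at s1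
      refine kill_h4 H.T2 s1 (A := fun _ => 1) (B := fun c => 1 + c • z) ?_ ?_
      · intro c
        have e1 : kr (1 : Matrix (Fin 2) (Fin 2) ℂ) (1 + c • z) = 1 + c • kr 1 z := by
          rw [← kr_one]
          ext i j
          simp only [kroneckerMap_apply, Matrix.add_apply, Matrix.smul_apply, smul_eq_mul]
          ring
        rw [e1, tz_add, tz_one H.T1, tz_smul]
      · have e1 := hd_det_h4 z
        rw [htz] at e1
        simpa using e1
    rw [k1, k2, add_zero]
  have hfin := hfix t hkill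
  rw [hact] at hfin
  obtain ⟨i, hi⟩ := Function.ne_iff.1 htne
  have e1 := congrFun hfin i
  rw [Pi.smul_apply, smul_eq_mul] at e1
  exact mul_right_cancel₀ hi (by rw [e1, one_mul])

end OW
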