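import Pool.Agent.Helper71.OW.FullO

/-!
OW-27. The Lie algebra theorem for a family of projections indexed by the integers, in odd weight `2 m + 1`.
-/

set_option linter.unusedSectionVars false

open Matrix MH

namespace OW

variable {n : Type*} [Fintype n] [DecidableEq n]

/-- `Indec` is invariant under translation -/
theorem Indec.shift {r : ℤ → ℕ} (h : Indec r) (c : ℤ) : Indec (fun p => r (p + c)) := by
  intro A B hAB
  have h1 := h (A.embDomain (Equiv.addRight c).toEmbedding) B (by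
    intro p
    rw [Finsupp.sum_embDomain]
    have h2 := hAB (p - c)
    simp only [sub_add_cancel] at h2
    rw [h2]
    refine Finsupp.sum_congr fun i _ => ?_
    congr 2
    show p - c - i = p - (i + c)
    ring)
  rwa [Finsupp.sum_embDomain] at h1

/-- the middle index -/
private noncomputable def mid71 (m : ℤ) : ℝ := (m : ℝ) + 1 / 2

/-- the spectral projections of `∑ (p - (m + 1/2)) • A p` -/
private noncomputable def sp71 (m : ℤ) (A : ℤ → Matrix n n ℂ) (S : Finset ℤ) (μ : ℝ) : Matrix n n ℂ :=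
  ∑ p ∈ S.filter (fun p : ℤ => ((p : ℝ) - mid71 m) = μ), A p

variable {A : ℤ → Matrix n n ℂ} {S : Finset ℤ}

private theorem sp71_eq (m : ℤ) (hs : ∀ p, p ∉ S → A p = 0) (p : ℤ) : sp71 m A S ((p : ℝ) - mid71 m) = A p := by
  unfold sp71
  by_cases hp : p ∈ S
  · rw [Finset.sum_eq_single p]
    · intro q hq hqp
      rw [Finset.mem_filter] at hq
      exfalso
      apply hqp
      have h1 : (q : ℝ) = p := by linarith [hq.2]
      exact_mod_cast h1
    · intro h
      apply absurd _ h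
      rw [Finset.mem_filter]
      exact ⟨hp, rfl⟩
  · rw [hs p hp]
    refine Finset.sum_eq_zero fun q hq => ?_
    rw [Finset.mem_filter] at hq
    have h1 : (q : ℝ) = p := by linarith [hq.2]
    have h2 : q = p := by exact_mod_cast h1
    exact absurd (h2 ▸ hq.1) hp

private theorem sp71_zero {m : ℤ} {μ : ℝ} (hμ : ∀ p ∈ S, ((p : ℝ) - mid71 m) ≠ μ) : sp71 m A S μ = 0 := by
  unfold sp71
  refine Finset.sum_eq_zero fun q hq => ?_
  rw [Finset.mem_filter] at hq
  exact absurd hq.2 (hμ q hq.1)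

private theorem inj71 (m : ℤ) : ∀ p ∈ S, ∀ q ∈ S, ((p : ℝ) - mid71 m) = ((q : ℝ) - mid71 m) → p = q := by
  intro p _ q _ h
  have h1 : (p : ℝ) = q := by linarith
  exact_mod_cast h1

private theorem sp71_sd (m : ℤ) (hmul : ∀ p q, A p * A q = if p = q then A p else 0) (hsum : ∑ p ∈ S, A p = 1)
    (hs : ∀ p, p ∉ S → A p = 0) :
    SD ((∑ p ∈ S, (p : ℂ) • A p) - (mid71 m : ℂ) • (1 : Matrix n n ℂ)) (sp71 m A S)
      (S.image fun p : ℤ => ((p : ℝ) - mid71 m)) := by
  refine ⟨?_, ?_, ?_⟩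
  · intro μ ν
    by_cases hμ : ∃ p ∈ S, ((p : ℝ) - mid71 m) = μ
    · obtain ⟨p, hp, rfl⟩ := hμ
      by_cases hν : ∃ q ∈ S, ((q : ℝ) - mid71 m) = ν
      · obtain ⟨q, hq, rfl⟩ := hν
        rw [sp71_eq m hs, sp71_eq m hs, hmul]
        by_cases hpq : p = q
        · rw [if_pos hpq, if_pos (by rw [hpq])]
        · rw [if_neg hpq, if_neg (fun h => hpq (inj71 m p hp q hq h))]
      · push Not at hν
        rw [sp71_zero hν, mul_zero, if_neg]
        exact hν p hp
    · push Not at hμ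
      rw [sp71_zero hμ, zero_mul]
      split_ifs <;> rfl
  · rw [Finset.sum_image (inj71 m), ← hsum]
    exact Finset.sum_congr rfl fun p _ => sp71_eq m hs p
  · rw [Finset.sum_image (inj71 m)]
    have h1 : (mid71 m : ℂ) • (1 : Matrix n n ℂ) = ∑ p ∈ S, (mid71 m : ℂ) • A p := by
      rw [← Finset.smul_sum, hsum]
    rw [h1, ← Finset.sum_sub_distrib]
    refine Finset.sum_congr rfl fun p _ => ?_
    rw [sp71_eq m hs, ← sub_smul]
    push_cast
    rfl

/-- the element `∑ p • A p` minus half the weight -/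
noncomputable def hm (m : ℤ) (A : ℤ → Matrix n n ℂ) (S : Finset ℤ) : Matrix n n ℂ :=
  (∑ p ∈ S, (p : ℂ) • A p) - ((m : ℂ) + 1 / 2) • (1 : Matrix n n ℂ)

private theorem hm_eq (m : ℤ) : hm m A S = (∑ p ∈ S, (p : ℂ) • A p) - (mid71 m : ℂ) • (1 : Matrix n n ℂ) := by
  unfold hm mid71
  push_cast
  rfl

/-- The Hodge numbers in weight `2 m + 1`. -/
structure Num (m : ℤ) (r : ℤ → ℕ) (S : Finset ℤ) (N : ℕ) (s : ℕ) : Prop where
  s_eq : s = ∑ p ∈ S.filter (fun p => m + 1 < p), r p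
  pos : 1 ≤ s
  big : s ^ 3 + 26 < r (m + 1)
  card : (4 * s + 1) ^ 2 ≤ N
  indec : Indec r

theorem full_fam {m : ℤ} {Q' Qi : Matrix n n ℂ} (hQs : Q'ᵀ = -Q') (hQ1 : Q' * Qi = 1) (hQ2 : Qi * Q' = 1)
    {L : Submodule ℂ (Matrix n n ℂ)} (hbr : ∀ X ∈ L, ∀ Y ∈ L, X * Y - Y * X ∈ L)
    (hcom : ∀ T : Matrix n n ℂ, (∀ X ∈ L, T * X = X * T) → ∃ c : ℂ, T = c • (1 : Matrix n n ℂ))
    (hsk : ∀ X ∈ L, Xᵀ * Q' + Q' * X = 0) (hmul : ∀ p q, A p * A q = if p = q then A p else 0)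
    (hsum : ∑ p ∈ S, A p = 1) (hsupp : ∀ p, p ∉ S → A p = 0) (hh : hm m A S ∈ L) {s : ℕ}
    (hN : Num m (fun p => (A p).rank) S (Fintype.card n) s)
    (hherm : ∀ (E : ℝ → Matrix n n ℂ) (Λ : Finset ℝ), SD (hm m A S) E Λ → ∃ B Bi : Matrix n n ℂ, B * Bi = 1 ∧
      Bi * B = 1 ∧ (cj B Bi (hm m A S))ᴴ = cj B Bi (hm m A S) ∧ ∀ X ∈ L, cj Bi B (cj B Bi X)ᴴ ∈ L)
    {X : Matrix n n ℂ} (hX : Xᵀ * Q' + Q' * X = 0) : X ∈ L := by
  classical
  have hsd := sp71_sd m hmul hsum hsupp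
  rw [← hm_eq] at hsd
  have hsh : ∀ p : ℤ, sp71 m A S ((p : ℝ) + 1 / 2) = A (p + (m + 1)) := by
    intro p
    rw [← sp71_eq m hsupp (p + (m + 1))]
    congr 1
    unfold mid71
    push_cast
    ring
  refine full_of_com hQs hQ1 hQ2 hbr hcom hsk hh hsd ?_ ?_ (s := s) ?_ hN.pos ?_ hN.card
    (hherm _ _ hsd) hX
  · intro μ hμ
    by_contra hc
    apply hμ
    apply sp71_zero
    intro p _ hp
    apply hc
    refine ⟨p - (m + 1), ?_⟩
    rw [← hp]
    unfold mid71
    push_cast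
    ring
  · simp only [hsh]
    exact hN.indec.shift (m + 1)
  · rw [hN.s_eq, Finset.sum_filter, Finset.sum_filter, Finset.sum_image (inj71 m)]
    refine Finset.sum_congr rfl fun p _ => ?_
    rw [sp71_eq m hsupp]
    have e1 : (1 / 2 : ℝ) < (p : ℝ) - mid71 m ↔ m + 1 < p := by
      unfold mid71
      constructor
      · intro h
        have h2 : ((m + 1 : ℤ) : ℝ) < (p : ℝ) := by
          push_cast
          linarith
        exact_mod_cast h2
      · intro h
        have h2 : ((m + 1 : ℤ) : ℝ) < (p : ℝ) := by exact_mod_cast h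
        push_cast at h2
        linarith
    simp only [e1]
  · have h1 := hsh 0
    rw [Int.cast_zero, zero_add, zero_add] at h1
    rw [h1]
    exact hN.big

/-- no common divisor -/
theorem Num.gcd {m : ℤ} {r : ℤ → ℕ} {N s : ℕ} (h : Num m r S N s) (hs : ∀ p, p ∉ S → r p = 0)
    (d : ℕ) (hd : ∀ p, d ∣ r p) : d = 1 := by
  classical
  have h0 : 0 < r (m + 1) := by
    have := h.big
    omega
  have hdpos : 0 < d := Nat.pos_of_dvd_of_pos (hd (m + 1)) h0
  by_contra hd1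
  have hmem : m + 1 ∈ S := by
    by_contra hc
    rw [hs _ hc] at h0
    omega
  -- the quotient
  let B : ℤ →₀ ℕ := Finsupp.onFinset S (fun p => r p / d) (by
    intro p hp
    by_contra hc
    apply hp
    rw [hs p hc, Nat.zero_div])
  have hB : ∀ p, B p = r p / d := fun p => rfl
  have h1 := h.indec (Finsupp.single 0 d) B (by
    intro p
    rw [Finsupp.sum_single_index (by rw [zero_mul]), sub_zero, hB, Nat.mul_div_cancel' (hd p)])
  rcases h1 with h1 | h1
  · rw [Finsupp.sum_single_index rfl] at h1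
    omega
  · -- the sum of `B` is at least two
    obtain ⟨q, hq1, hq2⟩ : ∃ q : ℤ, m + 1 < q ∧ 0 < r q := by
      by_contra hc
      push Not at hc
      have h2 : s = 0 := by
        rw [h.s_eq]
        refine Finset.sum_eq_zero fun p hp => ?_
        have := hc p (Finset.mem_filter.1 hp).2
        omega
      have := h.pos
      omega
    have hqS : q ∈ S := by
      by_contra hc
      rw [hs _ hc] at hq2
      omega
    have h2 : 1 ≤ B q := by
      rw [hB]
      exact (Nat.one_le_div_iff hdpos).2 (Nat.le_of_dvd hq2 (hd q))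
    have h3 : 1 ≤ B (m + 1) := by
      rw [hB]
      exact (Nat.one_le_div_iff hdpos).2 (Nat.le_of_dvd h0 (hd (m + 1)))
    have h4 : B (m + 1) + B q ≤ B.sum fun _ b => b := by
      rw [Finsupp.sum]
      have h5 : ∑ p ∈ ({m + 1, q} : Finset ℤ), B p ≤ ∑ p ∈ B.support, B p := by
        apply Finset.sum_le_sum_of_subset
        intro p hp
        rw [Finset.mem_insert, Finset.mem_singleton] at hp
        rw [Finsupp.mem_support_iff]
        rcases hp with rfl | rfl <;> omega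
      rwa [Finset.sum_pair (by omega)] at h5
    omega

/-- The Hodge numbers in weight `2 m + 1`, without common divisor. -/
structure NumD (m : ℤ) (r : ℤ → ℕ) (S : Finset ℤ) (N : ℕ) (s : ℕ) : Prop where
  s_eq : s = ∑ p ∈ S.filter (fun p => m + 1 < p), r p
  pos : 1 ≤ s
  big : s ^ 3 + 26 < r (m + 1)
  card : (4 * s + 1) ^ 2 ≤ N
  gcd : ∀ d : ℕ, (∀ p, d ∣ r p) → d = 1

theorem dich_fam {m : ℤ} {Q' Qi : Matrix n n ℂ} (hQs : Q'ᵀ = -Q') (hQ1 : Q' * Qi = 1) (hQ2 : Qi * Q' = 1)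
    {L : Submodule ℂ (Matrix n n ℂ)} (hbr : ∀ X ∈ L, ∀ Y ∈ L, X * Y - Y * X ∈ L)
    (hcom : ∀ T : Matrix n n ℂ, (∀ X ∈ L, T * X = X * T) → ∃ c : ℂ, T = c • (1 : Matrix n n ℂ))
    (hsk : ∀ X ∈ L, Xᵀ * Q' + Q' * X = 0) (hmul : ∀ p q, A p * A q = if p = q then A p else 0)
    (hsum : ∑ p ∈ S, A p = 1) (hsupp : ∀ p, p ∉ S → A p = 0) (hh : hm m A S ∈ L) {s : ℕ}
    (hN : NumD m (fun p => (A p).rank) S (Fintype.card n) s)
    (hherm : ∀ (E : ℝ → Matrix n n ℂ) (Λ : Finset ℝ), SD (hm m A S) E Λ → ∃ B Bi : Matrix n n ℂ, B * Bi = 1 ∧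
      Bi * B = 1 ∧ (cj B Bi (hm m A S))ᴴ = cj B Bi (hm m A S) ∧ ∀ X ∈ L, cj Bi B (cj B Bi X)ᴴ ∈ L) :
    (∀ X : Matrix n n ℂ, Xᵀ * Q' + Q' * X = 0 → X ∈ L) ∨ ((∃ (q : ℕ) (e : n ≃ Fin 2 × Fin q) (T Ti : Matrix n n ℂ)
      (G Gi : Matrix (Fin q) (Fin q) ℂ), TT Q' L e T Ti G Gi) ∧
        ∃ c : ℤ → ℕ, ∀ p : ℤ, (A p).rank = c p + c (p + 1)) := by
  classical
  have hsd := sp71_sd m hmul hsum hsupp
  rw [← hm_eq] at hsd
  have hsh : ∀ p : ℤ, sp71 m A S ((p : ℝ) + 1 / 2) = A (p + (m + 1)) := by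
    intro p
    rw [← sp71_eq m hsupp (p + (m + 1))]
    congr 1
    unfold mid71
    push_cast
    ring
  have key : ∀ {X Y : Prop}, (X ∨ (Y ∧ ∃ c : ℤ → ℕ, ∀ p : ℤ, (sp71 m A S ((p : ℝ) + 1 / 2)).rank = c p + c (p + 1))) →
      X ∨ (Y ∧ ∃ c : ℤ → ℕ, ∀ p : ℤ, (A p).rank = c p + c (p + 1)) := by
    rintro X Y (h | ⟨h, c, hc⟩)
    · exact Or.inl h
    · refine Or.inr ⟨h, fun p => c (p - (m + 1)), fun p => ?_⟩
      have h1 := hc (p - (m + 1))
      rw [hsh, sub_add_cancel] at h1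
      rw [h1]
      congr 2
      ring
  refine key (dich_of_com hQs hQ1 hQ2 hbr hcom hsk hh hsd ?_ ?_ (s := s) ?_ hN.pos ?_ hN.card
    (hherm _ _ hsd))
  · intro μ hμ
    by_contra hc
    apply hμ
    apply sp71_zero
    intro p _ hp
    apply hc
    refine ⟨p - (m + 1), ?_⟩
    rw [← hp]
    unfold mid71
    push_cast
    ring
  · intro d hd
    apply hN.gcd
    intro p
    have h1 := hd ((p : ℝ) - mid71 m)
    rwa [sp71_eq m hsupp] at h1
  · rw [hN.s_eq, Finset.sum_filter, Finset.sum_filter, Finset.sum_image (inj71 m)]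
    refine Finset.sum_congr rfl fun p _ => ?_
    rw [sp71_eq m hsupp]
    have e1 : (1 / 2 : ℝ) < (p : ℝ) - mid71 m ↔ m + 1 < p := by
      unfold mid71
      constructor
      · intro h
        have h2 : ((m + 1 : ℤ) : ℝ) < (p : ℝ) := by
          push_cast
          linarith
        exact_mod_cast h2
      · intro h
        have h2 : ((m + 1 : ℤ) : ℝ) < (p : ℝ) := by exact_mod_cast h
        push_cast at h2
        linarith
    simp only [e1]
  · have h1 := hsh 0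
    rw [Int.cast_zero, zero_add, zero_add] at h1
    rw [h1]
    exact hN.big

end OW
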