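import Pool.Agent.Helper71.OW.Bd
import Pool.Agent.Helper71.CY.CaseA
import Pool.Agent.Helper98.GH.One

/-!
OW-10. Level one, the result. Proof. Let `a` be the largest eigenvalue (`a ≥ 3/2` by `non`, `half`).
(a) `a ≥ 5/2`: `finrank J ≤ rk (E a) rk (E (a - 1))`, `N ≤ finrank J * rk (E (3/2))`, and `rk (E μ) ≤ s` for `μ > 1/2`: `N ≤ s ^ 3`.
(b) `a = 3/2`, `s ≥ 2`: `Lv.bound`; `3 s (s + 1) ≤ s ^ 3 + 26` for all `s`.
(c) `a = 3/2`, `s = 1`: `E (3/2) = v vᴴ` (`vecMulVec v (star v)`, `v` a unit vector), `CY.Top` (CY/Defs; `oth` by `half`), the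
structure `CY.Lev1` with `N = rk (E (1/2))`; `exists_f` (CY/Lev) gives `f`; if `kap f` is not a multiple of `h`, `exists_split`
(CY/Kap) gives `A, B ≠ ⊥` in `Ld L h (-1)`, stable under degree `0`, with `aᴴ b = b aᴴ`: by `jirr` `A = B = J`, so `aᴴ a = a aᴴ` for
`a ∈ J`, `a` is normal and nilpotent (degree `-1`), `a = 0`, against `J_ne`. So `kap f = k • h` and `Lev1.caseA`: `N ≤ 27`.
-/

open Matrix MH

namespace OW

variable {n : Type*} [Fintype n] [DecidableEq n]
variable {h : Matrix n n ℂ} {E : ℝ → Matrix n n ℂ} {Λ : Finset ℝ} {J Ji : Matrix n n ℂ}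
variable {τ : Matrix n n ℂ →ₗ[ℂ] Matrix n n ℂ} {L : Submodule ℂ (Matrix n n ℂ)}

private lemma dot_self21 {w : n → ℂ} (h0 : star w ⬝ᵥ w = 0) : w = 0 := by
  open ComplexOrder in
  exact dotProduct_star_self_eq_zero.1 h0

/-- the case of multiplicity one -/
private lemma one21 (V : Lv τ L h E Λ) (Y : CY.Sym J Ji τ) (htop : ∀ μ : ℝ, 3 / 2 < μ → E μ = 0)
    (h1 : (E (3 / 2)).rank = 1) : (E (1 / 2)).rank ≤ 27 := by
  have D := V.dat
  obtain ⟨v, hv1, hv⟩ := GH.exists_vec98 (p := E (3 / 2)) (by rw [D.spec.mul, if_pos rfl]) (D.spec.star _) h1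
  have hneg : ∀ μ : ℝ, E μ ≠ 0 → E (-μ) ≠ 0 := by
    intro μ hμ h0
    apply hμ
    have h2 := D.tauE (-μ)
    rw [h0, map_zero, neg_neg] at h2
    exact h2.symm
  have T : CY.Top τ L h E Λ J Ji v := by
    refine ⟨D, Y, hv1, hv, ?_⟩
    intro μ hμ
    obtain ⟨k, hk⟩ := V.half μ hμ
    have h2 : μ ≤ 3 / 2 := by
      by_contra hc
      push Not at hc
      exact hμ (htop μ hc)
    have h3 : -μ ≤ 3 / 2 := by
      by_contra hc
      push Not at hc
      exact hneg μ hμ (htop _ hc)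
    have h4 : (k : ℝ) ≤ 1 := by linarith
    have h5 : (-2 : ℝ) ≤ k := by linarith
    have h6 : k ≤ 1 := by exact_mod_cast h4
    have h7 : -2 ≤ k := by exact_mod_cast h5
    have h8 : k = -2 ∨ k = -1 ∨ k = 0 ∨ k = 1 := by omega
    rcases h8 with h8 | h8 | h8 | h8 <;> rw [hk, h8]
    · right; left; norm_num
    · right; right; constructor <;> norm_num
    · right; right; constructor <;> norm_num
    · left; norm_num
  have W := T.lev1 (fun ν hν => V.lev ν (by linarith) (by linarith) (by linarith))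
  obtain ⟨f, O⟩ := W.exists_f
  by_cases hk : ∃ c : ℂ, CY.kap f = c • h
  · obtain ⟨c, hc⟩ := hk
    have h2 := W.caseA O hc
    simp only [Finset.mem_insert, Finset.mem_singleton] at h2
    omega
  · exfalso
    push Not at hk
    obtain ⟨A, B, hA, hB, hA0, hB0, -, hc, hZA, hZB⟩ := W.exists_split O hk
    have hAJ : A = Ld L h (-1) := (V.jirr hA hZA).resolve_left hA0
    have hBJ : B = Ld L h (-1) := (V.jirr hB hZB).resolve_left hB0
    apply V.J_ne
    rw [eq_bot_iff]
    intro x hx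
    rw [Submodule.mem_bot]
    refine W.inj hx ?_
    have h2 : xᴴ * x = x * xᴴ := hc x (by rw [hAJ]; exact hx) x (by rw [hBJ]; exact hx)
    have h3 : xᴴ *ᵥ (x *ᵥ v) = 0 := by
      rw [Matrix.mulVec_mulVec, h2, ← Matrix.mulVec_mulVec, W.star_v hx, Matrix.mulVec_zero]
    apply dot_self21
    rw [Matrix.star_mulVec, ← Matrix.dotProduct_mulVec, h3, dotProduct_zero]

theorem Lv.final (V : Lv τ L h E Λ) (Y : CY.Sym J Ji τ) {s : ℕ}
    (hs : s = ∑ μ ∈ Λ.filter (fun μ => 1 / 2 < μ), (E μ).rank) : (E (1 / 2)).rank ≤ s ^ 3 + 26 := by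
  classical
  have D := V.dat
  have hΛ : ∀ μ, E μ ≠ 0 → μ ∈ Λ := fun μ hμ => by
    by_contra hc
    exact hμ (D.spec.supp μ hc)
  have hle : ∀ μ : ℝ, 1 / 2 < μ → (E μ).rank ≤ s := by
    intro μ hμ
    by_cases h0 : E μ = 0
    · rw [h0, Matrix.rank_zero]
      exact Nat.zero_le _
    · rw [hs]
      exact Finset.single_le_sum (f := fun μ => (E μ).rank) (fun _ _ => Nat.zero_le _)
        (Finset.mem_filter.2 ⟨hΛ μ h0, hμ⟩)
  -- the largest eigenvalue
  obtain ⟨μ0, hμ0, hE0⟩ := V.non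
  obtain ⟨a, haS, hmax⟩ := Finset.exists_max_image (Λ.filter fun μ => E μ ≠ 0) id
    ⟨μ0, Finset.mem_filter.2 ⟨hΛ μ0 hE0, hE0⟩⟩
  have haE : E a ≠ 0 := (Finset.mem_filter.1 haS).2
  have htop : ∀ μ, a < μ → E μ = 0 := by
    intro μ hμ
    by_contra h0
    have h1 := hmax μ (Finset.mem_filter.2 ⟨hΛ μ h0, h0⟩)
    simp only [id] at h1
    linarith
  have ha : 1 / 2 < a := by
    have h1 := hmax μ0 (Finset.mem_filter.2 ⟨hΛ μ0 hE0, hE0⟩)
    simp only [id] at h1
    linarith
  obtain ⟨k, hk⟩ := V.half a haE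
  have hk0 : 1 ≤ k := by
    have h1 : (0 : ℝ) < k := by linarith
    have h2 : (0 : ℤ) < k := by exact_mod_cast h1
    omega
  rcases lt_or_ge k 2 with hk2 | hk2
  · have hk1 : k = 1 := by omega
    have ha32 : a = 3 / 2 := by
      rw [hk, hk1]
      norm_num
    rw [ha32] at htop haE
    have hs1 : s = (E (3 / 2)).rank := by
      rw [hs]
      refine Finset.sum_eq_single_of_mem (3 / 2 : ℝ) (Finset.mem_filter.2 ⟨hΛ _ haE, by norm_num⟩) ?_
      intro μ hμ hne
      rw [Finset.mem_filter] at hμ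
      by_contra h0
      have h1 : E μ ≠ 0 := by
        intro h2
        rw [h2, Matrix.rank_zero] at h0
        exact h0 rfl
      obtain ⟨k', hk'⟩ := V.half μ h1
      have h2 : μ ≤ 3 / 2 := by
        by_contra hc
        push Not at hc
        exact h1 (htop μ hc)
      have h3 : (0 : ℝ) < k' := by linarith [hμ.2]
      have h4 : (k' : ℝ) ≤ 1 := by linarith
      have h5 : (0 : ℤ) < k' := by exact_mod_cast h3
      have h6 : k' ≤ 1 := by exact_mod_cast h4
      have h7 : k' = 1 := by omega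
      apply hne
      rw [hk', h7]
      norm_num
    rcases Nat.lt_or_ge s 2 with h1 | h1
    · have h2 : (E (3 / 2)).rank ≠ 0 := by
        intro h3
        exact haE (GH.rank_eq_zero98 h3)
      have h3 : (E (3 / 2)).rank = 1 := by omega
      have h4 := one21 V Y htop h3
      have h5 : s = 1 := by omega
      rw [h5]
      omega
    · rcases V.bound htop (by omega) with h2 | h2
      · rw [← hs1] at h2
        omega
      · rw [← hs1] at h2
        refine h2.trans ?_
        rcases Nat.lt_or_ge s 4 with h3 | h3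
        · interval_cases s <;> norm_num
        · nlinarith [Nat.mul_le_mul h3 (le_refl (s * s))]
  · have h1 := V.finrank_le (by linarith) haE htop
    have h2 := V.rank_le (μ := 1 / 2) ⟨μ0, hμ0, hE0⟩
    have hk2' : (2 : ℝ) ≤ k := by exact_mod_cast hk2
    have h3 := hle a ha
    have h4 := hle (a - 1) (by linarith)
    have h5 := hle (1 / 2 + 1) (by norm_num)
    calc (E (1 / 2)).rank ≤ Module.finrank ℂ (Ld L h (-1)) * (E (1 / 2 + 1)).rank := h2
      _ ≤ (s * s) * s := Nat.mul_le_mul (h1.trans (Nat.mul_le_mul h3 h4)) h5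
      _ = s ^ 3 := by ring
      _ ≤ _ := Nat.le_add_right _ _

end OW
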