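import Pool.Agent.Helper71.OW.PotO

/-!
OW-61. If all similitudes fix the Hodge tensors, all skew matrices are in the Lie algebra of the Hodge group.
-/

set_option linter.unusedSectionVars false

open Matrix

namespace MH

variable {n : Type*} [Fintype n] [DecidableEq n]
variable {m : ℤ} {Q : Matrix n n ℚ} {S : Finset ℤ} {P R : ℤ → Matrix n n ℂ}

/-- the matrices `v vᵀ Q'` span the skew matrices -/
theorem span_skew71 {Q' Qi : Matrix n n ℂ} (hs : Q'ᵀ = -Q') (h1 : Q' * Qi = 1) (h2 : Qi * Q' = 1)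
    {Y : Matrix n n ℂ} (hY : Yᵀ * Q' + Q' * Y = 0) (W : Submodule ℂ (Matrix n n ℂ))
    (hW : ∀ v : n → ℂ, vecMulVec v v * Q' ∈ W) : Y ∈ W := by
  have e1 : Qiᵀ * Q' = -1 := by
    have h3 := congrArg Matrix.transpose h1
    rw [Matrix.transpose_mul, hs, Matrix.transpose_one, mul_neg] at h3
    rw [← h3, neg_neg]
  have e2 : Yᵀ = -(Q' * Y * Qi) := by
    calc Yᵀ = Yᵀ * Q' * Qi := by rw [mul_assoc, h1, mul_one]
      _ = -(Q' * Y) * Qi := by rw [eq_neg_of_add_eq_zero_left hY]
      _ = -(Q' * Y * Qi) := by rw [neg_mul]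
  obtain ⟨Z, hZ⟩ : ∃ Z : Matrix n n ℂ, Z = Y * Qi := ⟨_, rfl⟩
  have hZt : Zᵀ = Z := by
    rw [hZ, Matrix.transpose_mul, e2, mul_neg]
    calc -(Qiᵀ * (Q' * Y * Qi)) = -(Qiᵀ * Q' * Y * Qi) := by simp only [mul_assoc]
      _ = Y * Qi := by rw [e1, neg_mul, one_mul, neg_mul, neg_neg]
  have hYZ : Y = Z * Q' := by rw [hZ, mul_assoc, h2, mul_one]
  obtain ⟨u, hu⟩ : ∃ u : n → n → Matrix n n ℂ, u = fun i j =>
      (vecMulVec (Pi.single i 1 + Pi.single j 1) (Pi.single i 1 + Pi.single j 1) -
        vecMulVec (Pi.single i 1) (Pi.single i 1) - vecMulVec (Pi.single j 1) (Pi.single j 1) : Matrix n n ℂ) := ⟨_, rfl⟩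
  have hue : ∀ i j k l, u i j k l = (if k = i then (if l = j then 1 else 0) else 0) +
      (if l = i then (if k = j then 1 else 0) else 0) := by
    intro i j k l
    simp only [hu, Matrix.sub_apply, vecMulVec_apply, Pi.add_apply, Pi.single_apply]
    split_ifs <;> ring
  have h3 : Z = (1 / 2 : ℂ) • ∑ i, ∑ j, Z i j • u i j := by
    ext k l
    rw [Matrix.smul_apply, Matrix.sum_apply]
    have h4 : ∀ i, (∑ j, Z i j • u i j) k l =
        (if k = i then Z i l else 0) + (if l = i then Z i k else 0) := by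
      intro i
      rw [Matrix.sum_apply]
      simp only [Matrix.smul_apply, hue, smul_eq_mul, mul_add, mul_ite, mul_one, mul_zero, Finset.sum_add_distrib]
      congr 1
      · by_cases h : k = i
        · simp [h]
        · simp [h]
      · by_cases h : l = i
        · simp [h]
        · simp [h]
    simp only [h4, Finset.sum_add_distrib, Finset.sum_ite_eq, Finset.mem_univ, if_true, smul_eq_mul]
    have h5 : Z l k = Z k l := congrFun (congrFun hZt k) l
    rw [h5]
    ring
  rw [hYZ, h3, smul_mul_assoc, Finset.sum_mul]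
  refine W.smul_mem _ (W.sum_mem fun i _ => ?_)
  rw [Finset.sum_mul]
  refine W.sum_mem fun j _ => ?_
  rw [smul_mul_assoc, hu]
  simp only
  rw [sub_mul, sub_mul]
  exact W.smul_mem _ (W.sub_mem (W.sub_mem (hW _) (hW _)) (hW _))

theorem IsHW.hw_ne (H : IsHW (2 * m + 1) Q S P) [Nonempty n] : hw (2 * m + 1) S P ≠ 0 := by
  intro h0
  have h1 : ∀ p ∈ S, P p = 0 := by
    intro p hp
    have h2 : hw (2 * m + 1) S P * P p = (2 * (p : ℂ) - ((2 * m + 1 : ℤ) : ℂ)) • P p := by
      rw [H.hw_eq, sub_mul, smul_mul_assoc, smul_mul_assoc, one_mul, Finset.sum_mul, Finset.sum_eq_single p]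
      · rw [smul_mul_assoc, H.mul, if_pos rfl, smul_smul, ← sub_smul]
      · intro q _ hq
        rw [smul_mul_assoc, H.mul, if_neg hq, smul_zero]
      · intro h
        exact absurd hp h
    rw [h0, zero_mul] at h2
    refine (smul_eq_zero.1 h2.symm).resolve_left ?_
    intro h3
    have h4 : ((2 * p - (2 * m + 1) : ℤ) : ℂ) = 0 := by
      push_cast
      push_cast at h3
      exact h3
    have h5 : 2 * p - (2 * m + 1) = 0 := by exact_mod_cast h4
    omega
  have h2 := H.sum
  rw [Finset.sum_eq_zero h1] at h2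
  obtain ⟨i⟩ := (inferInstance : Nonempty n)
  have h3 := congrFun (congrFun h2 i) i
  rw [Matrix.zero_apply, Matrix.one_apply_eq] at h3
  exact zero_ne_one h3

/-- **If the Mumford-Tate group contains all similitudes, all skew matrices are in its Lie algebra.** -/
theorem IsHW.full_of_gsp (H : IsHW (2 * m + 1) Q S P) [Nonempty n]
    (hMT : ∀ (g : GL n ℂ) (z : ℂ), (g : Matrix n n ℂ)ᵀ * toC Q * (g : Matrix n n ℂ) = z • toC Q → g ∈ MT S P)
    {X : Matrix n n ℂ} (hX : Xᵀ * toC Q + toC Q * X = 0) : X ∈ LH Q S P := by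
  have hQs : (toC Q)ᵀ = -toC Q := by
    rw [H.Q_symm, neg_pow_odd71, neg_one_smul]
  obtain ⟨_, _, Qi, _, _, hQ1, hQ2, _⟩ := H.exists_basis
  refine sp_simple hQs H.detQ (M := LH Q S P) (fun X hX => hX.1) ?_ ?_ hX
  · intro Y hY X hX
    set f : Matrix n n ℂ →ₗ[ℂ] Matrix n n ℂ :=
      LinearMap.mulRight ℂ X - LinearMap.mulLeft ℂ X with hf
    have hfa : ∀ Z, f Z = Z * X - X * Z := fun Z => rfl
    have h1 : Y ∈ (LH Q S P).comap f := by
      refine span_skew71 hQs hQ1 hQ2 hY _ fun v => ?_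
      rw [Submodule.mem_comap, hfa]
      obtain ⟨N, hN⟩ : ∃ N : Matrix n n ℂ, N = vecMulVec v v * toC Q := ⟨_, rfl⟩
      rw [← hN]
      have hv : v ⬝ᵥ (toC Q *ᵥ v) = 0 := by
        have h2 : v ⬝ᵥ (toC Q *ᵥ v) = -(v ⬝ᵥ (toC Q *ᵥ v)) := by
          conv_lhs => rw [Matrix.dotProduct_mulVec, ← Matrix.mulVec_transpose, hQs, Matrix.neg_mulVec,
            neg_dotProduct, dotProduct_comm]
        linear_combination (1 / 2) * h2
      have hNN : N * N = 0 := by
        rw [hN]
        have h2 : vecMulVec v v * toC Q * (vecMulVec v v * toC Q) =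
            (vecMulVec v v * (toC Q * vecMulVec v v)) * toC Q := by simp only [mul_assoc]
        rw [h2, Matrix.mul_vecMulVec, vecMulVec_mul_vecMulVec, hv]
        ext i j
        simp
      have hNs : Nᵀ * toC Q + toC Q * N = 0 := by
        rw [hN, Matrix.transpose_mul, Matrix.transpose_vecMulVec, hQs, neg_mul, neg_mul, mul_assoc]
        abel
      have hsim : ∀ c : ℂ, (1 + c • N)ᵀ * toC Q * (1 + c • N) = toC Q := by
        intro c
        have h3 : Nᵀ * toC Q = -(toC Q * N) := eq_neg_of_add_eq_zero_left hNs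
        calc (1 + c • N)ᵀ * toC Q * (1 + c • N) = toC Q + c • (Nᵀ * toC Q + toC Q * N) +
              (c * c) • (Nᵀ * toC Q * N) := by
              rw [Matrix.transpose_add, Matrix.transpose_smul, Matrix.transpose_one, add_mul, one_mul, mul_add,
                mul_one, add_mul, smul_mul_assoc, smul_mul_assoc, mul_smul_comm, mul_smul_comm, smul_smul, smul_add]
              abel
          _ = toC Q := by
              rw [hNs, h3, neg_mul, mul_assoc, hNN, mul_zero, neg_zero, smul_zero, smul_zero, add_zero, add_zero]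
      have hinv : ∀ c : ℂ, (1 + c • N) * (1 + (-c) • N) = 1 := by
        intro c
        rw [add_mul, one_mul, mul_add, mul_one, smul_mul_smul_comm, hNN, smul_zero, add_zero, neg_smul]
        abel
      have hcj : ∀ c : ℂ, (1 + c • N) * X * (1 + (-c) • N) ∈ LH Q S P := by
        intro c
        have hi := hinv (-c)
        rw [neg_neg] at hi
        have := H.MT_norm (g := ⟨1 + c • N, 1 + (-c) • N, hinv c, hi⟩) (hMT _ 1 (by
          rw [one_smul]
          exact hsim c)) hX
        exact this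
      have h3 := (LH Q S P).sub_mem (hcj 1) (hcj (-1))
      have h4 : (1 + (1 : ℂ) • N) * X * (1 + (-1 : ℂ) • N) - (1 + (-1 : ℂ) • N) * X * (1 + (- -1 : ℂ) • N) =
          (2 : ℂ) • (N * X - X * N) := by
        rw [neg_neg, one_smul, neg_one_smul, two_smul]
        noncomm_ring
      rw [h4] at h3
      have h5 := (LH Q S P).smul_mem (1 / 2 : ℂ) h3
      rw [smul_smul] at h5
      norm_num at h5
      exact h5
    rwa [Submodule.mem_comap, hfa] at h1
  · intro h0
    have h1 := H.hw_mem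
    rw [h0, Submodule.mem_bot] at h1
    exact H.hw_ne h1

end MH
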