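import Pool.Agent.Helper2.EL.Defs
import Pool.Agent.Helper14.GH.HW2

/-!
Project OW (MP_b8862a_ag), l-adic side, odd weight: definitions.
-/

open Matrix

namespace MH

variable {n : Type*} [Fintype n] [DecidableEq n]

/-- `Γ` consists of similitudes of `Q`, and `R p` is the projection to the part of Hodge-Tate weight `p`; the
ranks are the Hodge numbers, and the tensors fixed by subgroups of finite index have weight zero. -/
structure IsGalO (Q : Matrix n n ℚ) (S : Finset ℤ) (P : ℤ → Matrix n n ℂ) (Γ : Subgroup (GL n ℂ))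
    (R : ℤ → Matrix n n ℂ) : Prop where
  sim : ∀ g ∈ Γ, ∃ z : ℂ, (g : Matrix n n ℂ)ᵀ * toC Q * (g : Matrix n n ℂ) = z • toC Q
  mul : ∀ p q, R p * R q = if p = q then R p else 0
  sum : ∑ p ∈ S, R p = 1
  rank : ∀ p, (R p).rank = (P p).rank
  ht : ∀ a b t, IsTateTensor Γ a b t → ∀ z : ℂ, z ≠ 0 →
    actF (slot a b (∑ p ∈ S, z ^ p • R p) (∑ p ∈ S, z⁻¹ ^ p • R p)) t = t

end MH
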