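import Pool.Agent.Helper71.OW.Jir

/-!
OW-3a. Generation. `J = Ld L h (-1)`. Proof.
(1) `gen`: elements of degree `ν > 0` are zero unless `ν = 1`, and `Ld L h 1 = Jᴴ`; `top_of_killed` (CY/Sy).
(2) `rank_le`: `w ↦ (x ↦ xᴴ w)` is injective from the image of `E μ` to `Hom (J, image of E (μ + 1))` by (1) (or: with a
basis `f` of `J`, `w ↦ (f iᴴ w)_i`).
(3) `inj`: `K = {x ∈ J : x E(a) = 0}` is stable under degree `0` (`z E(a) = E(a) z`), so `⊥` or `J` (`jirr`). If `J`: `E a`
commutes with `J`, `Jᴴ` (`E(a) x = E(a) x E(a + 1) = 0`) and `Ld L h 0`, so with `L`, is a scalar, idempotent, not `0`,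
so `1`; but `E (-a) = τ (E a) ≠ 0` is orthogonal to it (`a > 0`).
(4) `finrank_le`: `x ↦ x E(a) = E(a - 1) x E(a)` is injective on `J`.
-/

open Matrix MH

set_option linter.unusedSectionVars false

namespace OW

variable {n : Type*} [Fintype n] [DecidableEq n]
variable {h : Matrix n n ℂ} {E : ℝ → Matrix n n ℂ} {Λ : Finset ℝ}
variable {τ : Matrix n n ℂ →ₗ[ℂ] Matrix n n ℂ} {L : Submodule ℂ (Matrix n n ℂ)}

/-! ### auxiliary -/

private lemma star_mem_h4 (D : Dat τ L h E Λ) {ν : ℝ} {x : Matrix n n ℂ} (hx : x ∈ Ld L h ν) :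
    xᴴ ∈ Ld L h (-ν) := by
  refine ⟨D.st x hx.1, ?_⟩
  have h1 := congrArg conjTranspose hx.2
  rw [conjTranspose_sub, conjTranspose_mul, conjTranspose_mul, conjTranspose_smul, D.spec.hh] at h1
  rw [← neg_sub, h1, Complex.ofReal_neg, neg_smul]
  congr 2
  exact Complex.conj_ofReal ν

/-- `E a x = E a x E (a - ν)` -/
private lemma E_mul_h4 (D : Dat τ L h E Λ) {ν : ℝ} {x : Matrix n n ℂ} (hx : x ∈ Ld L h ν) (μ : ℝ) :
    E μ * x = E μ * x * E (μ - ν) := by
  have h1 := congrArg conjTranspose (D.Ld_mul_E (star_mem_h4 D hx) μ)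
  rw [conjTranspose_mul, conjTranspose_mul, conjTranspose_mul, conjTranspose_conjTranspose, D.spec.star, D.spec.star,
    ← mul_assoc] at h1
  exact h1

private lemma E_comm_h4 (D : Dat τ L h E Λ) {z : Matrix n n ℂ} (hz : z ∈ Ld L h 0) (μ : ℝ) : E μ * z = z * E μ := by
  have h1 := D.Ld_mul_E hz μ
  have h2 := E_mul_h4 D hz μ
  rw [add_zero] at h1
  rw [sub_zero] at h2
  rw [h2, h1]

private lemma EE_h4 (D : Dat τ L h E Λ) (μ : ℝ) : E μ * E μ = E μ := by
  rw [D.spec.mul, if_pos rfl]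

private lemma mem_range_h4 {e : Matrix n n ℂ} (hee : e * e = e) {w : n → ℂ} :
    w ∈ LinearMap.range e.mulVecLin ↔ e *ᵥ w = w := by
  constructor
  · rintro ⟨u, rfl⟩
    rw [Matrix.mulVecLin_apply, Matrix.mulVec_mulVec, hee]
  · intro h1
    exact ⟨w, h1⟩

namespace Lv

variable (V : Lv τ L h E Λ)
include V

theorem gen {μ : ℝ} (hμ : ∃ ρ : ℝ, μ < ρ ∧ E ρ ≠ 0) {w : n → ℂ} (hw : E μ *ᵥ w = w)
    (hk : ∀ x ∈ Ld L h (-1), xᴴ *ᵥ w = 0) : w = 0 := by
  by_contra hw0
  obtain ⟨ρ, hρ, hE⟩ := hμ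
  refine hE (CY.top_of_killed V.dat hw hw0 (fun ν hν x hx => ?_) hρ)
  by_cases h1 : ν = 1
  · subst h1
    have h2 := hk xᴴ (star_mem_h4 V.dat hx)
    rwa [conjTranspose_conjTranspose] at h2
  · have h2 := V.lev ν hν.ne' h1 (by linarith)
    rw [h2, Submodule.mem_bot] at hx
    rw [hx, Matrix.zero_mulVec]

theorem rank_le {μ : ℝ} (hμ : ∃ ρ : ℝ, μ < ρ ∧ E ρ ≠ 0) :
    (E μ).rank ≤ Module.finrank ℂ (Ld L h (-1)) * (E (μ + 1)).rank := by
  classical
  have D := V.dat
  set d := Module.finrank ℂ (Ld L h (-1)) with hd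
  let f := Module.finBasis ℂ (Ld L h (-1))
  have hmem : ∀ (i : Fin d) (w : LinearMap.range (E μ).mulVecLin),
      ((f i : Matrix n n ℂ))ᴴ *ᵥ (w : n → ℂ) ∈ LinearMap.range (E (μ + 1)).mulVecLin := by
    intro i w
    rw [mem_range_h4 (EE_h4 D _)]
    have h1 := D.Ld_mul_E (star_mem_h4 D (f i).2) μ
    rw [neg_neg] at h1
    have h2 := (mem_range_h4 (EE_h4 D μ)).1 w.2
    rw [← h2, Matrix.mulVec_mulVec, Matrix.mulVec_mulVec, ← h1, ← Matrix.mulVec_mulVec]
  let Φ : LinearMap.range (E μ).mulVecLin →ₗ[ℂ] (Fin d → LinearMap.range (E (μ + 1)).mulVecLin) :=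
    { toFun := fun w i => ⟨((f i : Matrix n n ℂ))ᴴ *ᵥ (w : n → ℂ), hmem i w⟩
      map_add' := by
        intro w w'
        funext i
        exact Subtype.ext (Matrix.mulVec_add _ _ _)
      map_smul' := by
        intro c w
        funext i
        exact Subtype.ext (Matrix.mulVec_smul _ _ _) }
  have hinj : Function.Injective Φ := by
    rw [injective_iff_map_eq_zero]
    intro w hw
    apply Subtype.ext
    refine V.gen hμ ((mem_range_h4 (EE_h4 D μ)).1 w.2) fun x hx => ?_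
    have h1 := f.sum_repr ⟨x, hx⟩
    have h2 : x = ∑ i, f.repr ⟨x, hx⟩ i • (f i : Matrix n n ℂ) := by
      have := congrArg Subtype.val h1
      rw [Submodule.coe_sum] at this
      exact this.symm
    rw [h2, conjTranspose_sum, Matrix.sum_mulVec]
    refine Finset.sum_eq_zero fun i _ => ?_
    rw [conjTranspose_smul, Matrix.smul_mulVec]
    have h3 : ((f i : Matrix n n ℂ))ᴴ *ᵥ (w : n → ℂ) = 0 := congrArg Subtype.val (congrFun hw i)
    rw [h3, smul_zero]
  have h1 := LinearMap.finrank_le_finrank_of_injective hinj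
  rw [Module.finrank_pi_fintype, Finset.sum_const, Finset.card_univ, Fintype.card_fin, smul_eq_mul] at h1
  exact h1

theorem inj {a : ℝ} (ha0 : 0 < a) (ha : E a ≠ 0) (htop : ∀ μ, a < μ → E μ = 0) {x : Matrix n n ℂ}
    (hx : x ∈ Ld L h (-1)) (h0 : x * E a = 0) : x = 0 := by
  have D := V.dat
  let K : Submodule ℂ (Matrix n n ℂ) :=
    { carrier := {y | y ∈ Ld L h (-1) ∧ y * E a = 0}
      add_mem' := by
        rintro y y' ⟨h1, h2⟩ ⟨h3, h4⟩
        exact ⟨(Ld L h (-1)).add_mem h1 h3, by rw [add_mul, h2, h4, add_zero]⟩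
      zero_mem' := ⟨(Ld L h (-1)).zero_mem, zero_mul _⟩
      smul_mem' := by
        rintro c y ⟨h1, h2⟩
        exact ⟨(Ld L h (-1)).smul_mem c h1, by rw [smul_mul_assoc, h2, smul_zero]⟩ }
  have hK : K ≤ Ld L h (-1) := fun y hy => hy.1
  have hst : ∀ z ∈ Ld L h 0, ∀ y ∈ K, z * y - y * z ∈ K := by
    rintro z hz y ⟨h1, h2⟩
    refine ⟨?_, ?_⟩
    · have h3 := Dat.Ld_bracket D.br hz h1
      rwa [zero_add] at h3
    · rw [sub_mul, mul_assoc, h2, mul_zero, mul_assoc, ← E_comm_h4 D hz, ← mul_assoc, h2, zero_mul, sub_zero]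
  rcases V.jirr hK hst with h1 | h1
  · have h2 : x ∈ K := ⟨hx, h0⟩
    rw [h1] at h2
    exact h2
  · exfalso
    have hr : ∀ y ∈ Ld L h (-1), y * E a = 0 := by
      intro y hy
      rw [← h1] at hy
      exact hy.2
    have hl : ∀ y ∈ Ld L h (-1), E a * y = 0 := by
      intro y hy
      rw [E_mul_h4 D hy, htop (a - -1) (by linarith), mul_zero]
    have hcom : ∀ y ∈ L, E a * y = y * E a := by
      intro y hy
      obtain ⟨b, hb, z, hz, c, hc, rfl⟩ := V.split hy
      have e1 : E a * cᴴ = 0 := by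
        have := congrArg conjTranspose (hr c hc)
        rwa [conjTranspose_mul, D.spec.star, conjTranspose_zero] at this
      have e2 : cᴴ * E a = 0 := by
        have := congrArg conjTranspose (hl c hc)
        rwa [conjTranspose_mul, D.spec.star, conjTranspose_zero] at this
      rw [mul_add, mul_add, add_mul, add_mul, hr b hb, hl b hb, E_comm_h4 D hz, e1, e2]
    obtain ⟨c, hc⟩ := D.irr (E a) hcom
    have h2 : E a * E (-a) = 0 := by
      rw [D.spec.mul, if_neg (by linarith)]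
    have h3 : E (-a) = c • (1 : Matrix n n ℂ) := by
      rw [← D.tauE, hc, map_smul, D.inv.one]
    rw [hc, h3, smul_mul_smul_comm, one_mul] at h2
    have h4 : c = 0 ∨ (1 : Matrix n n ℂ) = 0 := by
      rcases smul_eq_zero.1 h2 with h5 | h5
      · exact Or.inl (mul_self_eq_zero.1 h5)
      · exact Or.inr h5
    apply ha
    rw [hc]
    rcases h4 with h5 | h5
    · rw [h5, zero_smul]
    · rw [h5, smul_zero]

theorem finrank_le {a : ℝ} (ha0 : 0 < a) (ha : E a ≠ 0) (htop : ∀ μ, a < μ → E μ = 0) :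
    Module.finrank ℂ (Ld L h (-1)) ≤ (E a).rank * (E (a - 1)).rank := by
  have D := V.dat
  have hmem : ∀ (x : Ld L h (-1)) (w : LinearMap.range (E a).mulVecLin),
      (x : Matrix n n ℂ) *ᵥ (w : n → ℂ) ∈ LinearMap.range (E (a - 1)).mulVecLin := by
    intro x w
    rw [mem_range_h4 (EE_h4 D _)]
    have h1 := D.Ld_mul_E x.2 a
    rw [← sub_eq_add_neg] at h1
    have h2 := (mem_range_h4 (EE_h4 D a)).1 w.2
    rw [← h2, Matrix.mulVec_mulVec, Matrix.mulVec_mulVec, ← h1, ← Matrix.mulVec_mulVec]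
  let Φ : Ld L h (-1) →ₗ[ℂ] (LinearMap.range (E a).mulVecLin →ₗ[ℂ] LinearMap.range (E (a - 1)).mulVecLin) :=
    { toFun := fun x =>
        { toFun := fun w => ⟨(x : Matrix n n ℂ) *ᵥ (w : n → ℂ), hmem x w⟩
          map_add' := fun w w' => Subtype.ext (Matrix.mulVec_add _ _ _)
          map_smul' := fun c w => Subtype.ext (Matrix.mulVec_smul _ _ _) }
      map_add' := fun x y => LinearMap.ext fun w => Subtype.ext (Matrix.add_mulVec _ _ _)
      map_smul' := fun c x => LinearMap.ext fun w => Subtype.ext (Matrix.smul_mulVec _ _ _) }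
  have hinj : Function.Injective Φ := by
    rw [injective_iff_map_eq_zero]
    intro x hx
    apply Subtype.ext
    refine V.inj ha0 ha htop x.2 ?_
    apply Matrix.toLin'.injective
    rw [map_zero]
    refine LinearMap.ext fun w => ?_
    rw [Matrix.toLin'_apply, ← Matrix.mulVec_mulVec, LinearMap.zero_apply]
    have h1 := congrArg Subtype.val (LinearMap.congr_fun hx ⟨E a *ᵥ w, ⟨w, rfl⟩⟩)
    exact h1
  have h1 := LinearMap.finrank_le_finrank_of_injective hinj
  rw [Module.finrank_linearMap] at h1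
  exact h1

end Lv

end OW
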