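import Pool.Agent.Helper71.OW.Gen

/-!
OW-3b. `J = Ld L h (-1)`. Proof.
`cubic`: otherwise for `u` in the image of `E (-3/2)`: `zᴴ yᴴ xᴴ u` is in the image of `E (3/2)` and orthogonal to it,
so zero; by `gen` (three times, `μ = 1/2, -1/2, -3/2`) `u = 0`, so `E (-3/2) = 0`, `E (3/2) = τ (E (-3/2)) = 0`, against
`non`, `half`, `htop`.
`one`: take `u ≠ 0` in the image of `E (3/2)`; degree `1` kills `u`, degree `0` multiplies `u` by scalars; `orbit`
(CY/Sy) with `S = J`: the `m u`, `m` a product of elements of `J`, span the space; `E (3/2) m u = 0` unless `m = 1` (degrees),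
so the image of `E (3/2)` is `ℂ u`.
-/

open Matrix MH

namespace OW

variable {n : Type*} [Fintype n] [DecidableEq n]
variable {h : Matrix n n ℂ} {E : ℝ → Matrix n n ℂ} {Λ : Finset ℝ}
variable {τ : Matrix n n ℂ →ₗ[ℂ] Matrix n n ℂ} {L : Submodule ℂ (Matrix n n ℂ)}

private lemma E_mul_Ld68 (D : Dat τ L h E Λ) {ν : ℝ} {x : Matrix n n ℂ} (hx : x ∈ Ld L h ν) (ρ : ℝ) :
    E ρ * x = E ρ * x * E (ρ - ν) := by
  have h1 : E ρ * x = ∑ μ ∈ Λ, E ρ * x * E μ := by
    rw [← Finset.mul_sum, D.spec.sum, mul_one]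
  by_cases h2 : ρ - ν ∈ Λ
  · rw [Finset.sum_eq_single (ρ - ν)] at h1
    · exact h1
    · intro μ _ hμ
      exact D.Ld_block hx (fun h3 => hμ (by linarith))
    · intro h3
      exact absurd h2 h3
  · rw [Finset.sum_eq_zero] at h1
    · rw [h1, zero_mul]
    · intro μ hμ
      exact D.Ld_block hx (fun h3 => h2 (by
        have h4 : ρ - ν = μ := by linarith
        rw [h4]
        exact hμ))

private lemma adj_mem68 (D : Dat τ L h E Λ) {ν : ℝ} {x : Matrix n n ℂ} (hx : x ∈ Ld L h ν) :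
    xᴴ ∈ Ld L h (-ν) := by
  refine ⟨D.st x hx.1, ?_⟩
  have h1 := congrArg (fun X : Matrix n n ℂ => Xᴴ) hx.2
  simp only [conjTranspose_sub, conjTranspose_mul, conjTranspose_smul, D.spec.hh] at h1
  have h2 : star (ν : ℂ) = (ν : ℂ) := Complex.conj_ofReal ν
  rw [h2] at h1
  rw [Complex.ofReal_neg, neg_smul, ← h1, neg_sub]

private lemma up68 (D : Dat τ L h E Λ) {μ ρ : ℝ} (hρ : μ + 1 = ρ) {x : Matrix n n ℂ} (hx : x ∈ Ld L h (-1))
    {u : n → ℂ} (hu : E μ *ᵥ u = u) : E ρ *ᵥ (xᴴ *ᵥ u) = xᴴ *ᵥ u := by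
  have hx' : xᴴ ∈ Ld L h 1 := by
    have := adj_mem68 D hx
    rwa [neg_neg] at this
  have h1 := D.Ld_mul_E hx' μ
  rw [hρ] at h1
  have h2 : xᴴ *ᵥ u = (E ρ * xᴴ * E μ) *ᵥ u := by
    rw [← h1, ← mulVec_mulVec, hu]
  calc E ρ *ᵥ (xᴴ *ᵥ u) = E ρ *ᵥ ((E ρ * xᴴ * E μ) *ᵥ u) := by rw [← h2]
    _ = (E ρ * xᴴ * E μ) *ᵥ u := by
        rw [mulVec_mulVec]
        congr 1
        simp only [← mul_assoc, D.spec.mul, if_true]
    _ = xᴴ *ᵥ u := h2.symm

private lemma zero_of_mulVec68 {A : Matrix n n ℂ} (h3 : ∀ v : n → ℂ, A *ᵥ v = 0) : A = 0 := by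
  ext i j
  have h4 := congrFun (h3 (Pi.single j 1)) i
  rw [mulVec_single_one] at h4
  exact h4

namespace Lv

variable (V : Lv τ L h E Λ)
include V

private lemma E32_68 (htop : ∀ μ : ℝ, 3 / 2 < μ → E μ = 0) : E (3 / 2) ≠ 0 := by
  obtain ⟨μ, hμ1, hμ2⟩ := V.non
  obtain ⟨k, hk⟩ := V.half μ hμ2
  have h1 : μ ≤ 3 / 2 := by
    by_contra hc
    exact hμ2 (htop μ (not_le.1 hc))
  have h2 : (0 : ℝ) < k := by linarith
  have h3 : (k : ℝ) < 2 := by linarith
  have h4 : (0 : ℤ) < k := by exact_mod_cast h2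
  have h5 : k < (2 : ℤ) := by exact_mod_cast h3
  have h6 : k = 1 := by omega
  rw [h6] at hk
  have h7 : μ = 3 / 2 := by
    rw [hk]
    norm_num
  rwa [h7] at hμ2

theorem cubic (htop : ∀ μ : ℝ, 3 / 2 < μ → E μ = 0) :
    ∃ x ∈ Ld L h (-1), ∃ y ∈ Ld L h (-1), ∃ z ∈ Ld L h (-1), x * y * z * E (3 / 2) ≠ 0 := by
  by_contra hcon
  push Not at hcon
  have D := V.dat
  have hne := V.E32_68 htop
  apply hne
  have h0 : E (-(3 / 2) : ℝ) = 0 := by
    apply zero_of_mulVec68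
    intro v
    have hu : E (-(3 / 2) : ℝ) *ᵥ (E (-(3 / 2) : ℝ) *ᵥ v) = E (-(3 / 2) : ℝ) *ᵥ v := by
      rw [mulVec_mulVec, D.spec.mul, if_pos rfl]
    refine V.gen ⟨3 / 2, by norm_num, hne⟩ hu ?_
    intro x hx
    have hu1 := up68 D (ρ := -(1 / 2)) (by norm_num) hx hu
    refine V.gen ⟨3 / 2, by norm_num, hne⟩ hu1 ?_
    intro y hy
    have hu2 := up68 D (ρ := 1 / 2) (by norm_num) hy hu1
    refine V.gen ⟨3 / 2, by norm_num, hne⟩ hu2 ?_
    intro z hz
    have hu3 := up68 D (ρ := 3 / 2) (by norm_num) hz hu2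
    rw [← hu3, mulVec_mulVec, mulVec_mulVec, mulVec_mulVec]
    have h1 := congrArg (fun X : Matrix n n ℂ => Xᴴ) (hcon x hx y hy z hz)
    simp only [conjTranspose_mul, D.spec.star, conjTranspose_zero] at h1
    have h2 : E (3 / 2) * zᴴ * yᴴ * xᴴ = 0 := by
      rw [← h1]
      simp only [mul_assoc]
    rw [h2, zero_mulVec]
  have h1 := D.tauE (-(3 / 2))
  rw [h0, map_zero, neg_neg] at h1
  exact h1.symm

theorem one (htop : ∀ μ : ℝ, 3 / 2 < μ → E μ = 0)
    (hs : ∀ z ∈ Ld L h 0, ∃ c : ℂ, z * E (3 / 2) = c • E (3 / 2)) : (E (3 / 2)).rank ≤ 1 := by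
  have D := V.dat
  have hne := V.E32_68 htop
  have hE5 : E (3 / 2 + 1) = 0 := htop _ (by norm_num)
  obtain ⟨v, hv⟩ : ∃ v : n → ℂ, E (3 / 2) *ᵥ v ≠ 0 := by
    by_contra hc
    push Not at hc
    exact hne (zero_of_mulVec68 hc)
  set u : n → ℂ := E (3 / 2) *ᵥ v with hudef
  have hu : E (3 / 2) *ᵥ u = u := by
    rw [hudef, mulVec_mulVec, D.spec.mul, if_pos rfl]
  have hspan := CY.orbit D (S := (Ld L h (-1) : Set (Matrix n n ℂ))) (fun x hx => hx.1) hv (by
    intro z hz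
    obtain ⟨a, ha, z0, hz0, b, hb, rfl⟩ := V.split hz
    rw [add_mulVec, add_mulVec]
    refine Submodule.add_mem _ (Submodule.add_mem _ ?_ ?_) ?_
    · exact Submodule.subset_span ⟨a, Submonoid.subset_closure ha, rfl⟩
    · obtain ⟨c, hc⟩ := hs z0 hz0
      have h1 : z0 *ᵥ u = c • u := by
        have h2 := congrArg (fun X : Matrix n n ℂ => X *ᵥ u) hc
        simp only [← mulVec_mulVec, smul_mulVec, hu] at h2
        exact h2
      rw [h1]
      exact Submodule.smul_mem _ _ (Submodule.subset_span ⟨1, one_mem _, (one_mulVec u).symm⟩)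
    · have h1 : bᴴ *ᵥ u = 0 := by
        have h2 := up68 D (ρ := 3 / 2 + 1) rfl hb hu
        rw [← h2, hE5, zero_mulVec]
      rw [h1]
      exact Submodule.zero_mem _)
  have hm : ∀ m ∈ Submonoid.closure (Ld L h (-1) : Set (Matrix n n ℂ)),
      E (3 / 2) *ᵥ (m *ᵥ u) ∈ Submodule.span ℂ {u} := by
    intro m hm
    induction hm using Submonoid.closure_induction_left with
    | one =>
      rw [one_mulVec, hu]
      exact Submodule.mem_span_singleton_self u
    | mul_left s hs m hm ih =>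
      have h1 := E_mul_Ld68 D (show s ∈ Ld L h (-1) from hs) (3 / 2)
      have h2 : (3 / 2 : ℝ) - -1 = 3 / 2 + 1 := by norm_num
      rw [h2, hE5, mul_zero] at h1
      rw [← mulVec_mulVec _ s m, mulVec_mulVec _ (E (3 / 2)) s, h1, zero_mulVec]
      exact Submodule.zero_mem _
  have hall : ∀ w : n → ℂ, E (3 / 2) *ᵥ w ∈ Submodule.span ℂ {u} := by
    intro w
    have hw : w ∈ Submodule.span ℂ {w | ∃ m ∈ Submonoid.closure (Ld L h (-1) : Set (Matrix n n ℂ)),
        w = m *ᵥ u} := by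
      rw [hspan]
      exact Submodule.mem_top
    induction hw using Submodule.span_induction with
    | mem w hw =>
      obtain ⟨m, hm', rfl⟩ := hw
      exact hm m hm'
    | zero =>
      rw [mulVec_zero]
      exact Submodule.zero_mem _
    | add x y _ _ hx hy =>
      rw [mulVec_add]
      exact Submodule.add_mem _ hx hy
    | smul c x _ hx =>
      rw [mulVec_smul]
      exact Submodule.smul_mem _ c hx
  have hle : LinearMap.range (E (3 / 2)).mulVecLin ≤ Submodule.span ℂ {u} := by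
    rintro _ ⟨w, rfl⟩
    exact hall w
  calc (E (3 / 2)).rank = Module.finrank ℂ (LinearMap.range (E (3 / 2)).mulVecLin) := rfl
    _ ≤ Module.finrank ℂ (Submodule.span ℂ {u}) := Submodule.finrank_mono hle
    _ = 1 := finrank_span_singleton hv

end Lv

end OW
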