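import Pool.Agent.Helper71.OW.Fam
import Pool.Agent.Helper71.OW.MTs
import Pool.Agent.Helper71.CY.SpGen
import Pool.Agent.Helper61.EL.Fix
import Pool.Agent.Helper14.GH.HW3

/-!
OW-28. Polarised rational Hodge structures of odd weight with endomorphisms `ℚ` whose two middle Hodge numbers
dominate and whose Hodge polynomial is indecomposable: the Mumford-Tate group is the group of similitudes.
-/

set_option linter.unusedSectionVars false

open Matrix

namespace MH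

variable {n : Type*} [Fintype n] [DecidableEq n]
variable {m : ℤ} {Q : Matrix n n ℚ} {S : Finset ℤ} {P : ℤ → Matrix n n ℂ}

theorem neg_pow_odd71 (m : ℤ) : (-1 : ℂ) ^ (2 * m + 1) = -1 := by
  have h : Odd (2 * m + 1) := ⟨m, rfl⟩
  exact h.neg_one_zpow

/-- the element `hm` is half of `hw` -/
theorem IsHW.hm_eq (H : IsHW (2 * m + 1) Q S P) : OW.hm m P S = (1 / 2 : ℂ) • hw (2 * m + 1) S P := by
  rw [H.hw_eq, OW.hm, smul_sub, smul_smul, smul_smul]
  congr 1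
  · rw [one_div, inv_mul_cancel₀ two_ne_zero, one_smul]
  · congr 1
    push_cast
    ring

/-- All skew matrices kill all Hodge tensors. -/
theorem IsHW.full_odd (H : IsHW (2 * m + 1) Q S P)
    (hEnd : ∀ A : Matrix n n ℚ, (∀ p, toC A * P p = P p * toC A) → ∃ c : ℚ, A = c • (1 : Matrix n n ℚ))
    {s : ℕ} (hN : OW.Num m (fun p => (P p).rank) S (Fintype.card n) s)
    {X : Matrix n n ℂ} (hX : Xᵀ * toC Q + toC Q * X = 0) : X ∈ LH Q S P := by
  obtain ⟨B, Bi, Qi, h1, h2, h3, h4, hM⟩ := H.exists_basis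
  have hQs : (toC Q)ᵀ = -toC Q := by
    rw [H.Q_symm, neg_pow_odd71, neg_one_smul]
  refine OW.full_fam (A := P) (S := S) (m := m) hQs h3 h4 (fun X hX Y hY => LH_br hX hY) ?_ (fun X hX => hX.1)
    H.mul H.sum H.supp ?_ hN ?_ hX
  · intro T hT
    have h5 : T ∈ EC P := H.EC_of_LH hT
    unfold EC at h5
    induction h5 using Submodule.span_induction with
    | mem x hx =>
      obtain ⟨A, hA, rfl⟩ := hx
      obtain ⟨c, rfl⟩ := hEnd A hA
      refine ⟨(c : ℂ), ?_⟩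
      ext i j
      simp only [toC, Matrix.map_apply, Matrix.smul_apply, Matrix.one_apply, smul_eq_mul, map_mul]
      split_ifs <;> simp
    | zero => exact ⟨0, by rw [zero_smul]⟩
    | add x y hx hy h6 h7 =>
      have hx' : ∀ X ∈ LH Q S P, x * X = X * x := fun X hX => (H.LH_EC hX hx).symm
      have hy' : ∀ X ∈ LH Q S P, y * X = X * y := fun X hX => (H.LH_EC hX hy).symm
      obtain ⟨c, hc⟩ := h6 hx'
      obtain ⟨d, hd⟩ := h7 hy'
      exact ⟨c + d, by rw [hc, hd, add_smul]⟩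
    | smul a x hx h6 =>
      have hx' : ∀ X ∈ LH Q S P, x * X = X * x := fun X hX => (H.LH_EC hX hx).symm
      obtain ⟨c, hc⟩ := h6 hx'
      exact ⟨a * c, by rw [hc, smul_smul]⟩
  · rw [H.hm_eq]
    exact (LH Q S P).smul_mem _ H.hw_mem
  · intro E Λ _
    refine ⟨B, Bi, h1, h2, ?_, ?_⟩
    · have h5 := (H.specW h1 h2 hM).hh
      rw [H.hm_eq, cj_smul, Matrix.conjTranspose_smul, h5]
      congr 1
      simp
    · intro X hX
      have h5 : cj B Bi X ∈ LB Q S P B Bi := by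
        rw [mem_LB, cj_cj h2]
        exact hX
      exact mem_LB.1 (H.LB_star h1 h2 hM h5)

/-- The dichotomy for the Lie algebra of the Mumford-Tate group. -/
theorem IsHW.dich_odd (H : IsHW (2 * m + 1) Q S P)
    (hEnd : ∀ A : Matrix n n ℚ, (∀ p, toC A * P p = P p * toC A) → ∃ c : ℚ, A = c • (1 : Matrix n n ℚ))
    {s : ℕ} (hN : OW.NumD m (fun p => (P p).rank) S (Fintype.card n) s) :
    (∀ X : Matrix n n ℂ, Xᵀ * toC Q + toC Q * X = 0 → X ∈ LH Q S P) ∨
      ((∃ (q : ℕ) (e : n ≃ Fin 2 × Fin q) (T Ti : Matrix n n ℂ) (G Gi : Matrix (Fin q) (Fin q) ℂ),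
        OW.TT (toC Q) (LH Q S P) e T Ti G Gi) ∧ ∃ c : ℤ → ℕ, ∀ p : ℤ, (P p).rank = c p + c (p + 1)) := by
  obtain ⟨B, Bi, Qi, h1, h2, h3, h4, hM⟩ := H.exists_basis
  have hQs : (toC Q)ᵀ = -toC Q := by
    rw [H.Q_symm, neg_pow_odd71, neg_one_smul]
  refine OW.dich_fam (A := P) (S := S) (m := m) hQs h3 h4 (fun X hX Y hY => LH_br hX hY) ?_ (fun X hX => hX.1)
    H.mul H.sum H.supp ?_ hN ?_
  · intro T hT
    have h5 : T ∈ EC P := H.EC_of_LH hT
    unfold EC at h5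
    induction h5 using Submodule.span_induction with
    | mem x hx =>
      obtain ⟨A, hA, rfl⟩ := hx
      obtain ⟨c, rfl⟩ := hEnd A hA
      refine ⟨(c : ℂ), ?_⟩
      ext i j
      simp only [toC, Matrix.map_apply, Matrix.smul_apply, Matrix.one_apply, smul_eq_mul, map_mul]
      split_ifs <;> simp
    | zero => exact ⟨0, by rw [zero_smul]⟩
    | add x y hx hy h6 h7 =>
      have hx' : ∀ X ∈ LH Q S P, x * X = X * x := fun X hX => (H.LH_EC hX hx).symm
      have hy' : ∀ X ∈ LH Q S P, y * X = X * y := fun X hX => (H.LH_EC hX hy).symm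
      obtain ⟨c, hc⟩ := h6 hx'
      obtain ⟨d, hd⟩ := h7 hy'
      exact ⟨c + d, by rw [hc, hd, add_smul]⟩
    | smul a x hx h6 =>
      have hx' : ∀ X ∈ LH Q S P, x * X = X * x := fun X hX => (H.LH_EC hX hx).symm
      obtain ⟨c, hc⟩ := h6 hx'
      exact ⟨a * c, by rw [hc, smul_smul]⟩
  · rw [H.hm_eq]
    exact (LH Q S P).smul_mem _ H.hw_mem
  · intro E Λ _
    refine ⟨B, Bi, h1, h2, ?_, ?_⟩
    · have h5 := (H.specW h1 h2 hM).hh
      rw [H.hm_eq, cj_smul, Matrix.conjTranspose_smul, h5]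
      congr 1
      simp
    · intro X hX
      have h5 : cj B Bi X ∈ LB Q S P B Bi := by
        rw [mem_LB, cj_cj h2]
        exact hX
      exact mem_LB.1 (H.LB_star h1 h2 hM h5)

/-- an invertible matrix is a scalar times an isometry if it is a similitude -/
theorem sim_split71 [Nonempty n] {Q' : Matrix n n ℂ} (hQd : Q'.det ≠ 0) {g : GL n ℂ} {c : ℂ}
    (hg : (g : Matrix n n ℂ)ᵀ * Q' * (g : Matrix n n ℂ) = c • Q') :
    ∃ (z : ℂ) (z₁ g₀ : GL n ℂ), (z₁ : Matrix n n ℂ) = z • 1 ∧ g = z₁ * g₀ ∧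
      (g₀ : Matrix n n ℂ)ᵀ * Q' * (g₀ : Matrix n n ℂ) = Q' := by
  have hc : c ≠ 0 := by
    rintro rfl
    have h1 := congrArg Matrix.det hg
    rw [zero_smul, Matrix.det_mul, Matrix.det_mul, Matrix.det_transpose, Matrix.det_zero] at h1
    have h2 : (g : Matrix n n ℂ).det ≠ 0 := by
      have h3 : (g : Matrix n n ℂ) * ((g⁻¹ : GL n ℂ) : Matrix n n ℂ) = 1 := by
        rw [← Units.val_mul, mul_inv_cancel, Units.val_one]
      have h4 := congrArg Matrix.det h3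
      rw [Matrix.det_mul, Matrix.det_one] at h4
      intro h0
      rw [h0, zero_mul] at h4
      exact zero_ne_one h4
    exact mul_ne_zero (mul_ne_zero h2 hQd) h2 h1
  obtain ⟨z, hz⟩ := IsAlgClosed.exists_pow_nat_eq c (show 0 < 2 by norm_num)
  have hz0 : z ≠ 0 := by
    rintro rfl
    rw [zero_pow (by norm_num)] at hz
    exact hc hz.symm
  have hsc : ∀ w : ℂ, w ≠ 0 → ∀ f : GL n ℂ, ∃ f' : GL n ℂ, (f' : Matrix n n ℂ) = w • (f : Matrix n n ℂ) := by
    intro w hw f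
    refine ⟨⟨w • (f : Matrix n n ℂ), w⁻¹ • ((f⁻¹ : GL n ℂ) : Matrix n n ℂ), ?_, ?_⟩, rfl⟩
    · rw [smul_mul_smul_comm, mul_inv_cancel₀ hw, one_smul, ← Units.val_mul, mul_inv_cancel, Units.val_one]
    · rw [smul_mul_smul_comm, inv_mul_cancel₀ hw, one_smul, ← Units.val_mul, inv_mul_cancel, Units.val_one]
  obtain ⟨g₀, hg₀⟩ := hsc z⁻¹ (inv_ne_zero hz0) g
  obtain ⟨z₁, hz₁⟩ := hsc z hz0 1
  refine ⟨z, z₁, g₀, by rw [hz₁, Units.val_one], ?_, ?_⟩
  · apply Units.ext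
    rw [Units.val_mul, hz₁, hg₀, Units.val_one, smul_mul_smul_comm, mul_inv_cancel₀ hz0, one_smul, one_mul]
  · rw [hg₀, Matrix.transpose_smul, smul_mul_assoc, smul_mul_assoc, mul_smul_comm, smul_smul, hg, smul_smul, ← hz]
    have : z⁻¹ * z⁻¹ * z ^ 2 = 1 := by field_simp
    rw [this, one_smul]

/-- a tensor killed by the skew matrices and by the scalars is fixed by the similitudes -/
theorem gsp_fix71 [Nonempty n] {Q' : Matrix n n ℂ} (hQs : Q'ᵀ = -Q') (hQd : Q'.det ≠ 0) {a b : ℕ}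
    {t : (Fin a ⊕ Fin b → n) → ℂ} (hk : ∀ X : Matrix n n ℂ, Xᵀ * Q' + Q' * X = 0 → dL a b t X = 0)
    (h1 : dL a b t 1 = 0) {g : GL n ℂ} {c : ℂ}
    (hg : (g : Matrix n n ℂ)ᵀ * Q' * (g : Matrix n n ℂ) = c • Q') :
    actF (slot a b (g : Matrix n n ℂ) ((g⁻¹ : GL n ℂ) : Matrix n n ℂ)) t = t := by
  obtain ⟨z, z₁, g₀, hz₁, h5, hg₀⟩ := sim_split71 hQd hg
  have h3 := CY.sp_fix hQs hQd hk hg₀
  have h4 := scal_fix (a := a) (b := b) (t := t) h1 (g := z₁) (z := z) hz₁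
  have e1 : slot a b ((z₁ * g₀ : GL n ℂ) : Matrix n n ℂ) (((z₁ * g₀)⁻¹ : GL n ℂ) : Matrix n n ℂ) =
      fun k => slot a b (z₁ : Matrix n n ℂ) ((z₁⁻¹ : GL n ℂ) : Matrix n n ℂ) k *
        slot a b (g₀ : Matrix n n ℂ) ((g₀⁻¹ : GL n ℂ) : Matrix n n ℂ) k := by
    funext k
    rcases k with k | k
    · rfl
    · simp only [slot, Sum.elim_inr, _root_.mul_inv_rev, Units.val_mul, Matrix.transpose_mul]
  rw [h5, e1, ← actF_mul, h3, h4]

theorem IsHW.detQ (H : IsHW (2 * m + 1) Q S P) : (toC Q).det ≠ 0 := by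
  obtain ⟨_, _, Qi, _, _, hQ1, _, _⟩ := H.exists_basis
  intro h
  have := congrArg Matrix.det hQ1
  rw [Matrix.det_mul, h, zero_mul, Matrix.det_one] at this
  exact zero_ne_one this

/-- The Mumford-Tate group contains all similitudes. -/
theorem IsHW.gsp_le_MT (H : IsHW (2 * m + 1) Q S P) [Nonempty n]
    (hEnd : ∀ A : Matrix n n ℚ, (∀ p, toC A * P p = P p * toC A) → ∃ c : ℚ, A = c • (1 : Matrix n n ℚ))
    {s : ℕ} (hN : OW.Num m (fun p => (P p).rank) S (Fintype.card n) s) (g : GL n ℂ) (z : ℂ)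
    (hg : (g : Matrix n n ℂ)ᵀ * toC Q * (g : Matrix n n ℂ) = z • toC Q) : g ∈ MT S P := by
  have hQs : (toC Q)ᵀ = -toC Q := by
    rw [H.Q_symm, neg_pow_odd71, neg_one_smul]
  intro a b t ht
  refine gsp_fix71 hQs H.detQ (fun X hX => (H.full_odd hEnd hN hX).2 a b t ht) ?_ hg
  have h1 := H.kill_one ht
  have h2 : (((2 * m + 1 : ℤ)) : ℂ) ≠ 0 := by
    have : (2 * m + 1 : ℤ) ≠ 0 := by omega
    exact_mod_cast this
  exact (smul_eq_zero.1 h1).resolve_left h2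

end MH
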