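import Pool.Agent.Helper71.OW.MTT
import Pool.Agent.Helper71.OW.LGs
import Pool.Agent.Helper56.EL.Lie
import Pool.Agent.Helper53.EL.Cliff
import Pool.Agent.Helper67.EL.Scal
import Pool.Agent.Helper57.CF.Mat

/-!
OW-57. The `ℓ`-adic side, odd weight, irreducible case: the dichotomy for the tensor Lie algebra of a
group `Γ` of similitudes that is irreducible under all subgroups of finite index and has the Hodge numbers as
Hodge-Tate numbers.
-/

set_option linter.unusedSectionVars false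

open Matrix

namespace MH

variable {n : Type*} [Fintype n] [DecidableEq n]
variable {m : ℤ} {Q : Matrix n n ℚ} {S : Finset ℤ} {P R : ℤ → Matrix n n ℂ} {Γ : Subgroup (GL n ℂ)}

namespace IsGalO

theorem h_mem_d (G : IsGalO Q S P Γ R) : ∑ p ∈ S, (p : ℂ) • R p ∈ LG Γ := by
  intro a b t ht
  have h1 : Idm S R := ⟨G.mul, G.sum⟩
  exact (h1.inv_iff a b t).1 (G.ht a b t ht)

theorem R_supp_d (G : IsGalO Q S P Γ R) {p : ℤ} (hp : p ∉ S) : R p = 0 := by
  have h1 : R p = R p * ∑ q ∈ S, R q := by rw [G.sum, mul_one]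
  rw [h1, Finset.mul_sum]
  refine Finset.sum_eq_zero fun q hq => ?_
  rw [G.mul, if_neg]
  rintro rfl
  exact hp hq

theorem trace_hm_d (H : IsHW (2 * m + 1) Q S P) (G : IsGalO Q S P Γ R) : (OW.hm m R S).trace = 0 := by
  have hPP : ∀ p, P p * P p = P p := fun p => by rw [H.mul, if_pos rfl]
  have hRR : ∀ p, R p * R p = R p := fun p => by rw [G.mul, if_pos rfl]
  have e1 : ∀ p, (R p).trace = (P p).trace := by
    intro p
    rw [trace_eq_rank (hRR p), trace_eq_rank (hPP p), G.rank]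
  have e2 : (OW.hm m R S).trace = (OW.hm m P S).trace := by
    unfold OW.hm
    rw [Matrix.trace_sub, Matrix.trace_sub, Matrix.trace_sum, Matrix.trace_sum]
    congr 1
    refine Finset.sum_congr rfl fun p _ => ?_
    rw [Matrix.trace_smul, Matrix.trace_smul, e1]
  rw [e2, H.hm_eq, Matrix.trace_smul]
  -- the trace of a skew matrix
  obtain ⟨_, _, Qi, _, _, hQ1, hQ2, _⟩ := H.exists_basis
  have h1 := H.hw_mem.1
  have e3 : (hw (2 * m + 1) S P)ᵀ * toC Q = -(toC Q * hw (2 * m + 1) S P) := eq_neg_of_add_eq_zero_left h1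
  have e4 : (hw (2 * m + 1) S P).trace = -(hw (2 * m + 1) S P).trace := by
    calc (hw (2 * m + 1) S P).trace = ((hw (2 * m + 1) S P)ᵀ * (toC Q * Qi)).trace := by
          rw [hQ1, mul_one, Matrix.trace_transpose]
      _ = -(toC Q * hw (2 * m + 1) S P * Qi).trace := by rw [← mul_assoc, e3, neg_mul, Matrix.trace_neg]
      _ = -(hw (2 * m + 1) S P).trace := by rw [mul_assoc, Matrix.trace_mul_comm, mul_assoc, hQ2, mul_one]
  rw [self_eq_neg.1 e4, smul_zero]

end IsGalO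

/-- the part of `LG` that is skew for the polarisation -/
noncomputable def LSO (Q : Matrix n n ℚ) (Γ : Subgroup (GL n ℂ)) : Submodule ℂ (Matrix n n ℂ) where
  carrier := {X | X ∈ LG Γ ∧ Xᵀ * toC Q + toC Q * X = 0}
  add_mem' := by
    rintro X Y ⟨h1, h2⟩ ⟨h3, h4⟩
    refine ⟨(LG Γ).add_mem h1 h3, ?_⟩
    rw [Matrix.transpose_add, add_mul, mul_add]
    calc Xᵀ * toC Q + Yᵀ * toC Q + (toC Q * X + toC Q * Y)
        = (Xᵀ * toC Q + toC Q * X) + (Yᵀ * toC Q + toC Q * Y) := by abel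
      _ = 0 := by rw [h2, h4, add_zero]
  zero_mem' := ⟨(LG Γ).zero_mem, by simp⟩
  smul_mem' := by
    rintro c X ⟨h1, h2⟩
    refine ⟨(LG Γ).smul_mem c h1, ?_⟩
    rw [Matrix.transpose_smul, smul_mul_assoc, mul_smul_comm, ← smul_add, h2, smul_zero]

theorem LSO_br {X Y : Matrix n n ℂ} (hX : X ∈ LSO Q Γ) (hY : Y ∈ LSO Q Γ) :
    X * Y - Y * X ∈ LSO Q Γ := by
  refine ⟨LG_br hX.1 hY.1, ?_⟩
  have e1 : Xᵀ * toC Q = -(toC Q * X) := eq_neg_of_add_eq_zero_left hX.2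
  have e2 : Yᵀ * toC Q = -(toC Q * Y) := eq_neg_of_add_eq_zero_left hY.2
  rw [Matrix.transpose_sub, Matrix.transpose_mul, Matrix.transpose_mul, sub_mul, mul_assoc, mul_assoc, e1, e2,
    mul_neg, mul_neg, ← mul_assoc, ← mul_assoc, e1, e2]
  noncomm_ring

/-- a matrix that commutes with an irreducible set of matrices is a scalar -/
theorem schur_of_d [Nonempty n] (L : Submodule ℂ (Matrix n n ℂ))
    (hirr : ∀ W : Submodule ℂ (n → ℂ), (∀ X ∈ L, ∀ w ∈ W, X *ᵥ w ∈ W) → W = ⊥ ∨ W = ⊤)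
    {T : Matrix n n ℂ} (hT : ∀ X ∈ L, T * X = X * T) : ∃ c : ℂ, T = c • (1 : Matrix n n ℂ) := by
  obtain ⟨c, hc⟩ := Module.End.exists_eigenvalue (Matrix.toLin' T)
  refine ⟨c, ?_⟩
  rcases hirr (Module.End.eigenspace (Matrix.toLin' T) c) (by
    intro X hX w hw
    rw [Module.End.mem_eigenspace_iff, Matrix.toLin'_apply] at hw ⊢
    rw [Matrix.mulVec_mulVec, hT X hX, ← Matrix.mulVec_mulVec, hw, Matrix.mulVec_smul]) with h | h
  · exact absurd h hc
  · apply Dat.mat_ext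
    intro u
    have hu : u ∈ Module.End.eigenspace (Matrix.toLin' T) c := by
      rw [h]
      exact Submodule.mem_top
    rw [Module.End.mem_eigenspace_iff, Matrix.toLin'_apply] at hu
    rw [hu, Matrix.smul_mulVec, Matrix.one_mulVec]

/-- the spectral decomposition of `∑ p • R p` -/
private theorem sd0_d (G : IsGalO Q S P Γ R) : SD (∑ p ∈ S, (p : ℂ) • R p)
    (fun μ : ℝ => ∑ p ∈ S.filter (fun p : ℤ => (p : ℝ) = μ), R p) (S.image fun p : ℤ => (p : ℝ)) ∧
    ∀ p : ℤ, (∑ q ∈ S.filter (fun q : ℤ => (q : ℝ) = (p : ℝ)), R q) = R p := by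
  have hinj : ∀ p ∈ S, ∀ q ∈ S, ((p : ℤ) : ℝ) = (q : ℝ) → p = q := fun p _ q _ h => by exact_mod_cast h
  have heq : ∀ p : ℤ, (∑ q ∈ S.filter (fun q : ℤ => (q : ℝ) = (p : ℝ)), R q) = R p := by
    intro p
    by_cases hp : p ∈ S
    · rw [Finset.sum_eq_single p]
      · intro q hq hqp
        exact absurd (by exact_mod_cast (Finset.mem_filter.1 hq).2) hqp
      · intro h
        exact (h (Finset.mem_filter.2 ⟨hp, rfl⟩)).elim
    · rw [G.R_supp_d hp]
      refine Finset.sum_eq_zero fun q hq => ?_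
      have h2 : q = p := by exact_mod_cast (Finset.mem_filter.1 hq).2
      exact absurd (h2 ▸ (Finset.mem_filter.1 hq).1) hp
  have hz : ∀ μ : ℝ, (∀ p ∈ S, ((p : ℤ) : ℝ) ≠ μ) → (∑ p ∈ S.filter (fun p : ℤ => (p : ℝ) = μ), R p) = 0 := by
    intro μ hμ
    rw [Finset.filter_false_of_mem hμ, Finset.sum_empty]
  refine ⟨⟨?_, ?_, ?_⟩, heq⟩
  · intro μ ν
    by_cases hμ : ∃ p ∈ S, ((p : ℤ) : ℝ) = μ
    · obtain ⟨p, hp, rfl⟩ := hμ
      by_cases hν : ∃ q ∈ S, ((q : ℤ) : ℝ) = ν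
      · obtain ⟨q, hq, rfl⟩ := hν
        simp only [heq]
        rw [G.mul]
        by_cases hpq : p = q
        · rw [if_pos hpq, if_pos (by rw [hpq])]
        · rw [if_neg hpq, if_neg (fun h => hpq (hinj p hp q hq h))]
      · push Not at hν
        simp only [hz ν hν, mul_zero]
        rw [if_neg (hν p hp)]
    · push Not at hμ
      simp only [hz μ hμ, zero_mul]
      split_ifs <;> rfl
  · rw [Finset.sum_image hinj, ← G.sum]
    exact Finset.sum_congr rfl fun p _ => heq p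
  · rw [Finset.sum_image hinj]
    refine Finset.sum_congr rfl fun p _ => ?_
    rw [heq]
    push_cast
    rfl

/-- The skew part of the Lie algebra is irreducible. -/
theorem IsGalO.irr_LSO (H : IsHW (2 * m + 1) Q S P) (G : IsGalO Q S P Γ R) [Nonempty n] (hirr : VIrr Γ)
    (hd : ∀ d : ℕ, (∀ p, d ∣ (P p).rank) → d = 1) :
    (1 : Matrix n n ℂ) ∈ LG Γ ∧ OW.hm m R S ∈ LSO Q Γ ∧
    ∀ W : Submodule ℂ (n → ℂ), (∀ X ∈ LSO Q Γ, ∀ w ∈ W, X *ᵥ w ∈ W) → W = ⊥ ∨ W = ⊤ := by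
  classical
  have hn0 : ((Fintype.card n : ℕ) : ℂ) ≠ 0 := by
    exact_mod_cast Fintype.card_ne_zero
  have hm0 : ((m : ℂ) + 1 / 2) ≠ 0 := by
    intro h
    have h1 : (((2 * m + 1 : ℤ)) : ℂ) = 0 := by
      push_cast
      linear_combination 2 * h
    have h2 : (2 * m + 1 : ℤ) = 0 := by exact_mod_cast h1
    omega
  obtain ⟨_, _, Qi, _, _, hQ1, hQ2, _⟩ := H.exists_basis
  have hQs : (toC Q)ᵀ = -toC Q := by
    rw [H.Q_symm, neg_pow_odd71, neg_one_smul]
  obtain ⟨hsd, heq⟩ := sd0_d G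
  -- the Lie algebra `LG` is irreducible
  have hG : ∀ W : Submodule ℂ (n → ℂ), (∀ X ∈ LG Γ, ∀ w ∈ W, X *ᵥ w ∈ W) → W = ⊥ ∨ W = ⊤ := by
    intro W hW
    refine clifford (LG Γ) (fun g hg X hX => LG_conj hg hX) hirr G.h_mem_d hsd ?_ W hW
    intro d hdd
    apply hd
    intro p
    by_cases hp : p ∈ S
    · have h1 := hdd (p : ℝ) (Finset.mem_image.2 ⟨p, hp, rfl⟩)
      rw [heq, G.rank] at h1
      exact h1
    · rw [H.supp p hp, Matrix.rank_zero]
      exact dvd_zero d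
  -- scalars
  have htr := G.trace_hm_d H
  have h1G : (1 : Matrix n n ℂ) ∈ LG Γ := by
    have h1 := scalar_mem (LG Γ) (fun X hX Y hY => LG_br hX hY) hG G.h_mem_d
    have h2 : (∑ p ∈ S, (p : ℂ) • R p).trace = ((m : ℂ) + 1 / 2) * Fintype.card n := by
      unfold OW.hm at htr
      rw [Matrix.trace_sub, Matrix.trace_smul, Matrix.trace_one, smul_eq_mul] at htr
      linear_combination htr
    rw [h2] at h1
    have h3 := (LG Γ).smul_mem (((m : ℂ) + 1 / 2) * Fintype.card n)⁻¹ h1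
    rwa [smul_smul, inv_mul_cancel₀ (mul_ne_zero hm0 hn0), one_smul] at h3
  have hmG : OW.hm m R S ∈ LG Γ := (LG Γ).sub_mem G.h_mem_d ((LG Γ).smul_mem _ h1G)
  -- the skew part
  have hhS : OW.hm m R S ∈ LSO Q Γ := by
    refine ⟨hmG, ?_⟩
    obtain ⟨c, hc⟩ := G.LG_sim H hmG
    set X := OW.hm m R S
    have h1 : (Xᵀ + toC Q * X * Qi).trace = c * Fintype.card n := by
      have h2 : Xᵀ + toC Q * X * Qi = c • (1 : Matrix n n ℂ) := by
        have h3 := congrArg (fun Y => Y * Qi) hc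
        simp only [add_mul, smul_mul_assoc, hQ1] at h3
        rw [mul_assoc Xᵀ, hQ1, mul_one] at h3
        exact h3
      rw [h2, Matrix.trace_smul, Matrix.trace_one, smul_eq_mul]
    rw [Matrix.trace_add, Matrix.trace_transpose, Matrix.trace_mul_comm, ← mul_assoc, hQ2, one_mul, htr,
      add_zero] at h1
    have h2 : c = 0 := by
      rcases mul_eq_zero.1 h1.symm with h | h
      · exact h
      · exact absurd h hn0
    rw [hc, h2, zero_smul]
  have hSirr : ∀ W : Submodule ℂ (n → ℂ), (∀ X ∈ LSO Q Γ, ∀ w ∈ W, X *ᵥ w ∈ W) → W = ⊥ ∨ W = ⊤ := by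
    intro W hW
    apply hG
    intro X hX w hw
    obtain ⟨c, hc⟩ := G.LG_sim H hX
    have h1 : X - (c / 2) • (1 : Matrix n n ℂ) ∈ LSO Q Γ := by
      refine ⟨(LG Γ).sub_mem hX ((LG Γ).smul_mem _ h1G), ?_⟩
      rw [Matrix.transpose_sub, Matrix.transpose_smul, Matrix.transpose_one, sub_mul, mul_sub, smul_mul_assoc,
        one_mul, mul_smul_comm, mul_one]
      have : Xᵀ * toC Q - (c / 2) • toC Q + (toC Q * X - (c / 2) • toC Q) =
          (Xᵀ * toC Q + toC Q * X) - c • toC Q := by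
        have h2 : c • toC Q = (c / 2) • toC Q + (c / 2) • toC Q := by
          rw [← add_smul]
          congr 1
          ring
        rw [h2]
        abel
      rw [this, hc, sub_self]
    have h2 := hW _ h1 w hw
    have h3 : X *ᵥ w = (X - (c / 2) • (1 : Matrix n n ℂ)) *ᵥ w + (c / 2) • w := by
      rw [Matrix.sub_mulVec, Matrix.smul_mulVec, Matrix.one_mulVec]
      abel
    rw [h3]
    exact W.add_mem h2 (W.smul_mem _ hw)
  exact ⟨h1G, hhS, hSirr⟩

/-- the trace of a skew matrix -/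
theorem LSO_tr (H : IsHW (2 * m + 1) Q S P) {Y : Matrix n n ℂ} (hY : Y ∈ LSO Q Γ) : Y.trace = 0 := by
  obtain ⟨_, _, Qi, _, _, hQ1, hQ2, _⟩ := H.exists_basis
  have e1 : Yᵀ * toC Q = -(toC Q * Y) := eq_neg_of_add_eq_zero_left hY.2
  have e2 : Y.trace = -Y.trace := by
    calc Y.trace = (Yᵀ * (toC Q * Qi)).trace := by rw [hQ1, mul_one, Matrix.trace_transpose]
      _ = -(toC Q * Y * Qi).trace := by rw [← mul_assoc, e1, neg_mul, Matrix.trace_neg]
      _ = -Y.trace := by rw [mul_assoc, Matrix.trace_mul_comm, mul_assoc, hQ2, mul_one]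
  exact self_eq_neg.1 e2

/-- **Irreducible case.** -/
theorem IsGalO.dich_irr (H : IsHW (2 * m + 1) Q S P) (G : IsGalO Q S P Γ R) [Nonempty n] (hirr : VIrr Γ)
    {s : ℕ} (hN : OW.NumD m (fun p => (P p).rank) S (Fintype.card n) s) :
    (1 : Matrix n n ℂ) ∈ LG Γ ∧ OW.hm m R S ∈ LSO Q Γ ∧
    ((∀ X : Matrix n n ℂ, Xᵀ * toC Q + toC Q * X = 0 → X ∈ LSO Q Γ) ∨
      ∃ (q : ℕ) (e : n ≃ Fin 2 × Fin q) (T Ti : Matrix n n ℂ) (G Gi : Matrix (Fin q) (Fin q) ℂ),
        OW.TT (toC Q) (LSO Q Γ) e T Ti G Gi) := by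
  classical
  obtain ⟨_, _, Qi, _, _, hQ1, hQ2, _⟩ := H.exists_basis
  have hQs : (toC Q)ᵀ = -toC Q := by
    rw [H.Q_symm, neg_pow_odd71, neg_one_smul]
  obtain ⟨h1G, hhS, hSirr⟩ := G.irr_LSO H hirr hN.gcd
  have hNR : OW.NumD m (fun p => (R p).rank) S (Fintype.card n) s := by
    have : (fun p => (R p).rank) = fun p => (P p).rank := funext fun p => G.rank p
    rw [this]
    exact hN
  exact ⟨h1G, hhS, (OW.dich_fam (A := R) (S := S) (m := m) hQs hQ1 hQ2 (L := LSO Q Γ)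
    (fun X hX Y hY => LSO_br hX hY)
    (fun T hT => schur_of_d _ hSirr hT) (fun X hX => hX.2) G.mul G.sum (fun p hp => G.R_supp_d hp) hhS hNR
    (fun E Λ hE => exists_herm (LSO Q Γ) (fun X hX Y hY => LSO_br hX hY) hSirr (fun Y hY => LSO_tr H hY) hhS
      hE)).imp id fun h => h.1⟩

end MH
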