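import Pool.Agent.Helper71.OW.Defs
import Pool.Agent.Helper71.CY.Kap

/-!
OW-2. The part `J = Ld L h (-1)` of degree `-1` is irreducible and faithful under the part of degree `0`. Proof.
(0) `L = J + Ld L h 0 + Jᴴ` (`cmp_mem_Ld`, `lev`; see `Lev1.split` in CY/Lev), `J` is commutative (`[J, J]` has degree
`-2`). `J ≠ ⊥`: otherwise `h` commutes with `L`, is a scalar with `τ h = -h`, so zero, against `non`.
(1) `jirr`: let `A ≠ ⊥`, `B` = the elements of `J` orthogonal to `A`. For `a ∈ A`, `b ∈ B`: `a b = b a`, and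
`aᴴ b = b aᴴ` (see `exists_split` in CY/Kap: `W = [aᴴ, b]` has degree `0`, `tr (Wᴴ W) = 0`). The algebra generated by `A`
and the `aᴴ` is self-adjoint, normalised by `Ld L h 0`, by `A`, `Aᴴ`, and commutes with `B`, `Bᴴ`; it is not `⊥` (nilpotent
or trace zero), so it is `⊤`, `B` consists of scalars of trace zero, `B = ⊥`, `A = J`.
(2) `zero_of`: for an orthonormal basis `f` of `J` the matrix `tr (fᵢᴴ [z, fⱼ])` of `[z, ·]` satisfies
`M (zᴴ) = M (z)ᴴ`, so `zᴴ` commutes with `J` too, `z` commutes with `J` and `Jᴴ`. Let `C` = the elements of `Ld L h 0`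
that commute with `J` and `Jᴴ`: self-adjoint, normalised by `L`; the algebra generated by `C` is `⊥` or `⊤`. If `⊤`:
`J` commutes with everything, scalars of trace zero, against `J ≠ ⊥`. So `C` consists of scalars of trace zero.
(3) `scal`: `zero_of` for `z + χ h`.
-/

open Matrix MH

namespace OW

variable {n : Type*} [Fintype n] [DecidableEq n]
variable {h : Matrix n n ℂ} {E : ℝ → Matrix n n ℂ} {Λ : Finset ℝ}
variable {τ : Matrix n n ℂ →ₗ[ℂ] Matrix n n ℂ} {L : Submodule ℂ (Matrix n n ℂ)}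

private lemma tr_br63 (X Y Z : Matrix n n ℂ) :
    (X * (Z * Y - Y * Z)).trace = ((X * Z - Z * X) * Y).trace := by
  rw [mul_sub, sub_mul, trace_sub, trace_sub]
  congr 1
  · rw [mul_assoc]
  · rw [← mul_assoc, trace_mul_comm (X * Y) Z, mul_assoc]

private lemma star_br63 (Z Y : Matrix n n ℂ) : (Z * Y - Y * Z)ᴴ = Yᴴ * Zᴴ - Zᴴ * Yᴴ := by
  rw [conjTranspose_sub, conjTranspose_mul, conjTranspose_mul]

private lemma star_tr63 (X Y : Matrix n n ℂ) : star ((Xᴴ * Y).trace) = (Yᴴ * X).trace := by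
  rw [← trace_conjTranspose, conjTranspose_mul, conjTranspose_conjTranspose]

private lemma star_Ld63 (D : Dat τ L h E Λ) {ν : ℝ} {x : Matrix n n ℂ} (hx : x ∈ Ld L h ν) : xᴴ ∈ Ld L h (-ν) := by
  refine ⟨D.st x hx.1, ?_⟩
  have h1 := congrArg conjTranspose hx.2
  rw [conjTranspose_sub, conjTranspose_mul, conjTranspose_mul, conjTranspose_smul, D.spec.hh] at h1
  have h2 : star (ν : ℂ) = (ν : ℂ) := Complex.conj_ofReal ν
  rw [h2] at h1
  push_cast
  rw [neg_smul, ← h1]
  abel

private lemma tr_skew63 (D : Dat τ L h E Λ) {x : Matrix n n ℂ} (hx : x ∈ L) : x.trace = 0 := by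
  have h1 := D.inv.tr x
  rw [D.sk x hx, trace_neg] at h1
  have h2 : (2 : ℂ) * x.trace = 0 := by linear_combination -h1
  simpa using h2

private lemma scalar63 (D : Dat τ L h E Λ) {x : Matrix n n ℂ} (hx : x ∈ L) {c : ℂ} (hc : x = c • (1 : Matrix n n ℂ)) :
    x = 0 := by
  by_cases hn : Fintype.card n = 0
  · ext i
    exact ((Fintype.card_eq_zero_iff.1 hn).false i).elim
  · have h1 := congrArg trace hc
    rw [tr_skew63 D hx, trace_smul, trace_one, smul_eq_mul] at h1
    rcases mul_eq_zero.1 h1.symm with h2 | h2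
    · rw [hc, h2, zero_smul]
    · exact absurd (by exact_mod_cast h2) hn

/-- the algebra generated by a self-adjoint subset of `L` that is normalised by `L` is everything -/
private lemma gen63 (V : Lv τ L h E Λ) {T : Set (Matrix n n ℂ)} (hTL : ∀ a ∈ T, a ∈ L) (hT1 : ∀ a ∈ T, aᴴ ∈ T)
    (hT2 : ∀ x ∈ L, ∀ a ∈ T, x * a - a * x ∈ Algebra.adjoin ℂ T) {t : Matrix n n ℂ} (ht : t ∈ T) (ht0 : t ≠ 0)
    {b : Matrix n n ℂ} (hb : b ∈ L) (hbT : ∀ a ∈ T, b * a = a * b) : b = 0 := by
  have D := V.dat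
  have hstar : ∀ a ∈ Algebra.adjoin ℂ T, aᴴ ∈ Algebra.adjoin ℂ T := by
    intro a ha
    induction ha using Algebra.adjoin_induction with
    | mem x hx => exact Algebra.subset_adjoin (hT1 x hx)
    | algebraMap r =>
      rw [Algebra.algebraMap_eq_smul_one, conjTranspose_smul, conjTranspose_one]
      exact Subalgebra.smul_mem _ (Subalgebra.one_mem _) _
    | add x y _ _ hx hy =>
      rw [conjTranspose_add]
      exact Subalgebra.add_mem _ hx hy
    | mul x y _ _ hx hy =>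
      rw [conjTranspose_mul]
      exact Subalgebra.mul_mem _ hy hx
  have hnorm : ∀ x ∈ L, ∀ a ∈ Algebra.adjoin ℂ T, x * a - a * x ∈ Algebra.adjoin ℂ T := by
    intro x hx a ha
    induction ha using Algebra.adjoin_induction with
    | mem y hy => exact hT2 x hx y hy
    | algebraMap r =>
      rw [Algebra.algebraMap_eq_smul_one, mul_smul_comm, smul_mul_assoc, mul_one, one_mul, sub_self]
      exact Subalgebra.zero_mem _
    | add y z _ _ hy hz =>
      have e : x * (y + z) - (y + z) * x = (x * y - y * x) + (x * z - z * x) := by noncomm_ring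
      rw [e]
      exact Subalgebra.add_mem _ hy hz
    | mul y z hy' hz' hy hz =>
      have e : x * (y * z) - y * z * x = (x * y - y * x) * z + y * (x * z - z * x) := by noncomm_ring
      rw [e]
      exact Subalgebra.add_mem _ (Subalgebra.mul_mem _ hy hz') (Subalgebra.mul_mem _ hy' hz)
  have htop : Algebra.adjoin ℂ T = ⊤ := by
    rcases V.prim _ hstar hnorm with h1 | h1
    · exfalso
      apply ht0
      have h2 : t ∈ Algebra.adjoin ℂ T := Algebra.subset_adjoin ht
      rw [h1, Algebra.mem_bot] at h2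
      obtain ⟨c, hc⟩ := h2
      rw [Algebra.algebraMap_eq_smul_one] at hc
      exact scalar63 D (hTL t ht) hc.symm
    · exact h1
  have hcom : ∀ a ∈ Algebra.adjoin ℂ T, b * a = a * b := by
    intro a ha
    induction ha using Algebra.adjoin_induction with
    | mem y hy => exact hbT y hy
    | algebraMap r => rw [Algebra.algebraMap_eq_smul_one, mul_smul_comm, smul_mul_assoc, mul_one, one_mul]
    | add y z _ _ hy hz => rw [mul_add, add_mul, hy, hz]
    | mul y z _ _ hy hz => rw [← mul_assoc, hy, mul_assoc, hz, mul_assoc]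
  obtain ⟨c, hc⟩ := D.irr b (fun x _ => hcom x (by rw [htop]; exact Algebra.mem_top))
  exact scalar63 D hb hc

namespace Lv

variable (V : Lv τ L h E Λ)
include V

private lemma star_mem63 {Y : Matrix n n ℂ} (hY : Y ∈ Ld L h (-1)) : Yᴴ ∈ Ld L h 1 := by
  have := star_Ld63 V.dat hY
  rwa [neg_neg] at this

private lemma star_mem0_63 {Z : Matrix n n ℂ} (hZ : Z ∈ Ld L h 0) : Zᴴ ∈ Ld L h 0 := by
  have := star_Ld63 V.dat hZ
  rwa [neg_zero] at this

private lemma br0_63 {Z Y : Matrix n n ℂ} (hZ : Z ∈ Ld L h 0) (hY : Y ∈ Ld L h (-1)) :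
    Z * Y - Y * Z ∈ Ld L h (-1) := by
  have := Dat.Ld_bracket V.dat.br hZ hY
  rwa [zero_add] at this

private lemma br1_63 {a b : Matrix n n ℂ} (ha : a ∈ Ld L h (-1)) (hb : b ∈ Ld L h (-1)) :
    aᴴ * b - b * aᴴ ∈ Ld L h 0 := by
  have := Dat.Ld_bracket V.dat.br (V.star_mem63 ha) hb
  rwa [add_neg_cancel] at this

lemma split {x : Matrix n n ℂ} (hx : x ∈ L) :
    ∃ a ∈ Ld L h (-1), ∃ z ∈ Ld L h 0, ∃ b ∈ Ld L h (-1), x = a + z + bᴴ := by
  have D := V.dat
  refine ⟨cmp E Λ (-1) x, D.cmp_mem_Ld hx _, cmp E Λ 0 x, D.cmp_mem_Ld hx _, (cmp E Λ 1 x)ᴴ,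
    star_Ld63 D (D.cmp_mem_Ld hx _), ?_⟩
  rw [conjTranspose_conjTranspose]
  apply D.spec.ext
  intro μ μ'
  rw [mul_add, mul_add, add_mul, add_mul, D.spec.block_cmp, D.spec.block_cmp, D.spec.block_cmp]
  by_cases h1 : μ - μ' = -1
  · rw [if_pos h1, if_neg (by rw [h1]; norm_num), if_neg (by rw [h1]; norm_num)]
    simp
  by_cases h2 : μ - μ' = 0
  · rw [if_neg h1, if_pos h2, if_neg (by rw [h2]; norm_num)]
    simp
  by_cases h3 : μ - μ' = 1
  · rw [if_neg h1, if_neg h2, if_pos h3]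
    simp
  rw [if_neg h1, if_neg h2, if_neg h3]
  have h4 := D.cmp_mem_Ld hx (μ - μ')
  rw [V.lev _ h2 h3 h1, Submodule.mem_bot] at h4
  have h5 := D.spec.block_cmp (μ - μ') x μ μ'
  rw [if_pos rfl, h4] at h5
  rw [← h5]
  simp

lemma comm {x y : Matrix n n ℂ} (hx : x ∈ Ld L h (-1)) (hy : y ∈ Ld L h (-1)) : x * y = y * x := by
  have h1 := Dat.Ld_bracket V.dat.br hx hy
  rw [V.lev (-1 + -1) (by norm_num) (by norm_num) (by norm_num), Submodule.mem_bot, sub_eq_zero] at h1
  exact h1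

lemma J_ne : Ld L h (-1) ≠ ⊥ := by
  intro h1
  have D := V.dat
  have hcomm : ∀ x ∈ L, h * x = x * h := by
    intro x hx
    obtain ⟨a, ha, z, hz, b, hb, rfl⟩ := V.split hx
    rw [h1, Submodule.mem_bot] at ha hb
    rw [ha, hb, conjTranspose_zero, zero_add, add_zero]
    have h2 := hz.2
    rw [Complex.ofReal_zero, zero_smul] at h2
    exact sub_eq_zero.mp h2
  obtain ⟨c, hc⟩ := D.irr h hcomm
  have h5 : h = 0 := scalar63 D D.mem hc
  obtain ⟨μ, hμ, hE⟩ := V.non
  have h6 := D.spec.h_mul μ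
  rw [h5, zero_mul] at h6
  rcases smul_eq_zero.mp h6.symm with h7 | h7
  · have h8 : μ = 0 := by exact_mod_cast h7
    linarith
  · exact hE h7

theorem jirr {A : Submodule ℂ (Matrix n n ℂ)} (hA : A ≤ Ld L h (-1))
    (hst : ∀ z ∈ Ld L h 0, ∀ a ∈ A, z * a - a * z ∈ A) : A = ⊥ ∨ A = Ld L h (-1) := by
  classical
  by_cases hA0 : A = ⊥
  · exact Or.inl hA0
  right
  have D := V.dat
  let B : Submodule ℂ (Matrix n n ℂ) :=
    { carrier := {y | y ∈ Ld L h (-1) ∧ ∀ a ∈ A, (aᴴ * y).trace = 0}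
      add_mem' := by
        rintro x y ⟨hx, hx'⟩ ⟨hy, hy'⟩
        refine ⟨add_mem hx hy, fun a ha => ?_⟩
        rw [mul_add, trace_add, hx' a ha, hy' a ha, add_zero]
      zero_mem' := ⟨zero_mem _, fun a _ => by rw [mul_zero, trace_zero]⟩
      smul_mem' := by
        rintro c x ⟨hx, hx'⟩
        refine ⟨Submodule.smul_mem _ c hx, fun a ha => ?_⟩
        rw [mul_smul_comm, trace_smul, hx' a ha, smul_zero] }
  have memB : ∀ y, y ∈ B ↔ y ∈ Ld L h (-1) ∧ ∀ a ∈ A, (aᴴ * y).trace = 0 := fun y => Iff.rfl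
  have hsup : Ld L h (-1) ≤ A ⊔ B := by
    intro m hm
    obtain ⟨u, hu, huu, hgen⟩ := exists_onb98 A
    have hpA : ∑ i, ((u i)ᴴ * m).trace • u i ∈ A := Submodule.sum_mem _ fun i _ => Submodule.smul_mem _ _ (hu i)
    have hm' : m = ∑ i, ((u i)ᴴ * m).trace • u i + (m - ∑ i, ((u i)ᴴ * m).trace • u i) := by abel
    rw [hm']
    refine Submodule.add_mem_sup hpA ?_
    rw [memB]
    refine ⟨sub_mem hm (hA hpA), fun a ha => ?_⟩
    rw [mul_sub, trace_sub, sub_eq_zero]
    conv_lhs => rw [hgen a ha]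
    rw [conjTranspose_sum, Finset.sum_mul, trace_sum, Finset.mul_sum, trace_sum]
    refine Finset.sum_congr rfl fun i _ => ?_
    rw [conjTranspose_smul, star_tr63, smul_mul_assoc, mul_smul_comm, trace_smul, trace_smul, smul_eq_mul,
      smul_eq_mul, mul_comm]
  -- `B` commutes with the adjoints of `A`
  have hcAB : ∀ a ∈ A, ∀ b ∈ B, aᴴ * b = b * aᴴ := by
    intro a ha b hb
    rw [← sub_eq_zero]
    set W := aᴴ * b - b * aᴴ with hW
    have hW0 : W ∈ Ld L h 0 := V.br1_63 (hA ha) hb.1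
    have e1 := hb.2 _ (hst W hW0 a ha)
    apply eq_zero_of_trace
    have e2 : (Wᴴ * W).trace = 0 := by
      have e3 : (Wᴴ * W).trace = ((Wᴴ * aᴴ - aᴴ * Wᴴ) * b).trace := by
        rw [← tr_br63]
      rw [e3, ← neg_sub, neg_mul, trace_neg]
      rw [star_br63] at e1
      rw [e1, neg_zero]
    rw [e2, Complex.zero_re]
  obtain ⟨t, htA, ht0⟩ := Submodule.exists_mem_ne_zero_of_ne_bot hA0
  have hB0 : ∀ b ∈ B, b = 0 := by
    intro b hb
    refine gen63 V (T := {a | a ∈ A ∨ aᴴ ∈ A}) ?_ ?_ ?_ (Or.inl htA) ht0 hb.1.1 ?_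
    · rintro a (ha | ha)
      · exact (hA ha).1
      · have := D.st _ (hA ha).1
        rwa [conjTranspose_conjTranspose] at this
    · rintro a (ha | ha)
      · right
        rw [conjTranspose_conjTranspose]
        exact ha
      · exact Or.inl ha
    · intro x hx a ha
      have haT : a ∈ Algebra.adjoin ℂ {a : Matrix n n ℂ | a ∈ A ∨ aᴴ ∈ A} := Algebra.subset_adjoin ha
      obtain ⟨x1, hx1, z, hz, x2, hx2, rfl⟩ := V.split hx
      obtain ⟨a1, ha1, b1, hb1, rfl⟩ := Submodule.mem_sup.1 (hsup hx1)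
      obtain ⟨a2, ha2, b2, hb2, rfl⟩ := Submodule.mem_sup.1 (hsup hx2)
      have hbt : ∀ b' ∈ B, b' * a = a * b' := by
        intro b' hb'
        rcases ha with ha | ha
        · exact V.comm hb'.1 (hA ha)
        · have := hcAB _ ha b' hb'
          rw [conjTranspose_conjTranspose] at this
          exact this.symm
      have hbt' : ∀ b' ∈ B, b'ᴴ * a = a * b'ᴴ := by
        intro b' hb'
        rcases ha with ha | ha
        · have := congrArg conjTranspose (hcAB _ ha b' hb')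
          rw [conjTranspose_mul, conjTranspose_mul, conjTranspose_conjTranspose] at this
          exact this
        · have := congrArg conjTranspose (V.comm hb'.1 (hA ha))
          rw [conjTranspose_mul, conjTranspose_mul, conjTranspose_conjTranspose] at this
          exact this.symm
      have hzt : z * a - a * z ∈ {a : Matrix n n ℂ | a ∈ A ∨ aᴴ ∈ A} := by
        rcases ha with ha | ha
        · exact Or.inl (hst z hz a ha)
        · right
          have h1 := hst zᴴ (V.star_mem0_63 hz) _ ha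
          rw [star_br63, ← neg_sub]
          exact A.neg_mem h1
      have e : (a1 + b1 + z + (a2 + b2)ᴴ) * a - a * (a1 + b1 + z + (a2 + b2)ᴴ) =
          (a1 * a - a * a1) + (z * a - a * z) + (a2ᴴ * a - a * a2ᴴ) + ((b1 * a - a * b1) + (b2ᴴ * a - a * b2ᴴ)) := by
        rw [conjTranspose_add]
        noncomm_ring
      rw [e, hbt b1 hb1, hbt' b2 hb2, sub_self, sub_self, add_zero, add_zero]
      have m1 : a1 ∈ Algebra.adjoin ℂ {a : Matrix n n ℂ | a ∈ A ∨ aᴴ ∈ A} := Algebra.subset_adjoin (Or.inl ha1)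
      have m2 : a2ᴴ ∈ Algebra.adjoin ℂ {a : Matrix n n ℂ | a ∈ A ∨ aᴴ ∈ A} := by
        refine Algebra.subset_adjoin (Or.inr ?_)
        rw [conjTranspose_conjTranspose]
        exact ha2
      exact Subalgebra.add_mem _ (Subalgebra.add_mem _ (Subalgebra.sub_mem _ (Subalgebra.mul_mem _ m1 haT)
        (Subalgebra.mul_mem _ haT m1)) (Algebra.subset_adjoin hzt)) (Subalgebra.sub_mem _ (Subalgebra.mul_mem _ m2 haT)
        (Subalgebra.mul_mem _ haT m2))
    · rintro a (ha | ha)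
      · exact V.comm hb.1 (hA ha)
      · have := hcAB _ ha b hb
        rw [conjTranspose_conjTranspose] at this
        exact this.symm
  apply le_antisymm hA
  intro m hm
  obtain ⟨a, ha, b, hb, rfl⟩ := Submodule.mem_sup.1 (hsup hm)
  rw [hB0 b hb, add_zero]
  exact ha

theorem zero_of {z : Matrix n n ℂ} (hz : z ∈ Ld L h 0) (h1 : ∀ x ∈ Ld L h (-1), z * x = x * z) : z = 0 := by
  have D := V.dat
  have h2 : ∀ x ∈ Ld L h (-1), zᴴ * x = x * zᴴ := by
    intro x hx
    rw [← sub_eq_zero]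
    have hY := V.br0_63 (V.star_mem0_63 hz) hx
    set Y := zᴴ * x - x * zᴴ with hYd
    apply eq_zero_of_trace
    have e : (Yᴴ * Y).trace = 0 := by
      have e1 : Yᴴ = xᴴ * z - z * xᴴ := by
        rw [hYd, star_br63, conjTranspose_conjTranspose]
      rw [e1, ← tr_br63, h1 Y hY, sub_self, mul_zero, trace_zero]
    rw [e, Complex.zero_re]
  by_contra hz0
  obtain ⟨b, hb, hb0⟩ := Submodule.exists_mem_ne_zero_of_ne_bot V.J_ne
  apply hb0
  refine gen63 V (T := {w | w ∈ Ld L h 0 ∧ (∀ x ∈ Ld L h (-1), w * x = x * w) ∧ ∀ x ∈ Ld L h (-1), wᴴ * x = x * wᴴ})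
    ?_ ?_ ?_ ⟨hz, h1, h2⟩ hz0 hb.1 ?_
  · rintro a ⟨ha, -, -⟩
    exact ha.1
  · rintro a ⟨ha, ha1, ha2⟩
    refine ⟨V.star_mem0_63 ha, ha2, ?_⟩
    rw [conjTranspose_conjTranspose]
    exact ha1
  · rintro x hx a ⟨ha, ha1, ha2⟩
    obtain ⟨x1, hx1, w, hw, x2, hx2, rfl⟩ := V.split hx
    have e1 : x2ᴴ * a = a * x2ᴴ := by
      have := congrArg conjTranspose (ha2 x2 hx2)
      rw [conjTranspose_mul, conjTranspose_mul, conjTranspose_conjTranspose] at this
      exact this
    have e : (x1 + w + x2ᴴ) * a - a * (x1 + w + x2ᴴ) = (w * a - a * w) + ((x1 * a - a * x1) + (x2ᴴ * a - a * x2ᴴ)) := by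
      noncomm_ring
    rw [e, ← ha1 x1 hx1, e1, sub_self, sub_self, add_zero, add_zero]
    -- Jacobi
    have jac : ∀ w' a' : Matrix n n ℂ, w' ∈ Ld L h 0 → (∀ x ∈ Ld L h (-1), a' * x = x * a') →
        ∀ x ∈ Ld L h (-1), (w' * a' - a' * w') * x = x * (w' * a' - a' * w') := by
      intro w' a' hw' ha' x hx
      have e2 := ha' _ (V.br0_63 hw' hx)
      have e3 := ha' x hx
      rw [← sub_eq_zero] at e2 e3 ⊢
      have e4 : (w' * a' - a' * w') * x - x * (w' * a' - a' * w') =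
          w' * (a' * x - x * a') - (a' * x - x * a') * w' - (a' * (w' * x - x * w') - (w' * x - x * w') * a') := by
        noncomm_ring
      rw [e4, e2, e3]
      simp
    refine Algebra.subset_adjoin ⟨?_, jac w a hw ha1, ?_⟩
    · have := Dat.Ld_bracket D.br hw ha
      rwa [add_zero] at this
    · intro x hx
      have e5 : (w * a - a * w)ᴴ = -(wᴴ * aᴴ - aᴴ * wᴴ) := by
        rw [star_br63, neg_sub]
      rw [e5, neg_mul, mul_neg, jac wᴴ aᴴ (V.star_mem0_63 hw) ha2 x hx]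
  · rintro a ⟨-, ha1, -⟩
    exact (ha1 b hb).symm

theorem scal {z : Matrix n n ℂ} (hz : z ∈ Ld L h 0) {χ : ℂ} (h1 : ∀ x ∈ Ld L h (-1), z * x - x * z = χ • x) :
    z = -(χ • h) := by
  have D := V.dat
  have hh : h ∈ Ld L h 0 := ⟨D.mem, by simp⟩
  have h2 : z + χ • h = 0 := by
    refine V.zero_of ((Ld L h 0).add_mem hz ((Ld L h 0).smul_mem χ hh)) ?_
    intro x hx
    rw [← sub_eq_zero]
    have e : (z + χ • h) * x - x * (z + χ • h) = (z * x - x * z) + χ • (h * x - x * h) := by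
      rw [add_mul, mul_add, smul_mul_assoc, mul_smul_comm, smul_sub]
      abel
    rw [e, h1 x hx, hx.2, ← smul_add]
    simp
  exact eq_neg_of_add_eq_zero_left h2

end Lv

end OW
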