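import Pool.Agent.Helper71.OW.TDefs
import Pool.Agent.Helper71.OW.Cen
import Pool.Agent.Helper33.MON.Simp

/-!
OW-51. Normalisers. (a) `norm_alg`: an invertible matrix `g` that normalises `M_2 ⊗ 1` is `a ⊗ b`. Proof: `g (C ⊗ 1) g' = φ C ⊗ 1`; `φ` is
multiplicative, linear, `φ 1 = 1` (`tz_mul`, `tz_inj`; for `q = 0` there is nothing to prove: `n` is empty). Skolem-Noether for `M_2`:
let `ε i j = φ (single i j 1)`; `ε 0 0 ≠ 0`, so there is `u` with `ε 0 0 *ᵥ u ≠ 0`; the matrix `a` with columns `ε i 0 *ᵥ u` satisfies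
`φ C * a = a * C`, and is invertible (`ε 0 i *ᵥ` maps the column `i` to `ε 0 0 *ᵥ u ≠ 0` and kills the others). So `(a⁻¹ ⊗ 1) g` commutes with
`M_2 ⊗ 1`, so it is `1 ⊗ b` (direct: a matrix that commutes with all `C ⊗ 1` is `1 ⊗ b`; the private `split81` in `Ind.lean` or
`coord_comm` in `Cen.lean` do this). (b) `norm_lie`: the same for `X` with `[X, C ⊗ 1] ∈ M_2 ⊗ 1`: `X = x ⊗ 1 + 1 ⊗ z`, `tr x = 0` (this is
`split81` in `Ind.lean`). (c) `TT.norm`: `g` normalises `L = sl₂ ⊗ 1 + 1 ⊗ so(G)`. Let `I` be the space of the `tz (kr x 1)`, `tr x = 0`, `I' = g I g'`: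
both are ideals of `L` of dimension 3. `M = {z skew for G | tz (kr 1 z) ∈ I'}` is an ideal of `so(G)`; if `M ≠ 0` then `M = so(G)` by `so_simple`
(`Pool/Agent/Helper33/MON/Simp.lean`, `q ≥ 5`; `det G ≠ 0` by `G * Gi = 1`), and `I'` would have dimension more than 3 (for `q ≥ 5` there are 4 linearly
independent skew matrices for `G`: the `(E_ij - E_ji) G` with `i < j`). So `M = 0`. An element `x ⊗ 1 + 1 ⊗ z` of `I'` has bracket
`1 ⊗ [z, y] ∈ I'` with `1 ⊗ y`, so `z` commutes with all skew `y`, so `z = 0` (`ℂ z` is an ideal of `so(G)`, not everything; so it is 0).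
So `I' ⊆ I`. So `g` normalises `I`, and so `M_2 ⊗ 1 = I + ℂ`; use (a).
-/

open Matrix MH

namespace OW

variable {n : Type*} [Fintype n] [DecidableEq n] {q : ℕ}
variable {T Ti : Matrix n n ℂ} {e : n ≃ Fin 2 × Fin q}


/-- the block `(k, l)` -/
private def blk33 (Z : Matrix (Fin 2 × Fin q) (Fin 2 × Fin q) ℂ) (k l : Fin q) : Matrix (Fin 2) (Fin 2) ℂ :=
  Matrix.of fun i j => Z (i, k) (j, l)

private lemma blk_ext33 {Z Z' : Matrix (Fin 2 × Fin q) (Fin 2 × Fin q) ℂ}
    (h : ∀ k l, blk33 Z k l = blk33 Z' k l) : Z = Z' := by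
  ext ⟨i, k⟩ ⟨j, l⟩
  exact congrFun (congrFun (h k l) i) j

private lemma blk_right33 (Z : Matrix (Fin 2 × Fin q) (Fin 2 × Fin q) ℂ) (C : Matrix (Fin 2) (Fin 2) ℂ) (k l : Fin q) :
    blk33 (Z * kr C 1) k l = blk33 Z k l * C := by
  ext i j
  simp only [blk33, of_apply, Matrix.mul_apply, Fintype.sum_prod_type, kroneckerMap_apply]
  refine Finset.sum_congr rfl fun p _ => ?_
  rw [Finset.sum_eq_single l]
  · rw [Matrix.one_apply_eq, mul_one]
  · intro r _ hr
    rw [Matrix.one_apply_ne hr, mul_zero, mul_zero]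
  · intro hl
    exact absurd (Finset.mem_univ l) hl

private lemma blk_left33 (Z : Matrix (Fin 2 × Fin q) (Fin 2 × Fin q) ℂ) (C : Matrix (Fin 2) (Fin 2) ℂ) (k l : Fin q) :
    blk33 (kr C 1 * Z) k l = C * blk33 Z k l := by
  ext i j
  simp only [blk33, of_apply, Matrix.mul_apply, Fintype.sum_prod_type, kroneckerMap_apply]
  refine Finset.sum_congr rfl fun p _ => ?_
  rw [Finset.sum_eq_single k]
  · rw [Matrix.one_apply_eq, mul_one]
  · intro r _ hr
    rw [Matrix.one_apply_ne (Ne.symm hr), mul_zero, zero_mul]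
  · intro hl
    exact absurd (Finset.mem_univ k) hl

private lemma blk_kr33 (C : Matrix (Fin 2) (Fin 2) ℂ) (D : Matrix (Fin q) (Fin q) ℂ) (k l : Fin q) :
    blk33 (kr C D) k l = D k l • C := by
  ext i j
  simp only [blk33, of_apply, kroneckerMap_apply, Matrix.smul_apply, smul_eq_mul]
  ring

private lemma blk_add33 (Z Z' : Matrix (Fin 2 × Fin q) (Fin 2 × Fin q) ℂ) (k l : Fin q) :
    blk33 (Z + Z') k l = blk33 Z k l + blk33 Z' k l := rfl

private lemma blk_sub33 (Z Z' : Matrix (Fin 2 × Fin q) (Fin 2 × Fin q) ℂ) (k l : Fin q) :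
    blk33 (Z - Z') k l = blk33 Z k l - blk33 Z' k l := rfl

/-- the commutant of the matrices of size two -/
private lemma comm33 {X : Matrix (Fin 2) (Fin 2) ℂ} (h : ∀ C : Matrix (Fin 2) (Fin 2) ℂ, X * C = C * X) :
    X = (X.trace / 2) • (1 : Matrix (Fin 2) (Fin 2) ℂ) := by
  have h1 := h !![0, 1; 0, 0]
  have h2 := h !![0, 0; 1, 0]
  have a1 := congrFun (congrFun h1 0) 0
  have a2 := congrFun (congrFun h1 0) 1
  have a3 := congrFun (congrFun h2 0) 0
  simp [Matrix.mul_apply, Fin.sum_univ_two] at a1 a2 a3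
  have b1 : X 1 0 = 0 := a1.symm
  ext i j
  fin_cases i <;> fin_cases j <;> simp [Matrix.trace_fin_two, b1, a2, a3]

/-- intertwiners -/
private lemma inter33 {A : Matrix (Fin 2) (Fin 2) ℂ} {φ : Matrix (Fin 2) (Fin 2) ℂ → Matrix (Fin 2) (Fin 2) ℂ}
    (hA : ∀ C, A * C = φ C * A) (h0 : A ≠ 0) {B : Matrix (Fin 2) (Fin 2) ℂ} (hB : ∀ C, B * C = φ C * B) :
    ∃ b : ℂ, B = b • A := by
  have hinj : ∀ v : Fin 2 → ℂ, A *ᵥ v = 0 → v = 0 := by
    intro v hv
    by_contra hne
    apply h0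
    obtain ⟨i, hi⟩ : ∃ i, v i ≠ 0 := by
      by_contra hh
      push Not at hh
      exact hne (funext hh)
    ext r s
    have e1 := congrArg (fun M => M *ᵥ v) (hA (Matrix.single s i 1))
    simp only [← Matrix.mulVec_mulVec, hv, Matrix.mulVec_zero] at e1
    have e2 : Matrix.single s i (1 : ℂ) *ᵥ v = Pi.single s (v i) := by
      ext t
      simp [Matrix.mulVec, dotProduct, Matrix.single_apply, Pi.single_apply, eq_comm, ite_and]
    rw [e2, Matrix.mulVec_single] at e1
    have e3 := congrFun e1 r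
    simp only [Pi.smul_apply, MulOpposite.smul_eq_mul_unop, MulOpposite.unop_op, Matrix.col_apply, Pi.zero_apply] at e3
    exact (mul_eq_zero.1 e3).resolve_right hi
  have hdet : A.det ≠ 0 := by
    intro hd
    obtain ⟨v, hv, hv'⟩ := Matrix.exists_mulVec_eq_zero_iff.2 hd
    exact hv (hinj v hv')
  have hu : IsUnit A.det := isUnit_iff_ne_zero.2 hdet
  have i1 : A⁻¹ * A = 1 := Matrix.nonsing_inv_mul A hu
  have i2 : A * A⁻¹ = 1 := Matrix.mul_nonsing_inv A hu
  have hφ : ∀ C, φ C = A * C * A⁻¹ := by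
    intro C
    rw [hA, Matrix.mul_assoc, i2, Matrix.mul_one]
  have hc : ∀ C, (A⁻¹ * B) * C = C * (A⁻¹ * B) := by
    intro C
    calc (A⁻¹ * B) * C = A⁻¹ * (B * C) := Matrix.mul_assoc _ _ _
      _ = A⁻¹ * (A * C * A⁻¹ * B) := by rw [hB, hφ]
      _ = (A⁻¹ * A) * C * (A⁻¹ * B) := by simp only [Matrix.mul_assoc]
      _ = C * (A⁻¹ * B) := by rw [i1, Matrix.one_mul]
  refine ⟨(A⁻¹ * B).trace / 2, ?_⟩
  have := comm33 hc
  calc B = A * (A⁻¹ * B) := by rw [← Matrix.mul_assoc, i2, Matrix.one_mul]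
    _ = _ := by
      conv_lhs => rw [this]
      rw [Matrix.mul_smul, Matrix.mul_one]

theorem norm_alg (h1 : T * Ti = 1) (h2 : Ti * T = 1) {g g' : Matrix n n ℂ} (g1 : g * g' = 1) (g2 : g' * g = 1)
    (hg : ∀ C : Matrix (Fin 2) (Fin 2) ℂ, ∃ C' : Matrix (Fin 2) (Fin 2) ℂ,
      g * tz T Ti e (kr C 1) * g' = tz T Ti e (kr C' 1)) :
    ∃ (a : Matrix (Fin 2) (Fin 2) ℂ) (b : Matrix (Fin q) (Fin q) ℂ), g = tz T Ti e (kr a b) := by
  obtain ⟨M, hM⟩ : ∃ M : Matrix (Fin 2 × Fin q) (Fin 2 × Fin q) ℂ, g = tz T Ti e M :=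
    ⟨_, (tz_coord h1 g).symm⟩
  rcases Nat.eq_zero_or_pos q with hq | hq
  · subst hq
    refine ⟨1, 1, ?_⟩
    rw [hM]
    congr 1
    exact blk_ext33 fun k => k.elim0
  choose φ hφ using hg
  have key : ∀ C, M * kr C 1 = kr (φ C) 1 * M := by
    intro C
    apply tz_inj (T := T) (Ti := Ti) (e := e) h2
    rw [← tz_mul h2, ← tz_mul h2, ← hM, ← hφ, Matrix.mul_assoc (g * _), g2, Matrix.mul_one]
  have kb : ∀ k l C, blk33 M k l * C = φ C * blk33 M k l := by
    intro k l C
    rw [← blk_right33, key, blk_left33]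
  obtain ⟨k0, l0, h0⟩ : ∃ k l, blk33 M k l ≠ 0 := by
    by_contra hh
    push Not at hh
    have hM0 : M = 0 := blk_ext33 fun k l => by rw [hh]; rfl
    have hg0 : g = 0 := by rw [hM, hM0, tz_zero]
    have h10 : (1 : Matrix n n ℂ) = 0 := by rw [← g1, hg0, Matrix.zero_mul]
    have i0 : n := e.symm (0, ⟨0, hq⟩)
    have := congrFun (congrFun h10 i0) i0
    simp at this
  choose b hb using fun k l => inter33 (kb k0 l0) h0 (kb k l)
  refine ⟨blk33 M k0 l0, Matrix.of b, ?_⟩
  rw [hM]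
  congr 1
  refine blk_ext33 fun k l => ?_
  rw [blk_kr33, of_apply]
  exact hb k l

theorem norm_lie (h1 : T * Ti = 1) (h2 : Ti * T = 1) {X : Matrix n n ℂ}
    (hX : ∀ C : Matrix (Fin 2) (Fin 2) ℂ, ∃ C' : Matrix (Fin 2) (Fin 2) ℂ,
      X * tz T Ti e (kr C 1) - tz T Ti e (kr C 1) * X = tz T Ti e (kr C' 1)) :
    ∃ (x : Matrix (Fin 2) (Fin 2) ℂ) (z : Matrix (Fin q) (Fin q) ℂ), x.trace = 0 ∧
      X = tz T Ti e (kr x 1 + kr 1 z) := by
  obtain ⟨M, hM⟩ : ∃ M : Matrix (Fin 2 × Fin q) (Fin 2 × Fin q) ℂ, X = tz T Ti e M :=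
    ⟨_, (tz_coord h1 X).symm⟩
  rcases Nat.eq_zero_or_pos q with hq | hq
  · subst hq
    refine ⟨0, 0, by simp, ?_⟩
    rw [hM]
    congr 1
    exact blk_ext33 fun k => k.elim0
  choose φ hφ using hX
  have key : ∀ C, M * kr C 1 - kr C 1 * M = kr (φ C) 1 := by
    intro C
    apply tz_inj (T := T) (Ti := Ti) (e := e) h2
    rw [tz_sub, ← tz_mul h2, ← tz_mul h2, ← hM, ← hφ]
  have kb : ∀ k l C, blk33 M k l * C - C * blk33 M k l = (1 : Matrix (Fin q) (Fin q) ℂ) k l • φ C := by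
    intro k l C
    rw [← blk_right33, ← blk_left33, ← blk_sub33, key, blk_kr33]
  have off : ∀ k l, k ≠ l → blk33 M k l = ((blk33 M k l).trace / 2) • (1 : Matrix (Fin 2) (Fin 2) ℂ) := by
    intro k l hkl
    apply comm33
    intro C
    have := kb k l C
    rw [Matrix.one_apply_ne hkl, zero_smul] at this
    exact sub_eq_zero.1 this
  have k0 : Fin q := ⟨0, hq⟩
  have dia : ∀ k, blk33 M k k - blk33 M k0 k0 =
      ((blk33 M k k - blk33 M k0 k0).trace / 2) • (1 : Matrix (Fin 2) (Fin 2) ℂ) := by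
    intro k
    apply comm33
    intro C
    have e1 := kb k k C
    have e2 := kb k0 k0 C
    rw [Matrix.one_apply_eq, one_smul] at e1 e2
    have e3 : blk33 M k k * C - C * blk33 M k k = blk33 M k0 k0 * C - C * blk33 M k0 k0 := by rw [e1, e2]
    rw [Matrix.sub_mul, Matrix.mul_sub]
    rw [sub_eq_sub_iff_add_eq_add] at e3 ⊢
    rw [add_comm (C * blk33 M k k), ← e3]
  refine ⟨blk33 M k0 k0 - ((blk33 M k0 k0).trace / 2) • (1 : Matrix (Fin 2) (Fin 2) ℂ),
    Matrix.of fun k l => (blk33 M k l).trace / 2, ?_, ?_⟩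
  · rw [Matrix.trace_sub, Matrix.trace_smul, Matrix.trace_one]
    simp
  · rw [hM]
    congr 1
    refine blk_ext33 fun k l => ?_
    rw [blk_add33, blk_kr33, blk_kr33, of_apply]
    by_cases hkl : k = l
    · subst hkl
      rw [Matrix.one_apply_eq, one_smul]
      have e1 := dia k
      rw [Matrix.trace_sub, sub_div, sub_smul] at e1
      rw [sub_eq_iff_eq_add] at e1
      conv_lhs => rw [e1]
      abel
    · rw [Matrix.one_apply_ne hkl, zero_smul, zero_add]
      exact off k l hkl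


private lemma kr_zl33 (z : Matrix (Fin q) (Fin q) ℂ) : kr (0 : Matrix (Fin 2) (Fin 2) ℂ) z = 0 := zero_kronecker _

private lemma kr_zr33 (x : Matrix (Fin 2) (Fin 2) ℂ) : kr x (0 : Matrix (Fin q) (Fin q) ℂ) = 0 := kronecker_zero _

private lemma kr_al33 (x x' : Matrix (Fin 2) (Fin 2) ℂ) (z : Matrix (Fin q) (Fin q) ℂ) :
    kr (x + x') z = kr x z + kr x' z := add_kronecker _ _ _

private lemma kr_ar33 (x : Matrix (Fin 2) (Fin 2) ℂ) (z z' : Matrix (Fin q) (Fin q) ℂ) :
    kr x (z + z') = kr x z + kr x z' := kronecker_add _ _ _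

private lemma kr_ml33 (c : ℂ) (x : Matrix (Fin 2) (Fin 2) ℂ) (z : Matrix (Fin q) (Fin q) ℂ) :
    kr (c • x) z = c • kr x z := smul_kronecker _ _ _

private lemma kr_mr33 (c : ℂ) (x : Matrix (Fin 2) (Fin 2) ℂ) (z : Matrix (Fin q) (Fin q) ℂ) :
    kr x (c • z) = c • kr x z := kronecker_smul _ _ _

private lemma kr_sl33 (x x' : Matrix (Fin 2) (Fin 2) ℂ) (z : Matrix (Fin q) (Fin q) ℂ) :
    kr (x - x') z = kr x z - kr x' z := by
  rw [eq_sub_iff_add_eq, ← kr_al33, sub_add_cancel]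

private lemma kr_sr33 (x : Matrix (Fin 2) (Fin 2) ℂ) (z z' : Matrix (Fin q) (Fin q) ℂ) :
    kr x (z - z') = kr x z - kr x z' := by
  rw [eq_sub_iff_add_eq, ← kr_ar33, sub_add_cancel]

/-- the second component -/
private noncomputable def zp33 (Z : Matrix (Fin 2 × Fin q) (Fin 2 × Fin q) ℂ) : Matrix (Fin q) (Fin q) ℂ :=
  Matrix.of fun k l => (blk33 Z k l).trace / 2

private lemma zp_add33 (Z Z' : Matrix (Fin 2 × Fin q) (Fin 2 × Fin q) ℂ) : zp33 (Z + Z') = zp33 Z + zp33 Z' := by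
  ext k l
  simp only [zp33, of_apply, Matrix.add_apply, blk_add33, Matrix.trace_add, add_div]

private lemma zp_smul33 (c : ℂ) (Z : Matrix (Fin 2 × Fin q) (Fin 2 × Fin q) ℂ) : zp33 (c • Z) = c • zp33 Z := by
  ext k l
  have h : blk33 (c • Z) k l = c • blk33 Z k l := rfl
  simp only [zp33, of_apply, Matrix.smul_apply, h, Matrix.trace_smul, smul_eq_mul, mul_div_assoc]

private lemma zp_kr33 {x : Matrix (Fin 2) (Fin 2) ℂ} (hx : x.trace = 0) (z : Matrix (Fin q) (Fin q) ℂ) :
    zp33 (kr x 1 + kr 1 z) = z := by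
  ext k l
  rw [zp33, of_apply, blk_add33, blk_kr33, blk_kr33, Matrix.trace_add, Matrix.trace_smul, Matrix.trace_smul, hx,
    Matrix.trace_one, smul_zero, zero_add, smul_eq_mul]
  simp

private lemma zp_one33 : zp33 (1 : Matrix (Fin 2 × Fin q) (Fin 2 × Fin q) ℂ) = 1 := by
  have h := zp_kr33 (q := q) (x := 0) (by simp) 1
  rw [kr_zl33, zero_add, kr_one] at h
  exact h

private lemma skew_br33 {G Y z : Matrix (Fin q) (Fin q) ℂ} (hY : Yᵀ * G + G * Y = 0) (hz : zᵀ * G + G * z = 0) :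
    (Y * z - z * Y)ᵀ * G + G * (Y * z - z * Y) = 0 := by
  have a : Yᵀ * G = -(G * Y) := eq_neg_of_add_eq_zero_left hY
  have b : zᵀ * G = -(G * z) := eq_neg_of_add_eq_zero_left hz
  have e1 : zᵀ * Yᵀ * G = G * z * Y := by
    rw [Matrix.mul_assoc, a, Matrix.mul_neg, ← Matrix.mul_assoc, b, Matrix.neg_mul, neg_neg]
  have e2 : Yᵀ * zᵀ * G = G * Y * z := by
    rw [Matrix.mul_assoc, b, Matrix.mul_neg, ← Matrix.mul_assoc, a, Matrix.neg_mul, neg_neg]
  rw [Matrix.transpose_sub, Matrix.transpose_mul, Matrix.transpose_mul, Matrix.sub_mul, Matrix.mul_sub, e1, e2,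
    ← Matrix.mul_assoc, ← Matrix.mul_assoc]
  abel

/-- an antisymmetric matrix with given first row -/
private noncomputable def ant33 (k0 : Fin q) (c : Fin q → ℂ) : Matrix (Fin q) (Fin q) ℂ :=
  Matrix.of fun i j => (if i = k0 then c j else 0) - (if j = k0 then c i else 0)

private lemma ant_t33 (k0 : Fin q) (c : Fin q → ℂ) : (ant33 k0 c)ᵀ = -ant33 k0 c := by
  ext i j
  simp only [ant33, Matrix.transpose_apply, of_apply, Matrix.neg_apply, neg_sub]

/-- the dimension of the image -/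
private lemma dim33 {G Gi : Matrix (Fin q) (Fin q) ℂ} (Gs : Gᵀ = G) (G1 : G * Gi = 1) (hq : 5 ≤ q)
    (φ : Matrix (Fin 2) (Fin 2) ℂ →ₗ[ℂ] Matrix (Fin q) (Fin q) ℂ) (h1 : φ 1 = 1)
    (hφ : ∀ Y : Matrix (Fin q) (Fin q) ℂ, Yᵀ * G + G * Y = 0 → ∃ x, φ x = Y) : False := by
  have k0 : Fin q := ⟨0, by omega⟩
  let ι : (Fin q → ℂ) →ₗ[ℂ] Matrix (Fin q) (Fin q) ℂ :=
    { toFun := fun c => Gi * ant33 k0 c + c k0 • (1 : Matrix (Fin q) (Fin q) ℂ)
      map_add' := fun c d => by
        have e : ant33 k0 (c + d) = ant33 k0 c + ant33 k0 d := by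
          ext i j
          simp only [ant33, of_apply, Matrix.add_apply, Pi.add_apply]
          split_ifs <;> ring
        rw [e, Pi.add_apply, add_smul, Matrix.mul_add]
        abel
      map_smul' := fun r c => by
        have e : ant33 k0 (r • c) = r • ant33 k0 c := by
          ext i j
          simp only [ant33, of_apply, Matrix.smul_apply, Pi.smul_apply, smul_eq_mul]
          split_ifs <;> ring
        rw [e, Pi.smul_apply, RingHom.id_apply, smul_add, Matrix.mul_smul, smul_eq_mul, mul_smul] }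
  have hι : ∀ c, ι c = Gi * ant33 k0 c + c k0 • (1 : Matrix (Fin q) (Fin q) ℂ) := fun c => rfl
  have G2 : Giᵀ * G = 1 := by
    have := congrArg Matrix.transpose G1
    rw [Matrix.transpose_mul, Gs, Matrix.transpose_one] at this
    exact this
  have hin : Function.Injective ι := by
    rw [injective_iff_map_eq_zero]
    intro c hc
    rw [hι] at hc
    have e1 : ant33 k0 c = -(c k0 • G) := by
      have := congrArg (fun M => G * M) hc
      simp only [Matrix.mul_add, ← Matrix.mul_assoc, G1, Matrix.one_mul, Matrix.mul_smul, Matrix.mul_one,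
        Matrix.mul_zero] at this
      exact eq_neg_of_add_eq_zero_left this
    have e2 : c k0 • G = 0 := by
      have t1 := ant_t33 k0 c
      rw [e1, Matrix.transpose_neg, Matrix.transpose_smul, Gs, neg_neg] at t1
      have t2 : (2 : ℂ) • (c k0 • G) = 0 := by
        rw [two_smul]
        nth_rewrite 1 [← t1]
        rw [neg_add_cancel]
      exact (smul_eq_zero.1 t2).resolve_left two_ne_zero
    have e3 : c k0 = 0 := by
      rcases smul_eq_zero.1 e2 with h | h
      · exact h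
      · exfalso
        rw [h, Matrix.zero_mul] at G1
        have := congrFun (congrFun G1 k0) k0
        simp at this
    have e4 : ant33 k0 c = 0 := by rw [e1, e2, neg_zero]
    funext j
    have := congrFun (congrFun e4 k0) j
    simp only [ant33, of_apply, if_true, e3, ite_self, sub_zero, Matrix.zero_apply] at this
    exact this
  have hmem : ∀ c, ι c ∈ LinearMap.range φ := by
    intro c
    rw [hι]
    refine Submodule.add_mem _ ?_ (Submodule.smul_mem _ _ ⟨1, h1⟩)
    obtain ⟨x, hx⟩ := hφ (Gi * ant33 k0 c) (by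
      rw [← Matrix.mul_assoc, G1, Matrix.one_mul, Matrix.transpose_mul, Matrix.mul_assoc, G2, Matrix.mul_one,
        ant_t33, neg_add_cancel])
    exact ⟨x, hx⟩
  have hin2 : Function.Injective (LinearMap.codRestrict (LinearMap.range φ) ι hmem) := by
    intro a b hab
    exact hin (congrArg Subtype.val hab)
  have d1 := LinearMap.finrank_le_finrank_of_injective hin2
  have d2 := LinearMap.finrank_range_le φ
  rw [Module.finrank_fin_fun] at d1
  rw [Module.finrank_matrix, Module.finrank_self, Fintype.card_fin] at d2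
  omega

theorem TT.norm {Q' : Matrix n n ℂ} {L : Submodule ℂ (Matrix n n ℂ)} {G Gi : Matrix (Fin q) (Fin q) ℂ}
    (H : TT Q' L e T Ti G Gi) {g g' : Matrix n n ℂ} (g1 : g * g' = 1) (g2 : g' * g = 1)
    (hg : ∀ X ∈ L, g * X * g' ∈ L) :
    ∃ (a : Matrix (Fin 2) (Fin 2) ℂ) (b : Matrix (Fin q) (Fin q) ℂ), g = tz T Ti e (kr a b) := by
  have hg' : ∀ X ∈ L, g' * X * g ∈ L := by
    let F : L →ₗ[ℂ] L :=
      { toFun := fun X => ⟨g * X.1 * g', hg _ X.2⟩
        map_add' := fun X Y => by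
          apply Subtype.ext
          simp only [Submodule.coe_add, Matrix.mul_add, Matrix.add_mul]
        map_smul' := fun r X => by
          apply Subtype.ext
          simp only [Submodule.coe_smul, Matrix.mul_smul, Matrix.smul_mul, RingHom.id_apply] }
    have back : ∀ X : Matrix n n ℂ, g' * (g * X * g') * g = X := by
      intro X
      calc g' * (g * X * g') * g = (g' * g) * X * (g' * g) := by simp only [Matrix.mul_assoc]
        _ = X := by rw [g2, Matrix.one_mul, Matrix.mul_one]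
    have hF : Function.Injective F := by
      intro X Y hXY
      have e1 : g * X.1 * g' = g * Y.1 * g' := congrArg Subtype.val hXY
      apply Subtype.ext
      rw [← back X.1, e1, back]
    intro X hX
    obtain ⟨Y, hY⟩ := LinearMap.injective_iff_surjective.1 hF ⟨X, hX⟩
    have e1 : g * Y.1 * g' = X := congrArg Subtype.val hY
    rw [← e1, back]
    exact Y.2
  have hbr : ∀ X Y : Matrix n n ℂ, g * (X * Y - Y * X) * g' =
      (g * X * g') * (g * Y * g') - (g * Y * g') * (g * X * g') := by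
    intro X Y
    have hm : ∀ A B : Matrix n n ℂ, (g * A * g') * (g * B * g') = g * (A * B) * g' := by
      intro A B
      calc (g * A * g') * (g * B * g') = g * A * (g' * g) * B * g' := by simp only [Matrix.mul_assoc]
        _ = _ := by rw [g2, Matrix.mul_one]; simp only [Matrix.mul_assoc]
    rw [hm, hm, Matrix.mul_sub, Matrix.sub_mul]
  have hxin : ∀ x : Matrix (Fin 2) (Fin 2) ℂ, x.trace = 0 → tz T Ti e (kr x 1) ∈ L := by
    intro x hx
    refine (H.mem _).2 ⟨x, 0, hx, by simp, ?_⟩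
    rw [kr_zr33, add_zero]
  have hzin : ∀ z : Matrix (Fin q) (Fin q) ℂ, zᵀ * G + G * z = 0 → tz T Ti e (kr 1 z) ∈ L := by
    intro z hz
    refine (H.mem _).2 ⟨0, z, by simp, hz, ?_⟩
    rw [kr_zl33, zero_add]
  let M : Submodule ℂ (Matrix (Fin q) (Fin q) ℂ) :=
    { carrier := {z | zᵀ * G + G * z = 0 ∧ ∃ x x' : Matrix (Fin 2) (Fin 2) ℂ, x.trace = 0 ∧ x'.trace = 0 ∧
        g * tz T Ti e (kr x 1) * g' = tz T Ti e (kr x' 1 + kr 1 z)}
      add_mem' := by
        rintro z w ⟨hz, x, x', hx, hx', e1⟩ ⟨hw, y, y', hy, hy', e2⟩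
        refine ⟨?_, x + y, x' + y', ?_, ?_, ?_⟩
        · rw [Matrix.transpose_add, Matrix.add_mul, Matrix.mul_add, add_add_add_comm, hz, hw, add_zero]
        · rw [Matrix.trace_add, hx, hy, add_zero]
        · rw [Matrix.trace_add, hx', hy', add_zero]
        · rw [kr_al33, tz_add, Matrix.mul_add, Matrix.add_mul, e1, e2, ← tz_add, kr_al33, kr_ar33,
            add_add_add_comm]
      zero_mem' := by
        refine ⟨by simp, 0, 0, by simp, by simp, ?_⟩
        rw [kr_zl33, kr_zr33, add_zero, tz_zero, Matrix.mul_zero, Matrix.zero_mul]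
      smul_mem' := by
        rintro c z ⟨hz, x, x', hx, hx', e1⟩
        refine ⟨?_, c • x, c • x', ?_, ?_, ?_⟩
        · rw [Matrix.transpose_smul, Matrix.smul_mul, Matrix.mul_smul, ← smul_add, hz, smul_zero]
        · rw [Matrix.trace_smul, hx, smul_zero]
        · rw [Matrix.trace_smul, hx', smul_zero]
        · rw [kr_ml33, tz_smul, Matrix.mul_smul, Matrix.smul_mul, e1, kr_ml33, kr_mr33,
            ← smul_add, tz_smul] }
  have hM : ∀ z, z ∈ M ↔ (zᵀ * G + G * z = 0 ∧ ∃ x x' : Matrix (Fin 2) (Fin 2) ℂ, x.trace = 0 ∧ x'.trace = 0 ∧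
        g * tz T Ti e (kr x 1) * g' = tz T Ti e (kr x' 1 + kr 1 z)) := fun z => Iff.rfl
  have hMb : M = ⊥ := by
    by_contra h0
    have hall : ∀ Y : Matrix (Fin q) (Fin q) ℂ, Yᵀ * G + G * Y = 0 → Y ∈ M := by
      intro Y hY
      refine so_simple H.Gs ?_ ?_ (fun X hX => ((hM X).1 hX).1) ?_ h0 hY
      · intro hd
        have := congrArg Matrix.det H.G1
        rw [Matrix.det_mul, hd, zero_mul, Matrix.det_one] at this
        exact zero_ne_one this
      · rw [Fintype.card_fin]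
        exact H.big
      · intro Y hY z hz
        obtain ⟨hz0, x, x', hx, hx', e1⟩ := (hM z).1 hz
        obtain ⟨x1, z1, hx1, hz1, e2⟩ := (H.mem _).1 (hg' _ (hzin Y hY))
        refine (hM _).2 ⟨skew_br33 hY hz0, x1 * x - x * x1, 0, ?_, by simp, ?_⟩
        · rw [Matrix.trace_sub, Matrix.trace_mul_comm, sub_self]
        · have e3 : tz T Ti e (kr (x1 * x - x * x1) 1) =
              (g' * tz T Ti e (kr 1 Y) * g) * tz T Ti e (kr x 1) -
                tz T Ti e (kr x 1) * (g' * tz T Ti e (kr 1 Y) * g) := by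
            rw [e2, tz_mul H.T2, tz_mul H.T2, ← tz_sub]
            congr 1
            rw [Matrix.add_mul, Matrix.mul_add, kr_mul, kr_mul, kr_mul, kr_mul, Matrix.one_mul, Matrix.mul_one,
              Matrix.one_mul, Matrix.mul_one, Matrix.one_mul, kr_sl33]
            abel
          have e4 : g * (g' * tz T Ti e (kr 1 Y) * g) * g' = tz T Ti e (kr 1 Y) := by
            calc g * (g' * tz T Ti e (kr 1 Y) * g) * g' = (g * g') * tz T Ti e (kr 1 Y) * (g * g') := by
                  simp only [Matrix.mul_assoc]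
              _ = _ := by rw [g1, Matrix.one_mul, Matrix.mul_one]
          rw [e3, hbr, e4, e1, tz_mul H.T2, tz_mul H.T2, ← tz_sub]
          congr 1
          rw [Matrix.add_mul, Matrix.mul_add, kr_mul, kr_mul, kr_mul, kr_mul, Matrix.one_mul, Matrix.mul_one,
            Matrix.one_mul, Matrix.mul_one, Matrix.one_mul, kr_sr33, kr_zl33]
          abel
    let φ : Matrix (Fin 2) (Fin 2) ℂ →ₗ[ℂ] Matrix (Fin q) (Fin q) ℂ :=
      { toFun := fun C => zp33 ((Ti * (g * tz T Ti e (kr C 1) * g') * T).submatrix e.symm e.symm)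
        map_add' := fun C D => by
          rw [kr_al33, tz_add, Matrix.mul_add, Matrix.add_mul, Matrix.mul_add, Matrix.add_mul, ← zp_add33]
          rfl
        map_smul' := fun r C => by
          rw [kr_ml33, tz_smul, Matrix.mul_smul, Matrix.smul_mul, Matrix.mul_smul, Matrix.smul_mul,
            RingHom.id_apply, ← zp_smul33]
          rfl }
    have hφ : ∀ C Z, g * tz T Ti e (kr C 1) * g' = tz T Ti e Z → φ C = zp33 Z := by
      intro C Z hC
      show zp33 ((Ti * (g * tz T Ti e (kr C 1) * g') * T).submatrix e.symm e.symm) = zp33 Z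
      rw [hC, coord_tz H.T2, submatrix_submatrix, Equiv.self_comp_symm, submatrix_id_id]
    refine dim33 H.Gs H.G1 H.big φ ?_ ?_
    · rw [hφ 1 1, zp_one33]
      rw [kr_one, tz_one H.T1, Matrix.mul_one, g1]
    · intro Y hY
      obtain ⟨-, x, x', hx, hx', e1⟩ := (hM Y).1 (hall Y hY)
      exact ⟨x, by rw [hφ _ _ e1, zp_kr33 hx']⟩
  apply norm_alg H.T1 H.T2 g1 g2
  intro C
  have ht : (C - (C.trace / 2) • (1 : Matrix (Fin 2) (Fin 2) ℂ)).trace = 0 := by
    rw [Matrix.trace_sub, Matrix.trace_smul, Matrix.trace_one]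
    simp
  obtain ⟨x', z, hx', hz, e1⟩ := (H.mem _).1 (hg _ (hxin _ ht))
  have hz0 : z = 0 := by
    have : z ∈ M := (hM z).2 ⟨hz, _, x', ht, hx', e1⟩
    rw [hMb] at this
    exact (Submodule.mem_bot ℂ).1 this
  refine ⟨x' + (C.trace / 2) • (1 : Matrix (Fin 2) (Fin 2) ℂ), ?_⟩
  rw [hz0, kr_zr33, add_zero] at e1
  have hC : kr C (1 : Matrix (Fin q) (Fin q) ℂ) =
      kr (C - (C.trace / 2) • (1 : Matrix (Fin 2) (Fin 2) ℂ)) 1 + (C.trace / 2) • 1 := by
    rw [kr_sl33, kr_ml33, kr_one, sub_add_cancel]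
  rw [hC, tz_add, tz_smul, tz_one H.T1, Matrix.mul_add, Matrix.add_mul, e1, Matrix.mul_smul, Matrix.mul_one,
    Matrix.smul_mul, g1, kr_al33, kr_ml33, kr_one, tz_add, tz_smul, tz_one H.T1]

end OW
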