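import Pool.Agent.Helper71.OW.TTa
import Pool.Agent.Helper71.OW.Nm2
import Pool.Agent.Helper71.OW.DetW
import Pool.Agent.Helper2.MON.Use

/-!
OW-56. The tensors fixed by the Mumford-Tate group; the Mumford-Tate group in the tensor case.
-/

set_option linter.unusedSectionVars false

open Matrix

namespace MH

variable {n : Type*} [Fintype n] [DecidableEq n]
variable {w m : ℤ} {Q : Matrix n n ℚ} {S : Finset ℤ} {P : ℤ → Matrix n n ℂ}

/-- a tensor fixed by the Mumford-Tate group is killed by the conjugates of `∑ p P p` (helper55) -/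
theorem IsHW.kill_of_MT71 (H : IsHW w Q S P) {a b : ℕ} {t : (Fin a ⊕ Fin b → n) → ℂ}
    (ht : ∀ g ∈ MT S P, actF (slot a b (g : Matrix n n ℂ) ((g⁻¹ : GL n ℂ) : Matrix n n ℂ)) t = t) (σ : ℂ ≃+* ℂ) :
    dL a b t ((∑ p ∈ S, (p : ℂ) • P p).map σ) = 0 := by
  -- the conjugate tensor is fixed by `MT`
  obtain ⟨u, hu⟩ : ∃ u : (Fin a ⊕ Fin b → n) → ℂ, u = fun i => σ.symm (t i) := ⟨_, rfl⟩
  have hut : (fun i => σ (u i)) = t := by
    rw [hu]
    funext i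
    simp
  have h1 : ∀ z : ℂ, z ≠ 0 → actF (slot a b (cochar S P z) (cochar S P z⁻¹)) u = u := by
    intro z hz
    -- the conjugate of the element `cochar z`
    obtain ⟨g', hg'⟩ : ∃ g' : GL n ℂ, (g' : Matrix n n ℂ) = ((H.coch z hz : GL n ℂ) : Matrix n n ℂ).map σ ∧
        ((g'⁻¹ : GL n ℂ) : Matrix n n ℂ) = (((H.coch z hz)⁻¹ : GL n ℂ) : Matrix n n ℂ).map σ := by
      refine ⟨Matrix.GeneralLinearGroup.map (σ : ℂ →+* ℂ) (H.coch z hz), rfl, ?_⟩
      rw [← map_inv]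
      rfl
    have h2 := ht g' (MT_aut σ hg'.1 (H.coch_mem z hz))
    have h3 : slot a b (g' : Matrix n n ℂ) ((g'⁻¹ : GL n ℂ) : Matrix n n ℂ) =
        fun k => (slot a b (cochar S P z) (cochar S P z⁻¹) k).map (σ : ℂ →+* ℂ) := by
      funext k
      rcases k with k | k
      · exact hg'.1
      · simp only [slot, Sum.elim_inr]
        rw [hg'.2]
        rfl
    rw [h3, ← hut] at h2
    funext i
    have h4 := congrFun h2 i
    have h5 := actF_map (σ : ℂ →+* ℂ) (slot a b (cochar S P z) (cochar S P z⁻¹)) u i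
    have h6 : (σ : ℂ →+* ℂ) (actF (slot a b (cochar S P z) (cochar S P z⁻¹)) u i) = (σ : ℂ →+* ℂ) (u i) :=
      h5.symm.trans h4
    exact σ.injective h6
  have h2 := (H.idm.inv_iff a b u).1 h1
  have h3 := dL_σ σ (∑ p ∈ S, (p : ℂ) • P p) u
  rw [hut, h2] at h3
  rw [h3]
  funext i
  simp

/-- the tensors fixed by the Mumford-Tate group are the tensors killed by `LH` and the scalars -/
theorem IsHW.MT_fixed_iff (H : IsHW w Q S P) (hw : w ≠ 0) {a b : ℕ} {t : (Fin a ⊕ Fin b → n) → ℂ} :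
    (∀ g ∈ MT S P, actF (slot a b (g : Matrix n n ℂ) ((g⁻¹ : GL n ℂ) : Matrix n n ℂ)) t = t) ↔
      (∀ X ∈ LH Q S P, dL a b t X = 0) ∧ dL a b t 1 = 0 := by
  have hwc : (w : ℂ) ≠ 0 := by exact_mod_cast hw
  constructor
  · intro ht
    have h1 := H.kill_of_MT71 ht
    have h2 : ∀ X ∈ LH Q S P, dL a b t X = 0 := fun X hX => H.LH_of_kill h1 hX
    refine ⟨h2, ?_⟩
    have h3 := h2 _ H.hw_mem
    have h4 := h1 (RingEquiv.refl ℂ)
    have e1 : (∑ p ∈ S, (p : ℂ) • P p).map (RingEquiv.refl ℂ) = ∑ p ∈ S, (p : ℂ) • P p := by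
      ext i j
      rfl
    rw [e1] at h4
    rw [H.hw_eq, map_sub, map_smul, map_smul, h4, smul_zero, zero_sub, neg_eq_zero] at h3
    exact (smul_eq_zero.1 h3).resolve_left hwc
  · rintro ⟨h1, h2⟩ g hg
    refine H.MT_of_kill (fun σ => ?_) hg
    have h3 := h1 _ (LH_aut σ H.hw_mem)
    rw [H.hwσ, map_sub, map_smul, map_smul, h2, smul_zero, sub_zero] at h3
    exact (smul_eq_zero.1 h3).resolve_left two_ne_zero

/-- conjugation by a similitude preserves skewness -/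
theorem sim_skew71 {Q' g g' X : Matrix n n ℂ} {c : ℂ} (h1 : g * g' = 1) (hg : gᵀ * Q' * g = c • Q')
    (hX : Xᵀ * Q' + Q' * X = 0) : (g * X * g')ᵀ * Q' + Q' * (g * X * g') = 0 := by
  have h2 : g' * g = 1 := mul_eq_one_comm.1 h1
  have e1 : g'ᵀ * gᵀ = 1 := by rw [← Matrix.transpose_mul, h1, Matrix.transpose_one]
  have e2 : Q' * g = c • (g'ᵀ * Q') := by
    calc Q' * g = g'ᵀ * gᵀ * Q' * g := by rw [e1, one_mul]
      _ = g'ᵀ * (gᵀ * Q' * g) := by simp only [mul_assoc]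
      _ = c • (g'ᵀ * Q') := by rw [hg, mul_smul_comm]
  have e3 : gᵀ * Q' = c • (Q' * g') := by
    calc gᵀ * Q' = gᵀ * Q' * (g * g') := by rw [h1, mul_one]
      _ = (gᵀ * Q' * g) * g' := by simp only [mul_assoc]
      _ = c • (Q' * g') := by rw [hg, smul_mul_assoc]
  calc (g * X * g')ᵀ * Q' + Q' * (g * X * g') = g'ᵀ * Xᵀ * (gᵀ * Q') + (Q' * g) * X * g' := by
        rw [Matrix.transpose_mul, Matrix.transpose_mul]
        simp only [mul_assoc]
    _ = c • (g'ᵀ * (Xᵀ * Q' + Q' * X) * g') := by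
        rw [e3, e2, mul_smul_comm, smul_mul_assoc, smul_mul_assoc, ← smul_add, mul_add, add_mul]
        simp only [mul_assoc]
    _ = 0 := by rw [hX, mul_zero, zero_mul, smul_zero]

/-- the Mumford-Tate group normalises `LH` -/
theorem IsHW.MT_norm (H : IsHW w Q S P) [Nonempty n] {g : GL n ℂ} (hg : g ∈ MT S P) {X : Matrix n n ℂ}
    (hX : X ∈ LH Q S P) : (g : Matrix n n ℂ) * X * ((g⁻¹ : GL n ℂ) : Matrix n n ℂ) ∈ LH Q S P := by
  have h1 : (g : Matrix n n ℂ) * ((g⁻¹ : GL n ℂ) : Matrix n n ℂ) = 1 := by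
    rw [← Units.val_mul, mul_inv_cancel, Units.val_one]
  obtain ⟨c, _, hc⟩ := H.MT_sim hg
  refine ⟨sim_skew71 h1 hc hX.1, fun a b t ht => ?_⟩
  refine dL_conj' h1 ?_
  have h2 := (MT S P).inv_mem hg a b t ht
  rw [inv_inv] at h2
  rw [h2]
  exact hX.2 a b t ht

/-- **The Mumford-Tate group in the tensor case.** -/
theorem IsHW.MT_TT (H : IsHW (2 * m + 1) Q S P) {q : ℕ} {e : n ≃ Fin 2 × Fin q} {T Ti : Matrix n n ℂ}
    {G Gi : Matrix (Fin q) (Fin q) ℂ} (HT : OW.TT (toC Q) (LH Q S P) e T Ti G Gi) (g : GL n ℂ) :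
    g ∈ MT S P ↔ ∃ (a : Matrix (Fin 2) (Fin 2) ℂ) (b : Matrix (Fin q) (Fin q) ℂ), a.det ≠ 0 ∧ bᵀ * G * b = G ∧
      b.det = 1 ∧ (g : Matrix n n ℂ) = OW.tz T Ti e (OW.kr a b) := by
  have hw0 : (2 * m + 1 : ℤ) ≠ 0 := by omega
  haveI : Nonempty n := ⟨e.symm (0, ⟨0, by have := HT.big; omega⟩)⟩
  have h1 : (g : Matrix n n ℂ) * ((g⁻¹ : GL n ℂ) : Matrix n n ℂ) = 1 := by
    rw [← Units.val_mul, mul_inv_cancel, Units.val_one]
  have h2 : ((g⁻¹ : GL n ℂ) : Matrix n n ℂ) * (g : Matrix n n ℂ) = 1 := by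
    rw [← Units.val_mul, inv_mul_cancel, Units.val_one]
  constructor
  · intro hg
    obtain ⟨a, b, hab⟩ := HT.norm h1 h2 (fun X hX => H.MT_norm hg hX)
    obtain ⟨c, _, hc⟩ := H.MT_sim hg
    obtain ⟨a', b', hg', ha', hb', hdet⟩ := HT.scale h1 hab hc
    refine ⟨a', b', ha', hb', ?_, hg'⟩
    rcases hdet with hd | ⟨_, hq⟩
    · exact hd
    · refine HT.det_one hq h1 h2 hg' hb' (fun t ht => ?_)
      exact (H.MT_fixed_iff hw0).2 ⟨ht, dL_one_self _ _⟩ g hg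
  · rintro ⟨a, b, ha, hb, hb1, hg⟩ k l t ht
    have h3 : ∀ g ∈ MT S P, actF (slot k l (g : Matrix n n ℂ) ((g⁻¹ : GL n ℂ) : Matrix n n ℂ)) (tC t) = tC t :=
      fun g hg => hg k l t ht
    obtain ⟨h4, h5⟩ := (H.MT_fixed_iff hw0).1 h3
    exact HT.fix h4 h5 ha hb hb1 hg

end MH
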