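import Pool.Agent.Helper71.OW.Fin
import Pool.Agent.Helper71.OW.Ind
import Pool.Agent.Helper71.OW.Deg2

/-!
OW-15. The Lie algebra theorem: two dominating middle multiplicities `N`, the sum `s` of the bigger ones.
-/

open Matrix MH

namespace OW

variable {n : Type*} [Fintype n] [DecidableEq n]
variable {h : Matrix n n ℂ} {E : ℝ → Matrix n n ℂ} {Λ : Finset ℝ} {J Ji : Matrix n n ℂ}
variable {τ : Matrix n n ℂ →ₗ[ℂ] Matrix n n ℂ} {L : Submodule ℂ (Matrix n n ℂ)}

private lemma star_Ld71 (D : Dat τ L h E Λ) {ν : ℝ} {x : Matrix n n ℂ} (hx : x ∈ Ld L h ν) : xᴴ ∈ Ld L h (-ν) := by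
  refine ⟨D.st x hx.1, ?_⟩
  have h1 := congrArg conjTranspose hx.2
  rw [conjTranspose_sub, conjTranspose_mul, conjTranspose_mul, D.spec.hh, conjTranspose_smul] at h1
  have h2 : star (ν : ℂ) = (ν : ℂ) := Complex.conj_ofReal ν
  rw [h2] at h1
  rw [← neg_sub, h1]
  push_cast
  rw [neg_smul]

theorem main_prim (D : Dat τ L h E Λ) (P : Prim L) (Y : CY.Sym J Ji τ)
    (half : ∀ μ : ℝ, E μ ≠ 0 → ∃ k : ℤ, μ = k + 1 / 2) {s : ℕ}
    (hs : s = ∑ μ ∈ Λ.filter (fun μ => 1 / 2 < μ), (E μ).rank) (hs1 : 1 ≤ s) (hN : s ^ 3 + 26 < (E (1 / 2)).rank)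
    (hn : (4 * s + 1) ^ 2 ≤ Fintype.card n) {y : Matrix n n ℂ} (hy : τ y = -y) : y ∈ L := by
  classical
  have S := D.spec
  have h3 : 3 ≤ Fintype.card n := by
    have : (4 * 1 + 1) ^ 2 ≤ (4 * s + 1) ^ 2 := Nat.pow_le_pow_left (by omega) 2
    omega
  by_cases hd : ∃ ν : ℝ, 2 ≤ ν ∧ Ld L h ν ≠ ⊥
  · obtain ⟨ν, hν, h0⟩ := hd
    obtain ⟨x, hx, hx0⟩ := Submodule.exists_mem_ne_zero_of_ne_bot h0
    exact full_of_deg D P Y half hs hn h3 hν hx hx0 hy
  push Not at hd
  exfalso
  have hneg : ∀ ν : ℝ, 2 ≤ ν → Ld L h (-ν) = ⊥ := by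
    intro ν hν
    rw [eq_bot_iff]
    intro x hx
    have h1 := star_Ld71 D hx
    rw [neg_neg, hd ν hν, Submodule.mem_bot] at h1
    rw [Submodule.mem_bot]
    exact conjTranspose_eq_zero.mp h1
  have V : Lv τ L h E Λ := by
    refine ⟨D, P, half, ?_, ?_⟩
    · by_contra hc
      push Not at hc
      have : s = 0 := by
        rw [hs]
        refine Finset.sum_eq_zero fun μ hμ => ?_
        rw [hc μ (Finset.mem_filter.1 hμ).2, Matrix.rank_zero]
      omega
    · intro ν h0 h1 h2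
      rw [eq_bot_iff]
      intro x hx
      rw [Submodule.mem_bot]
      apply S.ext
      intro μ μ'
      rw [mul_zero, zero_mul]
      by_cases h4 : μ - μ' = ν
      · by_cases h5 : E μ = 0
        · rw [h5]; simp
        by_cases h6 : E μ' = 0
        · rw [h6]; simp
        obtain ⟨k, hk⟩ := half μ h5
        obtain ⟨l, hl⟩ := half μ' h6
        have h7 : ν = ((k - l : ℤ) : ℝ) := by
          rw [← h4, hk, hl]
          push_cast
          ring
        have h8 : (k - l : ℤ) ≠ 0 := fun h => h0 (by rw [h7, h]; simp)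
        have h9 : (k - l : ℤ) ≠ 1 := fun h => h1 (by rw [h7, h]; simp)
        have h10 : (k - l : ℤ) ≠ -1 := fun h => h2 (by rw [h7, h]; simp)
        have h11 : x = 0 := by
          rcases lt_or_ge (k - l) 0 with h12 | h12
          · have h13 : (2 : ℝ) ≤ -ν := by
              rw [h7]
              have : (2 : ℤ) ≤ -(k - l) := by omega
              exact_mod_cast this
            have h14 := hneg (-ν) h13
            rw [neg_neg] at h14
            rw [h14, Submodule.mem_bot] at hx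
            exact hx
          · have h13 : (2 : ℝ) ≤ ν := by
              rw [h7]
              have : (2 : ℤ) ≤ (k - l) := by omega
              exact_mod_cast this
            rw [hd ν h13, Submodule.mem_bot] at hx
            exact hx
        rw [h11]
        simp
      · exact D.Ld_block hx h4
  have h4 := V.final Y hs
  omega

theorem main (D : Dat τ L h E Λ) (Y : CY.Sym J Ji τ) (half : ∀ μ : ℝ, E μ ≠ 0 → ∃ k : ℤ, μ = k + 1 / 2)
    (hI : Indec (fun p : ℤ => (E (p + 1 / 2)).rank)) {s : ℕ}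
    (hs : s = ∑ μ ∈ Λ.filter (fun μ => 1 / 2 < μ), (E μ).rank) (hs1 : 1 ≤ s) (hN : s ^ 3 + 26 < (E (1 / 2)).rank)
    (hn : (4 * s + 1) ^ 2 ≤ Fintype.card n) {y : Matrix n n ℂ} (hy : τ y = -y) : y ∈ L :=
  main_prim D (prim_of_indec D.spec D.irr D.mem (1 / 2) half hI) Y half hs hs1 hN hn hy

end OW
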