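import Pool.Agent.Helper71.OW.HS
import Pool.Agent.Helper71.OW.SpS
import Pool.Agent.Helper2.MON.Use

/-!
OW-30. Monodromy, odd weight: if all skew matrices kill all Hodge tensors, the monodromy group is as large as possible.
-/

set_option linter.unusedSectionVars false

open Matrix

namespace MH

variable {n : Type*} [Fintype n] [DecidableEq n]
variable {Q : Matrix n n ℚ} {S : Finset ℤ} {P : ℤ → Matrix n n ℂ} {D : Subgroup (GL n ℚ)}

/-- **Big monodromy, odd weight.** -/
theorem IsMon.full_odd (M : IsMon Q S P D) {m : ℤ} (H : IsHW (2 * m + 1) Q S P)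
    (hfull : ∀ X : Matrix n n ℂ, Xᵀ * toC Q + toC Q * X = 0 → X ∈ LH Q S P) {X : Matrix n n ℂ}
    (hX : Xᵀ * toC Q + toC Q * X = 0) : X ∈ LG (mapC D) := by
  have hQs : (toC Q)ᵀ = -toC Q := by
    rw [H.Q_symm, neg_pow_odd71, neg_one_smul]
  refine sp_simple hQs H.detQ (M := LG (mapC D)) (fun X hX => M.LG_skew hX) ?_ ?_ hX
  · intro Y hY X hX
    exact H.ideal_of_sub (fun σ X hX => LG_aut σ hX) (fun z hz X hX => M.LG_cochar H hz hX)
      (fun X hX => M.LG_skew hX) (hfull Y hY) hX
  · obtain ⟨X, hX, hX0⟩ := M.exists_ne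
    intro h
    rw [h, Submodule.mem_bot] at hX
    exact hX0 hX

end MH
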