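import Pool.Agent.Helper71.OW.Defs

/-!
OW-42. A sequence with one dominating term and without common divisor is indecomposable. Proof. If `A` has only one term
`c x^i` then `c` divides all `r p`, so `c = 1`; if `A = 0` the sum is 0. Same for `B` (`r p = B.sum fun j b => b * A (p - j)`).
If both have at least two terms, for each `j` there is `i` with `A i > 0`, `i + j ≠ 0`, so `∑ B ≤ ∑_{i + j ≠ 0} A i * B j = s`, also
`∑ A ≤ s`, and `r 0 + s = (∑ A) (∑ B) ≤ s ^ 2`, against `hN`.
-/

namespace OW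

private theorem half85 (f g : ℤ → ℕ) (U V : Finset ℤ) (hU : 1 < U.card) (hf : ∀ i ∈ U, 1 ≤ f i) :
    ∑ j ∈ V, g j ≤ ∑ j ∈ V, ∑ i ∈ U, if i + j = 0 then 0 else f i * g j := by
  refine Finset.sum_le_sum fun j _ => ?_
  obtain ⟨i, hi, hne⟩ := Finset.exists_mem_ne hU (-j)
  have h1 : i + j ≠ 0 := fun h => hne (by omega)
  calc g j = 1 * g j := (one_mul _).symm
    _ ≤ f i * g j := Nat.mul_le_mul_right _ (hf i hi)
    _ = if i + j = 0 then 0 else f i * g j := by rw [if_neg h1]
    _ ≤ _ := Finset.single_le_sum (f := fun i => if i + j = 0 then 0 else f i * g j) (fun _ _ => Nat.zero_le _) hi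

private theorem card85 {r : ℤ → ℕ} (hd : ∀ d : ℕ, (∀ p, d ∣ r p) → d = 1) {A B : ℤ →₀ ℕ}
    (h : ∀ p, r p = ∑ i ∈ A.support, A i * B (p - i)) (h1 : 1 < A.sum fun _ a => a) : 1 < A.support.card := by
  by_contra hlt
  rw [not_lt, Finset.card_le_one_iff_subset_singleton] at hlt
  obtain ⟨i, hi⟩ := hlt
  have h2 : (A.sum fun _ a => a) = A i := by
    rw [Finsupp.sum_of_support_subset A hi _ (fun _ _ => rfl), Finset.sum_singleton]
  have h3 : A i = 1 := by
    refine hd _ fun p => ?_
    rw [h p]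
    refine Finset.dvd_sum fun j hj => ?_
    have : j = i := Finset.mem_singleton.1 (hi hj)
    rw [this]
    exact Dvd.intro _ rfl
  omega

private theorem conv85 (A B : ℤ →₀ ℕ) (p : ℤ) : ∑ i ∈ A.support, A i * B (p - i) =
    ∑ i ∈ A.support, ∑ j ∈ B.support, if i + j = p then A i * B j else 0 := by
  refine Finset.sum_congr rfl fun i _ => ?_
  have h1 : ∀ j ∈ B.support, (if i + j = p then A i * B j else 0) = if j = p - i then A i * B j else 0 := by
    intro j _
    by_cases h : i + j = p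
    · rw [if_pos h, if_pos (by omega)]
    · rw [if_neg h, if_neg (by omega)]
  rw [Finset.sum_congr rfl h1, Finset.sum_ite_eq']
  split_ifs with h
  · rfl
  · rw [Finsupp.notMem_support_iff.1 h, mul_zero]

theorem num_one {r : ℤ → ℕ} {T : Finset ℤ} (hT : ∀ p, p ∉ T → r p = 0) {s : ℕ} (hs : s = ∑ p ∈ T.erase 0, r p)
    (hN : s ^ 2 < r 0 + s) (hd : ∀ d : ℕ, (∀ p, d ∣ r p) → d = 1) : Indec r := by
  intro A B hr
  by_contra hcon
  push Not at hcon
  obtain ⟨h1, h2⟩ := hcon
  have hr1 : ∀ p, r p = ∑ i ∈ A.support, A i * B (p - i) := hr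
  have hr2 : ∀ p, r p = ∑ i ∈ A.support, ∑ j ∈ B.support, if i + j = p then A i * B j else 0 := fun p => by
    rw [hr1, conv85]
  have hr3 : ∀ p, r p = ∑ j ∈ B.support, B j * A (p - j) := by
    intro p
    rw [hr2, conv85, Finset.sum_comm]
    refine Finset.sum_congr rfl fun j _ => Finset.sum_congr rfl fun i _ => ?_
    rw [add_comm i j, mul_comm (A i)]
  have cA := card85 hd hr1 h1
  have cB := card85 hd hr3 h2
  have hs1 : s = ∑ i ∈ A.support, ∑ j ∈ B.support, if i + j = 0 then 0 else A i * B j := by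
    rw [hs, Finset.sum_congr rfl fun p _ => hr2 p, Finset.sum_comm]
    refine Finset.sum_congr rfl fun i hi => ?_
    rw [Finset.sum_comm]
    refine Finset.sum_congr rfl fun j hj => ?_
    rw [Finset.sum_ite_eq]
    by_cases h : i + j = 0
    · rw [if_pos h, if_neg (by rw [h]; exact Finset.notMem_erase 0 T)]
    · rw [if_neg h, if_pos]
      rw [Finset.mem_erase]
      refine ⟨h, ?_⟩
      by_contra hn
      have h3 := hT _ hn
      rw [hr1] at h3
      have h4 := (Finset.sum_eq_zero_iff.1 h3) i hi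
      rw [add_sub_cancel_left] at h4
      rcases Nat.mul_eq_zero.1 h4 with h5 | h5
      · exact (Finsupp.mem_support_iff.1 hi) h5
      · exact (Finsupp.mem_support_iff.1 hj) h5
  have hB : (∑ j ∈ B.support, B j) ≤ s := by
    rw [hs1, Finset.sum_comm]
    exact half85 _ _ _ _ cA fun i hi => Nat.one_le_iff_ne_zero.2 (Finsupp.mem_support_iff.1 hi)
  have hA : (∑ i ∈ A.support, A i) ≤ s := by
    rw [hs1]
    refine (half85 _ _ _ _ cB fun i hi => Nat.one_le_iff_ne_zero.2 (Finsupp.mem_support_iff.1 hi)).trans (le_of_eq ?_)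
    refine Finset.sum_congr rfl fun i _ => Finset.sum_congr rfl fun j _ => ?_
    rw [add_comm i j, mul_comm (A i)]
  have htot : r 0 + s = (∑ i ∈ A.support, A i) * ∑ j ∈ B.support, B j := by
    rw [hr2 0, hs1, ← Finset.sum_add_distrib, Finset.sum_mul_sum]
    refine Finset.sum_congr rfl fun i _ => ?_
    rw [← Finset.sum_add_distrib]
    refine Finset.sum_congr rfl fun j _ => ?_
    split_ifs <;> simp
  have := Nat.mul_le_mul hA hB
  rw [← htot] at this
  nlinarith

end OW
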