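import Pool.Agent.Helper71.OW.Same
import Pool.Agent.Helper71.OW.Semi
import Pool.Agent.Helper71.OW.Mon
import Pool.Agent.Helper71.OW.TateF
import Pool.Agent.Helper54.EL.Abs

/-!
OW-60. The `ℓ`-adic statement: if `Γ` acts semisimply and has the same tensors of type (2,2) as the Mumford-Tate group,
it has the same tensors in all types.
-/

set_option linter.unusedSectionVars false

open Matrix

namespace MH

variable {n : Type*} [Fintype n] [DecidableEq n]
variable {m : ℤ} {Q : Matrix n n ℚ} {S : Finset ℤ} {P R : ℤ → Matrix n n ℂ}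

/-- only the scalars commute with `LH` -/
theorem IsHW.scal_of_LH (H : IsHW (2 * m + 1) Q S P)
    (hEnd : ∀ A : Matrix n n ℚ, (∀ p, toC A * P p = P p * toC A) → ∃ c : ℚ, A = c • (1 : Matrix n n ℚ))
    {T : Matrix n n ℂ} (hT : ∀ X ∈ LH Q S P, T * X = X * T) : ∃ c : ℂ, T = c • (1 : Matrix n n ℂ) := by
  have h5 : T ∈ EC P := H.EC_of_LH hT
  unfold EC at h5
  induction h5 using Submodule.span_induction with
  | mem x hx =>
    obtain ⟨A, hA, rfl⟩ := hx
    obtain ⟨c, rfl⟩ := hEnd A hA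
    refine ⟨(c : ℂ), ?_⟩
    ext i j
    simp only [toC, Matrix.map_apply, Matrix.smul_apply, Matrix.one_apply, smul_eq_mul, map_mul]
    split_ifs <;> simp
  | zero => exact ⟨0, by rw [zero_smul]⟩
  | add x y hx hy h6 h7 =>
    have hx' : ∀ X ∈ LH Q S P, x * X = X * x := fun X hX => (H.LH_EC hX hx).symm
    have hy' : ∀ X ∈ LH Q S P, y * X = X * y := fun X hX => (H.LH_EC hX hy).symm
    obtain ⟨c, hc⟩ := h6 hx'
    obtain ⟨d, hd⟩ := h7 hy'
    exact ⟨c + d, by rw [hc, hd, add_smul]⟩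
  | smul a x hx h6 =>
    have hx' : ∀ X ∈ LH Q S P, x * X = X * x := fun X hX => (H.LH_EC hX hx).symm
    obtain ⟨c, hc⟩ := h6 hx'
    exact ⟨a * c, by rw [hc, smul_smul]⟩

/-- The Mumford-Tate group is the group of similitudes if all skew matrices kill the Hodge tensors. -/
theorem IsHW.MT_all (H : IsHW (2 * m + 1) Q S P) [Nonempty n]
    (hall : ∀ X : Matrix n n ℂ, Xᵀ * toC Q + toC Q * X = 0 → X ∈ LH Q S P) (g : GL n ℂ) :
    g ∈ MT S P ↔ ∃ z : ℂ, (g : Matrix n n ℂ)ᵀ * toC Q * (g : Matrix n n ℂ) = z • toC Q := by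
  have hQs : (toC Q)ᵀ = -toC Q := by
    rw [H.Q_symm, neg_pow_odd71, neg_one_smul]
  constructor
  · intro hg
    obtain ⟨c, _, hc⟩ := H.MT_sim hg
    exact ⟨c, hc⟩
  · rintro ⟨z, hg⟩ a b t ht
    refine gsp_fix71 hQs H.detQ (fun X hX => (hall X hX).2 a b t ht) ?_ hg
    have h1 := H.kill_one ht
    have h2 : (((2 * m + 1 : ℤ)) : ℂ) ≠ 0 := by
      have : (2 * m + 1 : ℤ) ≠ 0 := by omega
      exact_mod_cast this
    exact (smul_eq_zero.1 h1).resolve_left h2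

section ell

variable {F : Type*} [Field F] {ι : F →+* ℂ} {Γ : Subgroup (GL n F)}

/-- The tensors of type (2,2) see the endomorphisms. -/
theorem IsHW.com_of_22 (H : IsHW (2 * m + 1) Q S P) [Nonempty n]
    (hEnd : ∀ A : Matrix n n ℚ, (∀ p, toC A * P p = P p * toC A) → ∃ c : ℚ, A = c • (1 : Matrix n n ℚ))
    (h22 : ∀ t : (Fin 2 ⊕ Fin 2 → n) → ℂ, IsTateTensor (Γ.map (Matrix.GeneralLinearGroup.map ι)) 2 2 t ↔
      ∀ g ∈ MT S P, actF (slot 2 2 (g : Matrix n n ℂ) ((g⁻¹ : GL n ℂ) : Matrix n n ℂ)) t = t)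
    (Γ' : Subgroup (GL n F)) (h1 : Γ' ≤ Γ) (h2 : Γ'.relIndex Γ ≠ 0) (T : Matrix n n F)
    (hT : ∀ g ∈ Γ', (g : Matrix n n F) * T = T * (g : Matrix n n F)) : ∃ c : F, T = c • (1 : Matrix n n F) := by
  have hw0 : (2 * m + 1 : ℤ) ≠ 0 := by omega
  set φ := Matrix.GeneralLinearGroup.map (n := n) ι with hφ
  have hφi : Function.Injective φ := by
    intro g g' h
    apply Units.ext
    ext i j
    have h3 := congrArg (fun x : GL n ℂ => (x : Matrix n n ℂ) i j) h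
    exact ι.injective h3
  have ht : IsTateTensor (Γ.map φ) 2 2 (t22 (T.map ι) 1) := by
    refine ⟨Γ'.map φ, Subgroup.map_mono h1, ?_, ?_⟩
    · rw [Subgroup.relIndex_map_map_of_injective _ _ hφi]
      exact h2
    · rintro _ ⟨g, hg, rfl⟩
      rw [slot22]
      have h3 : ((φ g : GL n ℂ) : Matrix n n ℂ) * T.map ι = T.map ι * ((φ g : GL n ℂ) : Matrix n n ℂ) := by
        have h4 := congrArg (fun X : Matrix n n F => X.map ι) (hT g hg)
        simp only [Matrix.map_mul] at h4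
        exact h4
      rw [h3, mul_assoc, mul_one, gg71, mul_one]
  have h3 := ((H.MT_fixed_iff hw0).1 ((h22 _).1 ht)).1
  have h4 : ∀ X ∈ LH Q S P, T.map ι * X = X * T.map ι := by
    intro X hX
    have h5 := h3 X hX
    rw [dL_t22, mul_one, one_mul, sub_self] at h5
    have i0 : n := Classical.arbitrary n
    have h6 : X * T.map ι - T.map ι * X = 0 := by
      ext i j
      have h7 := congrFun h5 (Sum.elim ![i, i0] ![j, i0])
      have h8 : ∀ A B : Matrix n n ℂ, t22 A B (Sum.elim ![i, i0] ![j, i0]) = A i j * B i0 i0 := fun A B => rfl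
      rw [Pi.add_apply, h8, h8, Matrix.one_apply_eq, mul_one, Matrix.zero_apply, mul_zero, add_zero,
        Pi.zero_apply] at h7
      exact h7
    exact (sub_eq_zero.1 h6).symm
  obtain ⟨c, hc⟩ := H.scal_of_LH hEnd h4
  have i0 : n := Classical.arbitrary n
  refine ⟨T i0 i0, ?_⟩
  ext i j
  apply ι.injective
  have h5 : ∀ i j, ι (T i j) = c * (1 : Matrix n n ℂ) i j := by
    intro i j
    exact congrFun (congrFun hc i) j
  rw [h5, Matrix.smul_apply, smul_eq_mul, map_mul, h5, Matrix.one_apply_eq, mul_one]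
  by_cases hij : i = j
  · rw [hij, Matrix.one_apply_eq, Matrix.one_apply_eq, map_one]
  · rw [Matrix.one_apply_ne hij, Matrix.one_apply_ne hij, map_zero]

/-- **The `ℓ`-adic statement.** -/
theorem IsGalO.tate_of_22 (H : IsHW (2 * m + 1) Q S P) [Nonempty n]
    (hEnd : ∀ A : Matrix n n ℚ, (∀ p, toC A * P p = P p * toC A) → ∃ c : ℚ, A = c • (1 : Matrix n n ℚ))
    {s : ℕ} (hN : OW.NumD m (fun p => (P p).rank) S (Fintype.card n) s)
    (G : IsGalO Q S P (Γ.map (Matrix.GeneralLinearGroup.map ι)) R) (hss : SemiS Γ)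
    (h22 : ∀ t : (Fin 2 ⊕ Fin 2 → n) → ℂ, IsTateTensor (Γ.map (Matrix.GeneralLinearGroup.map ι)) 2 2 t ↔
      ∀ g ∈ MT S P, actF (slot 2 2 (g : Matrix n n ℂ) ((g⁻¹ : GL n ℂ) : Matrix n n ℂ)) t = t)
    (a b : ℕ) (t : (Fin a ⊕ Fin b → n) → ℂ) :
    IsTateTensor (Γ.map (Matrix.GeneralLinearGroup.map ι)) a b t ↔
      ∀ g ∈ MT S P, actF (slot a b (g : Matrix n n ℂ) ((g⁻¹ : GL n ℂ) : Matrix n n ℂ)) t = t := by
  have hP : PotIrr Γ := potIrr_of_semiS hss (H.com_of_22 hEnd h22)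
  obtain ⟨h1, _, h2⟩ := G.dich_irr H (vIrr_of_potIrr ι hP) hN
  exact G.all_types H h1 h2 (G.same H ((H.dich_odd hEnd hN).imp id fun h => h.1) h2 h22) a b t

/-- **The `ℓ`-adic statement, big monodromy.** -/
theorem IsGalO.tate_of_mon (H : IsHW (2 * m + 1) Q S P) [Nonempty n]
    (hMT : ∀ g : GL n ℂ, g ∈ MT S P ↔ ∃ z : ℂ, (g : Matrix n n ℂ)ᵀ * toC Q * (g : Matrix n n ℂ) = z • toC Q)
    {Γ : Subgroup (GL n ℂ)} (G : IsGalO Q S P Γ R) {D : Subgroup (GL n ℚ)} (hD : IsMon Q S P D)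
    (hle : mapC D ≤ Γ) (hfull : ∀ X : Matrix n n ℂ, Xᵀ * toC Q + toC Q * X = 0 → X ∈ LH Q S P)
    (a b : ℕ) (t : (Fin a ⊕ Fin b → n) → ℂ) :
    IsTateTensor Γ a b t ↔
      ∀ g ∈ MT S P, actF (slot a b (g : Matrix n n ℂ) ((g⁻¹ : GL n ℂ) : Matrix n n ℂ)) t = t :=
  G.tate_of_full H ⟨m, rfl⟩ (fun g z hg => (hMT g).2 ⟨z, hg⟩)
    (fun _ hX => LG_mono hle (hD.full_odd H hfull hX)) a b t

end ell

end MH
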