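import Pool.Agent.Helper71.OW.IrD
import Pool.Agent.Helper71.OW.Cas

/-!
OW-58. If the Tate tensors of type (2,2) of `Γ` are the tensors of type (2,2) of the Mumford-Tate group, the skew part of
the tensor Lie algebra of `Γ` is the Lie algebra of the Hodge group. Then it is so in all types.
-/

set_option linter.unusedSectionVars false

open Matrix

namespace OW

open MH

variable {n : Type*} [Fintype n] [DecidableEq n] {q : ℕ}
variable {T Ti : Matrix n n ℂ} {e : n ≃ Fin 2 × Fin q}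

private theorem kr_lin_s (C : Matrix (Fin 2) (Fin 2) ℂ) :
    tz T Ti e (kr C 1) = ∑ i : Fin 2, ∑ j : Fin 2, C i j • tz T Ti e (kr (Matrix.single i j 1) 1) := by
  have h : kr C (1 : Matrix (Fin q) (Fin q) ℂ) = ∑ i : Fin 2, ∑ j : Fin 2, C i j • kr (Matrix.single i j 1) 1 := by
    ext ⟨a, b⟩ ⟨c, d⟩
    simp only [Matrix.sum_apply, Matrix.smul_apply, kroneckerMap_apply, smul_eq_mul, Matrix.single_apply]
    fin_cases a <;> fin_cases c <;> simp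
  rw [h]
  simp only [Fin.sum_univ_two, tz_add, tz_smul]

private theorem com_s (h2 : Ti * T = 1) (x : Matrix (Fin 2) (Fin 2) ℂ) (z : Matrix (Fin q) (Fin q) ℂ)
    (C : Matrix (Fin 2) (Fin 2) ℂ) :
    tz T Ti e (kr x 1 + kr 1 z) * tz T Ti e (kr C 1) - tz T Ti e (kr C 1) * tz T Ti e (kr x 1 + kr 1 z) =
      tz T Ti e (kr (x * C - C * x) 1) := by
  rw [tz_mul h2, tz_mul h2, ← tz_sub]
  congr 1
  rw [Matrix.add_mul, Matrix.mul_add, kr_mul, kr_mul, kr_mul, kr_mul]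
  simp only [Matrix.one_mul, Matrix.mul_one]
  have : kr (x * C - C * x) (1 : Matrix (Fin q) (Fin q) ℂ) = kr (x * C) 1 - kr (C * x) 1 := by
    ext i j
    exact sub_mul _ _ _
  rw [this]
  abel

/-- the elements `x ⊗ 1 + 1 ⊗ z` kill the tensor of the algebra `M_2 ⊗ 1` -/
theorem tA_kill_of (h2 : Ti * T = 1) (x : Matrix (Fin 2) (Fin 2) ℂ) (z : Matrix (Fin q) (Fin q) ℂ) :
    dL 2 2 (tA T Ti e) (tz T Ti e (kr x 1 + kr 1 z)) = 0 := by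
  have h3 : dL 2 2 (tA T Ti e) (tz T Ti e (kr x 1 + kr 1 z)) = ∑ i : Fin 2, ∑ j : Fin 2,
      (t22 (tz T Ti e (kr (x * Matrix.single i j 1 - Matrix.single i j 1 * x) 1))
        (tz T Ti e (kr (Matrix.single j i 1) 1)) +
      t22 (tz T Ti e (kr (Matrix.single i j 1) 1))
        (tz T Ti e (kr (x * Matrix.single j i 1 - Matrix.single j i 1 * x) 1))) := by
    unfold tA
    rw [dL_apply, dact_sum]
    refine Finset.sum_congr rfl fun i _ => ?_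
    rw [dact_sum]
    refine Finset.sum_congr rfl fun j _ => ?_
    rw [← dL_apply, dL_t22, com_s h2, com_s h2]
  rw [h3]
  funext idx
  simp only [Finset.sum_apply, Pi.add_apply, Pi.zero_apply]
  have hev : ∀ A B : Matrix n n ℂ, t22 A B idx = A (idx (Sum.inl 0)) (idx (Sum.inr 0)) *
      B (idx (Sum.inl 1)) (idx (Sum.inr 1)) := fun A B => rfl
  simp only [hev]
  have hlin : ∀ (C : Matrix (Fin 2) (Fin 2) ℂ) (u v : n), tz T Ti e (kr C 1) u v =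
      ∑ i : Fin 2, ∑ j : Fin 2, C i j * tz T Ti e (kr (Matrix.single i j 1) 1) u v := by
    intro C u v
    rw [kr_lin_s C]
    simp only [Matrix.sum_apply, Matrix.smul_apply, smul_eq_mul]
  generalize hf : (fun (i j : Fin 2) => tz T Ti e (kr (Matrix.single i j 1) 1) (idx (Sum.inl 0)) (idx (Sum.inr 0))) = f
  generalize hf' : (fun (i j : Fin 2) => tz T Ti e (kr (Matrix.single i j 1) 1) (idx (Sum.inl 1)) (idx (Sum.inr 1))) = f'
  have e1 : ∀ C : Matrix (Fin 2) (Fin 2) ℂ, tz T Ti e (kr C 1) (idx (Sum.inl 0)) (idx (Sum.inr 0)) =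
      C 0 0 * f 0 0 + C 0 1 * f 0 1 + C 1 0 * f 1 0 + C 1 1 * f 1 1 := by
    intro C
    rw [hlin C, ← hf, Fin.sum_univ_two, Fin.sum_univ_two, Fin.sum_univ_two]
    ring
  have e2 : ∀ C : Matrix (Fin 2) (Fin 2) ℂ, tz T Ti e (kr C 1) (idx (Sum.inl 1)) (idx (Sum.inr 1)) =
      C 0 0 * f' 0 0 + C 0 1 * f' 0 1 + C 1 0 * f' 1 0 + C 1 1 * f' 1 1 := by
    intro C
    rw [hlin C, ← hf', Fin.sum_univ_two, Fin.sum_univ_two, Fin.sum_univ_two]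
    ring
  simp only [e1, e2, Fin.sum_univ_two, Matrix.sub_apply, Matrix.mul_apply, Matrix.single_apply]
  simp
  ring

/-- the conditions on a Lie algebra in the dichotomy -/
theorem TT.sk {Q' : Matrix n n ℂ} {L : Submodule ℂ (Matrix n n ℂ)} {G Gi : Matrix (Fin q) (Fin q) ℂ}
    (H : TT Q' L e T Ti G Gi) {X : Matrix n n ℂ} (hX : dL 2 2 (tA T Ti e) X = 0) (hs : Xᵀ * Q' + Q' * X = 0) :
    X ∈ L := by
  obtain ⟨x, z, hx, hX⟩ := tA_kill H.T1 H.T2 hX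
  rw [hX] at hs
  exact (H.mem X).2 ⟨x, z, hx, (skew_iff H.T1 H.T2 H.form hx).1 hs, hX⟩

theorem TT.kill {Q' : Matrix n n ℂ} {L : Submodule ℂ (Matrix n n ℂ)} {G Gi : Matrix (Fin q) (Fin q) ℂ}
    (H : TT Q' L e T Ti G Gi) {X : Matrix n n ℂ} (hX : X ∈ L) : dL 2 2 (tA T Ti e) X = 0 := by
  obtain ⟨x, z, _, _, hX⟩ := (H.mem X).1 hX
  rw [hX]
  exact tA_kill_of H.T2 x z

end OW

namespace MH

variable {n : Type*} [Fintype n] [DecidableEq n]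
variable {m : ℤ} {Q : Matrix n n ℚ} {S : Finset ℤ} {P R : ℤ → Matrix n n ℂ} {Γ : Subgroup (GL n ℂ)}

theorem gg71 (g : GL n ℂ) : (g : Matrix n n ℂ) * ((g⁻¹ : GL n ℂ) : Matrix n n ℂ) = 1 := by
  rw [← Units.val_mul, mul_inv_cancel, Units.val_one]

theorem gg71' (g : GL n ℂ) : ((g⁻¹ : GL n ℂ) : Matrix n n ℂ) * (g : Matrix n n ℂ) = 1 := by
  rw [← Units.val_mul, inv_mul_cancel, Units.val_one]

/-- the group normalises `LSO` -/
theorem IsGalO.LSO_conj (G : IsGalO Q S P Γ R) {g : GL n ℂ} (hg : g ∈ Γ) {X : Matrix n n ℂ} (hX : X ∈ LSO Q Γ) :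
    (g : Matrix n n ℂ) * X * ((g⁻¹ : GL n ℂ) : Matrix n n ℂ) ∈ LSO Q Γ := by
  obtain ⟨c, hc⟩ := G.sim g hg
  exact ⟨LG_conj hg hX.1, sim_skew71 (gg71 g) hc hX.2⟩

/-- **The Lie algebras are equal.** -/
theorem IsGalO.same (H : IsHW (2 * m + 1) Q S P) (G : IsGalO Q S P Γ R)
    (hD1 : (∀ X : Matrix n n ℂ, Xᵀ * toC Q + toC Q * X = 0 → X ∈ LH Q S P) ∨
      ∃ (q : ℕ) (e : n ≃ Fin 2 × Fin q) (T Ti : Matrix n n ℂ) (G Gi : Matrix (Fin q) (Fin q) ℂ),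
        OW.TT (toC Q) (LH Q S P) e T Ti G Gi)
    (hD2 : (∀ X : Matrix n n ℂ, Xᵀ * toC Q + toC Q * X = 0 → X ∈ LSO Q Γ) ∨
      ∃ (q : ℕ) (e : n ≃ Fin 2 × Fin q) (T Ti : Matrix n n ℂ) (G Gi : Matrix (Fin q) (Fin q) ℂ),
        OW.TT (toC Q) (LSO Q Γ) e T Ti G Gi)
    (h22 : ∀ t : (Fin 2 ⊕ Fin 2 → n) → ℂ, IsTateTensor Γ 2 2 t ↔
      ∀ g ∈ MT S P, actF (slot 2 2 (g : Matrix n n ℂ) ((g⁻¹ : GL n ℂ) : Matrix n n ℂ)) t = t)
    (X : Matrix n n ℂ) : X ∈ LSO Q Γ ↔ X ∈ LH Q S P := by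
  have hw0 : (2 * m + 1 : ℤ) ≠ 0 := by omega
  have hQs : (toC Q)ᵀ = -toC Q := by
    rw [H.Q_symm, neg_pow_odd71, neg_one_smul]
  -- tensors killed by `LH` are Tate, and conversely
  have t1 : ∀ t : (Fin 2 ⊕ Fin 2 → n) → ℂ, (∀ X ∈ LH Q S P, dL 2 2 t X = 0) ↔ IsTateTensor Γ 2 2 t := by
    intro t
    rw [h22 t, H.MT_fixed_iff hw0]
    exact ⟨fun h => ⟨h, dL_one_self _ _⟩, fun h => h.1⟩
  have t2 : ∀ t : (Fin 2 ⊕ Fin 2 → n) → ℂ, IsTateTensor Γ 2 2 t → ∀ X ∈ LSO Q Γ, dL 2 2 t X = 0 :=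
    fun t ht X hX => hX.1 2 2 t ht
  -- the tensor of the algebra is Tate
  have t3 : ∀ {q : ℕ} {e : n ≃ Fin 2 × Fin q} {T Ti : Matrix n n ℂ} {G' Gi : Matrix (Fin q) (Fin q) ℂ},
      OW.TT (toC Q) (LSO Q Γ) e T Ti G' Gi → IsTateTensor Γ 2 2 (OW.tA T Ti e) := by
    intro q e T Ti G' Gi HT
    refine ⟨Γ, le_rfl, ?_, fun g hg => ?_⟩
    · rw [Subgroup.relIndex_self]
      exact one_ne_zero
    · obtain ⟨a, b, hab⟩ := HT.norm (gg71 g) (gg71' g) (fun X hX => G.LSO_conj hg hX)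
      exact OW.tA_fix HT.T1 HT.T2 (gg71 g) (gg71' g) hab
  rcases hD1 with h1 | ⟨q1, e1, T1, Ti1, G1, Gi1, HT1⟩
  · rcases hD2 with h2 | ⟨q2, e2, T2, Ti2, G2, Gi2, HT2⟩
    · exact ⟨fun hX => h1 X hX.2, fun hX => h2 X hX.1⟩
    · exfalso
      refine HT2.not_all hQs H.detQ fun X hX => ?_
      exact OW.tA_kill HT2.T1 HT2.T2 ((t1 _).2 (t3 HT2) X (h1 X hX))
  · rcases hD2 with h2 | ⟨q2, e2, T2, Ti2, G2, Gi2, HT2⟩
    · exfalso
      refine HT1.not_all hQs H.detQ fun X hX => ?_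
      exact OW.tA_kill HT1.T1 HT1.T2 (t2 _ ((t1 _).1 fun Y hY => HT1.kill hY) X (h2 X hX))
    · constructor
      · intro hX
        exact HT1.sk (t2 _ ((t1 _).1 fun Y hY => HT1.kill hY) X hX) hX.2
      · intro hX
        exact HT2.sk ((t1 _).2 (t3 HT2) X hX) hX.1

private def Good_s {q : ℕ} (e : n ≃ Fin 2 × Fin q) (T Ti : Matrix n n ℂ) (G' : Matrix (Fin q) (Fin q) ℂ) (ε : ℂ)
    (g : Matrix n n ℂ) : Prop :=
  ∃ (a : Matrix (Fin 2) (Fin 2) ℂ) (b : Matrix (Fin q) (Fin q) ℂ), a.det ≠ 0 ∧ bᵀ * G' * b = G' ∧ b.det = ε ∧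
    g = OW.tz T Ti e (OW.kr a b)

private theorem good_mul_s {q : ℕ} {e : n ≃ Fin 2 × Fin q} {T Ti : Matrix n n ℂ} {G' : Matrix (Fin q) (Fin q) ℂ}
    (h2 : Ti * T = 1) {ε ε' : ℂ} {g g' : Matrix n n ℂ} (h : Good_s e T Ti G' ε g) (h' : Good_s e T Ti G' ε' g') :
    Good_s e T Ti G' (ε * ε') (g * g') := by
  obtain ⟨a, b, h3, h4, h5, h6⟩ := h
  obtain ⟨a', b', h3', h4', h5', h6'⟩ := h'
  refine ⟨a * a', b * b', ?_, ?_, ?_, ?_⟩
  · rw [Matrix.det_mul]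
    exact mul_ne_zero h3 h3'
  · rw [Matrix.transpose_mul]
    calc b'ᵀ * bᵀ * G' * (b * b') = b'ᵀ * (bᵀ * G' * b) * b' := by simp only [mul_assoc]
      _ = G' := by rw [h4, h4']
  · rw [Matrix.det_mul, h5, h5']
  · rw [h6, h6', OW.tz_mul h2, OW.kr_mul]

private theorem good_inv_s {q : ℕ} {e : n ≃ Fin 2 × Fin q} {T Ti : Matrix n n ℂ} {G' : Matrix (Fin q) (Fin q) ℂ}
    (h1 : T * Ti = 1) (h2 : Ti * T = 1) {g : GL n ℂ} (h : Good_s e T Ti G' 1 (g : Matrix n n ℂ)) :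
    Good_s e T Ti G' 1 ((g⁻¹ : GL n ℂ) : Matrix n n ℂ) := by
  obtain ⟨a, b, h3, h4, h5, h6⟩ := h
  have ha : IsUnit a.det := isUnit_iff_ne_zero.2 h3
  have hb : IsUnit b.det := by
    rw [h5]
    exact isUnit_one
  have b1 : b * b⁻¹ = 1 := Matrix.mul_nonsing_inv b hb
  have b2 : (b⁻¹)ᵀ * bᵀ = 1 := by rw [← Matrix.transpose_mul, b1, Matrix.transpose_one]
  refine ⟨a⁻¹, b⁻¹, ?_, ?_, ?_, ?_⟩
  · intro h0
    have h7 := congrArg Matrix.det (Matrix.mul_nonsing_inv a ha)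
    rw [Matrix.det_mul, h0, mul_zero, Matrix.det_one] at h7
    exact zero_ne_one h7
  · calc (b⁻¹)ᵀ * G' * b⁻¹ = (b⁻¹)ᵀ * (bᵀ * G' * b) * b⁻¹ := by rw [h4]
      _ = ((b⁻¹)ᵀ * bᵀ) * G' * (b * b⁻¹) := by simp only [mul_assoc]
      _ = G' := by rw [b1, b2, one_mul, mul_one]
  · have h7 := congrArg Matrix.det b1
    rw [Matrix.det_mul, h5, one_mul, Matrix.det_one] at h7
    exact h7
  · have h7 : (g : Matrix n n ℂ) * OW.tz T Ti e (OW.kr a⁻¹ b⁻¹) = 1 := by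
      rw [h6, OW.tz_mul h2, OW.kr_mul, Matrix.mul_nonsing_inv a ha, b1, OW.kr_one, OW.tz_one h1]
    calc ((g⁻¹ : GL n ℂ) : Matrix n n ℂ) = ((g⁻¹ : GL n ℂ) : Matrix n n ℂ) *
          ((g : Matrix n n ℂ) * OW.tz T Ti e (OW.kr a⁻¹ b⁻¹)) := by rw [h7, mul_one]
      _ = OW.tz T Ti e (OW.kr a⁻¹ b⁻¹) := by rw [← mul_assoc, gg71', one_mul]

/-- the elements `a ⊗ b` with `det b = 1` form a subgroup of finite index -/
theorem IsGalO.exists_idx_TT (G : IsGalO Q S P Γ R) {q : ℕ} {e : n ≃ Fin 2 × Fin q} {T Ti : Matrix n n ℂ}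
    {G' Gi : Matrix (Fin q) (Fin q) ℂ} (HT : OW.TT (toC Q) (LSO Q Γ) e T Ti G' Gi) :
    ∃ Γ' : Subgroup (GL n ℂ), Γ' ≤ Γ ∧ Γ'.relIndex Γ ≠ 0 ∧
      ∀ g ∈ Γ', ∃ (a : Matrix (Fin 2) (Fin 2) ℂ) (b : Matrix (Fin q) (Fin q) ℂ), a.det ≠ 0 ∧ bᵀ * G' * b = G' ∧
        b.det = 1 ∧ (g : Matrix n n ℂ) = OW.tz T Ti e (OW.kr a b) := by
  have hor : ∀ g ∈ Γ, Good_s e T Ti G' 1 (g : Matrix n n ℂ) ∨ Good_s e T Ti G' (-1) (g : Matrix n n ℂ) := by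
    intro g hg
    obtain ⟨a, b, hab⟩ := HT.norm (gg71 g) (gg71' g) (fun X hX => G.LSO_conj hg hX)
    obtain ⟨c, hc⟩ := G.sim g hg
    obtain ⟨a', b', hg', ha', hb', hdet⟩ := HT.scale (gg71 g) hab hc
    rcases hdet with hd | ⟨hd, _⟩
    · exact Or.inl ⟨a', b', ha', hb', hd, hg'⟩
    · exact Or.inr ⟨a', b', ha', hb', hd, hg'⟩
  let Γ' : Subgroup (GL n ℂ) :=
    { carrier := {g | g ∈ Γ ∧ Good_s e T Ti G' 1 (g : Matrix n n ℂ)}
      one_mem' := by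
        refine ⟨Γ.one_mem, 1, 1, ?_, ?_, ?_, ?_⟩
        · rw [Matrix.det_one]
          exact one_ne_zero
        · rw [Matrix.transpose_one, one_mul, mul_one]
        · rw [Matrix.det_one]
        · rw [Units.val_one, OW.kr_one, OW.tz_one HT.T1]
      mul_mem' := by
        rintro g g' ⟨h1, h2⟩ ⟨h1', h2'⟩
        refine ⟨Γ.mul_mem h1 h1', ?_⟩
        have := good_mul_s HT.T2 h2 h2'
        rwa [one_mul, ← Units.val_mul] at this
      inv_mem' := by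
        rintro g ⟨h1, h2⟩
        exact ⟨Γ.inv_mem h1, good_inv_s HT.T1 HT.T2 h2⟩ }
  refine ⟨Γ', fun g hg => hg.1, ?_, fun g hg => hg.2⟩
  by_cases hall : Γ ≤ Γ'
  · rw [Subgroup.relIndex_eq_one.mpr hall]
    exact one_ne_zero
  · obtain ⟨h, hh, hh'⟩ := SetLike.not_le_iff_exists.mp hall
    have h2 : Γ'.relIndex Γ = 2 := by
      rw [Subgroup.relIndex_eq_two_iff_exists_notMem_and]
      refine ⟨h, hh, hh', fun b hb => ?_⟩
      by_cases hb' : b ∈ Γ'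
      · exact Or.inr hb'
      · left
        have g1 : Good_s e T Ti G' (-1) (b : Matrix n n ℂ) := by
          rcases hor b hb with h3 | h3
          · exact absurd ⟨hb, h3⟩ hb'
          · exact h3
        have g2 : Good_s e T Ti G' (-1) (h : Matrix n n ℂ) := by
          rcases hor h hh with h3 | h3
          · exact absurd ⟨hh, h3⟩ hh'
          · exact h3
        have g3 := good_mul_s HT.T2 g1 g2
        rw [neg_mul_neg, one_mul, ← Units.val_mul] at g3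
        exact ⟨Γ.mul_mem hb hh, g3⟩
    rw [h2]
    exact two_ne_zero

/-- **All types.** -/
theorem IsGalO.all_types (H : IsHW (2 * m + 1) Q S P) (G : IsGalO Q S P Γ R) [Nonempty n]
    (h1G : (1 : Matrix n n ℂ) ∈ LG Γ)
    (hD2 : (∀ X : Matrix n n ℂ, Xᵀ * toC Q + toC Q * X = 0 → X ∈ LSO Q Γ) ∨
      ∃ (q : ℕ) (e : n ≃ Fin 2 × Fin q) (T Ti : Matrix n n ℂ) (G Gi : Matrix (Fin q) (Fin q) ℂ),
        OW.TT (toC Q) (LSO Q Γ) e T Ti G Gi)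
    (hsame : ∀ X : Matrix n n ℂ, X ∈ LSO Q Γ ↔ X ∈ LH Q S P) (a b : ℕ) (t : (Fin a ⊕ Fin b → n) → ℂ) :
    IsTateTensor Γ a b t ↔
      ∀ g ∈ MT S P, actF (slot a b (g : Matrix n n ℂ) ((g⁻¹ : GL n ℂ) : Matrix n n ℂ)) t = t := by
  have hw0 : (2 * m + 1 : ℤ) ≠ 0 := by omega
  have hQs : (toC Q)ᵀ = -toC Q := by
    rw [H.Q_symm, neg_pow_odd71, neg_one_smul]
  rw [H.MT_fixed_iff hw0]
  constructor
  · intro ht
    exact ⟨fun X hX => ((hsame X).2 hX).1 a b t ht, h1G a b t ht⟩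
  · rintro ⟨hk, h1⟩
    rcases hD2 with h2 | ⟨q, e, T, Ti, G', Gi, HT⟩
    · refine ⟨Γ, le_rfl, ?_, fun g hg => ?_⟩
      · rw [Subgroup.relIndex_self]
        exact one_ne_zero
      · obtain ⟨c, hc⟩ := G.sim g hg
        exact gsp_fix71 hQs H.detQ (fun X hX => hk X ((hsame X).1 (h2 X hX))) h1 hc
    · obtain ⟨Γ', h3, h4, h5⟩ := G.exists_idx_TT HT
      refine ⟨Γ', h3, h4, fun g hg => ?_⟩
      obtain ⟨α, β, hα, hβ, hβ1, hg'⟩ := h5 g hg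
      exact HT.fix (fun X hX => hk X ((hsame X).1 hX)) h1 hα hβ hβ1 hg'

end MH
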