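import Pool.Agent.Helper71.OW.Defs
import Pool.Agent.Helper43.GH.Defs

/-!
OW-12. Operators commuting with the small diagonalisable elements. Proof. Let `𝒜` = the `T` that commute with all `s ∈ L`
with `Dg s`, `Sm s`; a unital algebra, closed under the adjoint (the conditions on `s` are invariant under `ᴴ`). It is
normalised by `L`: let `T ∈ 𝒜`, `x ∈ L`, `s` small; we show that `T` commutes with `[s, x]`, then `[[x, T], s] = 0` by Jacobi.
`[s, ·]` is diagonalisable on `L` (`s = Σ μ F μ`; `eig_mem` in Helper98/MH/Basic), so `x` is a sum of `x_δ ∈ L` with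
`[s, x_δ] = δ x_δ`. For `δ ≠ 0`, `X = x_δ`: `X` is nilpotent, `s X^k = X^k (s + k δ)`, so `exp(X) s = (s - δ X) exp(X)`: `s - δ X` is
conjugate to `s`, so it is in `L` and small. So `T` commutes with `X = (s - (s - δ X)) / δ`. By `Prim`, `𝒜 = ⊥` or `⊤`; `⊤` is
impossible because `s₀ ∈ L` is small and not a scalar.
-/

open Matrix MH

namespace OW

variable {n : Type*} [Fintype n] [DecidableEq n] {L : Submodule ℂ (Matrix n n ℂ)}

private lemma dg_ctS {s : Matrix n n ℂ} (h : GH.Dg s) : GH.Dg sᴴ := by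
  classical
  obtain ⟨Λ, F, h1, h2, h3⟩ := h
  have hinj : ∀ a ∈ Λ, ∀ b ∈ Λ, star a = star b → a = b := fun a _ b _ hab => star_injective hab
  refine ⟨Λ.image star, fun μ => (F (star μ))ᴴ, ?_, ?_, ?_⟩
  · intro μ ν
    rw [← conjTranspose_mul, h1]
    by_cases hc : μ = ν
    · rw [if_pos (by rw [hc]), if_pos hc, hc]
    · rw [if_neg hc, if_neg (fun h => hc (star_injective h).symm), conjTranspose_zero]
  · rw [Finset.sum_image hinj]
    simp only [star_star]
    rw [← conjTranspose_sum, h2, conjTranspose_one]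
  · rw [Finset.sum_image hinj]
    simp only [star_star]
    rw [h3, conjTranspose_sum]
    exact Finset.sum_congr rfl fun μ _ => by rw [conjTranspose_smul]

open scoped ComplexOrder in
private lemma sm_ctS {s : Matrix n n ℂ} (h : GH.Sm s) : GH.Sm sᴴ := by
  obtain ⟨c, hc⟩ := h
  refine ⟨star c, ?_⟩
  have e : sᴴ - star c • (1 : Matrix n n ℂ) = (s - c • (1 : Matrix n n ℂ))ᴴ := by
    rw [conjTranspose_sub, conjTranspose_smul, conjTranspose_one]
  rw [e, rank_conjTranspose]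
  exact hc

private lemma dg_conjS {s A B : Matrix n n ℂ} (hAB : A * B = 1) (hBA : B * A = 1)
    (h : GH.Dg s) : GH.Dg (A * s * B) := by
  obtain ⟨Λ, F, h1, h2, h3⟩ := h
  refine ⟨Λ, fun μ => A * F μ * B, ?_, ?_, ?_⟩
  · intro μ ν
    have e : A * F μ * B * (A * F ν * B) = A * (F μ * F ν) * B := by
      calc A * F μ * B * (A * F ν * B) = A * F μ * (B * A) * F ν * B := by noncomm_ring
        _ = A * (F μ * F ν) * B := by rw [hBA]; noncomm_ring
    rw [e, h1]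
    split_ifs
    · rfl
    · rw [mul_zero, zero_mul]
  · rw [← Finset.sum_mul, ← Finset.mul_sum, h2, mul_one, hAB]
  · rw [h3, Finset.mul_sum, Finset.sum_mul]
    exact Finset.sum_congr rfl fun μ _ => by rw [mul_smul_comm, smul_mul_assoc]

private lemma sm_conjS {s A B : Matrix n n ℂ} (hAB : A * B = 1) (hBA : B * A = 1)
    (h : GH.Sm s) : GH.Sm (A * s * B) := by
  obtain ⟨c, hc⟩ := h
  refine ⟨c, ?_⟩
  have e : A * s * B - c • (1 : Matrix n n ℂ) = A * (s - c • (1 : Matrix n n ℂ)) * B := by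
    rw [mul_sub, sub_mul, mul_smul_comm, smul_mul_assoc, mul_one, hAB]
  have hA : IsUnit A.det := by
    rw [← Matrix.isUnit_iff_isUnit_det]
    exact ⟨⟨A, B, hAB, hBA⟩, rfl⟩
  have hB : IsUnit B.det := by
    rw [← Matrix.isUnit_iff_isUnit_det]
    exact ⟨⟨B, A, hBA, hAB⟩, rfl⟩
  have r : (A * (s - c • (1 : Matrix n n ℂ)) * B).rank = (s - c • (1 : Matrix n n ℂ)).rank := by
    rw [rank_mul_eq_left_of_isUnit_det _ _ hB, rank_mul_eq_right_of_isUnit_det _ _ hA]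
  rw [e, r]
  exact hc

private lemma pow_brS {s X : Matrix n n ℂ} {δ : ℂ} (h : s * X - X * s = δ • X) (k : ℕ) :
    s * X ^ k - X ^ k * s = ((k : ℂ) * δ) • X ^ k := by
  induction k with
  | zero => simp
  | succ k ih =>
    have e : s * X ^ (k + 1) - X ^ (k + 1) * s =
        (s * X ^ k - X ^ k * s) * X + X ^ k * (s * X - X * s) := by
      rw [pow_succ]
      noncomm_ring
    rw [e, ih, h, smul_mul_assoc, mul_smul_comm, ← pow_succ, ← add_smul]
    congr 1
    push_cast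
    ring

section spec

variable {s : Matrix n n ℂ} {Λ : Finset ℂ} {F : ℂ → Matrix n n ℂ}
  (h1 : ∀ μ ν, F μ * F ν = if μ = ν then F μ else 0) (h2 : ∑ μ ∈ Λ, F μ = 1)
  (h3 : s = ∑ μ ∈ Λ, μ • F μ)
include h1 h2

omit h2 in
include h3 in
private lemma mul_sS {μ : ℂ} (hμ : μ ∈ Λ) : F μ * s = μ • F μ := by
  rw [h3, Finset.mul_sum, Finset.sum_eq_single μ]
  · rw [mul_smul_comm, h1, if_pos rfl]
  · intro ν _ hν
    rw [mul_smul_comm, h1, if_neg (Ne.symm hν), smul_zero]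
  · intro h
    exact absurd hμ h

omit h2 in
include h3 in
private lemma s_mulS {μ : ℂ} (hμ : μ ∈ Λ) : s * F μ = μ • F μ := by
  rw [h3, Finset.sum_mul, Finset.sum_eq_single μ]
  · rw [smul_mul_assoc, h1, if_pos rfl]
  · intro ν _ hν
    rw [smul_mul_assoc, h1, if_neg hν, smul_zero]
  · intro h
    exact absurd hμ h

omit h2 in
include h3 in
private lemma sandS (x : Matrix n n ℂ) {μ ν : ℂ} (hμ : μ ∈ Λ) (hν : ν ∈ Λ) :
    F μ * (s * x - x * s) * F ν = (μ - ν) • (F μ * x * F ν) := by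
  have e : F μ * (s * x - x * s) * F ν = (F μ * s) * x * F ν - F μ * x * (s * F ν) := by
    noncomm_ring
  rw [e, mul_sS h1 h3 hμ, s_mulS h1 h3 hν, sub_smul, smul_mul_assoc, smul_mul_assoc,
    mul_smul_comm]

omit h1 in
private lemma blocksS (x : Matrix n n ℂ) : x = ∑ p ∈ Λ ×ˢ Λ, F p.1 * x * F p.2 := by
  have e : x = (∑ μ ∈ Λ, F μ) * x * (∑ ν ∈ Λ, F ν) := by rw [h2, one_mul, mul_one]
  conv_lhs => rw [e]
  rw [Finset.sum_product, Finset.sum_mul, Finset.sum_mul]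
  exact Finset.sum_congr rfl fun μ _ => by rw [Finset.mul_sum]

include h3

private lemma nilS {X : Matrix n n ℂ} {δ : ℂ} (hδ : δ ≠ 0) (h : s * X - X * s = δ • X) :
    IsNilpotent X := by
  classical
  set Q : Finset ℂ := (Λ ×ˢ Λ).image fun p => p.1 - p.2 with hQ
  have hinj : Function.Injective fun k : ℕ => (k : ℂ) * δ := by
    intro a b hab
    have := mul_right_cancel₀ hδ hab
    exact_mod_cast this
  obtain ⟨k, hk⟩ : ∃ k : ℕ, (k : ℂ) * δ ∉ Q := by
    by_contra hcon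
    push Not at hcon
    have h4 : (Set.range fun k : ℕ => (k : ℂ) * δ) ⊆ (Q : Set ℂ) := by
      rintro _ ⟨k, rfl⟩
      exact hcon k
    exact (Set.infinite_range_of_injective hinj) (Q.finite_toSet.subset h4)
  refine ⟨k, ?_⟩
  rw [blocksS h2 (X ^ k)]
  refine Finset.sum_eq_zero fun p hp => ?_
  obtain ⟨hp1, hp2⟩ := Finset.mem_product.mp hp
  have h4 := sandS h1 h3 (X ^ k) hp1 hp2
  rw [pow_brS h k, mul_smul_comm, smul_mul_assoc] at h4
  have h5 : ((k : ℂ) * δ - (p.1 - p.2)) • (F p.1 * X ^ k * F p.2) = 0 := by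
    rw [sub_smul, h4, sub_self]
  rcases smul_eq_zero.mp h5 with h6 | h6
  · exfalso
    apply hk
    rw [sub_eq_zero.mp h6]
    exact Finset.mem_image_of_mem _ hp
  · exact h6

end spec

private lemma expS {s X : Matrix n n ℂ} {δ : ℂ} (h : s * X - X * s = δ • X)
    (hX : IsNilpotent X) : ∃ A B : Matrix n n ℂ, A * B = 1 ∧ B * A = 1 ∧ A * s * B = s - δ • X := by
  obtain ⟨k, hk⟩ := hX
  have hk1 : X ^ (k + 1) = 0 := by rw [pow_succ, hk, zero_mul]
  set A : Matrix n n ℂ := ∑ i ∈ Finset.range (k + 1), ((i.factorial : ℂ)⁻¹) • X ^ i with hA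
  set B : Matrix n n ℂ := IsNilpotent.exp (-X) with hB
  have hAe : IsNilpotent.exp X = A := by
    rw [IsNilpotent.exp_eq_sum hk1, hA]
    refine Finset.sum_congr rfl fun i _ => ?_
    have : ((i.factorial : ℂ)⁻¹) = (((i.factorial : ℚ)⁻¹ : ℚ) : ℂ) := by push_cast; rfl
    rw [this]
    exact (Rat.cast_smul_eq_qsmul ℂ _ _).symm
  have hAB : A * B = 1 := by
    rw [← hAe, hB]
    exact IsNilpotent.exp_mul_exp_neg_self ⟨k, hk⟩
  have hBA : B * A = 1 := by
    rw [← hAe, hB]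
    exact IsNilpotent.exp_neg_mul_exp_self ⟨k, hk⟩
  refine ⟨A, B, hAB, hBA, ?_⟩
  have hAs : A * s = (s - δ • X) * A := by
    have e1 : ∀ i : ℕ, X ^ i * s = s * X ^ i - ((i : ℂ) * δ) • X ^ i := by
      intro i
      rw [← pow_brS h i]
      abel
    have e2 : A * s = s * A - ∑ i ∈ Finset.range (k + 1),
        ((i.factorial : ℂ)⁻¹) • (((i : ℂ) * δ) • X ^ i) := by
      rw [hA, Finset.sum_mul, Finset.mul_sum, ← Finset.sum_sub_distrib]
      refine Finset.sum_congr rfl fun i _ => ?_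
      rw [smul_mul_assoc, e1, smul_sub, mul_smul_comm]
    have e3 : ∑ i ∈ Finset.range (k + 1), ((i.factorial : ℂ)⁻¹) • (((i : ℂ) * δ) • X ^ i) =
        δ • (X * A) := by
      rw [Finset.sum_range_succ']
      have e4 : ((Nat.factorial 0 : ℂ)⁻¹) • ((((0 : ℕ) : ℂ) * δ) • X ^ 0) =
          (0 : Matrix n n ℂ) := by simp
      rw [e4, add_zero, hA, Finset.sum_range_succ, hk, smul_zero, add_zero, Finset.mul_sum,
        Finset.smul_sum]
      refine Finset.sum_congr rfl fun i _ => ?_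
      rw [smul_smul, mul_smul_comm, smul_smul, ← pow_succ']
      congr 1
      have h5 : ((i + 1 : ℕ) : ℂ) ≠ 0 := by exact_mod_cast Nat.succ_ne_zero i
      have h6 : ((i.factorial : ℕ) : ℂ) ≠ 0 := by exact_mod_cast Nat.factorial_ne_zero i
      rw [Nat.factorial_succ]
      push_cast at h5 ⊢
      field_simp
    rw [e2, e3, sub_mul, smul_mul_assoc]
  rw [hAs, mul_assoc, hAB, mul_one]

/-- An operator which commutes with the small elements commutes with the eigenvectors. -/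
private lemma keyS {s X T : Matrix n n ℂ} {δ : ℂ} (hs : s ∈ L) (hd : GH.Dg s) (hm : GH.Sm s)
    (hX : X ∈ L) (hδ : δ ≠ 0) (h : s * X - X * s = δ • X)
    (hT : ∀ s ∈ L, GH.Dg s → GH.Sm s → T * s = s * T) : T * X = X * T := by
  obtain ⟨Λ, F, h1, h2, h3⟩ := hd
  obtain ⟨A, B, hAB, hBA, e⟩ := expS h (nilS h1 h2 h3 hδ h)
  have h4 : s - δ • X ∈ L := L.sub_mem hs (L.smul_mem δ hX)
  have h5 : GH.Dg (s - δ • X) := e ▸ dg_conjS hAB hBA ⟨Λ, F, h1, h2, h3⟩
  have h6 : GH.Sm (s - δ • X) := e ▸ sm_conjS hAB hBA hm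
  have h7 := hT _ h4 h5 h6
  have h8 := hT s hs ⟨Λ, F, h1, h2, h3⟩ hm
  rw [mul_sub, sub_mul, h8, mul_smul_comm, smul_mul_assoc] at h7
  have h9 : δ • (T * X) = δ • (X * T) := sub_right_injective h7
  have h10 := congrArg (fun Y => δ⁻¹ • Y) h9
  simpa [smul_smul, inv_mul_cancel₀ hδ] using h10

private lemma commS (br : ∀ x ∈ L, ∀ y ∈ L, x * y - y * x ∈ L) {s T x : Matrix n n ℂ}
    (hs : s ∈ L) (hd : GH.Dg s) (hm : GH.Sm s) (hx : x ∈ L)
    (hT : ∀ s ∈ L, GH.Dg s → GH.Sm s → T * s = s * T) :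
    T * (s * x - x * s) = (s * x - x * s) * T := by
  classical
  obtain ⟨Λ, F, h1, h2, h3⟩ := hd
  set Q : Finset ℂ := (Λ ×ˢ Λ).image fun p => p.1 - p.2 with hQ
  set f : ℂ → Matrix n n ℂ := fun δ =>
    ∑ p ∈ (Λ ×ˢ Λ).filter (fun p => p.1 - p.2 = δ), F p.1 * x * F p.2 with hf
  let A : Matrix n n ℂ →ₗ[ℂ] Matrix n n ℂ :=
    { toFun := fun y => s * y - y * s
      map_add' := by intro a b; noncomm_ring
      map_smul' := by intro c a; simp [smul_sub] }
  have hAf : ∀ δ ∈ Q, A (f δ) = δ • f δ := by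
    intro δ _
    rw [hf]
    change A (∑ p ∈ (Λ ×ˢ Λ).filter (fun p => p.1 - p.2 = δ), F p.1 * x * F p.2) = _
    rw [map_sum, Finset.smul_sum]
    refine Finset.sum_congr rfl fun p hp => ?_
    obtain ⟨hp1, hp2⟩ := Finset.mem_filter.mp hp
    obtain ⟨hp3, hp4⟩ := Finset.mem_product.mp hp1
    change s * (F p.1 * x * F p.2) - F p.1 * x * F p.2 * s = _
    have e : s * (F p.1 * x * F p.2) - F p.1 * x * F p.2 * s =
        (s * F p.1) * x * F p.2 - F p.1 * x * (F p.2 * s) := by noncomm_ring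
    rw [e, s_mulS h1 h3 hp3, mul_sS h1 h3 hp4, smul_mul_assoc, smul_mul_assoc, mul_smul_comm,
      ← sub_smul, hp2]
  have hsum : ∑ δ ∈ Q, f δ = x := by
    rw [hf, hQ]
    rw [Finset.sum_fiberwise_of_maps_to fun p hp => Finset.mem_image_of_mem _ hp]
    exact (blocksS h2 x).symm
  have hmem := eig_mem (K := ℂ) A (M := L) (fun y hy => br s hs y hy) Q f hAf (by
    rw [hsum]
    exact hx)
  have e1 : s * x - x * s = ∑ δ ∈ Q, δ • f δ := by
    have : A x = ∑ δ ∈ Q, δ • f δ := by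
      rw [← hsum, map_sum]
      exact Finset.sum_congr rfl hAf
    exact this
  rw [e1, Finset.mul_sum, Finset.sum_mul]
  refine Finset.sum_congr rfl fun δ hδ => ?_
  rw [mul_smul_comm, smul_mul_assoc]
  by_cases h0 : δ = 0
  · rw [h0, zero_smul, zero_smul]
  · rw [keyS hs ⟨Λ, F, h1, h2, h3⟩ hm (hmem δ hδ) h0 (hAf δ hδ) hT]

theorem small (br : ∀ x ∈ L, ∀ y ∈ L, x * y - y * x ∈ L) (st : ∀ x ∈ L, xᴴ ∈ L) (P : Prim L) {s₀ : Matrix n n ℂ}
    (h1 : s₀ ∈ L) (h2 : GH.Dg s₀) (h3 : GH.Sm s₀) (h4 : ∀ c : ℂ, s₀ ≠ c • (1 : Matrix n n ℂ)) {T : Matrix n n ℂ}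
    (hT : ∀ s ∈ L, GH.Dg s → GH.Sm s → T * s = s * T) : ∃ c : ℂ, T = c • (1 : Matrix n n ℂ) := by
  set 𝒜 : Subalgebra ℂ (Matrix n n ℂ) :=
    Subalgebra.centralizer ℂ {s | s ∈ L ∧ GH.Dg s ∧ GH.Sm s} with h𝒜
  have mem : ∀ T : Matrix n n ℂ, T ∈ 𝒜 ↔ ∀ s ∈ L, GH.Dg s → GH.Sm s → T * s = s * T := by
    intro T
    rw [h𝒜, Subalgebra.mem_centralizer_iff]
    exact ⟨fun h s h5 h6 h7 => (h s ⟨h5, h6, h7⟩).symm, fun h s h5 => (h s h5.1 h5.2.1 h5.2.2).symm⟩
  have hst : ∀ a ∈ 𝒜, aᴴ ∈ 𝒜 := by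
    intro a ha
    rw [mem] at ha ⊢
    intro s h5 h6 h7
    have h8 := congrArg conjTranspose (ha sᴴ (st s h5) (dg_ctS h6) (sm_ctS h7))
    rw [conjTranspose_mul, conjTranspose_mul, conjTranspose_conjTranspose] at h8
    exact h8.symm
  have hbr : ∀ x ∈ L, ∀ a ∈ 𝒜, x * a - a * x ∈ 𝒜 := by
    intro x hx a ha
    rw [mem] at ha ⊢
    intro s h5 h6 h7
    have h8 := commS br h5 h6 h7 hx ha
    have h9 := ha s h5 h6 h7
    have e : (x * a - a * x) * s - s * (x * a - a * x) =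
        (a * (s * x - x * s) - (s * x - x * s) * a) + x * (a * s - s * a) - (a * s - s * a) * x := by
      noncomm_ring
    rw [h8, h9, sub_self, sub_self, mul_zero, zero_mul, add_zero, sub_zero] at e
    exact sub_eq_zero.mp e
  rcases P 𝒜 hst hbr with h5 | h5
  · have h6 : T ∈ 𝒜 := (mem T).mpr hT
    rw [h5, Algebra.mem_bot] at h6
    obtain ⟨c, hc⟩ := h6
    exact ⟨c, by rw [← hc, Algebra.algebraMap_eq_smul_one]⟩
  · exfalso
    have h6 : s₀ ∈ Set.range (Matrix.scalar n) := by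
      apply mem_range_scalar_of_commute_single
      intro i j _
      have h7 : single i j (1 : ℂ) ∈ 𝒜 := by
        rw [h5]
        exact Algebra.mem_top
      exact (mem _).mp h7 s₀ h1 h2 h3
    obtain ⟨c, hc⟩ := h6
    apply h4 c
    rw [← hc, Matrix.scalar_apply, ← Matrix.smul_one_eq_diagonal]

end OW
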