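import Pool.Agent.Helper71.OW.TDefs
import Pool.Agent.Helper21.MH.HodgeD

/-!
OW-50. Tensors of `ℂ^d ⊗ ℂ^q`: if every tensor of `ℂ^q` that is killed by the `z ∈ K` is fixed by `g`, then every tensor of
`ℂ^d ⊗ ℂ^q` that is killed by the `1 ⊗ z` is fixed by `1 ⊗ g` (same for the first factor). Proof. (1) Change of basis: with
`t₀ = actF (slot a b Ti T) t` one has `t = actF (slot a b T Ti) t₀` (`actF_mul`, `actF_one`; the slots of the second kind carry
transposes), `actF (slot a b (T * M * Ti) (T * M' * Ti)) t = actF (slot a b T Ti) (actF (slot a b M M') t₀)`, and the same for `dL`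
(`dact_conj`, model `dL_conj'` in `Pool/Agent/Helper2/MON/Use.lean`). So let `T = 1`, and reindex by `e` (`Equiv.sum_comp`). (2) For
`I : Fin a ⊕ Fin b → Fin d` let `t_I K = t (fun k => (I k, K k))`. `actF` of the `1 ⊗ B k` acts on each `t_I` as `actF` of the `B k`, because
`∏ k, kr 1 (B k) (i k) (j k)` is 0 unless the first components of `i` and `j` agree; `dact` is a sum of such operators
(`Function.update` of the constant function `1 = kr 1 1`). So `t_I` is killed by the `z ∈ K`, so fixed by `g`, for all `I`.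
-/

open Matrix MH

namespace OW

variable {n : Type*} [Fintype n] [DecidableEq n] {d q : ℕ}
variable {T Ti : Matrix n n ℂ} {e : n ≃ Fin d × Fin q}

private theorem dL_conj34 {a b : ℕ} {t : (Fin a ⊕ Fin b → n) → ℂ} {X g g' : Matrix n n ℂ} (h1 : g * g' = 1)
    (ht : dL a b (actF (slot a b g' g) t) X = 0) : dL a b t (g * X * g') = 0 := by
  rw [dL_apply] at ht ⊢
  have h3 := dact_conj (slot a b g g') (slot a b g' g) (by
      rintro (k | k)
      · exact h1
      · simp only [slot, Sum.elim_inr]
        rw [← Matrix.transpose_mul, h1, Matrix.transpose_one]) (lslot a b X) t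
  rw [ht, actF_zero] at h3
  rw [← h3]
  congr 1
  funext k
  rcases k with k | k
  · rfl
  · simp only [lslot, slot, Sum.elim_inr, Matrix.transpose_mul, mul_neg, neg_mul, mul_assoc]

section gen34

variable {α β κ : Type*} [Fintype α] [DecidableEq α] [Fintype β] [DecidableEq β] [Fintype κ] [DecidableEq κ]

/-- the operator `1 ⊗ B` in the coordinates given by `e` -/
private def em34 (e : n ≃ α × β) (B : Matrix β β ℂ) : Matrix n n ℂ :=
  fun i j => if (e i).1 = (e j).1 then B (e i).2 (e j).2 else 0

omit [Fintype n] [DecidableEq n] [Fintype α] [Fintype β] [DecidableEq β] in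
private theorem em34_transpose (e : n ≃ α × β) (B : Matrix β β ℂ) : em34 e Bᵀ = (em34 e B)ᵀ := by
  ext i j
  simp only [em34, Matrix.transpose_apply]
  by_cases h : (e i).1 = (e j).1
  · rw [if_pos h, if_pos h.symm]
  · rw [if_neg h, if_neg (fun h' => h h'.symm)]

omit [Fintype n] [DecidableEq n] [Fintype α] [Fintype β] [DecidableEq β] in
private theorem em34_neg (e : n ≃ α × β) (B : Matrix β β ℂ) : em34 e (-B) = -em34 e B := by
  ext i j
  simp only [em34, Matrix.neg_apply]
  by_cases h : (e i).1 = (e j).1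
  · rw [if_pos h, if_pos h]
  · rw [if_neg h, if_neg h, neg_zero]

omit [Fintype n] [Fintype α] [Fintype β] in
private theorem em34_one (e : n ≃ α × β) : em34 e (1 : Matrix β β ℂ) = 1 := by
  ext i j
  simp only [em34, Matrix.one_apply]
  by_cases h : i = j
  · subst h
    simp
  · rw [if_neg h]
    by_cases h1 : (e i).1 = (e j).1
    · have h2 : (e i).2 ≠ (e j).2 := fun h2 => h (e.injective (Prod.ext h1 h2))
      rw [if_pos h1, if_neg h2]
    · rw [if_neg h1]

/-- the slice of a tensor -/
private def sl34 (e : n ≃ α × β) (t : (κ → n) → ℂ) (I : κ → α) : (κ → β) → ℂ :=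
  fun K => t fun k => e.symm (I k, K k)

omit [DecidableEq n] [DecidableEq β] in
private theorem act34 (e : n ≃ α × β) (B : κ → Matrix β β ℂ) (t : (κ → n) → ℂ) (I : κ → α) (K : κ → β) :
    actF (fun k => em34 e (B k)) t (fun k => e.symm (I k, K k)) = actF B (sl34 e t I) K := by
  unfold actF
  rw [← Equiv.sum_comp (((Equiv.refl κ).arrowCongr e).trans (Equiv.arrowProdEquivProdArrow κ (fun _ => α) (fun _ => β))).symm,
    Fintype.sum_prod_type, Finset.sum_eq_single I]
  · refine Finset.sum_congr rfl fun J _ => ?_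
    congr 1
    refine Finset.prod_congr rfl fun k _ => ?_
    simp [em34, Equiv.arrowProdEquivProdArrow, Equiv.arrowCongr]
  · intro J _ hJ
    refine Finset.sum_eq_zero fun L _ => ?_
    obtain ⟨k, hk⟩ := Function.ne_iff.1 hJ
    rw [Finset.prod_eq_zero (Finset.mem_univ k), zero_mul]
    simp [em34, Equiv.arrowProdEquivProdArrow, Equiv.arrowCongr]
    intro h
    exact absurd h.symm hk
  · intro h
    exact absurd (Finset.mem_univ I) h

private theorem dact34 (e : n ≃ α × β) (X : κ → Matrix β β ℂ) (t : (κ → n) → ℂ) (I : κ → α) (K : κ → β) :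
    dact (fun k => em34 e (X k)) t (fun k => e.symm (I k, K k)) = dact X (sl34 e t I) K := by
  unfold dact
  rw [Finset.sum_apply, Finset.sum_apply]
  refine Finset.sum_congr rfl fun k _ => ?_
  rw [← act34]
  congr 1
  funext l
  by_cases h : l = k
  · subst h
    simp
  · simp [Function.update_of_ne h, em34_one]

private theorem fix34 (e : n ≃ α × β) (h1 : T * Ti = 1) (h2 : Ti * T = 1) {a b : ℕ} (K : Set (Matrix β β ℂ))
    {g g' : Matrix β β ℂ}
    (hW : ∀ t' : (Fin a ⊕ Fin b → β) → ℂ, (∀ z ∈ K, dL a b t' z = 0) → actF (slot a b g g') t' = t')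
    {t : (Fin a ⊕ Fin b → n) → ℂ} (ht : ∀ z ∈ K, dL a b t (T * em34 e z * Ti) = 0) :
    actF (slot a b (T * em34 e g * Ti) (T * em34 e g' * Ti)) t = t := by
  obtain ⟨t0, ht0⟩ : ∃ t0, t0 = actF (slot a b Ti T) t := ⟨_, rfl⟩
  have e1 : actF (slot a b T Ti) t0 = t := by
    rw [ht0, actF_mul]
    have : (fun k => slot a b T Ti k * slot a b Ti T k) = fun _ => 1 := by
      funext k
      rcases k with k | k
      · exact h1
      · simp only [slot, Sum.elim_inr]
        rw [← Matrix.transpose_mul, h1, Matrix.transpose_one]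
    rw [this, actF_one]
  have e2 : ∀ z ∈ K, dL a b t0 (em34 e z) = 0 := by
    intro z hz
    have h3 := dL_conj34 (t := t0) (X := T * em34 e z * Ti) h2 (by rw [e1]; exact ht z hz)
    have h4 : Ti * (T * em34 e z * Ti) * T = em34 e z := by
      calc Ti * (T * em34 e z * Ti) * T = (Ti * T) * em34 e z * (Ti * T) := by simp only [Matrix.mul_assoc]
        _ = em34 e z := by rw [h2, Matrix.one_mul, Matrix.mul_one]
    rw [h4] at h3
    exact h3
  have e3 : ∀ I : Fin a ⊕ Fin b → α, actF (slot a b g g') (sl34 e t0 I) = sl34 e t0 I := by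
    intro I
    refine hW _ fun z hz => ?_
    funext L
    have h3 := congrFun (e2 z hz) fun k => e.symm (I k, L k)
    rw [dL_apply] at h3 ⊢
    rw [← dact34 e (lslot a b z) t0 I L]
    have h4 : (fun k => em34 e (lslot a b z k)) = lslot a b (em34 e z) := by
      funext k
      rcases k with k | k
      · rfl
      · simp only [lslot, Sum.elim_inr]
        rw [em34_neg, em34_transpose]
    rw [h4]
    exact h3
  have e4 : actF (slot a b (em34 e g) (em34 e g')) t0 = t0 := by
    funext i
    have hi : i = fun k => e.symm ((e (i k)).1, (e (i k)).2) := by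
      funext k
      simp
    have h4 : (fun k => em34 e (slot a b g g' k)) = slot a b (em34 e g) (em34 e g') := by
      funext k
      rcases k with k | k
      · rfl
      · simp only [slot, Sum.elim_inr]
        rw [em34_transpose]
    have h5 := act34 e (slot a b g g') t0 (fun k => (e (i k)).1) (fun k => (e (i k)).2)
    rw [h4, e3] at h5
    rw [← hi] at h5
    rw [h5]
    unfold sl34
    rw [← hi]
  have e5 : actF (slot a b (T * em34 e g * Ti) (T * em34 e g' * Ti)) t
      = actF (slot a b T Ti) (actF (slot a b (em34 e g) (em34 e g')) (actF (slot a b Ti T) t)) := by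
    rw [actF_mul, actF_mul]
    congr 1
    funext k
    rcases k with k | k
    · simp only [slot, Sum.elim_inl, Matrix.mul_assoc]
    · simp only [slot, Sum.elim_inr, Matrix.transpose_mul, Matrix.mul_assoc]
  rw [e5, ← ht0, e4, e1]

end gen34

omit [DecidableEq n] in
private theorem tz_right34 (z : Matrix (Fin q) (Fin q) ℂ) : tz T Ti e (kr 1 z) = T * em34 e z * Ti := by
  unfold tz
  congr 2
  ext i j
  simp only [Matrix.submatrix_apply, kroneckerMap_apply, em34, Matrix.one_apply]
  by_cases h : (e i).1 = (e j).1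
  · rw [if_pos h, if_pos h, one_mul]
  · rw [if_neg h, if_neg h, zero_mul]

omit [DecidableEq n] in
private theorem tz_left34 (x : Matrix (Fin d) (Fin d) ℂ) :
    tz T Ti e (kr x 1) = T * em34 (e.trans (Equiv.prodComm _ _)) x * Ti := by
  unfold tz
  congr 2
  ext i j
  simp only [Matrix.submatrix_apply, kroneckerMap_apply, em34, Matrix.one_apply, Equiv.trans_apply,
    Equiv.prodComm_apply, Prod.fst_swap, Prod.snd_swap]
  by_cases h : (e i).2 = (e j).2
  · simp [h]
  · simp [h]

theorem fix_right (h1 : T * Ti = 1) (h2 : Ti * T = 1) {a b : ℕ} (K : Set (Matrix (Fin q) (Fin q) ℂ))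
    {g g' : Matrix (Fin q) (Fin q) ℂ}
    (hW : ∀ t' : (Fin a ⊕ Fin b → Fin q) → ℂ, (∀ z ∈ K, dL a b t' z = 0) → actF (slot a b g g') t' = t')
    {t : (Fin a ⊕ Fin b → n) → ℂ} (ht : ∀ z ∈ K, dL a b t (tz T Ti e (kr 1 z)) = 0) :
    actF (slot a b (tz T Ti e (kr 1 g)) (tz T Ti e (kr 1 g'))) t = t := by
  rw [tz_right34, tz_right34]
  refine fix34 e h1 h2 K hW fun z hz => ?_
  rw [← tz_right34]
  exact ht z hz

theorem fix_left (h1 : T * Ti = 1) (h2 : Ti * T = 1) {a b : ℕ} (K : Set (Matrix (Fin d) (Fin d) ℂ))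
    {g g' : Matrix (Fin d) (Fin d) ℂ}
    (hW : ∀ t' : (Fin a ⊕ Fin b → Fin d) → ℂ, (∀ z ∈ K, dL a b t' z = 0) → actF (slot a b g g') t' = t')
    {t : (Fin a ⊕ Fin b → n) → ℂ} (ht : ∀ z ∈ K, dL a b t (tz T Ti e (kr z 1)) = 0) :
    actF (slot a b (tz T Ti e (kr g 1)) (tz T Ti e (kr g' 1))) t = t := by
  rw [tz_left34, tz_left34]
  refine fix34 (e.trans (Equiv.prodComm _ _)) h1 h2 K hW fun z hz => ?_
  rw [← tz_left34]
  exact ht z hz

end OW
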