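import Pool.Agent.Helper71.OW.HS
import Pool.Agent.Helper71.OW.Tfx

/-!
OW-55. Consequences of `TT`: similitudes of the form `a ⊗ b`, tensors fixed by them.
-/

set_option linter.unusedSectionVars false

open Matrix MH

namespace OW

variable {n : Type*} [Fintype n] [DecidableEq n] {q : ℕ}
variable {T Ti : Matrix n n ℂ} {e : n ≃ Fin 2 × Fin q}
variable {Q' : Matrix n n ℂ} {L : Submodule ℂ (Matrix n n ℂ)} {G Gi : Matrix (Fin q) (Fin q) ℂ}

theorem J0_t : J0ᵀ = -J0 := by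
  unfold J0
  ext i j
  fin_cases i <;> fin_cases j <;> simp

theorem J0_det : J0.det = 1 := by
  unfold J0
  rw [Matrix.det_fin_two_of]
  norm_num

theorem J0_skew (x : Matrix (Fin 2) (Fin 2) ℂ) : xᵀ * J0 + J0 * x = x.trace • J0 := by
  unfold J0
  ext i j
  fin_cases i <;> fin_cases j <;>
    simp [Matrix.mul_apply, Fin.sum_univ_two, Matrix.trace, Matrix.vecMul, dotProduct] <;> ring

theorem J0_sim (a : Matrix (Fin 2) (Fin 2) ℂ) : aᵀ * J0 * a = a.det • J0 := by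
  unfold J0
  rw [Matrix.det_fin_two]
  ext i j
  fin_cases i <;> fin_cases j <;>
    simp [Matrix.mul_apply, Fin.sum_univ_two, Matrix.vecMul, dotProduct] <;> ring

theorem J0_ne : J0 ≠ 0 := by
  intro h
  have h1 := J0_det
  rw [h, Matrix.det_zero] at h1
  exact zero_ne_one h1

theorem kr_smul_l {d q : ℕ} (c : ℂ) (x : Matrix (Fin d) (Fin d) ℂ) (z : Matrix (Fin q) (Fin q) ℂ) :
    kr (c • x) z = c • kr x z := by
  ext i j
  exact mul_assoc _ _ _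

theorem kr_smul_r {d q : ℕ} (c : ℂ) (x : Matrix (Fin d) (Fin d) ℂ) (z : Matrix (Fin q) (Fin q) ℂ) :
    kr x (c • z) = c • kr x z := by
  ext i j
  exact mul_left_comm _ _ _

/-- the factors of an invertible matrix are invertible -/
theorem TT.inv_factors (H : TT Q' L e T Ti G Gi) {g g' : Matrix n n ℂ} (g1 : g * g' = 1)
    {a : Matrix (Fin 2) (Fin 2) ℂ} {b : Matrix (Fin q) (Fin q) ℂ} (hg : g = tz T Ti e (kr a b)) :
    a.det ≠ 0 ∧ b.det ≠ 0 := by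
  have h1 : (kr a b).det ≠ 0 := by
    intro h0
    have h2 : tz T Ti e (kr a b) * g' = 1 := by rw [← hg, g1]
    have h3 : kr a b * (Ti * g' * T).submatrix e.symm e.symm = 1 := by
      have h4 : tz T Ti e (kr a b) * tz T Ti e ((Ti * g' * T).submatrix e.symm e.symm) = tz T Ti e 1 := by
        rw [tz_coord H.T1, h2, tz_one H.T1]
      rw [tz_mul H.T2] at h4
      exact tz_inj H.T2 h4
    have h4 := congrArg Matrix.det h3
    rw [Matrix.det_mul, h0, zero_mul, Matrix.det_one] at h4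
    exact zero_ne_one h4
  have h2 : (kr a b).det = a.det ^ q * b.det ^ 2 := by
    have := Matrix.det_kronecker a b
    rw [Fintype.card_fin, Fintype.card_fin] at this
    exact this
  rw [h2] at h1
  constructor
  · intro h0
    apply h1
    rw [h0, zero_pow (by have := H.big; omega), zero_mul]
  · intro h0
    apply h1
    rw [h0, zero_pow two_ne_zero, mul_zero]

theorem TT.G_ne (H : TT Q' L e T Ti G Gi) : G ≠ 0 := by
  intro h
  have h1 := H.G1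
  rw [h, zero_mul] at h1
  have h2 := congrFun (congrFun h1 ⟨0, by have := H.big; omega⟩) ⟨0, by have := H.big; omega⟩
  rw [Matrix.zero_apply, Matrix.one_apply_eq] at h2
  exact zero_ne_one h2

theorem TT.G_det (H : TT Q' L e T Ti G Gi) : G.det ≠ 0 := by
  intro h
  have h1 := congrArg Matrix.det H.G1
  rw [Matrix.det_mul, h, zero_mul, Matrix.det_one] at h1
  exact zero_ne_one h1

/-- the factors of a similitude can be chosen such that the second one is an isometry -/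
theorem TT.scale (H : TT Q' L e T Ti G Gi) {g g' : Matrix n n ℂ} (g1 : g * g' = 1)
    {a : Matrix (Fin 2) (Fin 2) ℂ} {b : Matrix (Fin q) (Fin q) ℂ} (hg : g = tz T Ti e (kr a b)) {c : ℂ}
    (hs : gᵀ * Q' * g = c • Q') :
    ∃ (a' : Matrix (Fin 2) (Fin 2) ℂ) (b' : Matrix (Fin q) (Fin q) ℂ), g = tz T Ti e (kr a' b') ∧ a'.det ≠ 0 ∧
      b'ᵀ * G * b' = G ∧ (b'.det = 1 ∨ b'.det = -1 ∧ Even q) := by
  obtain ⟨ha, hb⟩ := H.inv_factors g1 hg
  rw [hg] at hs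
  have h1 := (sim_iff H.T1 H.T2 H.form).1 hs
  -- the multiplier of `b`
  have h2 : bᵀ * G * b = (a.det⁻¹ * c) • G := by
    rw [← smul_smul, ← h1, smul_smul, inv_mul_cancel₀ ha, one_smul]
  have hc : a.det⁻¹ * c ≠ 0 := by
    intro h0
    rw [h0, zero_smul] at h2
    have h3 := congrArg Matrix.det h2
    haveI : Nonempty (Fin q) := ⟨⟨0, by have := H.big; omega⟩⟩
    rw [Matrix.det_mul, Matrix.det_mul, Matrix.det_transpose, Matrix.det_zero] at h3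
    exact mul_ne_zero (mul_ne_zero hb H.G_det) hb h3
  obtain ⟨z, hz⟩ := IsAlgClosed.exists_pow_nat_eq (a.det⁻¹ * c) (show 0 < 2 by norm_num)
  have hz0 : z ≠ 0 := by
    rintro rfl
    rw [zero_pow two_ne_zero] at hz
    exact hc hz.symm
  -- the isometry
  have key : ∀ ε : ℂ, ε * ε = 1 → g = tz T Ti e (kr ((ε * z) • a) ((ε * z⁻¹) • b)) ∧ ((ε * z) • a).det ≠ 0 ∧
      ((ε * z⁻¹) • b)ᵀ * G * ((ε * z⁻¹) • b) = G := by
    intro ε hε
    have hε0 : ε ≠ 0 := by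
      rintro rfl
      rw [zero_mul] at hε
      exact zero_ne_one hε
    refine ⟨?_, ?_, ?_⟩
    · rw [hg, kr_smul_l, kr_smul_r, smul_smul]
      have : ε * z * (ε * z⁻¹) = 1 := by
        rw [mul_mul_mul_comm, hε, one_mul, mul_inv_cancel₀ hz0]
      rw [this, one_smul]
    · rw [Matrix.det_smul]
      exact mul_ne_zero (pow_ne_zero _ (mul_ne_zero hε0 hz0)) ha
    · rw [Matrix.transpose_smul, smul_mul_assoc, smul_mul_assoc, mul_smul_comm, smul_smul, h2, smul_smul, ← hz]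
      have : ε * z⁻¹ * (ε * z⁻¹) * z ^ 2 = 1 := by
        rw [mul_mul_mul_comm, hε, one_mul, pow_two, mul_mul_mul_comm, inv_mul_cancel₀ hz0, one_mul]
      rw [this, one_smul]
  have hdet : ∀ β : Matrix (Fin q) (Fin q) ℂ, βᵀ * G * β = G → β.det = 1 ∨ β.det = -1 := by
    intro β hβ
    have h3 := congrArg Matrix.det hβ
    rw [Matrix.det_mul, Matrix.det_mul, Matrix.det_transpose] at h3
    have h4 : β.det * β.det = 1 := by
      have h5 : (β.det * β.det - 1) * G.det = 0 := by linear_combination h3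
      exact sub_eq_zero.1 ((mul_eq_zero.1 h5).resolve_right H.G_det)
    exact mul_self_eq_one_iff.1 h4
  obtain ⟨k1, k2, k3⟩ := key 1 (one_mul 1)
  rcases hdet _ k3 with hd | hd
  · exact ⟨_, _, k1, k2, k3, Or.inl hd⟩
  · rcases Nat.even_or_odd q with hq | hq
    · exact ⟨_, _, k1, k2, k3, Or.inr ⟨hd, hq⟩⟩
    · obtain ⟨l1, l2, l3⟩ := key (-1) (by norm_num)
      refine ⟨_, _, l1, l2, l3, Or.inl ?_⟩
      have e1 : ((-1 : ℂ) * z⁻¹) • b = (-1 : ℂ) • ((1 * z⁻¹) • b) := by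
        rw [smul_smul, one_mul]
      rw [e1, Matrix.det_smul, hd, Fintype.card_fin, hq.neg_one_pow]
      norm_num

/-- a tensor killed by `L` and by the scalars is fixed by the `a ⊗ b` with `b` a proper isometry -/
theorem TT.fix (H : TT Q' L e T Ti G Gi) {k l : ℕ} {t : (Fin k ⊕ Fin l → n) → ℂ}
    (hk : ∀ X ∈ L, dL k l t X = 0) (h1 : dL k l t 1 = 0) {a : Matrix (Fin 2) (Fin 2) ℂ}
    {b : Matrix (Fin q) (Fin q) ℂ} (ha : a.det ≠ 0) (hb : bᵀ * G * b = G) (hb1 : b.det = 1) {g : GL n ℂ}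
    (hg : (g : Matrix n n ℂ) = tz T Ti e (kr a b)) :
    actF (slot k l (g : Matrix n n ℂ) ((g⁻¹ : GL n ℂ) : Matrix n n ℂ)) t = t := by
  obtain ⟨z, hz⟩ := IsAlgClosed.exists_pow_nat_eq a.det (show 0 < 2 by norm_num)
  have hz0 : z ≠ 0 := by
    rintro rfl
    rw [zero_pow two_ne_zero] at hz
    exact ha hz.symm
  -- the factor of determinant one
  have hgl : ∀ {m : ℕ} (x : Matrix (Fin m) (Fin m) ℂ), x.det ≠ 0 → ∃ y : GL (Fin m) ℂ, (y : Matrix (Fin m) (Fin m) ℂ) = x := by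
    intro m x hx
    exact ⟨Matrix.GeneralLinearGroup.mkOfDetNeZero x hx, rfl⟩
  obtain ⟨a₁, ha₁⟩ := hgl (z⁻¹ • a) (by
    rw [Matrix.det_smul]
    exact mul_ne_zero (pow_ne_zero _ (inv_ne_zero hz0)) ha)
  obtain ⟨b₁, hb₁⟩ := hgl b (by rw [hb1]; exact one_ne_zero)
  have hadet : (a₁ : Matrix (Fin 2) (Fin 2) ℂ).det = 1 := by
    rw [ha₁, Matrix.det_smul, Fintype.card_fin, ← hz, ← mul_pow, inv_mul_cancel₀ hz0, one_pow]
  -- fixed by the first factor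
  have f1 : actF (slot k l (tz T Ti e (kr (a₁ : Matrix (Fin 2) (Fin 2) ℂ) 1))
      (tz T Ti e (kr ((a₁⁻¹ : GL (Fin 2) ℂ) : Matrix (Fin 2) (Fin 2) ℂ) 1))) t = t := by
    refine fix_left H.T1 H.T2 {x | x.trace = 0} ?_ ?_
    · intro t' ht'
      refine CY.sp_fix J0_t (by rw [J0_det]; exact one_ne_zero) (fun X hX => ht' X ?_) ?_
      · rw [J0_skew] at hX
        exact (smul_eq_zero.1 hX).resolve_right J0_ne
      · rw [J0_sim, hadet, one_smul]
    · intro x hx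
      apply hk
      rw [H.mem]
      refine ⟨x, 0, hx, by simp, ?_⟩
      congr 1
      have : kr (1 : Matrix (Fin 2) (Fin 2) ℂ) (0 : Matrix (Fin q) (Fin q) ℂ) = 0 := by
        ext i j
        exact mul_zero _
      rw [this, add_zero]
  -- fixed by the second factor
  have f2 : actF (slot k l (tz T Ti e (kr 1 (b₁ : Matrix (Fin q) (Fin q) ℂ)))
      (tz T Ti e (kr 1 ((b₁⁻¹ : GL (Fin q) ℂ) : Matrix (Fin q) (Fin q) ℂ)))) t = t := by
    refine fix_right H.T1 H.T2 {x | xᵀ * G + G * x = 0} ?_ ?_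
    · intro t' ht'
      exact so_fix G H.Gs H.G_det (fun X hX => ht' X hX) (by rw [hb₁, hb]) (by rw [hb₁, hb1])
    · intro x hx
      apply hk
      rw [H.mem]
      refine ⟨0, x, Matrix.trace_zero _ _, hx, ?_⟩
      congr 1
      have : kr (0 : Matrix (Fin 2) (Fin 2) ℂ) (1 : Matrix (Fin q) (Fin q) ℂ) = 0 := by
        ext i j
        exact zero_mul _
      rw [this, zero_add]
  -- fixed by the scalars
  obtain ⟨z₁, hz₁⟩ : ∃ z₁ : GL n ℂ, (z₁ : Matrix n n ℂ) = z • 1 := by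
    refine ⟨⟨z • 1, z⁻¹ • 1, ?_, ?_⟩, rfl⟩
    · rw [smul_mul_smul_comm, mul_inv_cancel₀ hz0, one_smul, one_mul]
    · rw [smul_mul_smul_comm, inv_mul_cancel₀ hz0, one_smul, one_mul]
  have f3 := scal_fix (a := k) (b := l) (t := t) h1 (g := z₁) (z := z) hz₁
  -- the product
  have c1 : (g : Matrix n n ℂ) = (z₁ : Matrix n n ℂ) * (tz T Ti e (kr (a₁ : Matrix (Fin 2) (Fin 2) ℂ) 1) *
      tz T Ti e (kr 1 (b₁ : Matrix (Fin q) (Fin q) ℂ))) := by
    rw [hg, hz₁, tz_mul H.T2, kr_mul, one_mul, mul_one, ha₁, hb₁, smul_mul_assoc, one_mul, ← tz_smul, kr_smul_l,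
      smul_smul, mul_inv_cancel₀ hz0, one_smul]
  have c2 : ((g⁻¹ : GL n ℂ) : Matrix n n ℂ) = (tz T Ti e (kr 1 ((b₁⁻¹ : GL (Fin q) ℂ) : Matrix (Fin q) (Fin q) ℂ)) *
      tz T Ti e (kr ((a₁⁻¹ : GL (Fin 2) ℂ) : Matrix (Fin 2) (Fin 2) ℂ) 1)) * ((z₁⁻¹ : GL n ℂ) : Matrix n n ℂ) := by
    have e1 : (g : Matrix n n ℂ) * ((tz T Ti e (kr 1 ((b₁⁻¹ : GL (Fin q) ℂ) : Matrix (Fin q) (Fin q) ℂ)) *
        tz T Ti e (kr ((a₁⁻¹ : GL (Fin 2) ℂ) : Matrix (Fin 2) (Fin 2) ℂ) 1)) * ((z₁⁻¹ : GL n ℂ) : Matrix n n ℂ)) = 1 := by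
      have e2 : (a₁ : Matrix (Fin 2) (Fin 2) ℂ) * ((a₁⁻¹ : GL (Fin 2) ℂ) : Matrix (Fin 2) (Fin 2) ℂ) = 1 := by
        rw [← Units.val_mul, mul_inv_cancel, Units.val_one]
      have e3 : (b₁ : Matrix (Fin q) (Fin q) ℂ) * ((b₁⁻¹ : GL (Fin q) ℂ) : Matrix (Fin q) (Fin q) ℂ) = 1 := by
        rw [← Units.val_mul, mul_inv_cancel, Units.val_one]
      have e4 : (z₁ : Matrix n n ℂ) * ((z₁⁻¹ : GL n ℂ) : Matrix n n ℂ) = 1 := by
        rw [← Units.val_mul, mul_inv_cancel, Units.val_one]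
      rw [c1, tz_mul H.T2, tz_mul H.T2, kr_mul, kr_mul, one_mul, one_mul, mul_one, mul_one]
      calc (z₁ : Matrix n n ℂ) * tz T Ti e (kr (a₁ : Matrix (Fin 2) (Fin 2) ℂ) (b₁ : Matrix (Fin q) (Fin q) ℂ)) *
          (tz T Ti e (kr ((a₁⁻¹ : GL (Fin 2) ℂ) : Matrix (Fin 2) (Fin 2) ℂ)
            ((b₁⁻¹ : GL (Fin q) ℂ) : Matrix (Fin q) (Fin q) ℂ)) * ((z₁⁻¹ : GL n ℂ) : Matrix n n ℂ)) =
          (z₁ : Matrix n n ℂ) * (tz T Ti e (kr (a₁ : Matrix (Fin 2) (Fin 2) ℂ) (b₁ : Matrix (Fin q) (Fin q) ℂ)) *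
            tz T Ti e (kr ((a₁⁻¹ : GL (Fin 2) ℂ) : Matrix (Fin 2) (Fin 2) ℂ)
            ((b₁⁻¹ : GL (Fin q) ℂ) : Matrix (Fin q) (Fin q) ℂ))) * ((z₁⁻¹ : GL n ℂ) : Matrix n n ℂ) := by
            simp only [mul_assoc]
        _ = 1 := by rw [tz_mul H.T2, kr_mul, e2, e3, kr_one, tz_one H.T1, mul_one, e4]
    calc ((g⁻¹ : GL n ℂ) : Matrix n n ℂ) = ((g⁻¹ : GL n ℂ) : Matrix n n ℂ) * ((g : Matrix n n ℂ) *
        ((tz T Ti e (kr 1 ((b₁⁻¹ : GL (Fin q) ℂ) : Matrix (Fin q) (Fin q) ℂ)) *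
        tz T Ti e (kr ((a₁⁻¹ : GL (Fin 2) ℂ) : Matrix (Fin 2) (Fin 2) ℂ) 1)) * ((z₁⁻¹ : GL n ℂ) : Matrix n n ℂ))) := by
          rw [e1, mul_one]
      _ = _ := by rw [← mul_assoc, ← Units.val_mul, inv_mul_cancel, Units.val_one, one_mul]
  have e1 : slot k l (g : Matrix n n ℂ) ((g⁻¹ : GL n ℂ) : Matrix n n ℂ) =
      fun i => slot k l (z₁ : Matrix n n ℂ) ((z₁⁻¹ : GL n ℂ) : Matrix n n ℂ) i *
        (slot k l (tz T Ti e (kr (a₁ : Matrix (Fin 2) (Fin 2) ℂ) 1))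
          (tz T Ti e (kr ((a₁⁻¹ : GL (Fin 2) ℂ) : Matrix (Fin 2) (Fin 2) ℂ) 1)) i *
        slot k l (tz T Ti e (kr 1 (b₁ : Matrix (Fin q) (Fin q) ℂ)))
          (tz T Ti e (kr 1 ((b₁⁻¹ : GL (Fin q) ℂ) : Matrix (Fin q) (Fin q) ℂ))) i) := by
    funext i
    rcases i with i | i
    · exact c1
    · simp only [slot, Sum.elim_inr]
      rw [c2, Matrix.transpose_mul, Matrix.transpose_mul]
  rw [e1, ← actF_mul, ← actF_mul, f2, f1, f3]

end OW
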